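import Pool.Agent.Lib.MP_dd84fd_nt.PL.Overlap

/-!
# PL-BMass: total mass of the inner polynomials

`r_q = M b_q/X`, `r = M b/X ≤ r_q ≤ 2r`.  On `[0,1)`, `Int.fract t = t`; substituting `y = r_q e^{2t}`,
`dt = dy/(2y)`: `∫_0^1 ‖P(a/q + σ r_q e^{2t})‖² dt = ∫_{r_q}^{e² r_q} ‖P(a/q+σy)‖² dy/(2y)
≤ (1/(2r)) ∫_r^{16 r} ‖P(a/q+σy)‖² dy` (`e² < 8`).  Sum over `q`, `a`: `overlap_sigma` with `F = ‖P‖²`,
`[s,t] = [r, 16r]`: `≤ (1/(2r)) (15 r N + 1) ∫_0^1 ‖P‖²`, and `∫_0^1 ‖tp K c‖² = ∑ ‖c_k‖²` (`tp_l2`).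
`N2_tp`: `overlap_sigma` on `[b/X, 4b/X]`, `3 (b/X) N + 1 ≤ 4` because `N b ≤ X`.
-/

set_option autoImplicit false

namespace Pool.MP_dd84fd_nt.PL

open Finset Pool.MP_67663b_nt.Odd

private theorem bm_ee_add (x y : ℝ) : ee (x + y) = ee x * ee y := by
  unfold ee
  rw [← Complex.exp_add]
  congr 1
  push_cast
  ring

private theorem bm_ee_conj (x : ℝ) : (starRingEnd ℂ) (ee x) = ee (-x) := by
  unfold ee
  rw [← Complex.exp_conj]
  congr 1
  rw [map_mul, map_mul, map_mul, Complex.conj_I, Complex.conj_ofReal, Complex.conj_ofReal,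
    Complex.conj_ofNat]
  push_cast
  ring

private theorem bm_ee_cont : Continuous ee := by
  unfold ee
  fun_prop

private theorem bm_ee_int (m : ℤ) : ee (m : ℝ) = 1 := by
  unfold ee
  have h : (2 * (Real.pi : ℂ) * ((m : ℝ) : ℂ) * Complex.I) = (m : ℂ) * (2 * Real.pi * Complex.I) := by
    push_cast
    ring
  rw [h]
  exact Complex.exp_int_mul_two_pi_mul_I m

private theorem bm_integral_ee (m : ℤ) :
    ∫ x in (0 : ℝ)..1, ee ((m : ℝ) * x) = if m = 0 then 1 else 0 := by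
  by_cases hm : m = 0
  · subst hm
    rw [if_pos rfl]
    have h : ∀ x : ℝ, ee (((0 : ℤ) : ℝ) * x) = 1 := by
      intro x
      rw [Int.cast_zero, zero_mul]
      have := bm_ee_int 0
      rwa [Int.cast_zero] at this
    simp_rw [h]
    simp
  · rw [if_neg hm]
    have hc : (2 * (Real.pi : ℂ) * (m : ℂ) * Complex.I) ≠ 0 := by
      have h1 : (Real.pi : ℂ) ≠ 0 := by exact_mod_cast Real.pi_ne_zero
      have h2 : (m : ℂ) ≠ 0 := by exact_mod_cast hm
      exact mul_ne_zero (mul_ne_zero (mul_ne_zero two_ne_zero h1) h2) Complex.I_ne_zero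
    have h : ∀ x : ℝ, ee ((m : ℝ) * x) = Complex.exp ((2 * (Real.pi : ℂ) * (m : ℂ) * Complex.I) * x) := by
      intro x
      unfold ee
      congr 1
      push_cast
      ring
    simp_rw [h]
    rw [integral_exp_mul_complex hc]
    have h3 : Complex.exp ((2 * (Real.pi : ℂ) * (m : ℂ) * Complex.I) * ((1 : ℝ) : ℂ)) = 1 := by
      rw [← h, mul_one]
      exact bm_ee_int m
    have h4 : Complex.exp ((2 * (Real.pi : ℂ) * (m : ℂ) * Complex.I) * ((0 : ℝ) : ℂ)) = 1 := by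
      simp
    rw [h3, h4, sub_self, zero_div]

private theorem bm_tp_cont (K : ℕ) (c : ℕ → ℂ) : Continuous (tp K c) := by
  unfold tp
  refine continuous_finsetSum _ fun k _ => ?_
  exact continuous_const.mul (bm_ee_cont.comp (continuous_const.mul continuous_id))

private theorem bm_tp_per (K : ℕ) (c : ℕ → ℂ) (x : ℝ) : tp K c (x + 1) = tp K c x := by
  unfold tp
  refine sum_congr rfl fun k _ => ?_
  rw [mul_add, mul_one, bm_ee_add]
  have := bm_ee_int (k : ℤ)
  rw [Int.cast_natCast] at this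
  rw [this, mul_one]

theorem tp_l2 (K : ℕ) (c : ℕ → ℂ) : ∫ x in (0 : ℝ)..1, ‖tp K c x‖ ^ 2 = ∑ k ∈ Icc 1 K, ‖c k‖ ^ 2 := by
  have h1 : ((∫ x in (0 : ℝ)..1, ‖tp K c x‖ ^ 2 : ℝ) : ℂ) =
      ((∑ k ∈ Icc 1 K, ‖c k‖ ^ 2 : ℝ) : ℂ) := by
    rw [← intervalIntegral.integral_ofReal]
    have h2 : ∀ x : ℝ, ((‖tp K c x‖ ^ 2 : ℝ) : ℂ) =
        ∑ k ∈ Icc 1 K, ∑ l ∈ Icc 1 K, (c k * (starRingEnd ℂ) (c l)) * ee ((((k : ℤ) - (l : ℤ) : ℤ) : ℝ) * x) := by
      intro x
      push_cast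
      rw [← Complex.mul_conj']
      unfold tp
      rw [map_sum, sum_mul_sum]
      refine sum_congr rfl fun k _ => sum_congr rfl fun l _ => ?_
      rw [map_mul, bm_ee_conj]
      have h3 : ((k : ℝ) - (l : ℝ)) * x = (k : ℝ) * x + -((l : ℝ) * x) := by ring
      rw [h3, bm_ee_add]
      ring
    simp_rw [h2]
    have hi : ∀ (k l : ℕ), IntervalIntegrable
        (fun x : ℝ => (c k * (starRingEnd ℂ) (c l)) * ee ((((k : ℤ) - (l : ℤ) : ℤ) : ℝ) * x))
        MeasureTheory.volume 0 1 := by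
      intro k l
      exact (continuous_const.mul (bm_ee_cont.comp (continuous_const.mul continuous_id))).intervalIntegrable _ _
    rw [intervalIntegral.integral_finsetSum]
    swap
    · intro k _
      exact (continuous_finsetSum _ fun l _ => continuous_const.mul
        (bm_ee_cont.comp (continuous_const.mul continuous_id))).intervalIntegrable _ _
    push_cast
    refine sum_congr rfl fun k hk => ?_
    rw [intervalIntegral.integral_finsetSum (fun l _ => by simpa using hi k l)]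
    have h4 : ∀ l ∈ Icc 1 K, ∫ x in (0 : ℝ)..1, (c k * (starRingEnd ℂ) (c l)) *
        ee (((k : ℝ) - (l : ℝ)) * x) = if l = k then c k * (starRingEnd ℂ) (c l) else 0 := by
      intro l _
      rw [intervalIntegral.integral_const_mul]
      have h5 := bm_integral_ee ((k : ℤ) - (l : ℤ))
      push_cast at h5
      rw [h5]
      by_cases hkl : l = k
      · subst hkl
        simp
      · rw [if_neg, if_neg hkl, mul_zero]
        intro h6
        apply hkl
        omega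
    rw [sum_congr rfl h4, sum_ite_eq' , if_pos hk, Complex.mul_conj']
  exact_mod_cast h1

private theorem bm_mono {F : ℝ → ℝ} (hF : Continuous F) (h0 : ∀ x, 0 ≤ F x) {s s' t' t : ℝ}
    (h1 : s ≤ s') (h2 : s' ≤ t') (h3 : t' ≤ t) :
    ∫ x in s'..t', F x ≤ ∫ x in s..t, F x :=
  intervalIntegral.integral_mono_interval h1 h2 h3
    (Filter.Eventually.of_forall fun x => h0 x) (hF.intervalIntegrable _ _)

private theorem bm_exp2 : Real.exp 2 < 8 := by
  have h1 := Real.exp_one_lt_d9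
  have h2 : Real.exp 2 = Real.exp 1 * Real.exp 1 := by
    rw [← Real.exp_add]
    norm_num
  have h3 := Real.exp_pos 1
  rw [h2]
  nlinarith

private theorem bm_subst {g : ℝ → ℝ} (hg : Continuous g) (h0 : ∀ x, 0 ≤ g x) {r s : ℝ} (hr : 0 < r)
    (h1 : r ≤ s) (h2 : s ≤ 2 * r) :
    ∫ t in (0 : ℝ)..1, g (s * Real.exp (2 * Int.fract t)) ≤ (1 / (2 * r)) * ∫ y in r..(16 * r), g y := by
  have hs : 0 < s := by linarith
  have e0 : ∫ t in (0 : ℝ)..1, g (s * Real.exp (2 * Int.fract t)) =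
      ∫ t in (0 : ℝ)..1, g (s * Real.exp (2 * t)) := by
    rw [intervalIntegral.integral_of_le zero_le_one, intervalIntegral.integral_of_le zero_le_one,
      MeasureTheory.integral_Ioc_eq_integral_Ioo, MeasureTheory.integral_Ioc_eq_integral_Ioo]
    refine MeasureTheory.setIntegral_congr_fun measurableSet_Ioo fun t ht => ?_
    have : Int.fract t = t := Int.fract_eq_self.2 ⟨ht.1.le, ht.2⟩
    simp only [this]
  have hd : ∀ t : ℝ, HasDerivAt (fun t => s * Real.exp (2 * t)) (s * (Real.exp (2 * t) * 2)) t := by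
    intro t
    have h5 : HasDerivAt (fun t : ℝ => 2 * t) 2 t := by
      simpa using (hasDerivAt_id t).const_mul (2 : ℝ)
    exact (h5.exp).const_mul s
  have hy : ∀ t : ℝ, 0 < s * Real.exp (2 * t) := fun t => mul_pos hs (Real.exp_pos _)
  have hgc : ContinuousOn (fun y : ℝ => g y / (2 * y)) (Set.Ioi 0) := by
    refine hg.continuousOn.div (continuousOn_const.mul continuousOn_id) ?_
    intro y hy
    have : (0 : ℝ) < y := hy
    show (2 * y : ℝ) ≠ 0
    positivity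
  have e1 : ∫ t in (0 : ℝ)..1, g (s * Real.exp (2 * t)) =
      ∫ y in (s * Real.exp (2 * 0))..(s * Real.exp (2 * 1)), g y / (2 * y) := by
    rw [← intervalIntegral.integral_comp_mul_deriv' (f := fun t => s * Real.exp (2 * t))
      (f' := fun t => s * (Real.exp (2 * t) * 2)) (g := fun y => g y / (2 * y))
      (fun t _ => hd t) (by fun_prop) (hgc.mono ?_)]
    · refine intervalIntegral.integral_congr fun t _ => ?_
      have := hy t
      simp only [Function.comp_apply]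
      field_simp
    · rintro y ⟨t, _, rfl⟩
      exact hy t
  have e2 : s * Real.exp (2 * 0) = s := by
    rw [mul_zero, Real.exp_zero, mul_one]
  have he := bm_exp2
  have he1 : 1 ≤ Real.exp 2 := Real.one_le_exp (by norm_num)
  have hss : s ≤ s * Real.exp 2 := by nlinarith
  rw [e0, e1, e2, mul_one (2 : ℝ)]
  have e3 : ∫ y in s..(s * Real.exp 2), g y / (2 * y) ≤ ∫ y in s..(s * Real.exp 2), (1 / (2 * r)) * g y := by
    refine intervalIntegral.integral_mono_on hss ?_ ?_ ?_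
    · refine (hgc.mono ?_).intervalIntegrable
      rw [Set.uIcc_of_le hss]
      intro y hy
      exact lt_of_lt_of_le hs hy.1
    · exact (continuous_const.mul hg).intervalIntegrable _ _
    · intro y hy
      have h6 : r ≤ y := h1.trans hy.1
      have h7 : 0 < y := by linarith
      rw [div_eq_mul_one_div, mul_comm]
      exact mul_le_mul_of_nonneg_right (one_div_le_one_div_of_le (by linarith) (by linarith)) (h0 y)
  refine e3.trans ?_
  rw [intervalIntegral.integral_const_mul]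
  refine mul_le_mul_of_nonneg_left ?_ (by positivity)
  exact bm_mono hg h0 h1 hss (by nlinarith)

theorem bmass (X : ℕ) (hX : 1 ≤ X) (b N σ M : ℝ) (hb : 0 < b) (hN1 : 1 ≤ N) (hM : 0 < M)
    (hσ : σ = 1 ∨ σ = -1) (QQ : Finset ℕ) (hN : Fam QQ N) (bq : ℕ → ℝ)
    (hbq : ∀ q ∈ QQ, b ≤ bq q ∧ bq q ≤ 2 * b) (K : ℕ) (c : ℕ → ℂ) :
    ∑ q ∈ QQ, ∑ a ∈ rr q, ∫ t in (0 : ℝ)..1,
      ‖tp K c ((a : ℝ) / q + σ * (M * (bq q / X)) * Real.exp (2 * Int.fract t))‖ ^ 2 ≤
      (8 * N + X / (M * b)) * ∑ k ∈ Icc 1 K, ‖c k‖ ^ 2 := by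
  have hX0 : (0 : ℝ) < X := by exact_mod_cast hX
  set r : ℝ := M * (b / X) with hr
  have hr0 : 0 < r := by positivity
  have hF : Continuous (fun x => ‖tp K c x‖ ^ 2) := (bm_tp_cont K c).norm.pow 2
  have h0 : ∀ x, 0 ≤ ‖tp K c x‖ ^ 2 := fun x => by positivity
  have hp : ∀ x, ‖tp K c (x + 1)‖ ^ 2 = ‖tp K c x‖ ^ 2 := fun x => by rw [bm_tp_per]
  have h1 : ∀ q ∈ QQ, ∀ a ∈ rr q, ∫ t in (0 : ℝ)..1,
      ‖tp K c ((a : ℝ) / q + σ * (M * (bq q / X)) * Real.exp (2 * Int.fract t))‖ ^ 2 ≤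
      (1 / (2 * r)) * ∫ y in r..(16 * r), ‖tp K c ((a : ℝ) / q + σ * y)‖ ^ 2 := by
    intro q hq a _
    obtain ⟨h2, h3⟩ := hbq q hq
    have h4 := bm_subst (g := fun y => ‖tp K c ((a : ℝ) / q + σ * y)‖ ^ 2)
      ((((bm_tp_cont K c).comp (continuous_const.add (continuous_const.mul continuous_id))).norm.pow 2))
      (fun x => by positivity) (r := r) (s := M * (bq q / X)) hr0
      (by rw [hr]; gcongr)
      (by
        rw [hr]
        have : M * (bq q / X) ≤ M * (2 * b / X) := by gcongr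
        refine this.trans (le_of_eq ?_)
        ring)
    simpa only [mul_assoc] using h4
  have h5 := overlap_sigma QQ N hN hN1 _ hF h0 hp r (16 * r) (by linarith) σ hσ
  rw [tp_l2] at h5
  have hS : 0 ≤ ∑ k ∈ Icc 1 K, ‖c k‖ ^ 2 := sum_nonneg fun k _ => by positivity
  calc _ ≤ ∑ q ∈ QQ, ∑ a ∈ rr q, (1 / (2 * r)) * ∫ y in r..(16 * r), ‖tp K c ((a : ℝ) / q + σ * y)‖ ^ 2 :=
        sum_le_sum fun q hq => sum_le_sum fun a ha => h1 q hq a ha
    _ = (1 / (2 * r)) * ∑ q ∈ QQ, ∑ a ∈ rr q, ∫ y in r..(16 * r), ‖tp K c ((a : ℝ) / q + σ * y)‖ ^ 2 := by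
        rw [mul_sum]
        refine sum_congr rfl fun q _ => ?_
        rw [mul_sum]
    _ ≤ (1 / (2 * r)) * (((16 * r - r) * N + 1) * ∑ k ∈ Icc 1 K, ‖c k‖ ^ 2) :=
        mul_le_mul_of_nonneg_left h5 (by positivity)
    _ = (15 / 2 * N + 1 / 2 * (X / (M * b))) * ∑ k ∈ Icc 1 K, ‖c k‖ ^ 2 := by
        rw [← mul_assoc]
        congr 1
        rw [hr]
        field_simp
        ring
    _ ≤ _ := by
        refine mul_le_mul_of_nonneg_right ?_ hS
        have : 0 ≤ X / (M * b) := by positivity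
        linarith

theorem N2_tp (X : ℕ) (hX : 1 ≤ X) (b N σ : ℝ) (hb : 0 < b) (hN1 : 1 ≤ N) (hNb : N * b ≤ X)
    (hσ : σ = 1 ∨ σ = -1) (QQ : Finset ℕ) (hN : Fam QQ N) (bq : ℕ → ℝ)
    (hbq : ∀ q ∈ QQ, b ≤ bq q ∧ bq q ≤ 2 * b) (K : ℕ) (c : ℕ → ℂ) :
    N2 X bq QQ (fun q a x => tp K c ((a : ℝ) / q + σ * x)) ≤ 4 * ∑ k ∈ Icc 1 K, ‖c k‖ ^ 2 := by
  have hX0 : (0 : ℝ) < X := by exact_mod_cast hX
  have hF : Continuous (fun x => ‖tp K c x‖ ^ 2) := (bm_tp_cont K c).norm.pow 2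
  have h0 : ∀ x, 0 ≤ ‖tp K c x‖ ^ 2 := fun x => by positivity
  have hp : ∀ x, ‖tp K c (x + 1)‖ ^ 2 = ‖tp K c x‖ ^ 2 := fun x => by rw [bm_tp_per]
  have hbX : 0 < b / X := by positivity
  have h5 := overlap_sigma QQ N hN hN1 _ hF h0 hp (b / X) (4 * (b / X)) (by linarith) σ hσ
  rw [tp_l2] at h5
  have hS : 0 ≤ ∑ k ∈ Icc 1 K, ‖c k‖ ^ 2 := sum_nonneg fun k _ => by positivity
  unfold N2
  calc _ ≤ ∑ q ∈ QQ, ∑ a ∈ rr q, ∫ x in (b / X)..(4 * (b / X)), ‖tp K c ((a : ℝ) / q + σ * x)‖ ^ 2 := by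
        refine sum_le_sum fun q hq => sum_le_sum fun a _ => ?_
        obtain ⟨h2, h3⟩ := hbq q hq
        have hbq0 : 0 < bq q := by linarith
        have h6 : 0 < bq q / X := by positivity
        refine bm_mono (F := fun x => ‖tp K c ((a : ℝ) / q + σ * x)‖ ^ 2)
          ((((bm_tp_cont K c).comp (continuous_const.add (continuous_const.mul continuous_id))).norm.pow 2))
          (fun x => by positivity) (by gcongr) ?_ ?_
        · rw [mul_div_assoc]
          linarith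
        · have : 2 * bq q / X ≤ 2 * (2 * b) / X := by gcongr
          refine this.trans (le_of_eq ?_)
          ring
    _ ≤ ((4 * (b / X) - b / X) * N + 1) * ∑ k ∈ Icc 1 K, ‖c k‖ ^ 2 := h5
    _ ≤ _ := by
        refine mul_le_mul_of_nonneg_right ?_ hS
        have h7 : b / X * N ≤ 1 := by
          rw [div_mul_eq_mul_div, div_le_one hX0]
          linarith
        linarith

end Pool.MP_dd84fd_nt.PL
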