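import Pool.Agent.Lib.MP_dd84fd_nt.PL.Defs

/-!
# PL-Overlap: arcs around the fractions of a family with small lcm

Proof of `overlap`.  Distinct pairs `(q,a)`, `q ∈ QQ`, `a ∈ rr q`, give distinct points `a/q ∈ [0,1)`, and
two of them have distance at least `1/lcm(q,q') ≥ 1/N` modulo `1` (for `q = q'`: `≥ 1/q ≥ 1/N`).
(i) `t - s ≤ 1/N`: list the points; let `x0` be the smallest one. The intervals `[x + s, x + t)`, `x` a
point, are disjoint and contained in `[x0 + s, x0 + s + 1)` (the largest point is `≤ x0 + 1 - 1/N`), so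
the sum of the integrals is `≤ ∫_{x0+s}^{x0+s+1} F = ∫_0^1 F` (`Function.Periodic.intervalIntegral_add_eq`).
(ii) in general cut `[s,t]` into `⌈(t-s) N⌉₊ ≤ (t-s) N + 1` equal parts of length `≤ 1/N`.
`overlap_sigma`: `σ = -1`: substitute `x → -x`, the function `y ↦ F(a/q + y)` on `[-t,-s]`.
`count`: `F = 1`, `s = 0`, `t = 1`.
-/

set_option autoImplicit false

namespace Pool.MP_dd84fd_nt.PL

open Finset Pool.MP_67663b_nt.Odd

/-- distances between distinct points -/
private theorem ov_dist (QQ : Finset ℕ) (N : ℝ) (hN : Fam QQ N) {q a q' a' : ℕ} (hq : q ∈ QQ)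
    (ha : a ∈ rr q) (hq' : q' ∈ QQ) (ha' : a' ∈ rr q') (hne : ¬ (q = q' ∧ a = a')) :
    1 / N ≤ |(a : ℝ) / q - (a' : ℝ) / q'| ∧ |(a : ℝ) / q - (a' : ℝ) / q'| ≤ 1 - 1 / N := by
  have h1 := hN.1 q hq
  have h1' := hN.1 q' hq'
  have hl := hN.2 q hq q' hq'
  unfold rr at ha ha'
  rw [mem_filter, mem_range] at ha ha'
  obtain ⟨ha1, ha2⟩ := ha
  obtain ⟨ha1', ha2'⟩ := ha'
  set D : ℕ := Nat.lcm q q' with hD
  have hD0 : 0 < D := Nat.lcm_pos (by omega) (by omega)
  obtain ⟨u, hu⟩ : q ∣ D := Nat.dvd_lcm_left q q'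
  obtain ⟨v, hv⟩ : q' ∣ D := Nat.dvd_lcm_right q q'
  have hq0 : (0 : ℝ) < q := by exact_mod_cast h1
  have hq0' : (0 : ℝ) < q' := by exact_mod_cast h1'
  have hD0r : (0 : ℝ) < D := by exact_mod_cast hD0
  have hu0 : 0 < u := by
    rcases Nat.eq_zero_or_pos u with h | h
    · rw [h, mul_zero] at hu; omega
    · exact h
  have hv0 : 0 < v := by
    rcases Nat.eq_zero_or_pos v with h | h
    · rw [h, mul_zero] at hv; omega
    · exact h
  have hur : (D : ℝ) = q * u := by exact_mod_cast hu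
  have hvr : (D : ℝ) = q' * v := by exact_mod_cast hv
  have hu0r : (0 : ℝ) < u := by exact_mod_cast hu0
  have hv0r : (0 : ℝ) < v := by exact_mod_cast hv0
  set z : ℤ := (a : ℤ) * u - (a' : ℤ) * v with hz
  have hdiff : (a : ℝ) / q - (a' : ℝ) / q' = (z : ℝ) / D := by
    have e1 : (a : ℝ) / q = a * u / D := by
      rw [hur]; field_simp
    have e2 : (a' : ℝ) / q' = a' * v / D := by
      rw [hvr]; field_simp
    rw [e1, e2, hz]
    push_cast
    ring
  have hz0 : z ≠ 0 := by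
    intro h0
    apply hne
    have h2 : (a : ℝ) / q = (a' : ℝ) / q' := by
      have := hdiff
      rw [h0, Int.cast_zero, zero_div] at this
      linarith
    have h3 : a * q' = a' * q := by
      rw [div_eq_div_iff hq0.ne' hq0'.ne'] at h2
      exact_mod_cast h2
    have h4 : q ∣ q' := by
      have : q ∣ a * q' := ⟨a', by rw [h3]; ring⟩
      exact (Nat.Coprime.dvd_of_dvd_mul_left ha2.symm this)
    have h5 : q' ∣ q := by
      have : q' ∣ a' * q := ⟨a, by rw [← h3]; ring⟩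
      exact (Nat.Coprime.dvd_of_dvd_mul_left ha2'.symm this)
    have h6 : q = q' := Nat.dvd_antisymm h4 h5
    refine ⟨h6, ?_⟩
    rw [← h6] at h3
    exact Nat.eq_of_mul_eq_mul_right (by omega) h3
  have hz1 : (1 : ℝ) ≤ |(z : ℝ)| := by
    have : (1 : ℤ) ≤ |z| := Int.one_le_abs hz0
    exact_mod_cast this
  have hzD : |(z : ℝ)| ≤ D - 1 := by
    have e3 : |(a : ℝ) / q - (a' : ℝ) / q'| < 1 := by
      have b1 : (a : ℝ) / q < 1 := by
        rw [div_lt_one hq0]; exact_mod_cast ha1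
      have b2 : (a' : ℝ) / q' < 1 := by
        rw [div_lt_one hq0']; exact_mod_cast ha1'
      have b3 : (0 : ℝ) ≤ (a : ℝ) / q := by positivity
      have b4 : (0 : ℝ) ≤ (a' : ℝ) / q' := by positivity
      rw [abs_lt]
      constructor <;> linarith
    rw [hdiff, abs_div, abs_of_pos hD0r, div_lt_one hD0r] at e3
    have e4 : |z| < (D : ℤ) := by exact_mod_cast e3
    have e5 : |z| ≤ (D : ℤ) - 1 := by omega
    exact_mod_cast e5
  have hDN : 1 / N ≤ 1 / (D : ℝ) := one_div_le_one_div_of_le hD0r hl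
  rw [hdiff, abs_div, abs_of_pos hD0r]
  constructor
  · refine hDN.trans ?_
    gcongr
  · have e6 : |(z : ℝ)| / D ≤ (D - 1) / D := by gcongr
    have e7 : ((D : ℝ) - 1) / D = 1 - 1 / D := by field_simp
    linarith

private theorem ov_small (QQ : Finset ℕ) (N : ℝ) (hN : Fam QQ N) (hN1 : 1 ≤ N) (F : ℝ → ℝ)
    (hF : Continuous F) (h0 : ∀ x, 0 ≤ F x) (hp : ∀ x, F (x + 1) = F x) (s t : ℝ) (hst : s ≤ t)
    (hs : t - s ≤ 1 / N) :
    ∑ q ∈ QQ, ∑ a ∈ rr q, ∫ x in s..t, F ((a : ℝ) / q + x) ≤ ∫ x in (0 : ℝ)..1, F x := by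
  have hN0 : 0 < N := by linarith
  have hN1' : 1 / N ≤ 1 := by rw [div_le_one hN0]; exact hN1
  have hF0 : ∀ c d : ℝ, c ≤ d → 0 ≤ ∫ x in c..d, F x := fun c d hcd =>
    intervalIntegral.integral_nonneg hcd fun x _ => h0 x
  rw [Finset.sum_sigma' QQ rr (fun q a => ∫ x in s..t, F ((a : ℝ) / q + x))]
  set P : Finset (Σ _ : ℕ, ℕ) := QQ.sigma rr with hP
  set X : (Σ _ : ℕ, ℕ) → ℝ := fun p => (p.2 : ℝ) / p.1 with hX
  have hint : ∀ p : (Σ _ : ℕ, ℕ), ∫ x in s..t, F ((p.2 : ℝ) / p.1 + x) =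
      ∫ x in Set.Ioc (X p + s) (X p + t), F x := by
    intro p
    rw [intervalIntegral.integral_comp_add_left (fun x => F x) ((p.2 : ℝ) / p.1),
      intervalIntegral.integral_of_le (by linarith)]
  have hdist : ∀ p ∈ P, ∀ p' ∈ P, p ≠ p' → 1 / N ≤ |X p - X p'| ∧ |X p - X p'| ≤ 1 - 1 / N := by
    intro p hp p' hp' hne
    rw [hP, mem_sigma] at hp hp'
    refine ov_dist QQ N hN hp.1 hp.2 hp'.1 hp'.2 ?_
    rintro ⟨h1, h2⟩
    apply hne
    obtain ⟨q, a⟩ := p
    obtain ⟨q', a'⟩ := p'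
    simp only at h1 h2
    rw [h1, h2]
  rcases P.eq_empty_or_nonempty with hPe | hPn
  · rw [hPe, Finset.sum_empty]
    exact hF0 0 1 zero_le_one
  obtain ⟨p0, hp0, hmin⟩ := Finset.exists_min_image P X hPn
  have hI : ∀ A : Set ℝ, ∀ c d : ℝ, A ⊆ Set.Icc c d → MeasureTheory.IntegrableOn F A := by
    intro A c d hA
    exact (hF.continuousOn.integrableOn_Icc).mono_set hA
  have hsum : ∑ p ∈ P, ∫ x in s..t, F ((p.2 : ℝ) / p.1 + x) =
      ∫ x in ⋃ p ∈ P, Set.Ioc (X p + s) (X p + t), F x := by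
    rw [MeasureTheory.integral_biUnion_finset]
    · exact Finset.sum_congr rfl fun p _ => hint p
    · intro p _
      exact measurableSet_Ioc
    · intro p hp1 p' hp1' hne
      obtain ⟨h3, -⟩ := hdist p hp1 p' hp1' hne
      simp only [Function.onFun]
      rw [Set.disjoint_left]
      rintro y ⟨hy1, hy2⟩ ⟨hy3, hy4⟩
      have h4 : |X p - X p'| < t - s := by
        rw [abs_lt]
        constructor <;> linarith
      linarith
    · intro p _
      exact hI _ (X p + s) (X p + t) Set.Ioc_subset_Icc_self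
  have hsub : (⋃ p ∈ P, Set.Ioc (X p + s) (X p + t)) ⊆ Set.Ioc (X p0 + s) (X p0 + s + 1) := by
    intro y hy
    simp only [Set.mem_iUnion] at hy
    obtain ⟨p, hp1, hy1, hy2⟩ := hy
    have h5 := hmin p hp1
    refine ⟨by linarith, ?_⟩
    by_cases hpp : p = p0
    · rw [hpp] at hy2
      linarith
    · obtain ⟨-, h6⟩ := hdist p hp1 p0 hp0 hpp
      have h7 := (abs_le.mp h6).2
      linarith
  rw [hsum]
  have hper : Function.Periodic F 1 := fun x => hp x
  calc ∫ x in ⋃ p ∈ P, Set.Ioc (X p + s) (X p + t), F x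
      ≤ ∫ x in Set.Ioc (X p0 + s) (X p0 + s + 1), F x := by
        refine MeasureTheory.setIntegral_mono_set (hI _ _ _ Set.Ioc_subset_Icc_self) ?_ ?_
        · exact Filter.Eventually.of_forall fun x => h0 x
        · exact hsub.eventuallyLE
    _ = ∫ x in (X p0 + s)..(X p0 + s + 1), F x := by
        rw [intervalIntegral.integral_of_le (by linarith)]
    _ = ∫ x in (0 : ℝ)..(0 + 1), F x := hper.intervalIntegral_add_eq _ _
    _ = ∫ x in (0 : ℝ)..1, F x := by rw [zero_add]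

theorem overlap (QQ : Finset ℕ) (N : ℝ) (hN : Fam QQ N) (hN1 : 1 ≤ N) (F : ℝ → ℝ)
    (hF : Continuous F) (h0 : ∀ x, 0 ≤ F x) (hp : ∀ x, F (x + 1) = F x) (s t : ℝ) (hst : s ≤ t) :
    ∑ q ∈ QQ, ∑ a ∈ rr q, ∫ x in s..t, F ((a : ℝ) / q + x) ≤
      ((t - s) * N + 1) * ∫ x in (0 : ℝ)..1, F x := by
  have hN0 : 0 < N := by linarith
  have hI0 : 0 ≤ ∫ x in (0 : ℝ)..1, F x :=
    intervalIntegral.integral_nonneg zero_le_one fun x _ => h0 x
  set k : ℕ := ⌈(t - s) * N⌉₊ with hk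
  rcases Nat.eq_zero_or_pos k with hk0 | hk0
  · have h1 : (t - s) * N ≤ 0 := Nat.ceil_eq_zero.mp hk0
    have h2 : t - s ≤ 0 := by
      by_contra h
      push Not at h
      have := mul_pos h hN0
      linarith
    have h3 : s = t := by linarith
    rw [h3]
    simp only [intervalIntegral.integral_same, Finset.sum_const_zero, sub_self, zero_mul, zero_add,
      one_mul]
    exact hI0
  have hkr : (0 : ℝ) < k := by exact_mod_cast hk0
  set d : ℝ := (t - s) / k with hd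
  have hd0 : 0 ≤ d := by
    rw [hd]
    exact div_nonneg (by linarith) hkr.le
  have hdN : d ≤ 1 / N := by
    rw [hd, div_le_div_iff₀ hkr hN0, one_mul]
    exact Nat.le_ceil _
  have hcut : ∀ q a : ℕ, ∫ x in s..t, F ((a : ℝ) / q + x) =
      ∑ i ∈ range k, ∫ x in (s + i * d)..(s + (i + 1 : ℕ) * d), F ((a : ℝ) / q + x) := by
    intro q a
    have h4 := intervalIntegral.sum_integral_adjacent_intervals (f := fun x => F ((a : ℝ) / q + x))
      (μ := MeasureTheory.volume) (a := fun i : ℕ => s + i * d) (n := k) (fun i _ =>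
        (hF.comp (continuous_const.add continuous_id)).intervalIntegrable _ _)
    rw [h4]
    congr 1
    · simp
    · rw [hd]; field_simp; ring
  calc ∑ q ∈ QQ, ∑ a ∈ rr q, ∫ x in s..t, F ((a : ℝ) / q + x)
      = ∑ i ∈ range k, ∑ q ∈ QQ, ∑ a ∈ rr q,
          ∫ x in (s + i * d)..(s + (i + 1 : ℕ) * d), F ((a : ℝ) / q + x) := by
        rw [Finset.sum_comm]
        refine Finset.sum_congr rfl fun q _ => ?_
        rw [Finset.sum_comm]
        exact Finset.sum_congr rfl fun a _ => hcut q a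
    _ ≤ ∑ _i ∈ range k, ∫ x in (0 : ℝ)..1, F x := by
        refine Finset.sum_le_sum fun i _ => ?_
        have h5 : (s + (i + 1 : ℕ) * d) - (s + i * d) = d := by push_cast; ring
        exact ov_small QQ N hN hN1 F hF h0 hp _ _ (by linarith) (by rw [h5]; exact hdN)
    _ = k * ∫ x in (0 : ℝ)..1, F x := by
        rw [Finset.sum_const, card_range, nsmul_eq_mul]
    _ ≤ ((t - s) * N + 1) * ∫ x in (0 : ℝ)..1, F x := by
        refine mul_le_mul_of_nonneg_right ?_ hI0
        exact (Nat.ceil_lt_add_one (mul_nonneg (by linarith) hN0.le)).le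

theorem overlap_sigma (QQ : Finset ℕ) (N : ℝ) (hN : Fam QQ N) (hN1 : 1 ≤ N) (F : ℝ → ℝ)
    (hF : Continuous F) (h0 : ∀ x, 0 ≤ F x) (hp : ∀ x, F (x + 1) = F x) (s t : ℝ) (hst : s ≤ t)
    (σ : ℝ) (hσ : σ = 1 ∨ σ = -1) :
    ∑ q ∈ QQ, ∑ a ∈ rr q, ∫ x in s..t, F ((a : ℝ) / q + σ * x) ≤
      ((t - s) * N + 1) * ∫ x in (0 : ℝ)..1, F x := by
  rcases hσ with rfl | rfl
  · simp only [one_mul]
    exact overlap QQ N hN hN1 F hF h0 hp s t hst
  · have h1 := overlap QQ N hN hN1 F hF h0 hp (-t) (-s) (by linarith)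
    have h2 : ∀ q a : ℕ, ∫ x in s..t, F ((a : ℝ) / q + -1 * x) =
        ∫ x in (-t)..(-s), F ((a : ℝ) / q + x) := by
      intro q a
      rw [← intervalIntegral.integral_comp_neg (fun x => F ((a : ℝ) / q + x))]
      refine intervalIntegral.integral_congr fun x _ => ?_
      simp only [neg_mul, one_mul]
    simp_rw [h2]
    have h3 : -s - -t = t - s := by ring
    rw [h3] at h1
    exact h1

theorem count (QQ : Finset ℕ) (N : ℝ) (hN : Fam QQ N) (hN1 : 1 ≤ N) :
    ∑ q ∈ QQ, (Nat.totient q : ℝ) ≤ N + 1 := by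
  have h1 := overlap QQ N hN hN1 (fun _ => 1) continuous_const (fun _ => zero_le_one)
    (fun _ => rfl) 0 1 zero_le_one
  simp only [intervalIntegral.integral_const, sub_zero, smul_eq_mul, mul_one, one_mul,
    Finset.sum_const, nsmul_eq_mul] at h1
  refine le_trans (le_of_eq ?_) h1
  refine Finset.sum_congr rfl fun q _ => ?_
  congr 1
  unfold rr
  rw [Nat.totient_eq_card_coprime]
  congr 1
  refine Finset.filter_congr fun a _ => ?_
  exact Nat.coprime_comm

end Pool.MP_dd84fd_nt.PL
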