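import Pool.Agent.Lib.MP_dd84fd_nt.PL.Defs

/-!
# PL-QKer: the finite kernel

`gauss_le`:  `‖∑_{c mod h} ξ(c) e(mc/h)‖² = ∑_{c,c' units} ξ(c) conj ξ(c') e(m(c-c')/h)
= ∑_{t unit} ξ(t) ∑_{c' unit} e(m(t-1)c'/h)` (put `c = t c'`) `≤ ∑_{t mod h} |c_h(m(t-1))|`, and
`c_h(r) = ∑_{d | (h,r)} d μ(h/d)` (Ramanujan sum) so `|c_h(r)| ≤ ∑_{d | h, d | r} d`, and
`∑_{t mod h} ∑_{d | h, d | m(t-1)} d = ∑_{d | h} d · #{t mod h : d | t-1} = ∑_{d|h} h = h τ(h)`.
`q_kernel`: put `h = q/(q,n)`, `n/(q,n) = n'`, coprime to `h`: `e(-n x/q) = e(-n' x/h)` depends only on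
`x mod h`. For a unit `c` mod `h`: `e(-n' c/h) = (1/φ(h)) ∑_ξ g(ξ) ξ(c)`, `g(ξ) = ∑_{c'} ξ⁻¹(c') e(-n'c'/h)`
(orthogonality of characters mod `h`), `|g(ξ)| ≤ (h τ(h))^(1/2)`, and `ξ(x mod h) = (changeLevel ξ)(x)` for
units `x` mod `q`.
`cardlem`: `√(hτ(h))/φ(h) ≤ τ(h)^(3/2) h^(-1/2)` since `h/φ(h) ≤ τ(h)`.
-/

set_option autoImplicit false

namespace Pool.MP_dd84fd_nt.PL

open Finset Pool.MP_67663b_nt.Odd

theorem qker_std (h : ℕ) [NeZero h] (m : ℤ) (c : ZMod h) :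
    ee ((m : ℝ) * ((c.val : ℝ) / h)) = ZMod.stdAddChar ((m : ZMod h) * c) := by
  have h1 : (m : ZMod h) * c = ((m * (c.val : ℤ) : ℤ) : ZMod h) := by
    push_cast
    rw [ZMod.natCast_zmod_val]
  rw [h1, ZMod.stdAddChar_coe]
  unfold ee
  congr 1
  push_cast
  ring

theorem qker_parseval (q : ℕ) [NeZero q] (f : ZMod q → ℂ) :
    ∑ h : ZMod q, ‖∑ b : ZMod q, f b * ZMod.stdAddChar (h * b)‖ ^ 2 =
      (q : ℝ) * ∑ b : ZMod q, ‖f b‖ ^ 2 := by
  have h : ((∑ h : ZMod q, ‖∑ b : ZMod q, f b * ZMod.stdAddChar (h * b)‖ ^ 2 : ℝ) : ℂ) =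
      ∑ b : ZMod q, ∑ c : ZMod q, f b * (starRingEnd ℂ) (f c) *
        ∑ h : ZMod q, (ZMod.stdAddChar (h * (b - c)) : ℂ) := by
    push_cast
    have h1 : ∀ h ∈ (univ : Finset (ZMod q)),
        ((‖∑ b : ZMod q, f b * ZMod.stdAddChar (h * b)‖ : ℂ)) ^ 2 =
        ∑ b : ZMod q, ∑ c : ZMod q, f b * (starRingEnd ℂ) (f c) *
          (ZMod.stdAddChar (h * (b - c)) : ℂ) := by
      intro h _
      rw [← Complex.mul_conj', map_sum, Finset.sum_mul_sum]
      refine Finset.sum_congr rfl fun b _ => Finset.sum_congr rfl fun c _ => ?_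
      rw [map_mul (starRingEnd ℂ), ← AddChar.map_neg_eq_conj, mul_sub, sub_eq_add_neg,
        AddChar.map_add_eq_mul]
      ring
    rw [Finset.sum_congr rfl h1, Finset.sum_comm]
    refine Finset.sum_congr rfl fun b _ => ?_
    rw [Finset.sum_comm]
    refine Finset.sum_congr rfl fun c _ => ?_
    rw [Finset.mul_sum]
  have h2 : (∑ b : ZMod q, ∑ c : ZMod q, f b * (starRingEnd ℂ) (f c) *
        ∑ h : ZMod q, (ZMod.stdAddChar (h * (b - c)) : ℂ)) =
      (((q : ℝ) * ∑ b : ZMod q, ‖f b‖ ^ 2 : ℝ) : ℂ) := by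
    push_cast
    rw [Finset.mul_sum]
    refine Finset.sum_congr rfl fun b _ => ?_
    rw [Finset.sum_eq_single b]
    · rw [sub_self]
      simp only [mul_zero, AddChar.map_zero_eq_one, Finset.sum_const, Finset.card_univ,
        ZMod.card, nsmul_eq_mul, mul_one]
      rw [← Complex.mul_conj']
      ring
    · intro c _ hc
      rw [AddChar.sum_mulShift (b - c) (ZMod.isPrimitive_stdAddChar q),
        if_neg (sub_ne_zero.mpr (Ne.symm hc))]
      simp
    · intro hb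
      exact absurd (mem_univ b) hb
  rw [h2] at h
  exact_mod_cast h

theorem qker_gauss (h : ℕ) [NeZero h] (ξ : DirichletCharacter ℂ h) (u : (ZMod h)ˣ) :
    ‖∑ c : ZMod h, ξ c * ZMod.stdAddChar ((u : ZMod h) * c)‖ ^ 2 ≤ (h : ℝ) := by
  classical
  have hu : ∀ v : (ZMod h)ˣ, ‖∑ c : ZMod h, ξ c * ZMod.stdAddChar ((v : ZMod h) * c)‖ =
      ‖gaussSum ξ (ZMod.stdAddChar (N := h))‖ := by
    intro v
    have h1 := gaussSum_mulShift ξ (ZMod.stdAddChar (N := h)) v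
    have h2 : ∑ c : ZMod h, ξ c * ZMod.stdAddChar ((v : ZMod h) * c) =
        gaussSum ξ (AddChar.mulShift (ZMod.stdAddChar (N := h)) v) := by
      unfold gaussSum
      simp only [AddChar.mulShift_apply]
    rw [h2, ← h1, norm_mul, DirichletCharacter.unit_norm_eq_one, one_mul]
  have hφ : (0 : ℝ) < (Nat.totient h : ℝ) := by
    exact_mod_cast Nat.totient_pos.2 (Nat.pos_of_ne_zero (NeZero.ne h))
  have hcard : (Fintype.card (ZMod h)ˣ : ℝ) = (Nat.totient h : ℝ) := by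
    rw [ZMod.card_units_eq_totient]
  have hp := qker_parseval h (fun c => ξ c)
  have h3 : ∑ c : ZMod h, ‖ξ c‖ ^ 2 ≤ (Nat.totient h : ℝ) := by
    have e1 : ∑ c : ZMod h, ‖ξ c‖ ^ 2 = ∑ c ∈ univ.image (fun v : (ZMod h)ˣ => (v : ZMod h)),
        ‖ξ c‖ ^ 2 := by
      refine (Finset.sum_subset (subset_univ _) fun c _ hc => ?_).symm
      have hnu : ¬ IsUnit c := by
        rintro ⟨v, rfl⟩
        exact hc (mem_image_of_mem _ (mem_univ v))
      rw [ξ.map_nonunit hnu, norm_zero]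
      norm_num
    rw [e1, Finset.sum_image (fun v _ w _ hvw => Units.ext hvw), ← hcard, ← Finset.card_univ,
      ← nsmul_one (univ : Finset (ZMod h)ˣ).card, ← Finset.sum_const]
    refine Finset.sum_le_sum fun v _ => ?_
    rw [DirichletCharacter.unit_norm_eq_one]
    norm_num
  have h4 : (Nat.totient h : ℝ) * ‖gaussSum ξ (ZMod.stdAddChar (N := h))‖ ^ 2 ≤
      ∑ m : ZMod h, ‖∑ c : ZMod h, ξ c * ZMod.stdAddChar (m * c)‖ ^ 2 := by
    calc (Nat.totient h : ℝ) * ‖gaussSum ξ (ZMod.stdAddChar (N := h))‖ ^ 2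
        = ∑ v : (ZMod h)ˣ, ‖∑ c : ZMod h, ξ c * ZMod.stdAddChar ((v : ZMod h) * c)‖ ^ 2 := by
          simp only [hu]
          rw [Finset.sum_const, Finset.card_univ, nsmul_eq_mul, hcard]
      _ = ∑ m ∈ univ.image (fun v : (ZMod h)ˣ => (v : ZMod h)),
            ‖∑ c : ZMod h, ξ c * ZMod.stdAddChar (m * c)‖ ^ 2 := by
          rw [Finset.sum_image (fun v _ w _ hvw => Units.ext hvw)]
      _ ≤ ∑ m : ZMod h, ‖∑ c : ZMod h, ξ c * ZMod.stdAddChar (m * c)‖ ^ 2 :=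
          Finset.sum_le_sum_of_subset_of_nonneg (subset_univ _) fun _ _ _ => by positivity
  rw [hu u]
  rw [hp] at h4
  have h5 : (Nat.totient h : ℝ) * ‖gaussSum ξ (ZMod.stdAddChar (N := h))‖ ^ 2 ≤
      (Nat.totient h : ℝ) * (h : ℝ) := by
    refine h4.trans ?_
    rw [mul_comm (Nat.totient h : ℝ)]
    exact mul_le_mul_of_nonneg_left h3 (by positivity)
  exact le_of_mul_le_mul_left h5 hφ

theorem qker_div_one (h : ℕ) [NeZero h] : (1 : ℝ) ≤ (h.divisors.card : ℝ) := by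
  have : 1 ≤ h.divisors.card := by
    rw [Nat.one_le_iff_ne_zero, Finset.card_ne_zero, Nat.nonempty_divisors]
    exact NeZero.ne h
  exact_mod_cast this

theorem gauss_le (h : ℕ) [NeZero h] (ξ : DirichletCharacter ℂ h) (m : ℤ)
    (hm : IsCoprime m (h : ℤ)) :
    ‖∑ c : ZMod h, ξ c * ee ((m : ℝ) * ((c.val : ℝ) / h))‖ ^ 2 ≤ (h : ℝ) * h.divisors.card := by
  have h1 : ∑ c : ZMod h, ξ c * ee ((m : ℝ) * ((c.val : ℝ) / h)) =
      ∑ c : ZMod h, ξ c * ZMod.stdAddChar (((ZMod.unitOfIsCoprime m hm : (ZMod h)ˣ) : ZMod h) * c) := by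
    refine Finset.sum_congr rfl fun c _ => ?_
    rw [qker_std, ZMod.coe_unitOfIsCoprime]
  rw [h1]
  refine (qker_gauss h ξ _).trans ?_
  have h2 := qker_div_one h
  have h3 : (0 : ℝ) ≤ h := by positivity
  nlinarith

theorem qker_expand (h : ℕ) [NeZero h] (G : ZMod h → ℂ) (c : ZMod h) (hc : IsUnit c) :
    (Nat.totient h : ℂ) * G c =
      ∑ ξ : DirichletCharacter ℂ h, (∑ b : ZMod h, ξ⁻¹ b * G b) * ξ c := by
  classical
  have h1 : ∀ ξ : DirichletCharacter ℂ h, ∀ b : ZMod h, ξ⁻¹ b * G b * ξ c =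
      if IsUnit b then G b * (ξ b⁻¹ * ξ c) else 0 := by
    intro ξ b
    split_ifs with hb
    · have h2 : ξ⁻¹ b = ξ b⁻¹ := by
        rw [MulChar.inv_apply_eq_inv']
        symm
        apply eq_inv_of_mul_eq_one_left
        rw [← map_mul, mul_comm, ZMod.mul_inv_of_unit b hb, map_one]
      rw [h2]
      ring
    · rw [(ξ⁻¹).map_nonunit hb]
      ring
  have h2 : ∀ ξ : DirichletCharacter ℂ h, (∑ b : ZMod h, ξ⁻¹ b * G b) * ξ c =
      ∑ b : ZMod h, if IsUnit b then G b * (ξ b⁻¹ * ξ c) else 0 := by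
    intro ξ
    rw [Finset.sum_mul]
    exact Finset.sum_congr rfl fun b _ => h1 ξ b
  rw [Finset.sum_congr rfl fun ξ _ => h2 ξ, Finset.sum_comm]
  rw [Finset.sum_eq_single c]
  · simp only [if_pos hc]
    rw [← Finset.mul_sum, DirichletCharacter.sum_char_inv_mul_char_eq ℂ hc, if_pos rfl]
    ring
  · intro b _ hbc
    split_ifs with hb
    · rw [← Finset.mul_sum, DirichletCharacter.sum_char_inv_mul_char_eq ℂ hb, if_neg hbc, mul_zero]
    · simp
  · intro hcn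
    exact absurd (mem_univ c) hcn

theorem q_kernel (q h n : ℕ) [NeZero q] [NeZero h] (hh : h = hq q n) (hd : h ∣ q)
    (F : ZMod q → ℂ) :
    ‖∑ x ∈ univ.filter (fun x : ZMod q => IsUnit x),
        F x * ee (-((n : ℝ) * ((x.val : ℝ) / q)))‖ ≤
      Real.sqrt ((h : ℝ) * h.divisors.card) / Nat.totient h *
        ∑ ξ : DirichletCharacter ℂ h, ‖∑ x : ZMod q, DirichletCharacter.changeLevel hd ξ x * F x‖ := by
  classical
  have hq0 : 0 < q := Nat.pos_of_ne_zero (NeZero.ne q)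
  have hh0 : 0 < h := Nat.pos_of_ne_zero (NeZero.ne h)
  set g := Nat.gcd q n with hg
  have hg0 : 0 < g := Nat.gcd_pos_of_pos_left n hq0
  have hqg : h * g = q := by
    rw [hh]
    exact Nat.div_mul_cancel (Nat.gcd_dvd_left q n)
  obtain ⟨n', hn'⟩ : g ∣ n := Nat.gcd_dvd_right q n
  have hcop : Nat.Coprime h n' := by
    have h1 : Nat.Coprime (q / g) (n / g) := Nat.coprime_div_gcd_div_gcd hg0
    have h2 : q / g = h := by rw [← hqg, Nat.mul_div_cancel _ hg0]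
    have h3 : n / g = n' := by rw [hn', Nat.mul_div_cancel_left _ hg0]
    rwa [h2, h3] at h1
  have hφ : (0 : ℝ) < (Nat.totient h : ℝ) := by
    exact_mod_cast Nat.totient_pos.2 hh0
  have hφC : (Nat.totient h : ℂ) ≠ 0 := by
    have := hφ.ne'
    exact_mod_cast this
  have hcm : IsCoprime (-(n' : ℤ)) (h : ℤ) := by
    have : IsCoprime (n' : ℤ) (h : ℤ) := Nat.isCoprime_iff_coprime.2 hcop.symm
    exact this.neg_left
  set u : (ZMod h)ˣ := ZMod.unitOfIsCoprime _ hcm with hu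
  set G : ZMod h → ℂ := fun c => ZMod.stdAddChar ((u : ZMod h) * c) with hG
  -- the phase depends only on the class mod `h`
  have hphase : ∀ x : ZMod q, ee (-((n : ℝ) * ((x.val : ℝ) / q))) =
      G (ZMod.cast x) := by
    intro x
    have h1 : (ZMod.cast x : ZMod h) = ((x.val : ℕ) : ZMod h) := by
      rw [ZMod.natCast_val]
    have h2 : (u : ZMod h) * ((x.val : ℕ) : ZMod h) = ((-(n' : ℤ) * (x.val : ℤ) : ℤ) : ZMod h) := by
      rw [hu, ZMod.coe_unitOfIsCoprime]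
      push_cast
      ring
    rw [hG]
    simp only
    rw [h1, h2, ZMod.stdAddChar_coe]
    unfold ee
    congr 1
    have h3 : (q : ℂ) = h * g := by exact_mod_cast hqg.symm
    have h4 : (n : ℂ) = g * n' := by exact_mod_cast hn'
    have h5 : (g : ℂ) ≠ 0 := by exact_mod_cast hg0.ne'
    have h6 : (h : ℂ) ≠ 0 := by exact_mod_cast hh0.ne'
    push_cast
    rw [h3, h4]
    field_simp
  have hunit : ∀ x : ZMod q, IsUnit x → IsUnit (ZMod.cast x : ZMod h) := by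
    rintro x ⟨v, rfl⟩
    have := (v.isUnit).map (ZMod.castHom hd (ZMod h))
    simpa using this
  have hlev : ∀ (ξ : DirichletCharacter ℂ h) (x : ZMod q), IsUnit x →
      DirichletCharacter.changeLevel hd ξ x = ξ (ZMod.cast x : ZMod h) := by
    rintro ξ x ⟨v, rfl⟩
    exact DirichletCharacter.changeLevel_eq_cast_of_dvd ξ hd v
  have hkey : (Nat.totient h : ℂ) * ∑ x ∈ univ.filter (fun x : ZMod q => IsUnit x),
        F x * ee (-((n : ℝ) * ((x.val : ℝ) / q))) =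
      ∑ ξ : DirichletCharacter ℂ h, (∑ b : ZMod h, ξ⁻¹ b * G b) *
        ∑ x : ZMod q, DirichletCharacter.changeLevel hd ξ x * F x := by
    have h1 : ∀ ξ : DirichletCharacter ℂ h, (∑ b : ZMod h, ξ⁻¹ b * G b) *
        ∑ x : ZMod q, DirichletCharacter.changeLevel hd ξ x * F x =
        ∑ x ∈ univ.filter (fun x : ZMod q => IsUnit x),
          F x * ((∑ b : ZMod h, ξ⁻¹ b * G b) * ξ (ZMod.cast x : ZMod h)) := by
      intro ξ
      rw [Finset.mul_sum, Finset.sum_filter]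
      refine Finset.sum_congr rfl fun x _ => ?_
      split_ifs with hx
      · rw [hlev ξ x hx]
        ring
      · rw [MulChar.map_nonunit _ hx]
        ring
    rw [Finset.sum_congr rfl fun ξ _ => h1 ξ, Finset.sum_comm, Finset.mul_sum]
    refine Finset.sum_congr rfl fun x hx => ?_
    rw [← Finset.mul_sum, ← qker_expand h G _ (hunit x (mem_filter.1 hx).2), hphase x]
    ring
  have hg2 : ∀ ξ : DirichletCharacter ℂ h, ‖∑ b : ZMod h, ξ⁻¹ b * G b‖ ≤
      Real.sqrt ((h : ℝ) * h.divisors.card) := by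
    intro ξ
    refine Real.le_sqrt_of_sq_le ((qker_gauss h ξ⁻¹ u).trans ?_)
    have h2 := qker_div_one h
    have h3 : (0 : ℝ) ≤ h := by positivity
    nlinarith
  have hfin : (Nat.totient h : ℝ) * ‖∑ x ∈ univ.filter (fun x : ZMod q => IsUnit x),
        F x * ee (-((n : ℝ) * ((x.val : ℝ) / q)))‖ ≤
      Real.sqrt ((h : ℝ) * h.divisors.card) *
        ∑ ξ : DirichletCharacter ℂ h,
          ‖∑ x : ZMod q, DirichletCharacter.changeLevel hd ξ x * F x‖ := by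
    have h1 : (Nat.totient h : ℝ) = ‖(Nat.totient h : ℂ)‖ := by
      rw [Complex.norm_natCast]
    rw [h1, ← norm_mul, hkey, Finset.mul_sum]
    refine (norm_sum_le _ _).trans (Finset.sum_le_sum fun ξ _ => ?_)
    rw [norm_mul]
    exact mul_le_mul_of_nonneg_right (hg2 ξ) (norm_nonneg _)
  rw [div_mul_eq_mul_div, le_div_iff₀ hφ, mul_comm]
  exact hfin

theorem cardlem (h : ℕ) (hh : 1 ≤ h) :
    Real.sqrt ((h : ℝ) * h.divisors.card) / Nat.totient h ≤
      (h.divisors.card : ℝ) ^ (3 / 2 : ℝ) * (h : ℝ) ^ (-(1 / 2) : ℝ) := by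
  have hne : NeZero h := ⟨by omega⟩
  have hh0 : (0 : ℝ) < h := by exact_mod_cast hh
  have hτ := qker_div_one h
  have hτ0 : (0 : ℝ) < (h.divisors.card : ℝ) := by linarith
  have hφ : (0 : ℝ) < (Nat.totient h : ℝ) := by
    exact_mod_cast Nat.totient_pos.2 hh
  have h1 : h ≤ h.divisors.card * Nat.totient h := by
    calc h = ∑ d ∈ h.divisors, Nat.totient d := (Nat.sum_totient h).symm
      _ ≤ ∑ _d ∈ h.divisors, Nat.totient h := by
          refine Finset.sum_le_sum fun d hd => ?_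
          exact Nat.le_of_dvd (Nat.totient_pos.2 hh)
            (Nat.totient_dvd_of_dvd (Nat.dvd_of_mem_divisors hd))
      _ = h.divisors.card * Nat.totient h := by rw [Finset.sum_const, smul_eq_mul]
  have h1' : (h : ℝ) ≤ (h.divisors.card : ℝ) * Nat.totient h := by exact_mod_cast h1
  have e1 : (h.divisors.card : ℝ) ^ (3 / 2 : ℝ) =
      (h.divisors.card : ℝ) * Real.sqrt (h.divisors.card : ℝ) := by
    rw [show (3 / 2 : ℝ) = 1 + 1 / 2 by norm_num, Real.rpow_add hτ0, Real.rpow_one,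
      ← Real.sqrt_eq_rpow]
  have e2 : (h : ℝ) ^ (-(1 / 2) : ℝ) = 1 / Real.sqrt h := by
    rw [Real.rpow_neg hh0.le, ← Real.sqrt_eq_rpow, one_div]
  have hs : 0 < Real.sqrt (h : ℝ) := Real.sqrt_pos.2 hh0
  have hs2 : Real.sqrt (h : ℝ) * Real.sqrt (h : ℝ) = h := Real.mul_self_sqrt hh0.le
  rw [e1, e2, Real.sqrt_mul hh0.le, div_le_iff₀ hφ]
  have e3 : (h.divisors.card : ℝ) * Real.sqrt (h.divisors.card : ℝ) * (1 / Real.sqrt h) *
      Nat.totient h = Real.sqrt (h.divisors.card : ℝ) *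
        (((h.divisors.card : ℝ) * Nat.totient h) / Real.sqrt h) := by ring
  rw [e3, mul_comm (Real.sqrt (h : ℝ))]
  refine mul_le_mul_of_nonneg_left ?_ (Real.sqrt_nonneg _)
  rw [le_div_iff₀ hs, hs2]
  exact h1'

end Pool.MP_dd84fd_nt.PL
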