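import Pool.Agent.Lib.MP_dd84fd_nt.PL.Defs

/-!
# PL-Units: reduced residues and units of `ZMod q`; substitution `x = (b/X) e^{2t}`

`sum_units`: the map `y ↦ y.val` is a bijection of the units of `ZMod q` onto `rr q`
(`ZMod.isUnit_iff_coprime`, `ZMod.val_natCast_of_lt`); for `q = 1`: `rr 1 = {0}`.
`Bq_eq`: in each integral substitute `x = (b/X) e^{2t}`, `dx = 2 (b/X) e^{2t} dt`, `t ∈ [0, (log 2)/2]`
(`intervalIntegral.integral_comp_mul_deriv`), `ee (-(n (a/q + σ x))) = ee (-(n a/q)) ee (-(n σ b/X) e^{2t})`,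
replace `f a`, `g a` by `f'`, `g'` on `[0, (log 2)/2)` (a.e. equality), then `sum_units`.
-/

set_option autoImplicit false

namespace Pool.MP_dd84fd_nt.PL

open Finset Pool.MP_67663b_nt.Odd

theorem sum_units {R : Type*} [AddCommMonoid R] (q : ℕ) [NeZero q] (F : ℕ → R) :
    ∑ y ∈ univ.filter (fun y : ZMod q => IsUnit y), F y.val = ∑ a ∈ rr q, F a := by
  refine Finset.sum_bij (fun y _ => y.val) ?_ ?_ ?_ ?_
  · intro y hy
    rw [Finset.mem_filter] at hy
    rw [rr, Finset.mem_filter, Finset.mem_range]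
    refine ⟨ZMod.val_lt y, ?_⟩
    rw [← ZMod.isUnit_iff_coprime, ZMod.natCast_zmod_val]
    exact hy.2
  · intro y _ z _ h
    exact ZMod.val_injective q h
  · intro a ha
    rw [rr, Finset.mem_filter, Finset.mem_range] at ha
    refine ⟨(a : ZMod q), ?_, ZMod.val_natCast_of_lt ha.1⟩
    rw [Finset.mem_filter]
    exact ⟨Finset.mem_univ _, (ZMod.isUnit_iff_coprime _ _).2 ha.2⟩
  · intro y _
    rfl

theorem Bq_eq (X : ℕ) (hX : 1 ≤ X) (b σ : ℝ) (hb : 0 < b) (n q : ℕ) [NeZero q]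
    (f g : ℕ → ℝ → ℂ) (f' g' : ZMod q → ℝ → ℂ) (hcf : ∀ a, Continuous (f a))
    (hcg : ∀ a, Continuous (g a))
    (hf : ∀ a ∈ rr q, ∀ t : ℝ, 0 ≤ t → t < Real.log 2 / 2 →
      f a (b / X * Real.exp (2 * t)) = f' (a : ZMod q) t)
    (hg : ∀ a ∈ rr q, ∀ t : ℝ, 0 ≤ t → t < Real.log 2 / 2 →
      g a (b / X * Real.exp (2 * t)) = g' (a : ZMod q) t) :
    Bq X b σ n q f g = ((b / X : ℝ) : ℂ) *
      ∑ y ∈ univ.filter (fun y : ZMod q => IsUnit y),
        (∫ t in (0 : ℝ)..(Real.log 2 / 2), f' y t * g' y t * ((2 * Real.exp (2 * t) : ℝ) : ℂ) *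
          ee (-((n : ℝ) * σ * b / X) * Real.exp (2 * t))) * ee (-((n : ℝ) * ((y.val : ℝ) / q))) := by
  have hX0 : (0 : ℝ) < X := by exact_mod_cast hX
  have hl : (0 : ℝ) ≤ Real.log 2 / 2 := by
    have := Real.log_nonneg (show (1 : ℝ) ≤ 2 by norm_num)
    linarith
  have key : ∀ a ∈ rr q, (∫ x in (b / X)..(2 * b / X),
      f a x * g a x * ee (-((n : ℝ) * ((a : ℝ) / q + σ * x)))) =
      ((b / X : ℝ) : ℂ) * ((∫ t in (0 : ℝ)..(Real.log 2 / 2), f' (a : ZMod q) t * g' (a : ZMod q) t *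
        ((2 * Real.exp (2 * t) : ℝ) : ℂ) * ee (-((n : ℝ) * σ * b / X) * Real.exp (2 * t))) *
        ee (-((n : ℝ) * ((a : ℝ) / q)))) := by
    intro a ha
    have hc : Continuous (fun x : ℝ => f a x * g a x * ee (-((n : ℝ) * ((a : ℝ) / q + σ * x)))) := by
      refine ((hcf a).mul (hcg a)).mul ?_
      unfold ee
      fun_prop
    have hd : ∀ t ∈ Set.uIcc (0 : ℝ) (Real.log 2 / 2),
        HasDerivAt (fun t : ℝ => b / X * Real.exp (2 * t)) (b / X * (Real.exp (2 * t) * 2)) t := by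
      intro t _
      have h1 : HasDerivAt (fun t : ℝ => 2 * t) 2 t := by
        simpa using (hasDerivAt_id t).const_mul 2
      exact (h1.exp).const_mul (b / X)
    have hcd : ContinuousOn (fun t : ℝ => b / X * (Real.exp (2 * t) * 2))
        (Set.uIcc (0 : ℝ) (Real.log 2 / 2)) := by
      fun_prop
    have hsub := intervalIntegral.integral_deriv_smul_comp (f := fun t : ℝ => b / X * Real.exp (2 * t))
      (f' := fun t : ℝ => b / X * (Real.exp (2 * t) * 2)) (a := 0) (b := Real.log 2 / 2) hd hcd hc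
    have e0 : b / X * Real.exp (2 * 0) = b / X := by simp
    have e1 : b / X * Real.exp (2 * (Real.log 2 / 2)) = 2 * b / X := by
      have : 2 * (Real.log 2 / 2) = Real.log 2 := by ring
      rw [this, Real.exp_log (by norm_num)]
      ring
    simp only [e0, e1] at hsub
    rw [← hsub, intervalIntegral.integral_of_le hl, intervalIntegral.integral_of_le hl,
      MeasureTheory.integral_Ioc_eq_integral_Ioo, MeasureTheory.integral_Ioc_eq_integral_Ioo,
      ← MeasureTheory.integral_mul_const, ← MeasureTheory.integral_const_mul]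
    refine MeasureTheory.setIntegral_congr_fun measurableSet_Ioo fun t ht => ?_
    have h1 := hf a ha t ht.1.le ht.2
    have h2 := hg a ha t ht.1.le ht.2
    simp only [Function.comp]
    rw [h1, h2]
    have he : ee (-((n : ℝ) * ((a : ℝ) / q + σ * (b / X * Real.exp (2 * t))))) =
        ee (-((n : ℝ) * σ * b / X) * Real.exp (2 * t)) * ee (-((n : ℝ) * ((a : ℝ) / q))) := by
      unfold ee
      rw [← Complex.exp_add]
      congr 1
      push_cast
      ring
    rw [he, Complex.real_smul]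
    push_cast
    ring
  rw [Bq, Finset.sum_congr rfl key, ← Finset.mul_sum]
  congr 1
  have hu := sum_units q (fun a : ℕ => (∫ t in (0 : ℝ)..(Real.log 2 / 2),
      f' (a : ZMod q) t * g' (a : ZMod q) t *
        ((2 * Real.exp (2 * t) : ℝ) : ℂ) * ee (-((n : ℝ) * σ * b / X) * Real.exp (2 * t))) *
        ee (-((n : ℝ) * ((a : ℝ) / q))))
  rw [← hu]
  refine Finset.sum_congr rfl fun y _ => ?_
  simp only [ZMod.natCast_zmod_val]

end Pool.MP_dd84fd_nt.PL
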