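import Mathlib

/-!
# PL-Cauchy: the coset Cauchy inequality (abstract)

`x_i ≤ α_i β_i`;  `∑_s ∑_g α1(g)β1(g)α2(σ_s g)β2(σ_s g)
  ≤ (∑_s ∑_g α1(g)² β2(σ_s g)²)^(1/2) (∑_s ∑_g β1(g)² α2(σ_s g)²)^(1/2)`.
The second sum is `∑_g β1(g)² ∑_s α2(σ_s g)² ≤ B1 A2`; the first is (substituting `g → σ_s⁻¹ g`)
`∑_g β2(g)² ∑_s α1(σ_s⁻¹ g)² ≤ B2 A1`.  The Cauchy inequality is proved by the discriminant.
-/

set_option autoImplicit false

namespace Pool.MP_dd84fd_nt.PL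

open Finset

theorem coset_cauchy {ι κ : Type*} (S : Finset κ) (σ : κ → ι ≃ ι)
    (x1 x2 α1 β1 α2 β2 : ι → ℝ)
    (hα1 : ∀ g, 0 ≤ α1 g) (hβ1 : ∀ g, 0 ≤ β1 g) (hα2 : ∀ g, 0 ≤ α2 g) (hβ2 : ∀ g, 0 ≤ β2 g)
    (h1 : ∀ g, |x1 g| ≤ α1 g * β1 g) (h2 : ∀ g, |x2 g| ≤ α2 g * β2 g)
    (A1 A2 B1 B2 : ℝ) (hA1 : ∀ g, ∑ s ∈ S, α1 ((σ s).symm g) ^ 2 ≤ A1)
    (hA2 : ∀ g, ∑ s ∈ S, α2 (σ s g) ^ 2 ≤ A2)
    (hb1 : Summable fun g => β1 g ^ 2) (hB1 : ∑' g, β1 g ^ 2 ≤ B1)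
    (hb2 : Summable fun g => β2 g ^ 2) (hB2 : ∑' g, β2 g ^ 2 ≤ B2) :
    (∀ s ∈ S, Summable fun g => |x1 g * x2 (σ s g)|) ∧
      ∑ s ∈ S, ∑' g, |x1 g * x2 (σ s g)| ≤ Real.sqrt (A1 * A2 * (B1 * B2)) := by
  have hB10 : 0 ≤ B1 := (tsum_nonneg fun g => sq_nonneg (β1 g)).trans hB1
  have hB20 : 0 ≤ B2 := (tsum_nonneg fun g => sq_nonneg (β2 g)).trans hB2
  -- pointwise bounds
  have ha1 : ∀ s ∈ S, ∀ g, α1 g ^ 2 ≤ A1 := by
    intro s hs g
    have h := hA1 (σ s g)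
    have h' := Finset.single_le_sum (f := fun s' => α1 ((σ s').symm (σ s g)) ^ 2)
      (fun i _ => sq_nonneg _) hs
    simp only [Equiv.symm_apply_apply] at h'
    exact h'.trans h
  have ha2 : ∀ s ∈ S, ∀ g, α2 (σ s g) ^ 2 ≤ A2 := by
    intro s hs g
    exact (Finset.single_le_sum (f := fun s' => α2 (σ s' g) ^ 2)
      (fun i _ => sq_nonneg _) hs).trans (hA2 g)
  -- the two square families
  have hu : ∀ s ∈ S, Summable fun g => (α1 g * β2 (σ s g)) ^ 2 := by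
    intro s hs
    have h : Summable fun g => A1 * β2 (σ s g) ^ 2 :=
      ((Equiv.summable_iff (σ s)).mpr hb2).mul_left A1
    refine Summable.of_nonneg_of_le (fun g => sq_nonneg _) (fun g => ?_) h
    rw [mul_pow]
    exact mul_le_mul_of_nonneg_right (ha1 s hs g) (sq_nonneg _)
  have hv : ∀ s ∈ S, Summable fun g => (β1 g * α2 (σ s g)) ^ 2 := by
    intro s hs
    have h : Summable fun g => β1 g ^ 2 * A2 := hb1.mul_right A2
    refine Summable.of_nonneg_of_le (fun g => sq_nonneg _) (fun g => ?_) h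
    rw [mul_pow]
    exact mul_le_mul_of_nonneg_left (ha2 s hs g) (sq_nonneg _)
  have hxuv : ∀ s, ∀ g, |x1 g * x2 (σ s g)| ≤
      (α1 g * β2 (σ s g)) * (β1 g * α2 (σ s g)) := by
    intro s g
    rw [abs_mul]
    calc |x1 g| * |x2 (σ s g)| ≤ (α1 g * β1 g) * (α2 (σ s g) * β2 (σ s g)) :=
          mul_le_mul (h1 g) (h2 _) (abs_nonneg _) (mul_nonneg (hα1 g) (hβ1 g))
      _ = _ := by ring
  have hsum : ∀ s ∈ S, Summable fun g => |x1 g * x2 (σ s g)| := by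
    intro s hs
    refine Summable.of_nonneg_of_le (fun g => abs_nonneg _) (fun g => ?_) ((hu s hs).add (hv s hs))
    refine (hxuv s g).trans ?_
    nlinarith [sq_nonneg (α1 g * β2 (σ s g) - β1 g * α2 (σ s g)),
      sq_nonneg (α1 g * β2 (σ s g)), sq_nonneg (β1 g * α2 (σ s g))]
  refine ⟨hsum, ?_⟩
  rcases S.eq_empty_or_nonempty with rfl | ⟨s0, hs0⟩
  · simp only [Finset.sum_empty]
    exact Real.sqrt_nonneg _
  rcases isEmpty_or_nonempty ι with hι | ⟨⟨g0⟩⟩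
  · simp only [tsum_empty, Finset.sum_const_zero]
    exact Real.sqrt_nonneg _
  have hA1n : 0 ≤ A1 := (sq_nonneg _).trans (ha1 s0 hs0 g0)
  have hA2n : 0 ≤ A2 := (sq_nonneg _).trans (ha2 s0 hs0 g0)
  -- total square masses
  have hU : ∑ s ∈ S, ∑' g, (α1 g * β2 (σ s g)) ^ 2 ≤ A1 * B2 := by
    have e1 : ∀ s ∈ S, ∑' g, (α1 g * β2 (σ s g)) ^ 2 = ∑' g, (α1 ((σ s).symm g) * β2 g) ^ 2 := by
      intro s hs
      rw [← Equiv.tsum_eq (σ s) (fun g => (α1 ((σ s).symm g) * β2 g) ^ 2)]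
      simp only [Equiv.symm_apply_apply]
    rw [Finset.sum_congr rfl e1]
    have hu' : ∀ s ∈ S, Summable fun g => (α1 ((σ s).symm g) * β2 g) ^ 2 := by
      intro s hs
      have := hu s hs
      rw [← Equiv.summable_iff (σ s)]
      simpa [Function.comp_def] using this
    rw [← Summable.tsum_finsetSum hu']
    have hle : ∀ g, ∑ s ∈ S, (α1 ((σ s).symm g) * β2 g) ^ 2 ≤ A1 * β2 g ^ 2 := by
      intro g
      simp only [mul_pow]
      rw [← Finset.sum_mul]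
      exact mul_le_mul_of_nonneg_right (hA1 g) (sq_nonneg _)
    calc ∑' g, ∑ s ∈ S, (α1 ((σ s).symm g) * β2 g) ^ 2
        ≤ ∑' g, A1 * β2 g ^ 2 :=
          Summable.tsum_le_tsum hle (summable_sum hu') (hb2.mul_left A1)
      _ = A1 * ∑' g, β2 g ^ 2 := tsum_mul_left
      _ ≤ A1 * B2 := mul_le_mul_of_nonneg_left hB2 hA1n
  have hV : ∑ s ∈ S, ∑' g, (β1 g * α2 (σ s g)) ^ 2 ≤ A2 * B1 := by
    rw [← Summable.tsum_finsetSum hv]
    have hle : ∀ g, ∑ s ∈ S, (β1 g * α2 (σ s g)) ^ 2 ≤ A2 * β1 g ^ 2 := by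
      intro g
      simp only [mul_pow]
      rw [← Finset.mul_sum, mul_comm]
      exact mul_le_mul_of_nonneg_right (hA2 g) (sq_nonneg _)
    calc ∑' g, ∑ s ∈ S, (β1 g * α2 (σ s g)) ^ 2
        ≤ ∑' g, A2 * β1 g ^ 2 :=
          Summable.tsum_le_tsum hle (summable_sum hv) (hb1.mul_left A2)
      _ = A2 * ∑' g, β1 g ^ 2 := tsum_mul_left
      _ ≤ A2 * B1 := mul_le_mul_of_nonneg_left hB1 hA2n
  -- the quadratic polynomial
  set T := ∑ s ∈ S, ∑' g, |x1 g * x2 (σ s g)| with hT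
  have hquad : ∀ x : ℝ, 0 ≤ x → 0 ≤ (A2 * B1) * (x * x) + (-(2 * T)) * x + A1 * B2 := by
    intro x hx
    have hs : ∀ s ∈ S, 2 * x * ∑' g, |x1 g * x2 (σ s g)| ≤
        ∑' g, (α1 g * β2 (σ s g)) ^ 2 + x * x * ∑' g, (β1 g * α2 (σ s g)) ^ 2 := by
      intro s hs
      rw [← tsum_mul_left, ← tsum_mul_left, ← (hu s hs).tsum_add ((hv s hs).mul_left _)]
      refine Summable.tsum_le_tsum (fun g => ?_) ((hsum s hs).mul_left _)
        ((hu s hs).add ((hv s hs).mul_left _))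
      have h3 := mul_le_mul_of_nonneg_left (hxuv s g) (by positivity : (0 : ℝ) ≤ 2 * x)
      nlinarith [sq_nonneg (α1 g * β2 (σ s g) - x * (β1 g * α2 (σ s g)))]
    have h4 := Finset.sum_le_sum hs
    rw [← Finset.mul_sum, Finset.sum_add_distrib, ← Finset.mul_sum, ← hT] at h4
    nlinarith [mul_nonneg hx hx, mul_le_mul_of_nonneg_left hV (mul_nonneg hx hx)]
  have hTn : 0 ≤ T := Finset.sum_nonneg fun s _ => tsum_nonneg fun g => abs_nonneg _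
  have hquad' : ∀ x : ℝ, 0 ≤ (A2 * B1) * (x * x) + (-(2 * T)) * x + A1 * B2 := by
    intro x
    rcases le_or_gt 0 x with hx | hx
    · exact hquad x hx
    · have h5 : 0 ≤ (A2 * B1) * (x * x) := mul_nonneg (mul_nonneg hA2n hB10) (mul_self_nonneg x)
      have h6 : 0 ≤ A1 * B2 := mul_nonneg hA1n hB20
      nlinarith
  have hd := discrim_le_zero hquad'
  unfold discrim at hd
  refine Real.le_sqrt_of_sq_le ?_
  nlinarith

end Pool.MP_dd84fd_nt.PL
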