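import Pool.Agent.Lib.MP_dd84fd_nt.PL.Defs

/-!
# PL-VdC: the integral `∫_1^2 e(ρ y + (j / 2) log y) dy`
-/

set_option autoImplicit false

namespace Pool.MP_dd84fd_nt.PL

open Pool.MP_67663b_nt.Odd MeasureTheory intervalIntegral Set

/-- the phase -/
noncomputable def ph (ρ j y : ℝ) : ℝ := ρ * y + j / 2 * Real.log y

/-- its derivative -/
noncomputable def dph (ρ j y : ℝ) : ℝ := ρ + j / (2 * y)

noncomputable def IV (ρ j : ℝ) : ℂ := ∫ y in (1 : ℝ)..2, ee (ph ρ j y)

theorem ph_deriv (ρ j y : ℝ) (hy : 0 < y) : HasDerivAt (ph ρ j) (dph ρ j y) y := by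
  unfold ph dph
  have h1 := ((hasDerivAt_id y).const_mul ρ).add ((Real.hasDerivAt_log hy.ne').const_mul (j / 2))
  refine h1.congr_deriv ?_
  field_simp

theorem dph_deriv (ρ j y : ℝ) (hy : 0 < y) : HasDerivAt (dph ρ j) (-(j / (2 * y ^ 2))) y := by
  unfold dph
  have h1 := ((hasDerivAt_inv hy.ne').const_mul (j / 2)).const_add ρ
  have h2 : (fun y : ℝ => ρ + j / (2 * y)) = fun y => ρ + j / 2 * y⁻¹ := by
    funext z
    rw [div_mul_eq_div_div, div_eq_mul_inv (j / 2) z]
  rw [h2]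
  refine h1.congr_deriv ?_
  field_simp

theorem ee_deriv {f : ℝ → ℝ} {f' y : ℝ} (h : HasDerivAt f f' y) :
    HasDerivAt (fun z => ee (f z)) (2 * Real.pi * Complex.I * f' * ee (f y)) y := by
  unfold ee
  have h1 : HasDerivAt (fun z => (2 * Real.pi * (f z : ℂ) * Complex.I : ℂ))
      (2 * Real.pi * (f' : ℂ) * Complex.I) y :=
    ((h.ofReal_comp).const_mul (2 * Real.pi : ℂ)).mul_const Complex.I
  have h2 := h1.cexp
  refine h2.congr_deriv ?_
  ring

theorem ee_cont : Continuous ee := by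
  unfold ee
  fun_prop

theorem ph_contOn (ρ j a b : ℝ) (ha : 1 ≤ a) : ContinuousOn (fun y => ee (ph ρ j y)) (Icc a b) := by
  intro y hy
  have h1 := (ee_deriv (ph_deriv ρ j y (by linarith [hy.1]))).continuousAt
  exact h1.continuousWithinAt

/-- first derivative test -/
theorem fdt (ρ j a b lam : ℝ) (ha : 1 ≤ a) (hab : a ≤ b) (hlam : 0 < lam)
    (h : ∀ y ∈ Icc a b, lam ≤ |dph ρ j y|) : ‖∫ y in a..b, ee (ph ρ j y)‖ ≤ 1 / lam := by
  have hpos : ∀ y ∈ Icc a b, 0 < y := fun y hy => by linarith [hy.1]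
  have hne : ∀ y ∈ Icc a b, dph ρ j y ≠ 0 := fun y hy h0 => by
    have := h y hy
    rw [h0, abs_zero] at this
    linarith
  have huI : uIcc a b = Icc a b := uIcc_of_le hab
  have hpi := Real.pi_pos
  have hc : (2 * Real.pi * Complex.I : ℂ) ≠ 0 := by
    simp [Complex.I_ne_zero, hpi.ne']
  -- the antiderivative
  set F : ℝ → ℂ := fun y => ee (ph ρ j y) * ((1 / dph ρ j y : ℝ) : ℂ) with hF
  set g : ℝ → ℝ := fun y => (j / (2 * y ^ 2)) / (dph ρ j y) ^ 2 with hg
  have hinv : ∀ y ∈ Icc a b, HasDerivAt (fun z => 1 / dph ρ j z) (g y) y := by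
    intro y hy
    have h1 := (dph_deriv ρ j y (hpos y hy)).inv (hne y hy)
    have h2 : (fun z => 1 / dph ρ j z) = (dph ρ j)⁻¹ := by
      funext z; simp
    rw [h2]
    refine h1.congr_deriv ?_
    rw [hg]
    simp only
    ring
  have hFd : ∀ y ∈ Icc a b, HasDerivAt F
      (2 * Real.pi * Complex.I * ee (ph ρ j y) + ee (ph ρ j y) * (g y : ℂ)) y := by
    intro y hy
    have h1 := (ee_deriv (ph_deriv ρ j y (hpos y hy))).mul (hinv y hy).ofReal_comp
    refine h1.congr_deriv ?_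
    have h2 : (dph ρ j y : ℂ) ≠ 0 := by exact_mod_cast hne y hy
    push_cast
    field_simp
  have hdc : ContinuousOn (dph ρ j) (Icc a b) := fun y hy =>
    (dph_deriv ρ j y (hpos y hy)).continuousAt.continuousWithinAt
  have hgc : ContinuousOn g (Icc a b) := by
    rw [hg]
    refine ContinuousOn.div ?_ (hdc.pow 2) (fun y hy => pow_ne_zero 2 (hne y hy))
    refine ContinuousOn.div continuousOn_const (by fun_prop) ?_
    intro y hy
    have := hpos y hy
    positivity
  have hec := ph_contOn ρ j a b ha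
  have hec' : ContinuousOn (fun y => ee (ph ρ j y)) (uIcc a b) := by rw [huI]; exact hec
  have hgc' : ContinuousOn (fun y => ee (ph ρ j y) * (g y : ℂ)) (uIcc a b) := by
    rw [huI]
    exact hec.mul (Complex.continuous_ofReal.comp_continuousOn hgc)
  have hint1 : IntervalIntegrable (fun y => 2 * Real.pi * Complex.I * ee (ph ρ j y)) volume a b :=
    (continuousOn_const.mul hec').intervalIntegrable
  have hint2 : IntervalIntegrable (fun y => ee (ph ρ j y) * (g y : ℂ)) volume a b :=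
    hgc'.intervalIntegrable
  have hmain := intervalIntegral.integral_eq_sub_of_hasDerivAt (f := F)
    (fun y hy => hFd y (huI ▸ hy)) (hint1.add hint2)
  rw [intervalIntegral.integral_add hint1 hint2, intervalIntegral.integral_const_mul] at hmain
  -- the sign of g is constant
  have hgsum : ∫ y in a..b, |g y| ≤ 2 / lam := by
    have hI : ∫ y in a..b, g y = 1 / dph ρ j b - 1 / dph ρ j a :=
      intervalIntegral.integral_eq_sub_of_hasDerivAt (f := fun z => 1 / dph ρ j z)
        (fun y hy => hinv y (huI ▸ hy)) ((huI ▸ hgc).intervalIntegrable)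
    have hb1 : |1 / dph ρ j b| ≤ 1 / lam := by
      rw [abs_div, abs_one]
      exact one_div_le_one_div_of_le hlam (h b ⟨hab, le_rfl⟩)
    have ha1 : |1 / dph ρ j a| ≤ 1 / lam := by
      rw [abs_div, abs_one]
      exact one_div_le_one_div_of_le hlam (h a ⟨le_rfl, hab⟩)
    have e2 : (2 : ℝ) / lam = 1 / lam + 1 / lam := by ring
    rcases le_total 0 j with hj | hj
    · have e1 : ∫ y in a..b, |g y| = ∫ y in a..b, g y := by
        refine intervalIntegral.integral_congr fun y _ => ?_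
        exact abs_of_nonneg (by rw [hg]; positivity)
      rw [e1, hI, e2]
      calc _ ≤ |1 / dph ρ j b| + |1 / dph ρ j a| := by
            have := neg_abs_le (1 / dph ρ j a)
            have := le_abs_self (1 / dph ρ j b)
            linarith
        _ ≤ _ := add_le_add hb1 ha1
    · have e1 : ∫ y in a..b, |g y| = ∫ y in a..b, -g y := by
        refine intervalIntegral.integral_congr fun y _ => ?_
        refine abs_of_nonpos ?_
        rw [hg]
        have : j / (2 * y ^ 2) ≤ 0 := div_nonpos_of_nonpos_of_nonneg hj (by positivity)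
        exact div_nonpos_of_nonpos_of_nonneg this (by positivity)
      rw [e1, intervalIntegral.integral_neg, hI, e2]
      calc _ ≤ |1 / dph ρ j b| + |1 / dph ρ j a| := by
            have := neg_abs_le (1 / dph ρ j b)
            have := le_abs_self (1 / dph ρ j a)
            linarith
        _ ≤ _ := add_le_add hb1 ha1
  have hn2 : ‖∫ y in a..b, ee (ph ρ j y) * (g y : ℂ)‖ ≤ 2 / lam := by
    refine (intervalIntegral.norm_integral_le_integral_norm hab).trans ?_
    refine le_trans (le_of_eq ?_) hgsum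
    refine intervalIntegral.integral_congr fun y _ => ?_
    simp only [norm_mul, norm_ee, one_mul, Complex.norm_real, Real.norm_eq_abs]
  have hFn : ∀ y ∈ Icc a b, ‖F y‖ ≤ 1 / lam := by
    intro y hy
    rw [hF]
    simp only [norm_mul, norm_ee, one_mul, Complex.norm_real, Real.norm_eq_abs]
    rw [abs_div, abs_one]
    exact one_div_le_one_div_of_le hlam (h y hy)
  have h3 : ‖(2 * Real.pi * Complex.I : ℂ) * ∫ y in a..b, ee (ph ρ j y)‖ ≤ 4 / lam := by
    have : (2 * Real.pi * Complex.I : ℂ) * ∫ y in a..b, ee (ph ρ j y) =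
        F b - F a - ∫ y in a..b, ee (ph ρ j y) * (g y : ℂ) := by
      rw [← hmain]; ring
    rw [this]
    refine (norm_sub_le _ _).trans ?_
    have h4 := norm_sub_le (F b) (F a)
    have h5 := hFn b ⟨hab, le_rfl⟩
    have h6 := hFn a ⟨le_rfl, hab⟩
    have e4 : (4 : ℝ) / lam = 1 / lam + 1 / lam + 2 / lam := by ring
    rw [e4]
    linarith
  rw [norm_mul] at h3
  have h4 : ‖(2 * Real.pi * Complex.I : ℂ)‖ = 2 * Real.pi := by
    rw [norm_mul, norm_mul, Complex.norm_I, mul_one, Complex.norm_real, Complex.norm_ofNat,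
      Real.norm_of_nonneg hpi.le]
  rw [h4] at h3
  have h5 : (4 : ℝ) ≤ 2 * Real.pi := by linarith [Real.pi_gt_three]
  have h6 : 4 * ‖∫ y in a..b, ee (ph ρ j y)‖ ≤ 4 / lam :=
    (mul_le_mul_of_nonneg_right h5 (norm_nonneg _)).trans h3
  have e5 : (4 : ℝ) / lam = 4 * (1 / lam) := by ring
  rw [e5] at h6
  linarith

theorem IV_le (ρ j a b : ℝ) (hab : a ≤ b) : ‖∫ y in a..b, ee (ph ρ j y)‖ ≤ b - a := by
  have := intervalIntegral.norm_integral_le_of_norm_le_const (a := a) (b := b) (C := 1)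
    (f := fun y => ee (ph ρ j y)) (fun y _ => by rw [norm_ee])
  rwa [one_mul, abs_of_nonneg (by linarith)] at this

theorem IV_one (ρ j : ℝ) : ‖IV ρ j‖ ≤ 1 := by
  unfold IV
  refine (IV_le ρ j 1 2 (by norm_num)).trans ?_
  norm_num

theorem ph_ii (ρ j a b : ℝ) (ha : 1 ≤ a) (hb : 1 ≤ b) :
    IntervalIntegrable (fun y => ee (ph ρ j y)) volume a b := by
  apply ContinuousOn.intervalIntegrable
  intro y hy
  have h1 : 1 ≤ y := le_trans (le_min ha hb) hy.1
  exact (ee_deriv (ph_deriv ρ j y (by linarith))).continuousAt.continuousWithinAt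

/-- bound by the size of `ρ` -/
theorem IV_rho (ρ j : ℝ) (hρ : ρ ≠ 0) : ‖IV ρ j‖ ≤ 6 / Real.sqrt |ρ| := by
  have hr : 0 < |ρ| := abs_pos.2 hρ
  have hs : 0 < Real.sqrt |ρ| := Real.sqrt_pos.2 hr
  have hss : Real.sqrt |ρ| * Real.sqrt |ρ| = |ρ| := Real.mul_self_sqrt hr.le
  set δ : ℝ := 1 / Real.sqrt |ρ| with hδ
  have hδ0 : 0 < δ := by positivity
  set y0 : ℝ := -j / (2 * ρ) with hy0
  have hd : ∀ y : ℝ, 1 ≤ y → y ≤ 2 → δ ≤ |y - y0| → |ρ| * δ / 2 ≤ |dph ρ j y| := by
    intro y h1 h2 h3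
    have e1 : dph ρ j y = ρ * (y - y0) / y := by
      rw [dph, hy0]
      have : y ≠ 0 := by linarith
      field_simp
      ring
    rw [e1, abs_div, abs_mul, abs_of_pos (by linarith : 0 < y), le_div_iff₀ (by linarith)]
    calc |ρ| * δ / 2 * y ≤ |ρ| * δ / 2 * 2 := mul_le_mul_of_nonneg_left h2 (by positivity)
      _ = |ρ| * δ := by ring
      _ ≤ |ρ| * |y - y0| := mul_le_mul_of_nonneg_left h3 hr.le
  have hlam : 0 < |ρ| * δ / 2 := by positivity
  have hval : 1 / (|ρ| * δ / 2) = 2 * (1 / Real.sqrt |ρ|) := by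
    have e1 : |ρ| * δ = Real.sqrt |ρ| := by
      rw [hδ, mul_one_div, div_eq_iff hs.ne']
      exact hss.symm
    rw [e1]
    field_simp
  -- the points
  set p : ℝ := max 1 (min 2 (y0 - δ)) with hp
  set r : ℝ := max 1 (min 2 (y0 + δ)) with hr'
  have hp1 : 1 ≤ p := le_max_left _ _
  have hp2 : p ≤ 2 := max_le (by norm_num) (min_le_left _ _)
  have hr1 : 1 ≤ r := le_max_left _ _
  have hr2 : r ≤ 2 := max_le (by norm_num) (min_le_left _ _)
  have hpr : p ≤ r := max_le_max le_rfl (min_le_min le_rfl (by linarith))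
  have hprd : r - p ≤ 2 * δ := by
    have h1 : r ≤ p + 2 * δ := by
      rw [hr', hp]
      rcases le_total 1 (min 2 (y0 + δ)) with h | h
      · rw [max_eq_right h]
        have : min 2 (y0 + δ) ≤ min 2 (y0 - δ) + 2 * δ := by
          rcases le_total 2 (y0 - δ) with h2 | h2
          · rw [min_eq_left h2]
            exact (min_le_left _ _).trans (by linarith)
          · rw [min_eq_right h2]
            exact (min_le_right _ _).trans (by linarith)
        exact this.trans (by linarith [le_max_right (1 : ℝ) (min 2 (y0 - δ))])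
      · rw [max_eq_left h]
        linarith [le_max_left (1 : ℝ) (min 2 (y0 - δ))]
    linarith
  have hA : ‖∫ y in (1 : ℝ)..p, ee (ph ρ j y)‖ ≤ 2 * (1 / Real.sqrt |ρ|) := by
    rcases eq_or_lt_of_le hp1 with h | h
    · rw [← h, intervalIntegral.integral_same, norm_zero]
      positivity
    · rw [← hval]
      refine fdt ρ j 1 p _ le_rfl hp1 hlam fun y hy => hd y hy.1 (hy.2.trans hp2) ?_
      have h1 : p ≤ y0 - δ := by
        rw [hp] at h ⊢
        rcases lt_max_iff.1 h with h2 | h2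
        · exact absurd h2 (lt_irrefl _)
        · rw [max_eq_right h2.le]
          exact min_le_right _ _
      have h2 : y ≤ y0 - δ := hy.2.trans h1
      rw [abs_sub_comm]
      exact le_trans (by linarith) (le_abs_self _)
  have hC : ‖∫ y in r..(2 : ℝ), ee (ph ρ j y)‖ ≤ 2 * (1 / Real.sqrt |ρ|) := by
    rcases eq_or_lt_of_le hr2 with h | h
    · rw [h, intervalIntegral.integral_same, norm_zero]
      positivity
    · rw [← hval]
      refine fdt ρ j r 2 _ hr1 hr2 hlam fun y hy => hd y (hr1.trans hy.1) hy.2 ?_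
      have h1 : y0 + δ ≤ r := by
        rw [hr'] at h ⊢
        have h2 : min 2 (y0 + δ) < 2 := lt_of_le_of_lt (le_max_right _ _) h
        have h3 : min 2 (y0 + δ) = y0 + δ := by
          rcases min_lt_iff.1 h2 with h3 | h3
          · exact absurd h3 (lt_irrefl _)
          · exact min_eq_right h3.le
        rw [h3]
        exact le_max_right _ _
      exact le_trans (by linarith [hy.1]) (le_abs_self _)
  have hB : ‖∫ y in p..r, ee (ph ρ j y)‖ ≤ 2 * (1 / Real.sqrt |ρ|) :=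
    (IV_le ρ j p r hpr).trans hprd
  have hsum : IV ρ j = (∫ y in (1 : ℝ)..p, ee (ph ρ j y)) + (∫ y in p..r, ee (ph ρ j y)) +
      ∫ y in r..(2 : ℝ), ee (ph ρ j y) := by
    unfold IV
    rw [intervalIntegral.integral_add_adjacent_intervals (ph_ii ρ j 1 p le_rfl hp1)
      (ph_ii ρ j p r hp1 hr1), intervalIntegral.integral_add_adjacent_intervals
      (ph_ii ρ j 1 r le_rfl hr1) (ph_ii ρ j r 2 hr1 (by norm_num))]
  rw [hsum]
  refine (norm_add_le _ _).trans ?_
  have h1 := norm_add_le (∫ y in (1 : ℝ)..p, ee (ph ρ j y)) (∫ y in p..r, ee (ph ρ j y))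
  have e6 : (6 : ℝ) / Real.sqrt |ρ| = 2 * (1 / Real.sqrt |ρ|) + 2 * (1 / Real.sqrt |ρ|) +
      2 * (1 / Real.sqrt |ρ|) := by ring
  rw [e6]
  linarith

/-- bound by the size of `j` -/
theorem IV_j (ρ j : ℝ) (hj : j ≠ 0) (h : 8 * |ρ| ≤ |j|) : ‖IV ρ j‖ ≤ 8 / |j| := by
  have hj0 : 0 < |j| := abs_pos.2 hj
  have h1 : 1 / (|j| / 8) = 8 / |j| := by field_simp
  rw [← h1]
  refine fdt ρ j 1 2 _ le_rfl (by norm_num) (by positivity) fun y hy => ?_
  have hy0 : 0 < y := by linarith [hy.1]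
  unfold dph
  have h2 : |j / (2 * y)| = |j| / (2 * y) := by
    rw [abs_div, abs_of_pos (by linarith : (0 : ℝ) < 2 * y)]
  have h3 : |j| / 4 ≤ |j| / (2 * y) :=
    div_le_div_of_nonneg_left hj0.le (by linarith) (by linarith [hy.2])
  have h4 : |j / (2 * y)| ≤ |ρ + j / (2 * y)| + |ρ| := by
    have := abs_sub (ρ + j / (2 * y)) ρ
    rwa [add_sub_cancel_left] at this
  rw [h2] at h4
  linarith


theorem vdc_int : ∃ C : ℝ, 1 ≤ C ∧ ∀ (ρ : ℝ) (j : ℤ),
    ‖∫ y in (1 : ℝ)..2, ee (ρ * y + (j : ℝ) / 2 * Real.log y)‖ ≤ 1 ∧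
    ‖∫ y in (1 : ℝ)..2, ee (ρ * y + (j : ℝ) / 2 * Real.log y)‖ * Real.sqrt |ρ| ≤ C ∧
    (8 * |ρ| ≤ |(j : ℝ)| →
      ‖∫ y in (1 : ℝ)..2, ee (ρ * y + (j : ℝ) / 2 * Real.log y)‖ * |(j : ℝ)| ≤ C) := by
  refine ⟨8, by norm_num, fun ρ j => ?_⟩
  have e : (∫ y in (1 : ℝ)..2, ee (ρ * y + (j : ℝ) / 2 * Real.log y)) = IV ρ j := rfl
  rw [e]
  refine ⟨IV_one ρ j, ?_, fun h => ?_⟩
  · by_cases h0 : ρ = 0
    · rw [h0, abs_zero, Real.sqrt_zero, mul_zero]; norm_num
    · have h1 : 0 < Real.sqrt |ρ| := Real.sqrt_pos.2 (abs_pos.2 h0)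
      have h2 := IV_rho ρ j h0
      rw [le_div_iff₀ h1] at h2
      linarith
  · by_cases h0 : (j : ℝ) = 0
    · rw [h0, abs_zero, mul_zero]; norm_num
    · have h1 : 0 < |(j : ℝ)| := abs_pos.2 h0
      have h2 := IV_j ρ j h0 h
      rw [le_div_iff₀ h1] at h2
      exact h2

end Pool.MP_dd84fd_nt.PL
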