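import Pool.Agent.Lib.MP_dd84fd_nt.PL.Four
import Pool.Agent.Lib.MP_dd84fd_nt.PL.VdC

/-!
# PL-TKer: the kernel in `t`

`ψ(t) = 2 e^{2t} e(ρ e^{2t})` for `0 ≤ t < (log 2)/2`, `0` otherwise on `[0,1)` (bounded by 4, measurable).
Coefficients: `c_j = ∫_0^1 ψ(t) e(-jt) dt = ∫_1^2 e(ρ y - (j/2) log y) dy` (substitution `y = e^{2t}`,
`t = (log y)/2`), so `|c_j| ≤ C k_j` by `vdc_int` (`kj ρ j = 1/√(1+|ρ|)` for `|j| ≤ 8|ρ|`: use
`min(1, C|ρ|^(-1/2)) ≤ 2C/√(1+|ρ|)`) and `|c_j| ≤ C/|j|` for `|j| > 8|ρ|`.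
`∫ G ψ = ∑_{|j| ≤ J} c_j fc G j + ∫ G r`, `r = ψ - ∑_{|j| ≤ J} c_j e(jt)`.
`|∫ G r| ≤ B ‖r‖_2`, `‖r‖_2² = ∑_{|j| > J} |c_j|²` (Parseval for `r`, or `‖ψ‖² - ∑_{|j| ≤ J}|c_j|²`).
If `J ≥ 8|ρ|`: `≤ ∑_{|j|>J} C²/j² ≤ 2C²/J`.  If `J < 8|ρ|`: for `|j| ≤ 8|ρ|` only `|c_j| ≤ C/√(1+|ρ|)`:
then `‖r‖_2² ≤ ‖ψ‖_2² ≤ 16` is not `O(1/J)`; therefore the hypothesis `8|ρ| ≤ J` is made.
-/

set_option autoImplicit false

namespace Pool.MP_dd84fd_nt.PL

open Finset Pool.MP_67663b_nt.Odd MeasureTheory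

/-- weight of the frequency `j` -/
noncomputable def kj (ρ : ℝ) (j : ℤ) : ℝ :=
  if |(j : ℝ)| ≤ 8 * |ρ| ∨ j = 0 then 1 / Real.sqrt (1 + |ρ|) else 1 / |(j : ℝ)|

/-- the kernel -/
noncomputable def tkPsi (ρ : ℝ) : ℝ → ℂ :=
  Set.indicator {t : ℝ | t ≤ Real.log 2 / 2}
    (fun t => ((2 * Real.exp (2 * t) : ℝ) : ℂ) * ee (ρ * Real.exp (2 * t)))

theorem tkPsi_measurable (ρ : ℝ) : Measurable (tkPsi ρ) := by
  unfold tkPsi
  refine Measurable.indicator ?_ measurableSet_Iic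
  have h : Continuous fun t : ℝ => ((2 * Real.exp (2 * t) : ℝ) : ℂ) * ee (ρ * Real.exp (2 * t)) := by
    refine Continuous.mul (by fun_prop) (ee_cont.comp (by fun_prop))
  exact h.measurable

theorem tk_exp {t : ℝ} (h : t ≤ Real.log 2 / 2) : Real.exp (2 * t) ≤ 2 := by
  have h1 : Real.exp (2 * t) ≤ Real.exp (Real.log 2) := Real.exp_le_exp.2 (by linarith)
  rwa [Real.exp_log (by norm_num)] at h1

theorem tkPsi_bound (ρ t : ℝ) : ‖tkPsi ρ t‖ ≤ 4 := by
  unfold tkPsi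
  by_cases h : t ∈ {t : ℝ | t ≤ Real.log 2 / 2}
  · rw [Set.indicator_of_mem h, norm_mul, norm_ee, mul_one, Complex.norm_real,
      Real.norm_of_nonneg (by positivity)]
    have := tk_exp h
    linarith
  · rw [Set.indicator_of_notMem h, norm_zero]
    norm_num

theorem tk_log : (Real.log 2 / 2) ∈ Set.Icc (0 : ℝ) 1 := by
  have h1 := Real.log_two_gt_d9
  have h2 := Real.log_two_lt_d9
  constructor <;> linarith

/-- the integral against the kernel -/
theorem tk_fc_mul (G : ℝ → ℂ) (ρ : ℝ) (j : ℤ) : fc (fun t => G t * tkPsi ρ t) j =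
    ∫ t in (0 : ℝ)..(Real.log 2 / 2), G t * ((2 * Real.exp (2 * t) : ℝ) : ℂ) *
        ee (ρ * Real.exp (2 * t)) * ee ((j : ℝ) * t) := by
  unfold fc
  rw [← intervalIntegral.integral_indicator tk_log]
  refine intervalIntegral.integral_congr fun t _ => ?_
  unfold tkPsi
  by_cases h : t ∈ {t : ℝ | t ≤ Real.log 2 / 2}
  · simp only [Set.indicator_of_mem h]
    ring
  · simp only [Set.indicator_of_notMem h, mul_zero, zero_mul]

/-- the coefficients of the kernel -/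
theorem tk_coeff (ρ : ℝ) (k : ℤ) : fc (tkPsi ρ) (-k) =
    ∫ y in (1 : ℝ)..2, ee (ρ * y + ((-k : ℤ) : ℝ) / 2 * Real.log y) := by
  have h1 := tk_fc_mul (fun _ => 1) ρ (-k)
  simp only [one_mul] at h1
  rw [h1]
  have h2 := intervalIntegral.integral_deriv_smul_comp' (a := (0 : ℝ)) (b := Real.log 2 / 2)
    (f := fun t => Real.exp (2 * t)) (f' := fun t => 2 * Real.exp (2 * t))
    (g := fun y => ee (ρ * y + ((-k : ℤ) : ℝ) / 2 * Real.log y)) ?_ ?_ ?_
  · have e1 : Real.exp (2 * (Real.log 2 / 2)) = 2 := by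
      rw [mul_div_cancel₀ _ (by norm_num : (2 : ℝ) ≠ 0), Real.exp_log (by norm_num)]
    simp only [mul_zero, Real.exp_zero, e1] at h2
    rw [← h2]
    refine intervalIntegral.integral_congr fun t _ => ?_
    simp only [Function.comp, Real.log_exp, Complex.real_smul]
    rw [mul_assoc, ← ee_add]
    congr 2
    push_cast
    ring
  · intro t _
    have h3 := ((hasDerivAt_id t).const_mul 2).exp
    refine h3.congr_deriv ?_
    simp only [id]
    ring
  · fun_prop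
  · refine ee_cont.comp_continuousOn ?_
    refine ContinuousOn.add (by fun_prop) (ContinuousOn.mul continuousOn_const ?_)
    refine Real.continuousOn_log.mono ?_
    rintro y ⟨t, _, rfl⟩
    exact (Real.exp_pos _).ne'

theorem tk_sq (T : Finset ℤ) (J : ℕ) (hJ : 1 ≤ J) (hT : ∀ k ∈ T, J < k.natAbs) :
    ∑ k ∈ T, (1 / |(k : ℝ)|) ^ 2 ≤ (2 : ℝ) / (J : ℝ) := by
  have key : ∀ U : Finset ℤ, (∀ k ∈ U, J < k.natAbs) → Set.InjOn Int.natAbs (U : Set ℤ) →
      ∑ k ∈ U, (1 / |(k : ℝ)|) ^ 2 ≤ (1 : ℝ) / (J : ℝ) := by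
    intro U hU hinj
    have e1 : ∀ k ∈ U, (1 / |(k : ℝ)|) ^ 2 = (((k.natAbs : ℕ) : ℝ) ^ 2)⁻¹ := by
      intro k _
      rw [Nat.cast_natAbs, one_div, inv_pow]
      simp
    rw [sum_congr rfl e1, ← sum_image (f := fun m : ℕ => ((m : ℝ) ^ 2)⁻¹) hinj]
    have hsub : U.image Int.natAbs ⊆ Ioc J (max J ((U.image Int.natAbs).sup id)) := by
      intro m hm
      rw [mem_Ioc]
      constructor
      · obtain ⟨k, hk, rfl⟩ := mem_image.1 hm
        exact hU k hk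
      · exact (le_sup (f := id) hm).trans (le_max_right _ _)
    refine (sum_le_sum_of_subset_of_nonneg hsub fun _ _ _ => by positivity).trans ?_
    refine (sum_Ioc_inv_sq_le_sub (α := ℝ) (by omega) (le_max_left _ _)).trans ?_
    have : (0 : ℝ) ≤ ((max J ((U.image Int.natAbs).sup id) : ℕ) : ℝ)⁻¹ := by positivity
    rw [one_div]
    linarith
  have h1 := key (T.filter (fun k => 0 ≤ k)) (fun k hk => hT k (mem_filter.1 hk).1) (by
    intro a ha b hb hab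
    rw [mem_coe, mem_filter] at ha hb
    omega)
  have h2 := key (T.filter (fun k => ¬ 0 ≤ k)) (fun k hk => hT k (mem_filter.1 hk).1) (by
    intro a ha b hb hab
    rw [mem_coe, mem_filter] at ha hb
    omega)
  rw [← sum_filter_add_sum_filter_not T (fun k => 0 ≤ k)]
  have e2 : (2 : ℝ) / J = 1 / J + 1 / J := by ring
  rw [e2]
  exact add_le_add h1 h2

theorem t_kernel : ∃ C : ℝ, 0 < C ∧ ∀ (G : ℝ → ℂ) (B : ℝ), Measurable G → (∀ t, ‖G t‖ ≤ B) →
    ∀ (ρ : ℝ) (J : ℕ), 1 ≤ J → 8 * |ρ| ≤ J →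
    ‖∫ t in (0 : ℝ)..(Real.log 2 / 2), G t * ((2 * Real.exp (2 * t) : ℝ) : ℂ) *
        ee (ρ * Real.exp (2 * t))‖ ≤
      C * (∑ j ∈ Icc (-(J : ℤ)) J, kj ρ j * ‖fc G j‖ + B / Real.sqrt J) := by
  obtain ⟨C0, hC0, hv⟩ := vdc_int
  refine ⟨2 * (1 + C0), by linarith, ?_⟩
  intro G B hG hB ρ J hJ hρ
  have hB0 : 0 ≤ B := (norm_nonneg _).trans (hB 0)
  have hB4 : ∀ t, ‖G t‖ ≤ max B 4 := fun t => (hB t).trans (le_max_left _ _)
  have hP4 : ∀ t, ‖tkPsi ρ t‖ ≤ max B 4 := fun t => (tkPsi_bound ρ t).trans (le_max_right _ _)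
  have hs := fc_mul G (tkPsi ρ) (max B 4) hG (tkPsi_measurable ρ) hB4 hP4 0
  have hval : fc (fun t => G t * tkPsi ρ t) 0 =
      ∫ t in (0 : ℝ)..(Real.log 2 / 2), G t * ((2 * Real.exp (2 * t) : ℝ) : ℂ) *
        ee (ρ * Real.exp (2 * t)) := by
    rw [tk_fc_mul]
    refine intervalIntegral.integral_congr fun t _ => ?_
    simp only [Int.cast_zero, zero_mul, ee_zero, mul_one]
  rw [hval] at hs
  simp only [zero_sub] at hs
  -- bound of the coefficients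
  have hc : ∀ k : ℤ, ‖fc (tkPsi ρ) (-k)‖ ≤ (1 + C0) * kj ρ k := by
    intro k
    rw [tk_coeff]
    obtain ⟨h1, h2, h3⟩ := hv ρ (-k)
    set I := ‖∫ y in (1 : ℝ)..2, ee (ρ * y + ((-k : ℤ) : ℝ) / 2 * Real.log y)‖ with hI
    unfold kj
    split_ifs with hk
    · have h4 : 0 < Real.sqrt (1 + |ρ|) := Real.sqrt_pos.2 (by positivity)
      rw [mul_one_div, le_div_iff₀ h4]
      have h5 : Real.sqrt (1 + |ρ|) ≤ 1 + Real.sqrt |ρ| := by
        rw [Real.sqrt_le_left (by positivity)]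
        have := Real.sq_sqrt (abs_nonneg ρ)
        nlinarith [Real.sqrt_nonneg |ρ|]
      calc I * Real.sqrt (1 + |ρ|) ≤ I * (1 + Real.sqrt |ρ|) :=
            mul_le_mul_of_nonneg_left h5 (norm_nonneg _)
        _ = I + I * Real.sqrt |ρ| := by ring
        _ ≤ 1 + C0 := add_le_add h1 h2
    · rw [not_or, not_le] at hk
      have h4 : 0 < |(k : ℝ)| := by
        rw [abs_pos]
        exact_mod_cast hk.2
      rw [mul_one_div, le_div_iff₀ h4]
      have h5 : |((-k : ℤ) : ℝ)| = |(k : ℝ)| := by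
        push_cast
        exact abs_neg _
      rw [h5] at h3
      have := h3 hk.1.le
      linarith
  have hkj0 : ∀ k : ℤ, 0 ≤ kj ρ k := by
    intro k
    unfold kj
    split_ifs <;> positivity
  have hpar := fc_parseval G B hG hB
  have hint : ∫ t in (0 : ℝ)..1, ‖G t‖ ^ 2 ≤ B ^ 2 := by
    have h1 := intervalIntegral.norm_integral_le_of_norm_le_const (a := (0 : ℝ)) (b := 1)
      (C := B ^ 2) (f := fun t => ‖G t‖ ^ 2) (fun t _ => by
        rw [Real.norm_of_nonneg (by positivity)]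
        exact pow_le_pow_left₀ (norm_nonneg _) (hB t) 2)
    rw [sub_zero, abs_one, mul_one] at h1
    exact (le_abs_self _).trans h1
  have hJ0 : (0 : ℝ) < J := by exact_mod_cast hJ
  refine le_of_tendsto (Filter.Tendsto.norm hs) (Filter.Eventually.of_forall fun F => ?_)
  refine (norm_sum_le _ _).trans ?_
  rw [← sum_filter_add_sum_filter_not F (fun k : ℤ => k ∈ Icc (-(J : ℤ)) J), mul_add]
  refine add_le_add ?_ ?_
  · calc ∑ k ∈ F.filter (fun k : ℤ => k ∈ Icc (-(J : ℤ)) J), ‖fc G k * fc (tkPsi ρ) (-k)‖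
        ≤ ∑ k ∈ F.filter (fun k : ℤ => k ∈ Icc (-(J : ℤ)) J),
          2 * (1 + C0) * (kj ρ k * ‖fc G k‖) := by
          refine sum_le_sum fun k _ => ?_
          rw [norm_mul]
          have h1 := mul_le_mul_of_nonneg_left (hc k) (norm_nonneg (fc G k))
          have h2 : 0 ≤ (1 + C0) * (kj ρ k * ‖fc G k‖) :=
            mul_nonneg (by linarith) (mul_nonneg (hkj0 k) (norm_nonneg _))
          calc ‖fc G k‖ * ‖fc (tkPsi ρ) (-k)‖ ≤ ‖fc G k‖ * ((1 + C0) * kj ρ k) := h1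
            _ = (1 + C0) * (kj ρ k * ‖fc G k‖) := by ring
            _ ≤ 2 * (1 + C0) * (kj ρ k * ‖fc G k‖) := by linarith
      _ ≤ ∑ k ∈ Icc (-(J : ℤ)) J, 2 * (1 + C0) * (kj ρ k * ‖fc G k‖) := by
          refine sum_le_sum_of_subset_of_nonneg (fun k hk => (mem_filter.1 hk).2) ?_
          intro k _ _
          exact mul_nonneg (by linarith) (mul_nonneg (hkj0 k) (norm_nonneg _))
      _ = _ := by rw [mul_sum]
  · set T := F.filter (fun k : ℤ => ¬ k ∈ Icc (-(J : ℤ)) J) with hT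
    have hTJ : ∀ k ∈ T, J < k.natAbs := by
      intro k hk
      rw [hT, mem_filter, mem_Icc] at hk
      omega
    have hcs := sum_mul_sq_le_sq_mul_sq T (fun k => ‖fc G k‖) (fun k => ‖fc (tkPsi ρ) (-k)‖)
    have h1 : ∑ k ∈ T, ‖fc G k‖ ^ 2 ≤ B ^ 2 :=
      (sum_le_hasSum T (fun k _ => by positivity) hpar).trans hint
    have h2 : ∑ k ∈ T, ‖fc (tkPsi ρ) (-k)‖ ^ 2 ≤ (1 + C0) ^ 2 * (2 / J) := by
      refine le_trans ?_ (mul_le_mul_of_nonneg_left (tk_sq T J hJ hTJ) (by positivity))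
      rw [mul_sum]
      refine sum_le_sum fun k hk => ?_
      rw [← mul_pow]
      refine pow_le_pow_left₀ (norm_nonneg _) ?_ 2
      refine (hc k).trans (le_of_eq ?_)
      congr 1
      unfold kj
      rw [if_neg]
      have h3 : (J : ℝ) < |(k : ℝ)| := by
        have h4 := hTJ k hk
        have h5 : ((k.natAbs : ℕ) : ℝ) = |(k : ℝ)| := by
          rw [Nat.cast_natAbs]
          simp
        rw [← h5]
        exact_mod_cast h4
      rw [not_or, not_le]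
      refine ⟨by linarith, ?_⟩
      rintro rfl
      rw [Int.cast_zero, abs_zero] at h3
      linarith
    have h3 : (∑ k ∈ T, ‖fc G k‖ * ‖fc (tkPsi ρ) (-k)‖) ^ 2 ≤
        (2 * (1 + C0) * (B / Real.sqrt J)) ^ 2 := by
      refine hcs.trans ((mul_le_mul h1 h2 (sum_nonneg fun _ _ => by positivity)
        (by positivity)).trans ?_)
      have h4 : Real.sqrt J ^ 2 = J := Real.sq_sqrt hJ0.le
      have h5 : (2 * (1 + C0) * (B / Real.sqrt J)) ^ 2 =
          B ^ 2 * ((1 + C0) ^ 2 * (4 / J)) := by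
        rw [mul_pow, mul_pow, div_pow, h4]
        ring
      rw [h5]
      refine mul_le_mul_of_nonneg_left ?_ (by positivity)
      refine mul_le_mul_of_nonneg_left ?_ (by positivity)
      exact div_le_div_of_nonneg_right (by norm_num) hJ0.le
    have h6 : 0 ≤ 2 * (1 + C0) * (B / Real.sqrt J) :=
      mul_nonneg (by linarith) (div_nonneg hB0 (Real.sqrt_nonneg _))
    have h7 := abs_le_of_sq_le_sq h3 h6
    have h8 : ∑ k ∈ T, ‖fc G k * fc (tkPsi ρ) (-k)‖ =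
        ∑ k ∈ T, ‖fc G k‖ * ‖fc (tkPsi ρ) (-k)‖ := sum_congr rfl fun k _ => norm_mul _ _
    rw [h8]
    exact (le_abs_self _).trans h7

end Pool.MP_dd84fd_nt.PL
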