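import Pool.Agent.Lib.MP_dd84fd_nt.PL.GFour
import Pool.Agent.Lib.MP_dd84fd_nt.PL.Cauchy
import Pool.Agent.Lib.MP_dd84fd_nt.PL.QKer
import Pool.Agent.Lib.MP_dd84fd_nt.PL.TKer

/-!
# PL-OneQ: the bilinear inequality for one modulus

Write `κ = √(h τ(h))/φ(h)`.  Let `G(t) = ∑_{x unit} f(x,t) g(x,t) ee(-(n x/q))` (measurable, `‖G‖ ≤ φ(q) Bd²`).
The left side is `‖∫_0^{(log 2)/2} G(t) 2e^{2t} ee(ρ e^{2t}) dt‖ ≤ C (∑_{|j| ≤ J} k_j ‖fc G j‖ + φ(q)Bd²/√J)`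
(`t_kernel`).  `fc G j = ∑_{x unit} F_j(x) ee(-(n x/q))`, `F_j(x) = fc (fun t => f x t * g x t) j`; by
`q_kernel` and `fq_mul` (`ξ' = changeLevel ξ`):
`‖fc G j‖ ≤ κ ∑_ξ ‖∑_x ξ'(x) F_j(x)‖ ≤ κ φ(q) ∑_ξ ∑'_p ‖fq f p.1 p.2‖ ‖fq g (ξ' p.1⁻¹) (j - p.2)‖`.
For `T ≥ 1`: `Z(T) := ∑_{|j| ≤ T} ∑_ξ ∑'_p ‖..‖‖..‖ ≤ √((a1 T + b1)(a2 T + b2) S1 S2)` by `coset_cauchy` with
`S = univ ×ˢ Icc (-T) T`, `σ_(ξ,j) (χ,k) = (ξ' χ⁻¹, j - k)` (an involution), `x1 = ‖fq f‖`, `x2 = ‖fq g‖`; the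
hypothesis on `α` is used with `χ⁻¹`, `-k` (reindex `j - k`).
Dyadic: `T_0 = ⌊8|ρ|⌋₊ + 1`, `T_i = 2^i T_0`, `i ≤ I`, `T_I ≥ J`, `I ≤ 2 + 2 log J`.  For `|j| ≤ J`:
`k_j ≤ ∑_i w_i 1[|j| ≤ T_i]`, `w_0 = 2/√(1+|ρ|)` (if `|j| ≤ T_0` and `k_j = 1/|j|`: `|j| ≥ 1`, `|j| > 8|ρ|` so
`|j| ≥ (1+8|ρ|)/2 ≥ √(1+|ρ|)/2`), `w_i = 2/T_i` for `i ≥ 1` (`|j| > T_{i-1}`).
`w_i √((a1T_i+b1)(a2T_i+b2)) ≤ (2/T_0) √((a1T_0+b1)(a2T_0+b2))` (since `(a+b/T)` is decreasing) and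
`T_0 ≥ √(1+|ρ|)/2`, `T_0 ≤ 9(1+|ρ|)`.
So `∑_{|j| ≤ J} k_j ‖fc G j‖ ≤ κ φ(q) ∑_i w_i Z(T_i) ≤ C (1+log J) κ φ(q) √(S1S2) √((a1(1+|ρ|)+b1)(a2(1+|ρ|)+b2))/√(1+|ρ|)`.
-/

set_option autoImplicit false

namespace Pool.MP_dd84fd_nt.PL

open Finset Pool.MP_67663b_nt.Odd

/-- pointwise dyadic bound of the weights -/
private theorem oq_kj (ρ : ℝ) (T0 I J : ℕ) (h8 : 8 * |ρ| < T0) (h1 : 1 ≤ T0) (hI : J ≤ 2 ^ I * T0)
    (j : ℤ) (hj : |(j : ℝ)| ≤ J) :
    kj ρ j ≤ (if |(j : ℝ)| ≤ T0 then 2 / Real.sqrt (1 + |ρ|) else 0) +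
      ∑ i ∈ range I, (if |(j : ℝ)| ≤ 2 ^ (i + 1) * T0 then 2 / (2 ^ (i + 1) * (T0 : ℝ)) else 0) := by
  have hr : 0 ≤ |ρ| := abs_nonneg ρ
  have hs : 0 < Real.sqrt (1 + |ρ|) := Real.sqrt_pos.2 (by linarith)
  have hT0 : (1 : ℝ) ≤ T0 := by exact_mod_cast h1
  have hsum0 : 0 ≤ ∑ i ∈ range I,
      (if |(j : ℝ)| ≤ 2 ^ (i + 1) * T0 then 2 / (2 ^ (i + 1) * (T0 : ℝ)) else 0) := by
    refine Finset.sum_nonneg fun i _ => ?_
    split_ifs
    · positivity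
    · exact le_rfl
  by_cases hjT : |(j : ℝ)| ≤ T0
  · rw [if_pos hjT]
    refine le_trans ?_ (le_add_of_nonneg_right hsum0)
    unfold kj
    split_ifs with hc
    · exact div_le_div_of_nonneg_right (by norm_num) hs.le
    · push Not at hc
      obtain ⟨hc1, hc2⟩ := hc
      have hj1 : (1 : ℝ) ≤ |(j : ℝ)| := by
        have : (1 : ℤ) ≤ |j| := Int.one_le_abs hc2
        exact_mod_cast this
      rw [div_le_div_iff₀ (by linarith) hs, one_mul]
      refine Real.sqrt_le_iff.2 ⟨by linarith, ?_⟩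
      nlinarith
  · rw [if_neg hjT, zero_add]
    push Not at hjT
    have hne : j ≠ 0 := by
      rintro rfl
      simp at hjT
      linarith
    have hk : kj ρ j = 1 / |(j : ℝ)| := by
      unfold kj
      rw [if_neg]
      push Not
      exact ⟨by linarith, hne⟩
    rw [hk]
    -- least `i` with `|j| ≤ 2^(i+1) T0`
    have hex : ∃ i, |(j : ℝ)| ≤ 2 ^ (i + 1) * T0 := by
      refine ⟨I, hj.trans ?_⟩
      have : (J : ℝ) ≤ 2 ^ I * T0 := by exact_mod_cast hI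
      have h2 : (2 : ℝ) ^ I ≤ 2 ^ (I + 1) := pow_le_pow_right₀ (by norm_num) (by omega)
      nlinarith
    classical
    let i := Nat.find hex
    have hi : |(j : ℝ)| ≤ 2 ^ (i + 1) * T0 := Nat.find_spec hex
    have hlow : 2 ^ i * (T0 : ℝ) < |(j : ℝ)| := by
      rcases Nat.eq_zero_or_pos i with h0 | hpos
      · rw [h0]; simpa using hjT
      · have := Nat.find_min hex (show i - 1 < Nat.find hex by
          have : i = Nat.find hex := rfl
          omega)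
        push Not at this
        rwa [Nat.sub_add_cancel hpos] at this
    have hiI : i < I := by
      by_contra hcon
      push Not at hcon
      have h2 : (J : ℝ) ≤ 2 ^ I * T0 := by exact_mod_cast hI
      have h3 : (2 : ℝ) ^ I ≤ 2 ^ i := pow_le_pow_right₀ (by norm_num) hcon
      nlinarith
    have hterm : (if |(j : ℝ)| ≤ 2 ^ (i + 1) * T0 then 2 / (2 ^ (i + 1) * (T0 : ℝ)) else 0) ≤
        ∑ i ∈ range I, (if |(j : ℝ)| ≤ 2 ^ (i + 1) * T0 then 2 / (2 ^ (i + 1) * (T0 : ℝ)) else 0) := by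
      refine Finset.single_le_sum (f := fun i => (if |(j : ℝ)| ≤ 2 ^ (i + 1) * T0 then
        2 / (2 ^ (i + 1) * (T0 : ℝ)) else 0)) (fun i _ => ?_) (Finset.mem_range.2 hiI)
      split_ifs
      · positivity
      · exact le_rfl
    refine le_trans ?_ hterm
    rw [if_pos hi, div_le_div_iff₀ (by nlinarith) (by positivity), pow_succ]
    linarith

/-- the dyadic summation -/
private theorem oq_dyadic (u : ℤ → ℝ) (hu : ∀ j, 0 ≤ u j) (P a1 b1 a2 b2 : ℝ) (hP : 0 ≤ P)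
    (ha1 : 0 ≤ a1) (hb1 : 0 ≤ b1) (ha2 : 0 ≤ a2) (hb2 : 0 ≤ b2)
    (hN : ∀ T : ℕ, 1 ≤ T → ∑ j ∈ Icc (-(T : ℤ)) T, u j ≤
      P * Real.sqrt ((a1 * T + b1) * (a2 * T + b2))) (ρ : ℝ) (J : ℕ) (hJ : 1 ≤ J) :
    ∑ j ∈ Icc (-(J : ℤ)) J, kj ρ j * u j ≤ 72 * (1 + Real.log J) *
      (P * Real.sqrt ((a1 * (1 + |ρ|) + b1) * (a2 * (1 + |ρ|) + b2)) / Real.sqrt (1 + |ρ|)) := by
  have hr : 0 ≤ |ρ| := abs_nonneg ρ
  have hs : 0 < Real.sqrt (1 + |ρ|) := Real.sqrt_pos.2 (by linarith)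
  set M : ℝ := P * Real.sqrt ((a1 * (1 + |ρ|) + b1) * (a2 * (1 + |ρ|) + b2)) /
    Real.sqrt (1 + |ρ|) with hM
  have hM0 : 0 ≤ M := by rw [hM]; positivity
  set T0 : ℕ := ⌊8 * |ρ|⌋₊ + 1 with hT0
  have hT1 : 1 ≤ T0 := by omega
  have hT1' : (1 : ℝ) ≤ T0 := by exact_mod_cast hT1
  have h8 : 8 * |ρ| < T0 := by rw [hT0]; push_cast; exact Nat.lt_floor_add_one _
  have hT9 : (T0 : ℝ) ≤ 9 * (1 + |ρ|) := by
    rw [hT0]; push_cast
    have := Nat.floor_le (show 0 ≤ 8 * |ρ| by linarith)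
    linarith
  set I : ℕ := Nat.clog 2 J with hIdef
  have hI : J ≤ 2 ^ I * T0 := by
    have h1 : J ≤ 2 ^ I := Nat.le_pow_clog (by norm_num) J
    calc J ≤ 2 ^ I := h1
      _ = 2 ^ I * 1 := (mul_one _).symm
      _ ≤ 2 ^ I * T0 := Nat.mul_le_mul_left _ hT1
  have hIlog : (I : ℝ) ≤ 1 + 2 * Real.log J := by
    have hlogJ : 0 ≤ Real.log J := Real.log_natCast_nonneg J
    rcases Nat.lt_or_ge 1 J with h | h
    · have h1 : 2 ^ (I - 1) < J := Nat.pow_pred_clog_lt_self (by norm_num) h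
      have hIpos : 0 < I := Nat.clog_pos (by norm_num) h
      have h2 : (2 : ℝ) ^ (I - 1) ≤ J := by exact_mod_cast h1.le
      have h3 : ((I - 1 : ℕ) : ℝ) * Real.log 2 ≤ Real.log J := by
        rw [← Real.log_pow]
        exact Real.log_le_log (by positivity) h2
      rw [Nat.cast_sub hIpos, Nat.cast_one] at h3
      have h4 := Real.log_two_gt_d9
      nlinarith
    · have : J = 1 := le_antisymm h hJ
      have h5 : I = 0 := by rw [hIdef, this]; simp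
      rw [h5]; push_cast; linarith
  -- the two kinds of terms
  have hq0 : Real.sqrt ((a1 * T0 + b1) * (a2 * T0 + b2)) ≤
      9 * Real.sqrt ((a1 * (1 + |ρ|) + b1) * (a2 * (1 + |ρ|) + b2)) := by
    have e1 : (9 : ℝ) = Real.sqrt (9 * 9) := by
      rw [Real.sqrt_mul_self (by norm_num)]
    rw [e1, ← Real.sqrt_mul (by norm_num)]
    refine Real.sqrt_le_sqrt ?_
    have e2 : a1 * T0 + b1 ≤ 9 * (a1 * (1 + |ρ|) + b1) := by nlinarith
    have e3 : a2 * T0 + b2 ≤ 9 * (a2 * (1 + |ρ|) + b2) := by nlinarith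
    calc (a1 * T0 + b1) * (a2 * T0 + b2) ≤
        (9 * (a1 * (1 + |ρ|) + b1)) * (9 * (a2 * (1 + |ρ|) + b2)) :=
          mul_le_mul e2 e3 (by positivity) (by positivity)
      _ = _ := by ring
  have hA : 2 / Real.sqrt (1 + |ρ|) * (P * Real.sqrt ((a1 * T0 + b1) * (a2 * T0 + b2))) ≤
      36 * M := by
    calc 2 / Real.sqrt (1 + |ρ|) * (P * Real.sqrt ((a1 * T0 + b1) * (a2 * T0 + b2)))
        ≤ 2 / Real.sqrt (1 + |ρ|) * (P * (9 * Real.sqrt ((a1 * (1 + |ρ|) + b1) *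
          (a2 * (1 + |ρ|) + b2)))) := by gcongr
      _ = 18 * M := by rw [hM]; ring
      _ ≤ 36 * M := by linarith
  have hT0s : 1 / (T0 : ℝ) ≤ 2 / Real.sqrt (1 + |ρ|) := by
    rw [div_le_div_iff₀ (by linarith) hs, one_mul]
    refine Real.sqrt_le_iff.2 ⟨by linarith, ?_⟩
    nlinarith
  have hB : ∀ i : ℕ, 2 / (2 ^ (i + 1) * (T0 : ℝ)) *
      (P * Real.sqrt ((a1 * ((2 ^ (i + 1) * T0 : ℕ) : ℝ) + b1) *
        (a2 * ((2 ^ (i + 1) * T0 : ℕ) : ℝ) + b2))) ≤ 36 * M := by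
    intro i
    set w : ℝ := 2 ^ (i + 1) with hw
    have hw1 : 1 ≤ w := one_le_pow₀ (by norm_num)
    have hcast : ((2 ^ (i + 1) * T0 : ℕ) : ℝ) = w * T0 := by rw [hw]; push_cast; ring
    rw [hcast]
    have e1 : Real.sqrt ((a1 * (w * T0) + b1) * (a2 * (w * T0) + b2)) ≤
        w * Real.sqrt ((a1 * T0 + b1) * (a2 * T0 + b2)) := by
      have e0 : w = Real.sqrt (w * w) := (Real.sqrt_mul_self (by linarith)).symm
      conv_rhs => rw [e0]
      rw [← Real.sqrt_mul (by nlinarith)]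
      refine Real.sqrt_le_sqrt ?_
      have e2 : a1 * (w * T0) + b1 ≤ w * (a1 * T0 + b1) := by nlinarith
      have e3 : a2 * (w * T0) + b2 ≤ w * (a2 * T0 + b2) := by nlinarith
      calc (a1 * (w * T0) + b1) * (a2 * (w * T0) + b2) ≤
          (w * (a1 * T0 + b1)) * (w * (a2 * T0 + b2)) :=
            mul_le_mul e2 e3 (by positivity) (by positivity)
        _ = _ := by ring
    calc 2 / (w * (T0 : ℝ)) * (P * Real.sqrt ((a1 * (w * T0) + b1) * (a2 * (w * T0) + b2)))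
        ≤ 2 / (w * (T0 : ℝ)) * (P * (w * Real.sqrt ((a1 * T0 + b1) * (a2 * T0 + b2)))) := by
          gcongr
      _ = 2 * P * (1 / (T0 : ℝ)) * Real.sqrt ((a1 * T0 + b1) * (a2 * T0 + b2)) := by
          field_simp
      _ ≤ 2 * P * (2 / Real.sqrt (1 + |ρ|)) *
          (9 * Real.sqrt ((a1 * (1 + |ρ|) + b1) * (a2 * (1 + |ρ|) + b2))) := by gcongr
      _ = 36 * M := by rw [hM]; ring
  -- summation
  have hmem : ∀ j ∈ Icc (-(J : ℤ)) J, |(j : ℝ)| ≤ J := by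
    intro j hj
    rw [Finset.mem_Icc] at hj
    rw [abs_le]
    constructor
    · have : ((-(J : ℤ) : ℤ) : ℝ) ≤ (j : ℝ) := by exact_mod_cast hj.1
      push_cast at this; exact this
    · exact_mod_cast hj.2
  have hS : ∀ T : ℕ, 1 ≤ T → ∑ j ∈ Icc (-(J : ℤ)) J, (if |(j : ℝ)| ≤ (T : ℝ) then u j else 0) ≤
      P * Real.sqrt ((a1 * T + b1) * (a2 * T + b2)) := by
    intro T hT
    refine le_trans ?_ (hN T hT)
    rw [← Finset.sum_filter]
    refine Finset.sum_le_sum_of_subset_of_nonneg ?_ (fun j _ _ => hu j)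
    intro j hj
    rw [Finset.mem_filter] at hj
    have := abs_le.1 hj.2
    rw [Finset.mem_Icc]
    constructor
    · have h3 : ((-(T : ℤ) : ℤ) : ℝ) ≤ (j : ℝ) := by push_cast; exact this.1
      exact_mod_cast h3
    · exact_mod_cast this.2
  calc ∑ j ∈ Icc (-(J : ℤ)) J, kj ρ j * u j
      ≤ ∑ j ∈ Icc (-(J : ℤ)) J, ((if |(j : ℝ)| ≤ T0 then 2 / Real.sqrt (1 + |ρ|) else 0) +
        ∑ i ∈ range I, (if |(j : ℝ)| ≤ 2 ^ (i + 1) * T0 then 2 / (2 ^ (i + 1) * (T0 : ℝ))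
          else 0)) * u j :=
        Finset.sum_le_sum fun j hj => mul_le_mul_of_nonneg_right
          (oq_kj ρ T0 I J h8 hT1 hI j (hmem j hj)) (hu j)
    _ = 2 / Real.sqrt (1 + |ρ|) *
          (∑ j ∈ Icc (-(J : ℤ)) J, (if |(j : ℝ)| ≤ (T0 : ℝ) then u j else 0)) +
        ∑ i ∈ range I, 2 / (2 ^ (i + 1) * (T0 : ℝ)) *
          (∑ j ∈ Icc (-(J : ℤ)) J,
            (if |(j : ℝ)| ≤ ((2 ^ (i + 1) * T0 : ℕ) : ℝ) then u j else 0)) := by
        simp only [add_mul, Finset.sum_add_distrib, Finset.sum_mul, Finset.mul_sum]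
        congr 1
        · refine Finset.sum_congr rfl fun j _ => ?_
          split_ifs <;> ring
        · rw [Finset.sum_comm]
          refine Finset.sum_congr rfl fun i _ => Finset.sum_congr rfl fun j _ => ?_
          push_cast
          split_ifs <;> ring
    _ ≤ 36 * M + ∑ i ∈ range I, 36 * M := by
        refine add_le_add ?_ (Finset.sum_le_sum fun i _ => ?_)
        · exact (mul_le_mul_of_nonneg_left (hS T0 hT1) (by positivity)).trans hA
        · refine (mul_le_mul_of_nonneg_left (hS (2 ^ (i + 1) * T0) ?_) (by positivity)).trans (hB i)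
          exact Nat.one_le_iff_ne_zero.2 (Nat.mul_ne_zero (by positivity) (by omega))
    _ = (1 + (I : ℝ)) * (36 * M) := by
        rw [Finset.sum_const, Finset.card_range, nsmul_eq_mul]; ring
    _ ≤ (1 + (1 + 2 * Real.log J)) * (36 * M) := by gcongr
    _ = 72 * (1 + Real.log J) * M := by ring

/-- number of units -/
private theorem oq_card (q : ℕ) [NeZero q] :
    ((univ.filter (fun x : ZMod q => IsUnit x)).card : ℝ) = Nat.totient q := by
  rw [← ZMod.card_units_eq_totient]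
  congr 1
  rw [← Finset.card_univ, ← Finset.card_map ⟨((↑) : (ZMod q)ˣ → ZMod q), Units.val_injective⟩]
  congr 1
  ext x
  simp only [Finset.mem_filter, Finset.mem_univ, true_and, Finset.mem_map,
    Function.Embedding.coeFn_mk]
  rfl

/-- the involution -/
private noncomputable def oqσ (q : ℕ) (ψ : DirichletCharacter ℂ q) (j : ℤ) :
    DirichletCharacter ℂ q × ℤ ≃ DirichletCharacter ℂ q × ℤ where
  toFun p := (ψ * p.1⁻¹, j - p.2)
  invFun p := (ψ * p.1⁻¹, j - p.2)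
  left_inv p := by
    ext1
    · simp
    · simp
  right_inv p := by
    ext1
    · simp
    · simp

/-- the window bound -/
private theorem oq_window (q h : ℕ) [NeZero q] [NeZero h] (hd : h ∣ q)
    (α : DirichletCharacter ℂ q × ℤ → ℝ) (a b : ℝ)
    (hα : ∀ T : ℕ, 1 ≤ T → ∀ (χ : DirichletCharacter ℂ q) (k : ℤ),
      ∑ ξ : DirichletCharacter ℂ h, ∑ j ∈ Icc (k - T) (k + T),
        α (DirichletCharacter.changeLevel hd ξ * χ, j) ^ 2 ≤ a * T + b)
    (T : ℕ) (hT : 1 ≤ T) (g : DirichletCharacter ℂ q × ℤ) :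
    ∑ s ∈ (univ : Finset (DirichletCharacter ℂ h)) ×ˢ Icc (-(T : ℤ)) T,
      α (DirichletCharacter.changeLevel hd s.1 * g.1⁻¹, s.2 - g.2) ^ 2 ≤ a * T + b := by
  refine le_trans (le_of_eq ?_) (hα T hT g.1⁻¹ (-g.2))
  rw [Finset.sum_product]
  refine Finset.sum_congr rfl fun ξ _ => ?_
  refine Finset.sum_nbij' (fun j => j - g.2) (fun j => j + g.2) ?_ ?_ ?_ ?_ ?_
  · intro j hj
    rw [Finset.mem_Icc] at hj ⊢
    constructor <;> omega
  · intro j hj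
    rw [Finset.mem_Icc] at hj ⊢
    constructor <;> omega
  · intro j _; ring
  · intro j _; ring
  · intro j _; rfl

theorem one_q : ∃ C : ℝ, 0 < C ∧ ∀ (q h n : ℕ) [NeZero q] [NeZero h] (_ : h = hq q n) (hd : h ∣ q)
    (f g : ZMod q → ℝ → ℂ) (Bd : ℝ), 0 ≤ Bd → (∀ x, Measurable (f x)) → (∀ x, Measurable (g x)) →
    (∀ x t, ‖f x t‖ ≤ Bd) → (∀ x t, ‖g x t‖ ≤ Bd) →
    ∀ (α1 β1 α2 β2 : DirichletCharacter ℂ q × ℤ → ℝ),
    (∀ p, 0 ≤ α1 p) → (∀ p, 0 ≤ β1 p) → (∀ p, 0 ≤ α2 p) → (∀ p, 0 ≤ β2 p) →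
    (∀ p, ‖fq q f p.1 p.2‖ ≤ α1 p * β1 p) → (∀ p, ‖fq q g p.1 p.2‖ ≤ α2 p * β2 p) →
    ∀ (a1 b1 a2 b2 S1 S2 : ℝ), 0 ≤ a1 → 0 ≤ b1 → 0 ≤ a2 → 0 ≤ b2 →
    (∀ T : ℕ, 1 ≤ T → ∀ (χ : DirichletCharacter ℂ q) (k : ℤ),
      ∑ ξ : DirichletCharacter ℂ h, ∑ j ∈ Icc (k - T) (k + T),
        α1 (DirichletCharacter.changeLevel hd ξ * χ, j) ^ 2 ≤ a1 * T + b1) →
    (∀ T : ℕ, 1 ≤ T → ∀ (χ : DirichletCharacter ℂ q) (k : ℤ),
      ∑ ξ : DirichletCharacter ℂ h, ∑ j ∈ Icc (k - T) (k + T),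
        α2 (DirichletCharacter.changeLevel hd ξ * χ, j) ^ 2 ≤ a2 * T + b2) →
    (Summable fun p => β1 p ^ 2) → ∑' p, β1 p ^ 2 ≤ S1 →
    (Summable fun p => β2 p ^ 2) → ∑' p, β2 p ^ 2 ≤ S2 →
    ∀ (ρ : ℝ) (J : ℕ), 1 ≤ J → 8 * |ρ| ≤ J →
    ‖∑ y ∈ univ.filter (fun y : ZMod q => IsUnit y),
        (∫ t in (0 : ℝ)..(Real.log 2 / 2), f y t * g y t * ((2 * Real.exp (2 * t) : ℝ) : ℂ) *
          ee (ρ * Real.exp (2 * t))) * ee (-((n : ℝ) * ((y.val : ℝ) / q)))‖ ≤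
      C * (1 + Real.log J) * (Real.sqrt ((h : ℝ) * h.divisors.card) / Nat.totient h) *
        Nat.totient q * Real.sqrt (S1 * S2) *
        Real.sqrt ((a1 * (1 + |ρ|) + b1) * (a2 * (1 + |ρ|) + b2)) / Real.sqrt (1 + |ρ|) +
      C * Nat.totient q * Bd ^ 2 / Real.sqrt J := by
  obtain ⟨Ct, hCt, hker⟩ := t_kernel
  refine ⟨72 * Ct, by positivity, ?_⟩
  intro q h n _ _ hh hd f g Bd hBd hmf hmg hf hg α1 β1 α2 β2 hα1 hβ1 hα2 hβ2 hx1 hx2 a1 b1 a2 b2
    S1 S2 ha1 hb1 ha2 hb2 hw1 hw2 hs1 hS1 hs2 hS2 ρ J hJ h8J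
  have hφ : (0 : ℝ) < Nat.totient q := by
    exact_mod_cast Nat.totient_pos.2 (Nat.pos_of_ne_zero (NeZero.ne q))
  have hS10 : 0 ≤ S1 := (tsum_nonneg fun g => sq_nonneg (β1 g)).trans hS1
  have hS20 : 0 ≤ S2 := (tsum_nonneg fun g => sq_nonneg (β2 g)).trans hS2
  set κ : ℝ := Real.sqrt ((h : ℝ) * h.divisors.card) / Nat.totient h with hκ
  have hκ0 : 0 ≤ κ := by rw [hκ]; positivity
  set E : ZMod q → ℂ := fun y => ee (-((n : ℝ) * ((y.val : ℝ) / q))) with hE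
  set G : ℝ → ℂ := fun t => ∑ y ∈ univ.filter (fun y : ZMod q => IsUnit y),
    f y t * g y t * E y with hG
  have hEn : ∀ y, ‖E y‖ = 1 := fun y => by rw [hE]; exact norm_ee _
  have hGm : Measurable G := by
    rw [hG]
    exact Finset.measurable_sum _ fun y _ => ((hmf y).mul (hmg y)).mul_const _
  have hfg : ∀ y t, ‖f y t * g y t‖ ≤ Bd ^ 2 := by
    intro y t
    rw [norm_mul, sq]
    exact mul_le_mul (hf y t) (hg y t) (norm_nonneg _) hBd
  have hGb : ∀ t, ‖G t‖ ≤ Nat.totient q * Bd ^ 2 := by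
    intro t
    calc ‖G t‖ ≤ ∑ y ∈ univ.filter (fun y : ZMod q => IsUnit y), Bd ^ 2 := by
          refine (norm_sum_le _ _).trans (Finset.sum_le_sum fun y _ => ?_)
          rw [norm_mul, hEn, mul_one]
          exact hfg y t
      _ = Nat.totient q * Bd ^ 2 := by rw [Finset.sum_const, nsmul_eq_mul, oq_card]
  have hint : ∀ (y : ZMod q) (φ : ℝ → ℂ), Continuous φ → ∀ c d : ℝ,
      IntervalIntegrable (fun t => f y t * g y t * φ t) MeasureTheory.volume c d := by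
    intro y φ hφc c d
    have h1 : IntervalIntegrable φ MeasureTheory.volume c d := hφc.intervalIntegrable c d
    refine IntervalIntegrable.mono_fun (h1.norm.const_mul (Bd ^ 2)) ?_ ?_
    · exact ((hmf y).mul (hmg y)).mul hφc.measurable |>.aestronglyMeasurable
    · refine Filter.Eventually.of_forall fun t => ?_
      dsimp only
      rw [norm_mul, Real.norm_of_nonneg (by positivity)]
      exact mul_le_mul_of_nonneg_right (hfg y t) (norm_nonneg _)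
  -- left side
  have hleft : ∑ y ∈ univ.filter (fun y : ZMod q => IsUnit y),
        (∫ t in (0 : ℝ)..(Real.log 2 / 2), f y t * g y t * ((2 * Real.exp (2 * t) : ℝ) : ℂ) *
          ee (ρ * Real.exp (2 * t))) * ee (-((n : ℝ) * ((y.val : ℝ) / q))) =
      ∫ t in (0 : ℝ)..(Real.log 2 / 2), G t * ((2 * Real.exp (2 * t) : ℝ) : ℂ) *
        ee (ρ * Real.exp (2 * t)) := by
    have hc : Continuous fun t : ℝ => ((2 * Real.exp (2 * t) : ℝ) : ℂ) *
        ee (ρ * Real.exp (2 * t)) := by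
      refine Continuous.mul (by fun_prop) (ee_cont.comp (by fun_prop))
    have h1 : ∀ t, G t * ((2 * Real.exp (2 * t) : ℝ) : ℂ) * ee (ρ * Real.exp (2 * t)) =
        ∑ y ∈ univ.filter (fun y : ZMod q => IsUnit y),
          (f y t * g y t * (((2 * Real.exp (2 * t) : ℝ) : ℂ) * ee (ρ * Real.exp (2 * t)))) * E y := by
      intro t
      rw [hG]
      dsimp only
      rw [Finset.sum_mul, Finset.sum_mul]
      refine Finset.sum_congr rfl fun y _ => ?_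
      ring
    simp_rw [h1]
    rw [intervalIntegral.integral_finsetSum]
    · refine Finset.sum_congr rfl fun y _ => ?_
      rw [intervalIntegral.integral_mul_const]
      congr 1
      refine intervalIntegral.integral_congr fun t _ => ?_
      ring
    · intro y _
      exact (hint y _ hc _ _).mul_const _
  rw [hleft]
  -- Fourier coefficients of `G`
  have hfcG : ∀ j : ℤ, fc G j = ∑ y ∈ univ.filter (fun y : ZMod q => IsUnit y),
      fc (fun t => f y t * g y t) j * ee (-((n : ℝ) * ((y.val : ℝ) / q))) := by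
    intro j
    unfold fc
    have hc : Continuous fun t : ℝ => ee ((j : ℝ) * t) := ee_cont.comp (by fun_prop)
    have h1 : ∀ t, G t * ee ((j : ℝ) * t) = ∑ y ∈ univ.filter (fun y : ZMod q => IsUnit y),
          (f y t * g y t * ee ((j : ℝ) * t)) * E y := by
      intro t
      rw [hG]
      dsimp only
      rw [Finset.sum_mul]
      refine Finset.sum_congr rfl fun y _ => ?_
      ring
    simp_rw [h1]
    rw [intervalIntegral.integral_finsetSum]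
    · refine Finset.sum_congr rfl fun y _ => ?_
      rw [intervalIntegral.integral_mul_const]
    · intro y _
      exact (hint y _ hc _ _).mul_const _
  have hcc : ∀ T : ℕ, 1 ≤ T →
      (∀ s ∈ (univ : Finset (DirichletCharacter ℂ h)) ×ˢ Icc (-(T : ℤ)) T,
        Summable fun p : DirichletCharacter ℂ q × ℤ =>
          |‖fq q f p.1 p.2‖ * ‖fq q g (DirichletCharacter.changeLevel hd s.1 * p.1⁻¹)
            (s.2 - p.2)‖|) ∧
      ∑ s ∈ (univ : Finset (DirichletCharacter ℂ h)) ×ˢ Icc (-(T : ℤ)) T,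
        ∑' p : DirichletCharacter ℂ q × ℤ,
          |‖fq q f p.1 p.2‖ * ‖fq q g (DirichletCharacter.changeLevel hd s.1 * p.1⁻¹)
            (s.2 - p.2)‖| ≤
        Real.sqrt ((a1 * T + b1) * (a2 * T + b2) * (S1 * S2)) := by
    intro T hT
    exact coset_cauchy ((univ : Finset (DirichletCharacter ℂ h)) ×ˢ Icc (-(T : ℤ)) T)
      (fun s => oqσ q (DirichletCharacter.changeLevel hd s.1) s.2)
      (fun p => ‖fq q f p.1 p.2‖) (fun p => ‖fq q g p.1 p.2‖) α1 β1 α2 β2 hα1 hβ1 hα2 hβ2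
      (fun p => by rw [abs_of_nonneg (norm_nonneg _)]; exact hx1 p)
      (fun p => by rw [abs_of_nonneg (norm_nonneg _)]; exact hx2 p)
      (a1 * T + b1) (a2 * T + b2) S1 S2
      (fun p => oq_window q h hd α1 a1 b1 hw1 T hT p)
      (fun p => oq_window q h hd α2 a2 b2 hw2 T hT p) hs1 hS1 hs2 hS2
  have hpt : ∀ (T : ℕ), 1 ≤ T → ∀ j ∈ Icc (-(T : ℤ)) T, ‖fc G j‖ ≤ κ * Nat.totient q *
      ∑ ξ : DirichletCharacter ℂ h, ∑' p : DirichletCharacter ℂ q × ℤ,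
        |‖fq q f p.1 p.2‖ * ‖fq q g (DirichletCharacter.changeLevel hd ξ * p.1⁻¹) (j - p.2)‖| := by
    intro T hT j hj
    rw [hfcG j]
    refine (q_kernel q h n hh hd (fun y => fc (fun t => f y t * g y t) j)).trans ?_
    rw [mul_assoc κ]
    refine mul_le_mul_of_nonneg_left ?_ hκ0
    rw [Finset.mul_sum]
    refine Finset.sum_le_sum fun ξ _ => ?_
    have hsm := (hcc T hT).1 (ξ, j) (Finset.mem_product.2 ⟨Finset.mem_univ _, hj⟩)
    have hmul := fq_mul q f g Bd hmf hmg hf hg (DirichletCharacter.changeLevel hd ξ) j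
    have hnorm : ∀ p : DirichletCharacter ℂ q × ℤ,
        ‖fq q f p.1 p.2 * fq q g (DirichletCharacter.changeLevel hd ξ * p.1⁻¹) (j - p.2)‖ =
        |‖fq q f p.1 p.2‖ * ‖fq q g (DirichletCharacter.changeLevel hd ξ * p.1⁻¹) (j - p.2)‖| := by
      intro p
      rw [norm_mul, abs_of_nonneg (by positivity)]
    have hle : ‖(1 / (Nat.totient q : ℂ)) * ∑ x : ZMod q, DirichletCharacter.changeLevel hd ξ x *
        fc (fun t => f x t * g x t) j‖ ≤ ∑' p : DirichletCharacter ℂ q × ℤ,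
        |‖fq q f p.1 p.2‖ * ‖fq q g (DirichletCharacter.changeLevel hd ξ * p.1⁻¹) (j - p.2)‖| := by
      rw [← hmul.tsum_eq]
      have hsm' : Summable fun p : DirichletCharacter ℂ q × ℤ =>
          ‖fq q f p.1 p.2 * fq q g (DirichletCharacter.changeLevel hd ξ * p.1⁻¹) (j - p.2)‖ := by
        simp_rw [hnorm]; exact hsm
      refine (norm_tsum_le_tsum_norm hsm').trans (le_of_eq ?_)
      simp_rw [hnorm]
    rw [norm_mul, norm_div, norm_one, Complex.norm_natCast, one_div] at hle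
    rw [inv_mul_le_iff₀ hφ] at hle
    exact hle
  have hlev : ∀ T : ℕ, 1 ≤ T → ∑ j ∈ Icc (-(T : ℤ)) T, ‖fc G j‖ ≤
      (κ * Nat.totient q * Real.sqrt (S1 * S2)) *
        Real.sqrt ((a1 * T + b1) * (a2 * T + b2)) := by
    intro T hT
    have h2 := (hcc T hT).2
    calc ∑ j ∈ Icc (-(T : ℤ)) T, ‖fc G j‖
        ≤ ∑ j ∈ Icc (-(T : ℤ)) T, κ * Nat.totient q *
          ∑ ξ : DirichletCharacter ℂ h, ∑' p : DirichletCharacter ℂ q × ℤ,
            |‖fq q f p.1 p.2‖ *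
              ‖fq q g (DirichletCharacter.changeLevel hd ξ * p.1⁻¹) (j - p.2)‖| :=
          Finset.sum_le_sum fun j hj => hpt T hT j hj
      _ = κ * Nat.totient q *
          ∑ s ∈ (univ : Finset (DirichletCharacter ℂ h)) ×ˢ Icc (-(T : ℤ)) T,
            ∑' p : DirichletCharacter ℂ q × ℤ,
              |‖fq q f p.1 p.2‖ * ‖fq q g (DirichletCharacter.changeLevel hd s.1 * p.1⁻¹)
                (s.2 - p.2)‖| := by
          rw [← Finset.mul_sum, Finset.sum_product_right]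
      _ ≤ κ * Nat.totient q * Real.sqrt ((a1 * T + b1) * (a2 * T + b2) * (S1 * S2)) :=
          mul_le_mul_of_nonneg_left h2 (by positivity)
      _ = _ := by
          rw [Real.sqrt_mul (by positivity)]
          ring
  have hdy := oq_dyadic (fun j => ‖fc G j‖) (fun j => norm_nonneg _)
    (κ * Nat.totient q * Real.sqrt (S1 * S2)) a1 b1 a2 b2 (by positivity) ha1 hb1 ha2 hb2
    hlev ρ J hJ
  have hk := hker G (Nat.totient q * Bd ^ 2) hGm hGb ρ J hJ h8J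
  refine hk.trans ?_
  have hsJ : 0 < Real.sqrt (J : ℝ) := Real.sqrt_pos.2 (by exact_mod_cast hJ)
  have h72 : Ct * ((Nat.totient q : ℝ) * Bd ^ 2 / Real.sqrt J) ≤
      72 * Ct * Nat.totient q * Bd ^ 2 / Real.sqrt J := by
    have : 0 ≤ (Nat.totient q : ℝ) * Bd ^ 2 / Real.sqrt J := by positivity
    calc Ct * ((Nat.totient q : ℝ) * Bd ^ 2 / Real.sqrt J)
        ≤ 72 * (Ct * ((Nat.totient q : ℝ) * Bd ^ 2 / Real.sqrt J)) := by
          have := mul_nonneg hCt.le this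
          linarith
      _ = _ := by ring
  rw [mul_add]
  refine add_le_add ?_ h72
  calc Ct * ∑ j ∈ Icc (-(J : ℤ)) J, kj ρ j * ‖fc G j‖
      ≤ Ct * (72 * (1 + Real.log J) * (κ * Nat.totient q * Real.sqrt (S1 * S2) *
        Real.sqrt ((a1 * (1 + |ρ|) + b1) * (a2 * (1 + |ρ|) + b2)) / Real.sqrt (1 + |ρ|))) :=
        mul_le_mul_of_nonneg_left hdy hCt.le
    _ = _ := by ring

end Pool.MP_dd84fd_nt.PL
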