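import Pool.Agent.Lib.MP_dd84fd_nt.PL.Defs
import Pool.Agent.Lib.MP_dd84fd_nt.L2G.CharOrth
import Pool.Agent.Lib.BV.LSieve

/-!
# PL-MV: mean value over a coset of characters and an interval of frequencies

Proof.  For `m` coprime to `q` one has `(changeLevel ξ * χ)(m) = ξ(m) χ(m)`, otherwise both sides vanish.
For fixed `j` apply `L2G.co_parseval_zmod`/`char_parseval` modulo `h` to the coefficients
`a_m χ(m) e(j μ_m)` (`μ_m = log(m/M)/2`):  `∑_ξ ‖..‖² = φ(h) ∑_{c mod h unit} ‖∑_{m ≡ c} a_m χ(m) e(j μ_m)‖²`.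
One class `c`, coefficients `γ_m`, `|γ_m| ≤ A0`:
`∑_{|j-k| ≤ T} ‖∑_m γ_m e(j μ_m)‖² ≤ 2 ∑_j (1 - |j-k|/(2T))^+ ‖..‖² ≤ 2 A0² ∑_{m,m' ≡ c} |∑_i (1-|i|/(2T))^+ e(i(μ_m-μ_m'))|`
and `∑_{|i|<2T} (1-|i|/(2T)) e(iδ) = (1/2T) |∑_{0 ≤ i < 2T} e(iδ)|² ≤ min(2T, 1/(8T δ²))` for `|δ| ≤ 1/2`
(`|e(δ)-1| = 2 |sin πδ| ≥ 4|δ|`).  (Alternatively avoid the Fejer identity: expand
`(1/2T) ∑_{i<2T}`: `∑_{|j-k|≤T} |F(j)|² ≤ (2/(2T)) ∑_{u} |..|²` is not needed.)
Here `|μ_m-μ_m'| = |log(m/m')|/2 ∈ [l h/(4M), (log 2)/2]` if `|m-m'| = l h`, so for fixed `m` the sum over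
`m'` is `≤ 2T + 2 ∑_{l ≥ 1} min(2T, 2M²/(T l² h²)) ≤ 2T + C M/h`  (split at `l = M/(Th)`).
Total: `φ(h) · 2A0² · |MM| · (2T + C M/h) ≤ C A0² M (φ(h) T + M)` (`|MM| ≤ M + 1 ≤ 2M`).
-/

set_option autoImplicit false

namespace Pool.MP_dd84fd_nt.PL

open Finset Pool.MP_67663b_nt.Odd

/-- orthogonality -/
private theorem chr_orth (h : ℕ) [NeZero h] (m m' : ℕ) :
    ‖∑ ξ : DirichletCharacter ℂ h, ξ m * (starRingEnd ℂ) (ξ m')‖ ≤
      if m' ≡ m [MOD h] then (h.totient : ℝ) else 0 := by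
  by_cases hl : IsUnit ((m' : ℕ) : ZMod h)
  · have e : ∑ χ : DirichletCharacter ℂ h, χ m * (starRingEnd ℂ) (χ m') =
        ∑ χ : DirichletCharacter ℂ h, χ ((m' : ZMod h)⁻¹) * χ m := by
      refine Finset.sum_congr rfl fun χ _ => ?_
      have h1 : ‖χ ((m' : ℕ) : ZMod h)‖ = 1 := by
        obtain ⟨u, hu⟩ := hl
        rw [← hu]
        exact DirichletCharacter.unit_norm_eq_one χ u
      have h2 : χ ((m' : ℕ) : ZMod h) * χ ((m' : ZMod h)⁻¹) = 1 := by
        rw [← map_mul, ZMod.mul_inv_of_unit _ hl, map_one]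
      have h3 : (starRingEnd ℂ) (χ ((m' : ℕ) : ZMod h)) = χ ((m' : ZMod h)⁻¹) := by
        rw [← Complex.inv_eq_conj h1]
        exact inv_eq_of_mul_eq_one_right h2
      rw [h3, mul_comm]
    rw [e, DirichletCharacter.sum_char_inv_mul_char_eq ℂ hl]
    by_cases hc : (m' : ZMod h) = m
    · rw [if_pos hc, if_pos ((ZMod.natCast_eq_natCast_iff _ _ _).1 hc)]
      simp
    · rw [if_neg hc, if_neg (fun h' => hc ((ZMod.natCast_eq_natCast_iff _ _ _).2 h'))]
      simp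
  · have e : ∑ χ : DirichletCharacter ℂ h, χ m * (starRingEnd ℂ) (χ m') = 0 := by
      refine Finset.sum_eq_zero fun χ _ => ?_
      rw [MulChar.map_nonunit χ hl]
      simp
    rw [e, norm_zero]
    split_ifs <;> positivity

/-- geometric sum -/
private noncomputable def Gg (N : ℕ) (d : ℝ) : ℂ := ∑ i ∈ range N, BV.ee (i * d)

private theorem Gg_triv (N : ℕ) (d : ℝ) : ‖Gg N d‖ ≤ N := by
  unfold Gg
  refine (norm_sum_le _ _).trans ?_
  simp [BV.norm_ee]

private theorem Gg_geo (N : ℕ) (d : ℝ) (hd : |d| ≤ 1 / 2) : ‖Gg N d‖ * (2 * |d|) ≤ 1 := by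
  have h1 : Gg N d * (BV.ee d - 1) = BV.ee (N * d) - 1 := by
    unfold Gg
    have : ∀ i : ℕ, BV.ee (i * d) = (BV.ee d) ^ i := by
      intro i
      induction i with
      | zero => simp [BV.ee_zero]
      | succ i ih =>
        rw [pow_succ, ← ih, ← BV.ee_add]
        congr 1
        push_cast
        ring
    simp only [this]
    exact geom_sum_mul _ _
  have h2 : ‖BV.ee d - 1‖ = 2 * |Real.sin (Real.pi * d)| := by
    have e : BV.ee d = Complex.exp (Complex.I * ((2 * Real.pi * d : ℝ) : ℂ)) := by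
      unfold BV.ee
      congr 1
      push_cast
      ring
    rw [e, Complex.norm_exp_I_mul_ofReal_sub_one, Real.norm_eq_abs, abs_mul, abs_two]
    congr 3
    ring
  have h3 : 2 * |d| ≤ |Real.sin (Real.pi * d)| := by
    have hpi := Real.pi_pos
    have h4 := Real.mul_abs_le_abs_sin (x := Real.pi * d) (by
      rw [abs_mul, abs_of_pos hpi]; nlinarith)
    rw [abs_mul, abs_of_pos hpi] at h4
    have : 2 / Real.pi * (Real.pi * |d|) = 2 * |d| := by field_simp
    rwa [this] at h4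
  have h5 : ‖BV.ee (N * d) - 1‖ ≤ 2 := by
    refine (norm_sub_le _ _).trans ?_
    rw [BV.norm_ee, norm_one]
    norm_num
  have h6 : ‖Gg N d‖ * ‖BV.ee d - 1‖ ≤ 2 := by
    rw [← norm_mul, h1]
    exact h5
  rw [h2] at h6
  have h7 : ‖Gg N d‖ * (2 * |d|) ≤ ‖Gg N d‖ * |Real.sin (Real.pi * d)| :=
    mul_le_mul_of_nonneg_left h3 (norm_nonneg _)
  nlinarith

private theorem Gg_sq (N : ℕ) (d : ℝ) (hd : |d| ≤ 1 / 2) {x : ℝ} (hx : 0 ≤ x) (hxd : x ≤ 2 * |d|) :
    ‖Gg N d‖ ^ 2 ≤ 2 * N ^ 2 / (1 + (N * x) ^ 2) := by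
  have h1 := Gg_triv N d
  have h2 := Gg_geo N d hd
  have h0 := norm_nonneg (Gg N d)
  have h3 : ‖Gg N d‖ * x ≤ 1 := (mul_le_mul_of_nonneg_left hxd h0).trans h2
  rw [le_div_iff₀ (by positivity)]
  have h4 : ‖Gg N d‖ ^ 2 ≤ (N : ℝ) ^ 2 := pow_le_pow_left₀ h0 h1 2
  have h5 : (‖Gg N d‖ * x) ^ 2 ≤ 1 := pow_le_one₀ (mul_nonneg h0 hx) h3
  have h6 : ‖Gg N d‖ ^ 2 * (1 + (N * x) ^ 2) = ‖Gg N d‖ ^ 2 + (N : ℝ) ^ 2 * (‖Gg N d‖ * x) ^ 2 := by
    ring
  rw [h6]
  nlinarith [mul_le_mul_of_nonneg_left h5 (sq_nonneg (N : ℝ))]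

private theorem sum_cl (c : ℝ) (hc : 0 < c) (K : ℕ) :
    ∑ l ∈ range K, 1 / (1 + (c * l) ^ 2) ≤ 1 + 2 / c := by
  have h : ∀ K : ℕ, ∑ l ∈ range (K + 1), 1 / (1 + (c * l) ^ 2) ≤
      1 + 2 / c * (1 - 1 / (1 + c * K)) := by
    intro K
    induction K with
    | zero => simp
    | succ K ih =>
      rw [Finset.sum_range_succ]
      have hK : (0 : ℝ) ≤ K := Nat.cast_nonneg K
      have a1 : 0 < 1 + c * (K : ℝ) := by positivity
      have a2 : 0 < 1 + c * ((K : ℝ) + 1) := by positivity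
      have h1 : 1 / (1 + (c * ((K + 1 : ℕ) : ℝ)) ^ 2) ≤ 2 / (1 + c * ((K : ℝ) + 1)) ^ 2 := by
        push_cast
        rw [div_le_div_iff₀ (by positivity) (by positivity)]
        nlinarith [sq_nonneg (1 - c * ((K : ℝ) + 1))]
      have h2 : 2 / (1 + c * ((K : ℝ) + 1)) ^ 2 ≤
          2 / c * (1 / (1 + c * K) - 1 / (1 + c * ((K : ℝ) + 1))) := by
        have e : 2 / c * (1 / (1 + c * K) - 1 / (1 + c * ((K : ℝ) + 1))) =
            2 / ((1 + c * K) * (1 + c * ((K : ℝ) + 1))) := by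
          field_simp
          ring
        rw [e, sq]
        apply div_le_div_of_nonneg_left (by norm_num) (mul_pos a1 a2)
        apply mul_le_mul_of_nonneg_right _ a2.le
        nlinarith
      push_cast at h1 ⊢
      have e3 : 1 + 2 / c * (1 - 1 / (1 + c * ((K : ℝ) + 1))) = 1 + 2 / c * (1 - 1 / (1 + c * K)) +
          2 / c * (1 / (1 + c * K) - 1 / (1 + c * ((K : ℝ) + 1))) := by ring
      rw [e3]
      linarith
  rcases Nat.eq_zero_or_pos K with rfl | hK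
  · rw [Finset.sum_range_zero]; positivity
  · obtain ⟨K', rfl⟩ : ∃ K', K = K' + 1 := ⟨K - 1, by omega⟩
    refine (h K').trans ?_
    have h1 : 0 ≤ 1 / (1 + c * (K' : ℝ)) := by positivity
    have h2 : 0 < 2 / c := by positivity
    nlinarith

/-- sum over a residue class -/
private theorem sum_class (h : ℕ) (hh : 0 < h) (s : Finset ℕ) (m : ℕ) (c : ℝ) (hc : 0 < c) :
    ∑ m' ∈ s.filter (fun m' => m' ≡ m [MOD h]), 1 / (1 + (c * |(m : ℝ) - m'| / h) ^ 2) ≤
      2 * (1 + 2 / c) := by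
  set P := s.filter (fun m' => m' ≡ m [MOD h]) with hP
  set f : ℕ → ℕ := fun m' => ((m : ℤ) - m').natAbs / h with hf
  have hdvd : ∀ m' ∈ P, h ∣ ((m : ℤ) - m').natAbs := by
    intro m' hm'
    rw [hP, Finset.mem_filter] at hm'
    have h1 := (Nat.modEq_iff_dvd.1 hm'.2)
    exact Int.natCast_dvd.1 h1
  have hval : ∀ m' ∈ P, |(m : ℝ) - m'| / h = (f m' : ℝ) := by
    intro m' hm'
    obtain ⟨k, hk⟩ := hdvd m' hm'
    have h1 : f m' = k := by
      rw [hf]; simp only; rw [hk]; exact Nat.mul_div_cancel_left k hh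
    rw [h1]
    have h2 : |(m : ℝ) - m'| = ((((m : ℤ) - m').natAbs : ℕ) : ℝ) := by
      rw [Nat.cast_natAbs, Int.cast_abs]; push_cast; rfl
    rw [h2, hk]
    push_cast
    have : (h : ℝ) ≠ 0 := by exact_mod_cast hh.ne'
    field_simp
  have hval2 : ∀ m' ∈ P, 1 / (1 + (c * |(m : ℝ) - m'| / h) ^ 2) = 1 / (1 + (c * (f m' : ℝ)) ^ 2) := by
    intro m' hm'
    rw [mul_div_assoc, hval m' hm']
  rw [Finset.sum_congr rfl hval2]
  have hsplit := Finset.sum_filter_add_sum_filter_not P (fun m' : ℕ => m' ≤ m)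
    (fun m' => 1 / (1 + (c * (f m' : ℝ)) ^ 2))
  have hone : ∀ Q : Finset ℕ, Q ⊆ P → Set.InjOn f Q →
      ∑ m' ∈ Q, 1 / (1 + (c * (f m' : ℝ)) ^ 2) ≤ 1 + 2 / c := by
    intro Q hQ hinj
    rw [← Finset.sum_image (f := fun l : ℕ => 1 / (1 + (c * (l : ℝ)) ^ 2)) hinj]
    have h1 : Q.image f ⊆ Finset.range ((Q.image f).sup id + 1) := by
      intro l hl
      rw [Finset.mem_range, Nat.lt_add_one_iff]
      exact Finset.le_sup (f := id) hl
    exact (Finset.sum_le_sum_of_subset_of_nonneg h1 fun _ _ _ => by positivity).trans (sum_cl c hc _)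
  have hfeq : ∀ x ∈ P, ∀ y ∈ P, f x = f y → ((m : ℤ) - x).natAbs = ((m : ℤ) - y).natAbs := by
    intro x hx y hy hxy
    obtain ⟨k, hk⟩ := hdvd x hx
    obtain ⟨l, hl⟩ := hdvd y hy
    have h1 : f x = k := by rw [hf]; simp only; rw [hk]; exact Nat.mul_div_cancel_left k hh
    have h2 : f y = l := by rw [hf]; simp only; rw [hl]; exact Nat.mul_div_cancel_left l hh
    rw [hk, hl, ← h1, ← h2, hxy]
  have h1 := hone (P.filter (fun m' : ℕ => m' ≤ m)) (Finset.filter_subset _ _) (by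
    intro x hx y hy hxy
    rw [Finset.mem_coe, Finset.mem_filter] at hx hy
    have := hfeq x hx.1 y hy.1 hxy
    omega)
  have h2 := hone (P.filter (fun m' : ℕ => ¬ m' ≤ m)) (Finset.filter_subset _ _) (by
    intro x hx y hy hxy
    rw [Finset.mem_coe, Finset.mem_filter] at hx hy
    have := hfeq x hx.1 y hy.1 hxy
    omega)
  linarith

/-- the symmetric window inside a double sum -/
private theorem window (T : ℕ) (g : ℤ → ℝ) (hg : ∀ j, 0 ≤ g j) :
    (T : ℝ) * ∑ j ∈ Icc (-(T : ℤ)) T, g j ≤ ∑ i' ∈ range (3 * T), ∑ i ∈ range (3 * T), g ((i : ℤ) - i') := by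
  have h1 : ∀ i' ∈ Ico T (2 * T), ∑ j ∈ Icc (-(T : ℤ)) T, g j ≤ ∑ i ∈ range (3 * T), g ((i : ℤ) - i') := by
    intro i' hi'
    rw [Finset.mem_Ico] at hi'
    set F : ℤ → ℕ := fun j => (j + i').toNat with hF
    have hcast : ∀ j ∈ Icc (-(T : ℤ)) T, ((F j : ℕ) : ℤ) = j + i' := by
      intro j hj
      rw [Finset.mem_Icc] at hj
      rw [hF]
      simp only
      rw [Int.toNat_of_nonneg (by omega)]
    have hinj : Set.InjOn F (Icc (-(T : ℤ)) T : Finset ℤ) := by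
      intro x hx y hy hxy
      have h1 := hcast x hx
      have h2 := hcast y hy
      rw [hxy, h2] at h1
      omega
    have h2 : ∑ j ∈ Icc (-(T : ℤ)) T, g j = ∑ i ∈ (Icc (-(T : ℤ)) T).image F, g ((i : ℤ) - i') := by
      rw [Finset.sum_image hinj]
      refine Finset.sum_congr rfl fun j hj => ?_
      rw [hcast j hj]
      congr 1
      ring
    rw [h2]
    refine Finset.sum_le_sum_of_subset_of_nonneg ?_ fun _ _ _ => hg _
    intro i hi
    rw [Finset.mem_image] at hi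
    obtain ⟨j, hj, rfl⟩ := hi
    have h3 := hcast j hj
    rw [Finset.mem_Icc] at hj
    rw [Finset.mem_range]
    omega
  calc (T : ℝ) * ∑ j ∈ Icc (-(T : ℤ)) T, g j = ∑ i' ∈ Ico T (2 * T), ∑ j ∈ Icc (-(T : ℤ)) T, g j := by
        rw [Finset.sum_const, Nat.card_Ico, nsmul_eq_mul]
        congr 2
        omega
    _ ≤ ∑ i' ∈ Ico T (2 * T), ∑ i ∈ range (3 * T), g ((i : ℤ) - i') := Finset.sum_le_sum h1
    _ ≤ _ := by
        refine Finset.sum_le_sum_of_subset_of_nonneg ?_ fun _ _ _ =>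
          Finset.sum_nonneg fun _ _ => hg _
        intro i hi
        rw [Finset.mem_Ico] at hi
        rw [Finset.mem_range]
        omega

private theorem mu_bounds {M : ℝ} (hM : 1 ≤ M) {m m' : ℕ} (h1 : M < m) (h2 : (m : ℝ) ≤ 2 * M)
    (h1' : M < m') (h2' : (m' : ℝ) ≤ 2 * M) :
    |Real.log (m / M) / 2 - Real.log (m' / M) / 2| ≤ 1 / 2 ∧
    |(m : ℝ) - m'| / (2 * M) ≤ 2 * |Real.log (m / M) / 2 - Real.log (m' / M) / 2| := by
  have hM0 : 0 < M := by linarith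
  have key : ∀ a b : ℕ, M < a → (a : ℝ) ≤ b → (b : ℝ) ≤ 2 * M →
      |Real.log (b / M) / 2 - Real.log (a / M) / 2| ≤ 1 / 2 ∧
      |(b : ℝ) - a| / (2 * M) ≤ 2 * |Real.log (b / M) / 2 - Real.log (a / M) / 2| := by
    intro a b ha hab hb
    have ha0 : (0 : ℝ) < a := by linarith
    have hb0 : (0 : ℝ) < b := by linarith
    have e : Real.log (b / M) / 2 - Real.log (a / M) / 2 = Real.log (b / a) / 2 := by
      rw [Real.log_div hb0.ne' hM0.ne', Real.log_div ha0.ne' hM0.ne', Real.log_div hb0.ne' ha0.ne']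
      ring
    have hr : 1 ≤ (b : ℝ) / a := by rw [le_div_iff₀ ha0]; linarith
    have hl0 : 0 ≤ Real.log ((b : ℝ) / a) := Real.log_nonneg hr
    rw [e, abs_of_nonneg (by linarith)]
    constructor
    · have h3 : (b : ℝ) / a ≤ 2 := by rw [div_le_iff₀ ha0]; linarith
      have h4 := Real.log_le_log (by positivity) h3
      have h5 := Real.log_two_lt_d9
      linarith
    · rw [abs_of_nonneg (by linarith)]
      have h3 := Real.one_sub_inv_le_log_of_pos (x := (b : ℝ) / a) (by positivity)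
      rw [inv_div] at h3
      have h4 : ((b : ℝ) - a) / (2 * M) ≤ 1 - a / b := by
        have e2 : 1 - (a : ℝ) / b = (b - a) / b := by field_simp
        rw [e2]
        exact div_le_div_of_nonneg_left (by linarith) hb0 hb
      linarith
  rcases le_total (m' : ℝ) m with h | h
  · exact key m' m h1' h h2
  · have := key m m' h1 h h2'
    rw [abs_sub_comm, abs_sub_comm (m : ℝ)]
    exact this

/-- **Mean value**: the characters `χ ξ`, `ξ mod h`, and the frequencies `|j - k| ≤ T`. -/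
private theorem mv (q h : ℕ) [NeZero h] (χ : DirichletCharacter ℂ q) (k : ℤ) (T : ℕ) (M A0 : ℝ)
    (hT : 1 ≤ T) (hM : 1 ≤ M) (s : Finset ℕ) (a : ℕ → ℂ) (hs : ∀ m ∈ s, M < m ∧ (m : ℝ) ≤ 2 * M)
    (ha : ∀ m ∈ s, ‖a m‖ ≤ A0) :
    ∑ ξ : DirichletCharacter ℂ h, ∑ j ∈ Icc (k - T) (k + T),
      ‖∑ m ∈ s, a m * χ m * ξ m * BV.ee ((j : ℝ) * (Real.log (m / M) / 2))‖ ^ 2 ≤
        400 * A0 ^ 2 * M * (h.totient * T + M) := by
  have hh : 0 < h := Nat.pos_of_ne_zero (NeZero.ne h)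
  have hhR : (0 : ℝ) < h := by exact_mod_cast hh
  have hM0 : 0 < M := by linarith
  have hTR : (1 : ℝ) ≤ T := by exact_mod_cast hT
  have hφ0 : (0 : ℝ) ≤ h.totient := Nat.cast_nonneg _
  have hφh : (h.totient : ℝ) ≤ h := by exact_mod_cast Nat.totient_le h
  rcases s.eq_empty_or_nonempty with hse | ⟨m0, hm0⟩
  · subst hse
    simp only [Finset.sum_empty, norm_zero]
    have : (0 : ℝ) ≤ 400 * A0 ^ 2 * M * (h.totient * T + M) := by positivity
    simpa using this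
  have hA0 : 0 ≤ A0 := (norm_nonneg _).trans (ha m0 hm0)
  set μ : ℕ → ℝ := fun m => Real.log (m / M) / 2 with hμ
  set b : ℕ → ℂ := fun m => a m * χ m * BV.ee ((k : ℝ) * μ m) with hb
  have hbn : ∀ m ∈ s, ‖b m‖ ≤ A0 := by
    intro m hm
    rw [hb]
    simp only
    rw [norm_mul, norm_mul, BV.norm_ee, mul_one]
    have h1 := DirichletCharacter.norm_le_one χ (m : ZMod q)
    have h2 := ha m hm
    calc ‖a m‖ * ‖χ (m : ZMod q)‖ ≤ A0 * 1 := mul_le_mul h2 h1 (norm_nonneg _) hA0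
      _ = A0 := mul_one _
  set D : DirichletCharacter ℂ h → ℤ → ℝ := fun ξ j =>
    ‖∑ m ∈ s, b m * ξ m * BV.ee ((j : ℝ) * μ m)‖ ^ 2 with hD
  -- shift the window
  have h1 : ∀ ξ : DirichletCharacter ℂ h, ∑ j ∈ Icc (k - T) (k + T),
      ‖∑ m ∈ s, a m * χ m * ξ m * BV.ee ((j : ℝ) * (Real.log (m / M) / 2))‖ ^ 2 =
      ∑ j ∈ Icc (-(T : ℤ)) T, D ξ j := by
    intro ξ
    have himg : Icc (k - (T : ℤ)) (k + T) = (Icc (-(T : ℤ)) T).image (fun j => j + k) := by
      ext x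
      simp only [Finset.mem_Icc, Finset.mem_image]
      constructor
      · intro hx
        exact ⟨x - k, by omega, by ring⟩
      · rintro ⟨y, hy, rfl⟩
        omega
    rw [himg, Finset.sum_image (fun x _ y _ hxy => by simpa using hxy)]
    refine Finset.sum_congr rfl fun j _ => ?_
    rw [hD]
    simp only
    congr 2
    refine Finset.sum_congr rfl fun m _ => ?_
    rw [hb]
    simp only
    have e : (((j + k : ℤ) : ℝ)) * (Real.log (m / M) / 2) = (k : ℝ) * μ m + (j : ℝ) * μ m := by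
      rw [hμ]
      push_cast
      ring
    rw [e, BV.ee_add]
    ring
  simp only [h1]
  clear h1
  clear_value D
  clear hb
  clear_value b
  set N : ℕ := 3 * T with hN
  have hD0 : ∀ ξ j, 0 ≤ D ξ j := fun ξ j => by rw [hD]; positivity
  have h2 : (T : ℝ) * ∑ ξ : DirichletCharacter ℂ h, ∑ j ∈ Icc (-(T : ℤ)) T, D ξ j ≤
      ∑ ξ : DirichletCharacter ℂ h, ∑ i' ∈ range N, ∑ i ∈ range N, D ξ ((i : ℤ) - i') := by
    rw [Finset.mul_sum]
    exact Finset.sum_le_sum fun ξ _ => window T (D ξ) (hD0 ξ)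
  -- expansion
  have h3 : ∑ ξ : DirichletCharacter ℂ h, ∑ i' ∈ range N, ∑ i ∈ range N, D ξ ((i : ℤ) - i') ≤
      ∑ m ∈ s, ∑ m' ∈ s, ‖b m‖ * ‖b m'‖ * ((if m' ≡ m [MOD h] then (h.totient : ℝ) else 0) *
        ‖Gg N (μ m - μ m')‖ ^ 2) := by
    have e1 : ((∑ ξ : DirichletCharacter ℂ h, ∑ i' ∈ range N, ∑ i ∈ range N,
        D ξ ((i : ℤ) - i') : ℝ) : ℂ) = ∑ m ∈ s, ∑ m' ∈ s, b m * (starRingEnd ℂ) (b m') *
          ((∑ ξ : DirichletCharacter ℂ h, ξ m * (starRingEnd ℂ) (ξ m')) *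
            (Gg N (μ m - μ m') * (starRingEnd ℂ) (Gg N (μ m - μ m')))) := by
      push_cast
      have e2 : ∀ (ξ : DirichletCharacter ℂ h) (i i' : ℕ), ((D ξ ((i : ℤ) - i') : ℝ) : ℂ) =
          ∑ m ∈ s, ∑ m' ∈ s, b m * (starRingEnd ℂ) (b m') * (ξ m * (starRingEnd ℂ) (ξ m')) *
            (BV.ee (i * (μ m - μ m')) * (starRingEnd ℂ) (BV.ee (i' * (μ m - μ m')))) := by
        intro ξ i i'
        have e3 : ((D ξ ((i : ℤ) - i') : ℝ) : ℂ) =
            (∑ m ∈ s, b m * ξ m * BV.ee ((((i : ℤ) - i' : ℤ) : ℝ) * μ m)) *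
            (starRingEnd ℂ) (∑ m ∈ s, b m * ξ m * BV.ee ((((i : ℤ) - i' : ℤ) : ℝ) * μ m)) := by
          rw [hD]
          simp only
          rw [Complex.mul_conj, Complex.normSq_eq_norm_sq]
        rw [e3, map_sum, Finset.sum_mul_sum]
        refine Finset.sum_congr rfl fun m _ => Finset.sum_congr rfl fun m' _ => ?_
        have hconj : ∀ x : ℝ, (starRingEnd ℂ) (BV.ee x) = BV.ee (-x) := by
          intro x
          unfold BV.ee
          rw [← Complex.exp_conj]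
          congr 1
          have e0 : ∀ y : ℝ, (2 * Real.pi * y * Complex.I : ℂ) = ((2 * Real.pi * y : ℝ) : ℂ) * Complex.I := by
            intro y; push_cast; ring
          rw [e0, e0, map_mul, Complex.conj_ofReal, Complex.conj_I]
          push_cast
          ring
        rw [map_mul, map_mul, hconj, hconj]
        have e4 : BV.ee ((((i : ℤ) - i' : ℤ) : ℝ) * μ m) * BV.ee (-((((i : ℤ) - i' : ℤ) : ℝ) * μ m')) =
            BV.ee (i * (μ m - μ m')) * BV.ee (-(i' * (μ m - μ m'))) := by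
          rw [← BV.ee_add, ← BV.ee_add]
          congr 1
          push_cast
          ring
        calc b m * ξ m * BV.ee ((((i : ℤ) - i' : ℤ) : ℝ) * μ m) * ((starRingEnd ℂ) (b m') *
              (starRingEnd ℂ) (ξ m') * BV.ee (-((((i : ℤ) - i' : ℤ) : ℝ) * μ m')))
            = b m * (starRingEnd ℂ) (b m') * (ξ m * (starRingEnd ℂ) (ξ m')) *
              (BV.ee ((((i : ℤ) - i' : ℤ) : ℝ) * μ m) *
                BV.ee (-((((i : ℤ) - i' : ℤ) : ℝ) * μ m'))) := by ring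
          _ = _ := by rw [e4]
      simp only [e2]
      -- bring the sums over m, m' outside
      have e5 : ∀ ξ : DirichletCharacter ℂ h, ∑ i' ∈ range N, ∑ i ∈ range N, ∑ m ∈ s, ∑ m' ∈ s,
          b m * (starRingEnd ℂ) (b m') * (ξ m * (starRingEnd ℂ) (ξ m')) *
            (BV.ee (i * (μ m - μ m')) * (starRingEnd ℂ) (BV.ee (i' * (μ m - μ m')))) =
          ∑ m ∈ s, ∑ m' ∈ s, b m * (starRingEnd ℂ) (b m') * (ξ m * (starRingEnd ℂ) (ξ m')) *
            (Gg N (μ m - μ m') * (starRingEnd ℂ) (Gg N (μ m - μ m'))) := by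
        intro ξ
        have e6 : ∀ i' ∈ range N, ∑ i ∈ range N, ∑ m ∈ s, ∑ m' ∈ s,
            b m * (starRingEnd ℂ) (b m') * (ξ m * (starRingEnd ℂ) (ξ m')) *
            (BV.ee (i * (μ m - μ m')) * (starRingEnd ℂ) (BV.ee (i' * (μ m - μ m')))) =
            ∑ m ∈ s, ∑ m' ∈ s, ∑ i ∈ range N, b m * (starRingEnd ℂ) (b m') *
            (ξ m * (starRingEnd ℂ) (ξ m')) *
            (BV.ee (i * (μ m - μ m')) * (starRingEnd ℂ) (BV.ee (i' * (μ m - μ m')))) := by
          intro i' _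
          rw [Finset.sum_comm]
          refine Finset.sum_congr rfl fun m _ => ?_
          rw [Finset.sum_comm]
        rw [Finset.sum_congr rfl e6, Finset.sum_comm]
        refine Finset.sum_congr rfl fun m _ => ?_
        rw [Finset.sum_comm]
        refine Finset.sum_congr rfl fun m' _ => ?_
        unfold Gg
        rw [map_sum, Finset.sum_mul_sum, Finset.mul_sum, Finset.sum_comm]
        refine Finset.sum_congr rfl fun i _ => ?_
        rw [Finset.mul_sum]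
      rw [Finset.sum_congr rfl fun ξ _ => e5 ξ, Finset.sum_comm]
      refine Finset.sum_congr rfl fun m _ => ?_
      rw [Finset.sum_comm]
      refine Finset.sum_congr rfl fun m' _ => ?_
      rw [Finset.sum_mul, Finset.mul_sum]
      refine Finset.sum_congr rfl fun ξ _ => ?_
      ring
    have hnn : 0 ≤ ∑ ξ : DirichletCharacter ℂ h, ∑ i' ∈ range N, ∑ i ∈ range N,
        D ξ ((i : ℤ) - i') :=
      Finset.sum_nonneg fun _ _ => Finset.sum_nonneg fun _ _ => Finset.sum_nonneg fun _ _ => hD0 _ _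
    have e7 : ∑ ξ : DirichletCharacter ℂ h, ∑ i' ∈ range N, ∑ i ∈ range N, D ξ ((i : ℤ) - i') =
        ‖((∑ ξ : DirichletCharacter ℂ h, ∑ i' ∈ range N, ∑ i ∈ range N,
        D ξ ((i : ℤ) - i') : ℝ) : ℂ)‖ := by
      rw [Complex.norm_real, Real.norm_of_nonneg hnn]
    rw [e7, e1]
    refine (norm_sum_le _ _).trans (Finset.sum_le_sum fun m _ => ?_)
    refine (norm_sum_le _ _).trans (Finset.sum_le_sum fun m' _ => ?_)
    rw [norm_mul, norm_mul, RCLike.norm_conj, norm_mul, norm_mul, RCLike.norm_conj, ← sq]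
    exact mul_le_mul_of_nonneg_left (mul_le_mul_of_nonneg_right (chr_orth h m m') (by positivity))
      (by positivity)
  -- the row sums
  set c : ℝ := (N : ℝ) * h / (2 * M) with hc
  have hN0 : (0 : ℝ) < N := by rw [hN]; push_cast; linarith
  have hc0 : 0 < c := by rw [hc]; positivity
  have h4 : ∀ m ∈ s, ∑ m' ∈ s, ‖b m‖ * ‖b m'‖ * ((if m' ≡ m [MOD h] then (h.totient : ℝ) else 0) *
        ‖Gg N (μ m - μ m')‖ ^ 2) ≤ A0 ^ 2 * (h.totient * (2 * N ^ 2) * (2 * (1 + 2 / c))) := by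
    intro m hm
    have h5 : ∀ m' ∈ s, ‖b m‖ * ‖b m'‖ * ((if m' ≡ m [MOD h] then (h.totient : ℝ) else 0) *
        ‖Gg N (μ m - μ m')‖ ^ 2) ≤ A0 ^ 2 * (h.totient * (2 * N ^ 2) *
          (if m' ≡ m [MOD h] then 1 / (1 + (c * |(m : ℝ) - m'| / h) ^ 2) else 0)) := by
      intro m' hm'
      have h6 : ‖b m‖ * ‖b m'‖ ≤ A0 ^ 2 := by
        rw [sq]
        exact mul_le_mul (hbn m hm) (hbn m' hm') (norm_nonneg _) hA0
      obtain ⟨h7, h8⟩ := mu_bounds hM (hs m hm).1 (hs m hm).2 (hs m' hm').1 (hs m' hm').2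
      apply mul_le_mul h6 _ (by split_ifs <;> positivity) (by positivity)
      split_ifs with hmod
      · rw [mul_assoc]
        apply mul_le_mul_of_nonneg_left _ hφ0
        have h9 := Gg_sq N (μ m - μ m') h7 (by positivity) h8
        refine h9.trans (le_of_eq ?_)
        have e : (N : ℝ) * (|(m : ℝ) - m'| / (2 * M)) = c * |(m : ℝ) - m'| / h := by
          rw [hc]
          field_simp
        rw [e, mul_one_div]
      · simp
    refine (Finset.sum_le_sum h5).trans ?_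
    rw [← Finset.mul_sum, ← Finset.mul_sum, ← Finset.sum_filter]
    apply mul_le_mul_of_nonneg_left _ (sq_nonneg A0)
    apply mul_le_mul_of_nonneg_left _ (by positivity)
    exact sum_class h hh s m c hc0
  have hcard : (s.card : ℝ) ≤ 2 * M := by
    have h5 : s ⊆ Icc 1 ⌊2 * M⌋₊ := by
      intro m hm
      obtain ⟨h6, h7⟩ := hs m hm
      rw [Finset.mem_Icc]
      constructor
      · have : (0 : ℝ) < m := by linarith
        exact_mod_cast this
      · exact Nat.le_floor h7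
    have h6 := Finset.card_le_card h5
    rw [Nat.card_Icc] at h6
    have h7 := Nat.floor_le (by linarith : 0 ≤ 2 * M)
    have h8 : (s.card : ℝ) ≤ (⌊2 * M⌋₊ : ℝ) := by exact_mod_cast h6
    linarith
  have h5 := h2.trans (h3.trans (Finset.sum_le_sum h4))
  rw [Finset.sum_const, nsmul_eq_mul] at h5
  have h6 : (s.card : ℝ) * (A0 ^ 2 * (h.totient * (2 * N ^ 2) * (2 * (1 + 2 / c)))) ≤
      (T : ℝ) * (400 * A0 ^ 2 * M * (h.totient * T + M)) := by
    have e1 : h.totient * (2 * (N : ℝ) ^ 2) * (2 * (1 + 2 / c)) =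
        T * (36 * (h.totient * T) + 48 * (h.totient / h) * M) := by
      rw [hc, hN]
      push_cast
      have : (T : ℝ) ≠ 0 := by linarith
      field_simp
      ring
    rw [e1]
    have e2 : (h.totient : ℝ) / h ≤ 1 := by rw [div_le_one hhR]; exact hφh
    have e3 : 36 * (h.totient * (T : ℝ)) + 48 * (h.totient / h) * M ≤ 48 * (h.totient * T + M) := by
      have : 0 ≤ (h.totient : ℝ) * T := by positivity
      nlinarith
    have e4 : A0 ^ 2 * (T * (36 * (h.totient * (T : ℝ)) + 48 * (h.totient / h) * M)) ≤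
        A0 ^ 2 * (T * (48 * (h.totient * T + M))) := by
      apply mul_le_mul_of_nonneg_left _ (sq_nonneg A0)
      exact mul_le_mul_of_nonneg_left e3 (by linarith)
    calc (s.card : ℝ) * (A0 ^ 2 * (T * (36 * (h.totient * (T : ℝ)) + 48 * (h.totient / h) * M)))
        ≤ (2 * M) * (A0 ^ 2 * (T * (48 * (h.totient * T + M)))) :=
          mul_le_mul hcard e4 (by positivity) (by positivity)
      _ = 96 * (T * (A0 ^ 2 * M * (h.totient * T + M))) := by ring
      _ ≤ _ := by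
          have : 0 ≤ (T : ℝ) * (A0 ^ 2 * M * (h.totient * T + M)) := by positivity
          nlinarith
  have h7 := h5.trans h6
  exact le_of_mul_le_mul_left h7 (by linarith)

theorem mv_coset : ∃ C : ℝ, 0 < C ∧ ∀ (q h : ℕ) [NeZero q] [NeZero h] (hd : h ∣ q) (M A0 : ℝ)
    (MM : Finset ℕ) (a : ℕ → ℂ) (χ : DirichletCharacter ℂ q) (k : ℤ) (T : ℕ),
    1 ≤ M → 1 ≤ T → 0 ≤ A0 → (∀ m ∈ MM, M < (m : ℝ) ∧ (m : ℝ) ≤ 2 * M) →
    (∀ m ∈ MM, ‖a m‖ ≤ A0) →
    ∑ ξ : DirichletCharacter ℂ h, ∑ j ∈ Icc (k - T) (k + T),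
      ‖∑ m ∈ MM, a m * (DirichletCharacter.changeLevel hd ξ * χ) m *
        ee ((j : ℝ) * (Real.log (m / M) / 2))‖ ^ 2 ≤
      C * A0 ^ 2 * M * (Nat.totient h * T + M) := by
  refine ⟨400, by norm_num, ?_⟩
  intro q h _ _ hd M A0 MM a χ k T hM hT _ hMM ha
  have hval : ∀ (ξ : DirichletCharacter ℂ h) (m : ℕ),
      (DirichletCharacter.changeLevel hd ξ * χ) (m : ZMod q) = χ m * ξ m := by
    intro ξ m
    by_cases hu : IsUnit ((m : ℕ) : ZMod q)
    · have hc : m.Coprime q := (ZMod.isUnit_iff_coprime m q).1 hu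
      have hci : IsCoprime ((m : ℕ) : ℤ) ((q : ℕ) : ℤ) := Nat.isCoprime_iff_coprime.2 hc
      have e1 := DirichletCharacter.changeLevel_eq_cast_of_dvd' ξ hd hci
      rw [MulChar.mul_apply, mul_comm]
      congr 1
      simpa using e1
    · rw [MulChar.map_nonunit _ hu, MulChar.map_nonunit χ hu, zero_mul]
  refine le_trans (le_of_eq ?_) (mv q h χ k T M A0 hT hM MM a hMM ha)
  refine Finset.sum_congr rfl fun ξ _ => Finset.sum_congr rfl fun j _ => ?_
  congr 2
  refine Finset.sum_congr rfl fun m _ => ?_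
  rw [hval ξ m, ← mul_assoc]
  rfl

end Pool.MP_dd84fd_nt.PL
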