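import Pool.Agent.Lib.MP_dd84fd_nt.PL.GFour
import Pool.Agent.Lib.MP_dd84fd_nt.PL.MV

/-!
# PL-Struct: type II functions are convolutions on `(ℤ/q)^* × ℝ/ℤ`

`Bt q B r y t = B(y/q + r e^{2{t}})` (`{t} = Int.fract t`, period 1 in `t`),
`cvf q MM c M r B y t = ∑_{m ∈ MM, (m,q)=1} c_m Bt(my, t + μ_m)`, `μ_m = log(m/M)/2`.
`cvf_eq`: for `0 ≤ t < (log 2)/2`, `M < m ≤ 2M`: `0 < μ_m ≤ (log 2)/2`, so `0 ≤ t + μ_m < log 2 < 1`,
`{t+μ_m} = t + μ_m`, `e^{2(t+μ_m)} = (m/M) e^{2t}`, so `σ M β e^{2(t+μ_m)} = m σ β e^{2t}`, and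
`(m a mod q)/q ≡ m a/q` modulo 1 (`B` has period 1).
`cvf_struct`: measurable and bounded: clear (`|MM| ≤ M + 1 ≤ 2M`).  Coefficients:
`fq (cvf ..) χ j = (∑_{m ∈ MM, (m,q)=1} c_m χ⁻¹(m) ee(-(j μ_m))) · fq (Bt ..) χ j` (substitute `y → m⁻¹ y` in
the sum over `ZMod q`, `m` being a unit, and shift `t` by `μ_m` in the integral of a 1-periodic function:
`Function.Periodic.intervalIntegral_add_eq`).  Take `α(χ,j) = ‖∑_m c_m χ⁻¹(m) ee(-(j μ_m))‖`
`= ‖∑_m conj(c_m) χ(m) ee(j μ_m)‖` (conjugate) and `β = ‖fq (Bt ..)‖`; the coset bound is `mv_coset` for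
`MM.filter (Coprime q)` and `conj c`; `∑' β² = (1/φ(q)) ∑_y ∫ ‖Bt‖²` is `fq_parseval`.
-/

set_option autoImplicit false

namespace Pool.MP_dd84fd_nt.PL

open Finset Pool.MP_67663b_nt.Odd

/-- `B` on the arcs as a function on `ZMod q` and `ℝ/ℤ` -/
noncomputable def Bt (q : ℕ) (B : ℝ → ℂ) (r : ℝ) (y : ZMod q) (t : ℝ) : ℂ :=
  B ((y.val : ℝ) / q + r * Real.exp (2 * Int.fract t))

/-- multiplicative convolution -/
noncomputable def cvf (q : ℕ) (MM : Finset ℕ) (c : ℕ → ℂ) (M r : ℝ) (B : ℝ → ℂ) (y : ZMod q)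
    (t : ℝ) : ℂ :=
  ∑ m ∈ MM.filter (fun m => Nat.Coprime m q),
    c m * Bt q B r ((m : ZMod q) * y) (t + Real.log (m / M) / 2)

private theorem se_norm (x : ℝ) : ‖ee x‖ = 1 := by
  unfold ee
  rw [show (2 * (Real.pi : ℂ) * (x : ℂ) * Complex.I) = ((2 * Real.pi * x : ℝ) : ℂ) * Complex.I by
    push_cast; ring]
  exact Complex.norm_exp_ofReal_mul_I _

private theorem se_add (x y : ℝ) : ee (x + y) = ee x * ee y := by
  unfold ee
  rw [← Complex.exp_add]
  congr 1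
  push_cast
  ring

private theorem se_conj (x : ℝ) : (starRingEnd ℂ) (ee x) = ee (-x) := by
  unfold ee
  rw [← Complex.exp_conj]
  congr 1
  rw [map_mul, map_mul, map_mul, Complex.conj_I, Complex.conj_ofReal, Complex.conj_ofReal,
    Complex.conj_ofNat]
  push_cast
  ring

private theorem se_int (j : ℤ) : ee (j : ℝ) = 1 := by
  unfold ee
  rw [show (2 * (Real.pi : ℂ) * ((j : ℝ) : ℂ) * Complex.I) = (j : ℂ) * (2 * Real.pi * Complex.I) by
    push_cast; ring]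
  exact Complex.exp_int_mul_two_pi_mul_I j

private theorem per_nat {B : ℝ → ℂ} (hB : ∀ x, B (x + 1) = B x) (x : ℝ) (k : ℕ) :
    B (x + k) = B x := by
  induction k with
  | zero => simp
  | succ k ih => rw [Nat.cast_succ, ← add_assoc, hB, ih]

theorem cvf_eq (q : ℕ) [NeZero q] (MM : Finset ℕ) (c : ℕ → ℂ) (M β σ : ℝ) (B : ℝ → ℂ)
    (hM : 0 < M) (hMM : ∀ m ∈ MM, M < (m : ℝ) ∧ (m : ℝ) ≤ 2 * M) (hB : ∀ x, B (x + 1) = B x)
    (a : ℕ) (t : ℝ) (ht : 0 ≤ t) (ht' : t < Real.log 2 / 2) :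
    f2f MM c B σ q a (β * Real.exp (2 * t)) = cvf q MM c M (σ * (M * β)) B (a : ZMod q) t := by
  unfold f2f cvf
  refine Finset.sum_congr rfl fun m hm => ?_
  obtain ⟨h1, h2⟩ := hMM m (Finset.mem_filter.1 hm).1
  have hq : (0 : ℝ) < q := by exact_mod_cast Nat.pos_of_ne_zero (NeZero.ne q)
  have hl2 : Real.log 2 < 1 := by linarith [Real.log_two_lt_d9]
  have hr1 : 1 < (m : ℝ) / M := by rw [lt_div_iff₀ hM]; linarith
  have hr2 : (m : ℝ) / M ≤ 2 := by rw [div_le_iff₀ hM]; linarith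
  have hlog1 : 0 < Real.log ((m : ℝ) / M) := Real.log_pos hr1
  have hlog2 : Real.log ((m : ℝ) / M) ≤ Real.log 2 := Real.log_le_log (by linarith) hr2
  have hfr : Int.fract (t + Real.log ((m : ℝ) / M) / 2) = t + Real.log ((m : ℝ) / M) / 2 :=
    Int.fract_eq_self.2 ⟨by linarith, by linarith⟩
  unfold Bt
  rw [hfr, show 2 * (t + Real.log ((m : ℝ) / M) / 2) = 2 * t + Real.log ((m : ℝ) / M) by ring,
    Real.exp_add, Real.exp_log (by linarith)]
  have hval : (((m : ZMod q) * (a : ZMod q)).val : ℝ) / q + ((m * a / q : ℕ) : ℝ) =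
      (m : ℝ) * a / q := by
    rw [← Nat.cast_mul, ZMod.val_natCast]
    have := Nat.mod_add_div (m * a) q
    have h3 : ((m * a % q : ℕ) : ℝ) + (q : ℝ) * ((m * a / q : ℕ) : ℝ) = (m : ℝ) * a := by
      exact_mod_cast this
    field_simp
    linarith
  congr 1
  rw [← per_nat hB ((((m : ZMod q) * (a : ZMod q)).val : ℝ) / q +
    σ * (M * β) * (Real.exp (2 * t) * ((m : ℝ) / M))) (m * a / q)]
  congr 1
  have h4 : (((m : ZMod q) * (a : ZMod q)).val : ℝ) / q = (m : ℝ) * a / q - ((m * a / q : ℕ) : ℝ) := by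
    linarith
  rw [h4]
  field_simp
  ring

private theorem Bt_meas (q : ℕ) (B : ℝ → ℂ) (r : ℝ) (hB : Continuous B) (y : ZMod q) :
    Measurable (Bt q B r y) := by
  unfold Bt
  refine hB.measurable.comp ?_
  refine measurable_const.add (measurable_const.mul ?_)
  exact Real.measurable_exp.comp (measurable_const.mul measurable_fract)

private theorem Bt_per (q : ℕ) (B : ℝ → ℂ) (r : ℝ) (y : ZMod q) (t : ℝ) :
    Bt q B r y (t + 1) = Bt q B r y t := by
  unfold Bt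
  rw [Int.fract_add_one]

private theorem fc_shift (q : ℕ) (B : ℝ → ℂ) (r : ℝ) (y : ZMod q) (μ : ℝ) (j : ℤ) :
    fc (fun t => Bt q B r y (t + μ)) j = ee (-((j : ℝ) * μ)) * fc (Bt q B r y) j := by
  unfold fc
  set g : ℝ → ℂ := fun t => Bt q B r y t * ee ((j : ℝ) * t) with hg
  have hper : Function.Periodic g 1 := by
    intro t
    simp only [hg]
    rw [Bt_per, mul_add, se_add, mul_one, se_int, mul_one]
  have h1 : ∀ t : ℝ, Bt q B r y (t + μ) * ee ((j : ℝ) * t) = ee (-((j : ℝ) * μ)) * g (t + μ) := by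
    intro t
    simp only [hg]
    rw [show ee ((j : ℝ) * t) = ee (-((j : ℝ) * μ)) * ee ((j : ℝ) * (t + μ)) by
      rw [← se_add]; congr 1; ring]
    ring
  simp only [h1]
  rw [intervalIntegral.integral_const_mul, intervalIntegral.integral_comp_add_right g μ]
  congr 1
  have h2 := hper.intervalIntegral_add_eq μ 0
  rw [zero_add] at h2
  rw [zero_add, add_comm 1 μ, h2]

private theorem char_inv_conj (q : ℕ) [NeZero q] (ψ : DirichletCharacter ℂ q) (m : ℕ) :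
    (starRingEnd ℂ) (ψ⁻¹ (m : ZMod q)) = ψ (m : ZMod q) := by
  by_cases hu : IsUnit ((m : ℕ) : ZMod q)
  · obtain ⟨u, hu⟩ := hu
    rw [← hu]
    have h1 : ‖ψ⁻¹ (u : ZMod q)‖ = 1 := DirichletCharacter.unit_norm_eq_one ψ⁻¹ u
    rw [← Complex.inv_eq_conj h1]
    have h2 : ψ⁻¹ (u : ZMod q) * ψ (u : ZMod q) = 1 := by
      rw [← MulChar.mul_apply, inv_mul_cancel, MulChar.one_apply_coe]
    exact inv_eq_of_mul_eq_one_right h2
  · rw [MulChar.map_nonunit _ hu, MulChar.map_nonunit _ hu, map_zero]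

/-- the multiplier -/
private noncomputable def al (q : ℕ) (MM : Finset ℕ) (c : ℕ → ℂ) (M : ℝ)
    (p : DirichletCharacter ℂ q × ℤ) : ℂ :=
  ∑ m ∈ MM.filter (fun m => Nat.Coprime m q),
    c m * p.1⁻¹ (m : ZMod q) * ee (-((p.2 : ℝ) * (Real.log (m / M) / 2)))

private theorem fq_cvf (q : ℕ) [NeZero q] (MM : Finset ℕ) (c : ℕ → ℂ) (M r : ℝ) (B : ℝ → ℂ)
    (hB : Continuous B) (Bs : ℝ) (hBs : ∀ x, ‖B x‖ ≤ Bs)
    (χ : DirichletCharacter ℂ q) (j : ℤ) :
    fq q (cvf q MM c M r B) χ j = al q MM c M (χ, j) * fq q (Bt q B r) χ j := by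
  have hint : ∀ (y : ZMod q) (μ : ℝ), IntervalIntegrable
      (fun t => Bt q B r y (t + μ) * ee ((j : ℝ) * t)) MeasureTheory.volume 0 1 := by
    intro y μ
    have hc : Continuous ee := by unfold ee; fun_prop
    rw [intervalIntegrable_iff, Set.uIoc_of_le zero_le_one]
    refine MeasureTheory.Measure.integrableOn_of_bounded (M := Bs) (by simp) ?_ ?_
    · refine Measurable.aestronglyMeasurable ?_
      exact ((Bt_meas q B r hB y).comp (measurable_id.add_const μ)).mul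
        (hc.measurable.comp (measurable_const.mul measurable_id))
    · refine Filter.Eventually.of_forall fun t => ?_
      rw [norm_mul, se_norm, mul_one]
      exact hBs _
  have h1 : ∀ x : ZMod q, fc (cvf q MM c M r B x) j =
      ∑ m ∈ MM.filter (fun m => Nat.Coprime m q),
        c m * (ee (-((j : ℝ) * (Real.log (m / M) / 2))) * fc (Bt q B r ((m : ZMod q) * x)) j) := by
    intro x
    rw [Finset.sum_congr rfl fun m _ => by rw [← fc_shift]]
    unfold fc cvf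
    simp only [Finset.sum_mul]
    rw [intervalIntegral.integral_finsetSum]
    · refine Finset.sum_congr rfl fun m _ => ?_
      rw [← intervalIntegral.integral_const_mul]
      refine intervalIntegral.integral_congr fun t _ => ?_
      show c m * Bt q B r ((m : ZMod q) * x) (t + Real.log (m / M) / 2) * ee ((j : ℝ) * t) =
        c m * (Bt q B r ((m : ZMod q) * x) (t + Real.log (m / M) / 2) * ee ((j : ℝ) * t))
      ring
    · intro m _
      have := (hint ((m : ZMod q) * x) (Real.log (m / M) / 2)).const_mul (c m)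
      refine this.congr fun t _ => ?_
      show c m * (Bt q B r ((m : ZMod q) * x) (t + Real.log (m / M) / 2) * ee ((j : ℝ) * t)) =
        c m * Bt q B r ((m : ZMod q) * x) (t + Real.log (m / M) / 2) * ee ((j : ℝ) * t)
      ring
  unfold fq al
  simp only [h1]
  rw [mul_left_comm]
  congr 1
  rw [Finset.sum_mul]
  simp only [Finset.mul_sum]
  rw [Finset.sum_comm]
  refine Finset.sum_congr rfl fun m hm => ?_
  have hcop : Nat.Coprime m q := (Finset.mem_filter.1 hm).2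
  have hu : IsUnit ((m : ℕ) : ZMod q) := (ZMod.isUnit_iff_coprime m q).2 hcop
  obtain ⟨u, hu'⟩ := hu
  have h2 : ∀ x : ZMod q, χ x = χ⁻¹ (m : ZMod q) * χ ((m : ZMod q) * x) := by
    intro x
    rw [map_mul, ← mul_assoc, ← hu', ← MulChar.mul_apply, inv_mul_cancel, MulChar.one_apply_coe,
      one_mul]
  have h3 : ∑ x : ZMod q, χ ((m : ZMod q) * x) * fc (Bt q B r ((m : ZMod q) * x)) j =
      ∑ x : ZMod q, χ x * fc (Bt q B r x) j := by
    rw [← hu']
    exact (Units.mulLeft_bijective u).sum_comp (fun x => χ x * fc (Bt q B r x) j)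
  have h4 : ∀ x : ZMod q, χ x * (c m * (ee (-((j : ℝ) * (Real.log (m / M) / 2))) *
      fc (Bt q B r ((m : ZMod q) * x)) j)) =
      (c m * χ⁻¹ (m : ZMod q) * ee (-((j : ℝ) * (Real.log (m / M) / 2)))) *
        (χ ((m : ZMod q) * x) * fc (Bt q B r ((m : ZMod q) * x)) j) := by
    intro x
    rw [h2 x]
    ring
  rw [Finset.sum_congr rfl fun x _ => h4 x, ← Finset.mul_sum, h3, Finset.mul_sum]

private theorem al_conj (q : ℕ) [NeZero q] (MM : Finset ℕ) (c : ℕ → ℂ) (M : ℝ)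
    (ψ : DirichletCharacter ℂ q) (j : ℤ) :
    ‖al q MM c M (ψ, j)‖ = ‖∑ m ∈ MM.filter (fun m => Nat.Coprime m q),
      (starRingEnd ℂ) (c m) * ψ (m : ZMod q) * ee ((j : ℝ) * (Real.log (m / M) / 2))‖ := by
  have h1 : (starRingEnd ℂ) (al q MM c M (ψ, j)) = ∑ m ∈ MM.filter (fun m => Nat.Coprime m q),
      (starRingEnd ℂ) (c m) * ψ (m : ZMod q) * ee ((j : ℝ) * (Real.log (m / M) / 2)) := by
    unfold al
    rw [map_sum]
    refine Finset.sum_congr rfl fun m _ => ?_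
    rw [map_mul, map_mul, se_conj, neg_neg, char_inv_conj]
  rw [← h1, RCLike.norm_conj]

private theorem card_MM (q : ℕ) (M : ℝ) (MM : Finset ℕ) (hM : 1 ≤ M)
    (hMM : ∀ m ∈ MM, M < (m : ℝ) ∧ (m : ℝ) ≤ 2 * M) :
    ((MM.filter (fun m => Nat.Coprime m q)).card : ℝ) ≤ 2 * M := by
  have h1 : MM.filter (fun m => Nat.Coprime m q) ⊆ Ioc ⌊M⌋₊ ⌊2 * M⌋₊ := by
    intro m hm
    obtain ⟨h2, h3⟩ := hMM m (Finset.mem_filter.1 hm).1
    rw [Finset.mem_Ioc]
    exact ⟨(Nat.floor_lt (by linarith)).2 h2, Nat.le_floor h3⟩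
  have h2 := Finset.card_le_card h1
  rw [Nat.card_Ioc] at h2
  have h3 : (((⌊2 * M⌋₊ - ⌊M⌋₊ : ℕ)) : ℝ) ≤ 2 * M := by
    have h4 : ⌊M⌋₊ ≤ ⌊2 * M⌋₊ := Nat.floor_le_floor (by linarith)
    rw [Nat.cast_sub h4]
    have h5 := Nat.floor_le (show (0 : ℝ) ≤ 2 * M by linarith)
    have h6 : (0 : ℝ) ≤ (⌊M⌋₊ : ℝ) := Nat.cast_nonneg _
    linarith
  exact le_trans (by exact_mod_cast h2) h3

theorem cvf_struct : ∃ C : ℝ, 0 < C ∧ ∀ (q h : ℕ) [NeZero q] [NeZero h] (hd : h ∣ q)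
    (M A0 r : ℝ) (MM : Finset ℕ) (c : ℕ → ℂ) (B : ℝ → ℂ) (Bs : ℝ),
    1 ≤ M → 0 ≤ A0 → (∀ m ∈ MM, M < (m : ℝ) ∧ (m : ℝ) ≤ 2 * M) → (∀ m ∈ MM, ‖c m‖ ≤ A0) →
    Continuous B → (∀ x, ‖B x‖ ≤ Bs) →
    (∀ y, Measurable (cvf q MM c M r B y)) ∧
    (∀ y t, ‖cvf q MM c M r B y t‖ ≤ 2 * M * A0 * Bs) ∧
    ∃ α β : DirichletCharacter ℂ q × ℤ → ℝ, (∀ p, 0 ≤ α p) ∧ (∀ p, 0 ≤ β p) ∧
      (∀ p, ‖fq q (cvf q MM c M r B) p.1 p.2‖ ≤ α p * β p) ∧
      (∀ T : ℕ, 1 ≤ T → ∀ (χ : DirichletCharacter ℂ q) (k : ℤ),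
        ∑ ξ : DirichletCharacter ℂ h, ∑ j ∈ Icc (k - T) (k + T),
          α (DirichletCharacter.changeLevel hd ξ * χ, j) ^ 2 ≤
            C * A0 ^ 2 * M * (Nat.totient h * T + M)) ∧
      (Summable fun p => β p ^ 2) ∧
      ∑' p, β p ^ 2 ≤ (1 / (Nat.totient q : ℝ)) *
        ∑ y ∈ univ.filter (fun y : ZMod q => IsUnit y), ∫ t in (0 : ℝ)..1, ‖Bt q B r y t‖ ^ 2 := by
  obtain ⟨C, hC, hmv⟩ := mv_coset
  refine ⟨C, hC, ?_⟩
  intro q h _ _ hd M A0 r MM c B Bs hM hA0 hMM hc hB hBs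
  have hpar := fq_parseval q (Bt q B r) Bs (fun y => Bt_meas q B r hB y) (fun y t => hBs _)
  refine ⟨?_, ?_, ?_⟩
  · intro y
    unfold cvf
    refine Finset.measurable_sum _ fun m _ => ?_
    exact ((Bt_meas q B r hB _).comp (measurable_id.add_const _)).const_mul _
  · intro y t
    unfold cvf
    have hBs0 : 0 ≤ Bs := (norm_nonneg _).trans (hBs 0)
    calc ‖∑ m ∈ MM.filter (fun m => Nat.Coprime m q),
          c m * Bt q B r ((m : ZMod q) * y) (t + Real.log (m / M) / 2)‖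
        ≤ ∑ m ∈ MM.filter (fun m => Nat.Coprime m q), A0 * Bs := by
          refine (norm_sum_le _ _).trans (Finset.sum_le_sum fun m hm => ?_)
          rw [norm_mul]
          exact mul_le_mul (hc m (Finset.mem_filter.1 hm).1) (hBs _) (norm_nonneg _) hA0
      _ = ((MM.filter (fun m => Nat.Coprime m q)).card : ℝ) * (A0 * Bs) := by
          rw [Finset.sum_const, nsmul_eq_mul]
      _ ≤ (2 * M) * (A0 * Bs) :=
          mul_le_mul_of_nonneg_right (card_MM q M MM hM hMM) (mul_nonneg hA0 hBs0)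
      _ = 2 * M * A0 * Bs := by ring
  · refine ⟨fun p => ‖al q MM c M p‖, fun p => ‖fq q (Bt q B r) p.1 p.2‖, fun p => norm_nonneg _,
      fun p => norm_nonneg _, ?_, ?_, ?_, ?_⟩
    · intro p
      rw [fq_cvf q MM c M r B hB Bs hBs, norm_mul]
    · intro T hT χ k
      have h1 := hmv q h hd M A0 (MM.filter (fun m => Nat.Coprime m q))
        (fun m => (starRingEnd ℂ) (c m)) χ k T hM hT hA0
        (fun m hm => hMM m (Finset.mem_filter.1 hm).1)
        (fun m hm => by rw [RCLike.norm_conj]; exact hc m (Finset.mem_filter.1 hm).1)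
      refine le_trans (le_of_eq ?_) h1
      refine Finset.sum_congr rfl fun ξ _ => Finset.sum_congr rfl fun j _ => ?_
      show ‖al q MM c M (DirichletCharacter.changeLevel hd ξ * χ, j)‖ ^ 2 = _
      rw [al_conj]
    · exact hpar.summable
    · exact le_of_eq hpar.tsum_eq

end Pool.MP_dd84fd_nt.PL
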