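import Pool.Agent.Lib.MP_dd84fd_nt.PL.Units
import Pool.Agent.Lib.MP_dd84fd_nt.PL.OneQ
import Pool.Agent.Lib.MP_dd84fd_nt.PL.Struct
import Pool.Agent.Lib.MP_dd84fd_nt.PL.BMass
import Pool.Agent.Lib.MP_dd84fd_nt.DivBound

/-!
# PL-LamTwo: a function independent of `a` against type II

`f'(y,t) = lam q ((bq/X) e^{2t})` for `0 ≤ t < (log 2)/2`, `0` for other `t` (all `y`).  `fq f' χ j = 0` for `χ ≠ 1`
(`∑_{x} χ(x) = 0`), `fq f' 1 j = fc(..) j`.  Take `α(χ,j) = 1` if `χ = 1`, `0` otherwise, `β(χ,j) = ‖fc .. j‖` if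
`χ = 1`, `0` otherwise.  Coset bound: at most one `ξ` with `changeLevel ξ * χ = 1`
(`changeLevel` is injective), so the sum is `≤ 2T+1 ≤ 3T`: `a = 3`, `b = 0`.  `∑' β² = ∫_0^1 ‖f'‖² ≤ (Λ0 X/q)²`.
Second function as in TwoTwo (`a = C Am² M φ(h)`, `b = C Am² M²`, `S_2 = B(q)/φ(q)`), `J = X^20`, `T0 = 1 + b`:
`‖Bq‖ ≤ C (b/X) log X τ^(3/2) h^(-1/2) φ(q)^(1/2) (Λ0 X/q) B(q)^(1/2) Am (M(hT0+M))^(1/2) + tail`
(`√(3(1+|ρ|))/√(1+|ρ|) = √3`).  `φ(q)^(1/2)/q ≤ q^(-1/2)`, `(M(hT0+M))^(1/2) ≤ M + (M h T0)^(1/2)`, Cauchy over `q`,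
`∑ B(q) ≤ (8N + X/(Mb)) S X/M`:
* part `M`: `C b log X Λ0 Am (∑ τ³/(q h))^(1/2) (M² (8N + X/(Mb)) S X/M)^(1/2)`, and
  `M²(8N + X/(Mb))X/M = 8NMX + X²/b ≤ (X²/b)(16 + 1)` (`Nb M ≤ 2X`): `≤ C √b X ..`; `τ³/h ≤ C h^(-1/4)` (`div_bound 4`);
* part `(MhT0)^(1/2)`: `C b log X Λ0 Am (∑ τ³ T0/q)^(1/2) (M (8N+X/(Mb)) S X/M)^(1/2) ≤ C √b √T0 log X Λ0 Am √S X M^(-1/2) (∑ τ³/q)^(1/2)`,
  `M ≥ X^(1/4)/2`, `∑_{q ≤ X} τ(h_q)³/q ≤ X^(1/64)·(1+log X)·C` (`τ(h)³ ≤ C X^(1/64)`): `≤ X^(-1/16)`, the rest is absorbed.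
`√b√T0 ≤ 1 + b`.
-/

set_option autoImplicit false

namespace Pool.MP_dd84fd_nt.PL

open Finset Pool.MP_67663b_nt.Odd

theorem lt_fq_const (q : ℕ) [NeZero q] (F : ℝ → ℂ) (χ : DirichletCharacter ℂ q) (j : ℤ) :
    fq q (fun _ => F) χ j = if χ = 1 then fc F j else 0 := by
  classical
  unfold fq
  rw [← Finset.sum_mul]
  split_ifs with h
  · subst h
    rw [MulChar.sum_one_eq_card_units, ZMod.card_units_eq_totient, ← mul_assoc]
    have hφ : (Nat.totient q : ℂ) ≠ 0 := by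
      exact_mod_cast (Nat.totient_pos.2 (Nat.pos_of_ne_zero (NeZero.ne q))).ne'
    rw [one_div, inv_mul_cancel₀ hφ, one_mul]
  · rw [MulChar.sum_eq_zero_of_ne_one h, zero_mul, mul_zero]

theorem lt_coset (q h : ℕ) [NeZero q] [NeZero h] (hd : h ∣ q) (T : ℕ) (hT : 1 ≤ T)
    (χ : DirichletCharacter ℂ q) (k : ℤ) :
    ∑ ξ : DirichletCharacter ℂ h, ∑ _j ∈ Icc (k - T) (k + T),
      (if DirichletCharacter.changeLevel hd ξ * χ = 1 then (1 : ℝ) else 0) ^ 2 ≤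
        3 * T + 0 := by
  classical
  have h1 : ∀ ξ : DirichletCharacter ℂ h, ∑ _j ∈ Icc (k - T) (k + T),
      (if DirichletCharacter.changeLevel hd ξ * χ = 1 then (1 : ℝ) else 0) ^ 2 =
      (2 * T + 1) * (if DirichletCharacter.changeLevel hd ξ * χ = 1 then (1 : ℝ) else 0) := by
    intro ξ
    rw [Finset.sum_const, nsmul_eq_mul, Int.card_Icc]
    have e1 : ((k + T + 1 - (k - T)).toNat : ℝ) = 2 * T + 1 := by
      have : (k + T + 1 - (k - T)).toNat = 2 * T + 1 := by omega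
      rw [this]
      push_cast
      ring
    rw [e1]
    split_ifs <;> simp
  rw [Finset.sum_congr rfl fun ξ _ => h1 ξ, ← Finset.mul_sum, Finset.sum_ite, Finset.sum_const_zero,
    add_zero, Finset.sum_const, nsmul_eq_mul, mul_one]
  have h2 : ((univ.filter fun ξ : DirichletCharacter ℂ h =>
      DirichletCharacter.changeLevel hd ξ * χ = 1).card : ℝ) ≤ 1 := by
    have : (univ.filter fun ξ : DirichletCharacter ℂ h =>
      DirichletCharacter.changeLevel hd ξ * χ = 1).card ≤ 1 := by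
      rw [Finset.card_le_one]
      intro ξ hξ ξ' hξ'
      rw [Finset.mem_filter] at hξ hξ'
      have e : DirichletCharacter.changeLevel hd ξ = DirichletCharacter.changeLevel hd ξ' :=
        mul_right_cancel (hξ.2.trans hξ'.2.symm)
      exact DirichletCharacter.changeLevel_injective hd e
    exact_mod_cast this
  have hT' : (1 : ℝ) ≤ T := by exact_mod_cast hT
  nlinarith

/-- the cut function -/
noncomputable def ltF (lam : ℝ → ℂ) (β t : ℝ) : ℂ :=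
  (Set.Ico (0 : ℝ) (Real.log 2 / 2)).indicator (fun t => lam (β * Real.exp (2 * t))) t

theorem ltF_meas (lam : ℝ → ℂ) (hl : Continuous lam) (β : ℝ) : Measurable (ltF lam β) := by
  unfold ltF
  refine Measurable.indicator ?_ measurableSet_Ico
  exact (hl.comp (by fun_prop)).measurable

theorem ltF_bound (lam : ℝ → ℂ) (β Λ : ℝ) (hΛ : ∀ x, ‖lam x‖ ≤ Λ) (t : ℝ) :
    ‖ltF lam β t‖ ≤ Λ := by
  unfold ltF
  refine (norm_indicator_le_norm_self _ _).trans (hΛ _)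

theorem lt_beta (q : ℕ) [NeZero q] (F : ℝ → ℂ) (Λ : ℝ) (hF : Measurable F)
    (hΛ : ∀ t, ‖F t‖ ≤ Λ) :
    (Summable fun p : DirichletCharacter ℂ q × ℤ => (if p.1 = 1 then ‖fc F p.2‖ else 0) ^ 2) ∧
      ∑' p : DirichletCharacter ℂ q × ℤ, (if p.1 = 1 then ‖fc F p.2‖ else 0) ^ 2 ≤ Λ ^ 2 := by
  classical
  have h1 := fc_parseval F Λ hF hΛ
  have h2 : ∀ χ : DirichletCharacter ℂ q,
      HasSum (fun j : ℤ => (if χ = 1 then ‖fc F j‖ else 0) ^ 2)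
        (if χ = 1 then ∫ t in (0 : ℝ)..1, ‖F t‖ ^ 2 else 0) := by
    intro χ
    split_ifs with h
    · exact h1
    · simp
  have h3 := gf_fin_prod (f := fun p : DirichletCharacter ℂ q × ℤ =>
    (if p.1 = 1 then ‖fc F p.2‖ else 0) ^ 2) h2
  refine ⟨h3.summable, ?_⟩
  rw [h3.tsum_eq, Finset.sum_ite_eq' univ (1 : DirichletCharacter ℂ q)]
  simp only [Finset.mem_univ, if_true]
  have h4 : ∫ t in (0 : ℝ)..1, ‖F t‖ ^ 2 ≤ ∫ _t in (0 : ℝ)..1, Λ ^ 2 := by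
    refine intervalIntegral.integral_mono_on (by norm_num) ?_ (by simp) fun t _ => ?_
    · have hb : MeasureTheory.IntegrableOn (fun t => ‖F t‖ ^ 2) (Set.Ioc 0 1) := by
        refine MeasureTheory.Measure.integrableOn_of_bounded (M := Λ ^ 2) (by simp) ?_ ?_
        · exact ((hF.norm).pow_const 2).aestronglyMeasurable
        · refine Filter.Eventually.of_forall fun t => ?_
          rw [Real.norm_of_nonneg (by positivity)]
          exact pow_le_pow_left₀ (norm_nonneg _) (hΛ t) 2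
      rwa [intervalIntegrable_iff_integrableOn_Ioc_of_le (by norm_num)]
    · exact pow_le_pow_left₀ (norm_nonneg _) (hΛ t) 2
  simpa using h4

theorem lt_one : ∃ C : ℝ, 0 < C ∧ ∀ (X n q : ℕ) [NeZero q] (β σ : ℝ), 1 ≤ X → n ≤ X → 0 < β →
    (σ = 1 ∨ σ = -1) → 1 ≤ n → ∀ (lam : ℝ → ℂ) (Λ : ℝ), Continuous lam → (∀ x, ‖lam x‖ ≤ Λ) →
    ∀ (M Am : ℝ) (K : ℕ) (MM : Finset ℕ) (a c : ℕ → ℂ), 1 ≤ M → 0 ≤ Am →
    (∀ m ∈ MM, M < (m : ℝ) ∧ (m : ℝ) ≤ 2 * M) → (∀ m ∈ MM, ‖a m‖ ≤ Am) →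
    ∀ (Bs Bd : ℝ) (J : ℕ), (∀ x, ‖tp K c x‖ ≤ Bs) → Λ ≤ Bd → 2 * M * Am * Bs ≤ Bd → 1 ≤ J →
    8 * β ≤ J →
    ‖Bq X β σ n q (fun _ x => lam x) (f2f MM a (tp K c) σ q)‖ ≤
      β / X * (C * (1 + Real.log J) *
        (Real.sqrt ((hq q n : ℝ) * (hq q n).divisors.card) / Nat.totient (hq q n)) *
        (Λ * Real.sqrt (Nat.totient q) *
          Real.sqrt (∑ r ∈ rr q, ∫ t in (0 : ℝ)..1,
            ‖tp K c ((r : ℝ) / q + σ * (M * (β / X)) * Real.exp (2 * Int.fract t))‖ ^ 2)) *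
        (Am * Real.sqrt (M * (hq q n * (1 + β) + M))) +
      C * Nat.totient q * Bd ^ 2 / Real.sqrt J) := by
  obtain ⟨C0, hC0, h0⟩ := one_q
  obtain ⟨C1, hC1, h1⟩ := cvf_struct
  refine ⟨C0 * (1 + Real.sqrt (3 * C1)), by positivity, ?_⟩
  intro X n q _ β σ hX hn hβ hσ hn1 lam Λ hlc hΛ M Am K MM a c hM hAm hMM ha Bs Bd J hBs hΛB hMB hJ hβJ
  have hX0 : (0 : ℝ) < X := by exact_mod_cast hX
  have hq1 : 1 ≤ q := Nat.pos_of_ne_zero (NeZero.ne q)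
  have hd : hq q n ∣ q := Nat.div_dvd_of_dvd (Nat.gcd_dvd_left q n)
  have hh1 : 1 ≤ hq q n := by
    unfold hq
    exact Nat.div_pos (Nat.le_of_dvd hq1 (Nat.gcd_dvd_left q n)) (Nat.gcd_pos_of_pos_left _ hq1)
  have : NeZero (hq q n) := ⟨by omega⟩
  have hΛ0 : 0 ≤ Λ := (norm_nonneg _).trans (hΛ 0)
  have hBs0 : 0 ≤ Bs := (norm_nonneg _).trans (hBs 0)
  have hBd0 : 0 ≤ Bd := hΛ0.trans hΛB
  have hcB : Continuous (tp K c) := by
    unfold tp ee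
    fun_prop
  have hpB : ∀ x, tp K c (x + 1) = tp K c x := by
    intro x
    unfold tp
    refine Finset.sum_congr rfl fun k _ => ?_
    congr 1
    unfold ee
    rw [Complex.exp_eq_exp_iff_exists_int]
    exact ⟨k, by push_cast; ring⟩
  set r := σ * (M * (β / X)) with hr
  obtain ⟨hgm, hgb, α2, β2, hα2, hβ2, hab2, hcos2, hsum2, hts2⟩ :=
    h1 q (hq q n) hd M Am r MM a (tp K c) Bs hM hAm hMM ha hcB hBs
  set F := ltF lam (β / X) with hF
  have hFm : Measurable F := ltF_meas lam hlc (β / X)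
  have hFb : ∀ t, ‖F t‖ ≤ Λ := ltF_bound lam (β / X) Λ hΛ
  obtain ⟨hsum1, hts1⟩ := lt_beta q F Λ hFm hFb
  -- rewrite Bq
  have e1 := Bq_eq X hX β σ hβ n q (fun _ x => lam x) (f2f MM a (tp K c) σ q)
    (fun _ => F) (cvf q MM a M r (tp K c)) (fun _ => hlc)
    (by
      intro a'
      unfold f2f
      refine continuous_finsetSum _ fun m _ => ?_
      refine continuous_const.mul (hcB.comp ?_)
      fun_prop)
    (by
      intro a' _ t ht ht'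
      rw [hF]
      unfold ltF
      rw [Set.indicator_of_mem (Set.mem_Ico.2 ⟨ht, ht'⟩)])
    (by
      intro a' _ t ht ht'
      rw [hr]
      exact cvf_eq q MM a M (β / X) σ (tp K c) (by linarith) hMM hpB a' t ht ht')
  rw [e1, norm_mul, Complex.norm_real, Real.norm_of_nonneg (by positivity)]
  refine mul_le_mul_of_nonneg_left ?_ (by positivity)
  set ρ : ℝ := -((n : ℝ) * σ * β / X) with hρ
  have hρa : |ρ| ≤ β := by
    rw [hρ, abs_neg, abs_div, abs_mul, abs_mul, abs_of_pos hX0, abs_of_pos hβ,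
      abs_of_nonneg (Nat.cast_nonneg n)]
    have hs1 : |σ| = 1 := by rcases hσ with h | h <;> rw [h] <;> norm_num
    rw [hs1, mul_one, div_le_iff₀ hX0]
    have : (n : ℝ) ≤ X := by exact_mod_cast hn
    nlinarith
  have h2 := h0 q (hq q n) n rfl hd (fun _ => F) (cvf q MM a M r (tp K c)) Bd hBd0
    (fun _ => hFm) hgm (fun _ t => (hFb t).trans hΛB) (fun y t => (hgb y t).trans hMB)
    (fun p => if p.1 = 1 then 1 else 0) (fun p => if p.1 = 1 then ‖fc F p.2‖ else 0) α2 β2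
    (fun p => by split_ifs <;> norm_num)
    (fun p => by split_ifs; exacts [norm_nonneg _, le_refl 0]) hα2 hβ2
    (fun p => by
      rw [lt_fq_const]
      split_ifs <;> simp) hab2 3 0 (C1 * Am ^ 2 * M * Nat.totient (hq q n))
    (C1 * Am ^ 2 * M * M) (Λ ^ 2)
    ((1 / (Nat.totient q : ℝ)) *
        ∑ y ∈ univ.filter (fun y : ZMod q => IsUnit y), ∫ t in (0 : ℝ)..1, ‖Bt q (tp K c) r y t‖ ^ 2)
    (by norm_num) (by norm_num) (by positivity) (by positivity)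
    (fun T hT χ k => lt_coset q (hq q n) hd T hT χ k)
    (fun T hT χ k => (hcos2 T hT χ k).trans (le_of_eq (by ring)))
    hsum1 hts1 hsum2 hts2 ρ J hJ (by linarith [abs_nonneg ρ])
  refine h2.trans ?_
  have hsu := sum_units q (fun r' : ℕ => ∫ t in (0 : ℝ)..1,
    ‖tp K c ((r' : ℝ) / q + r * Real.exp (2 * Int.fract t))‖ ^ 2)
  have hsu' : ∑ y ∈ univ.filter (fun y : ZMod q => IsUnit y),
      ∫ t in (0 : ℝ)..1, ‖Bt q (tp K c) r y t‖ ^ 2 = ∑ r' ∈ rr q, ∫ t in (0 : ℝ)..1,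
    ‖tp K c ((r' : ℝ) / q + r * Real.exp (2 * Int.fract t))‖ ^ 2 := by
    rw [← hsu]
    rfl
  rw [hsu']
  set Z := ∑ r' ∈ rr q, ∫ t in (0 : ℝ)..1,
    ‖tp K c ((r' : ℝ) / q + r * Real.exp (2 * Int.fract t))‖ ^ 2 with hZ
  have hZ0 : 0 ≤ Z := by
    rw [hZ]
    refine Finset.sum_nonneg fun r' _ => ?_
    refine intervalIntegral.integral_nonneg (by norm_num) fun t _ => by positivity
  have hφ : (0 : ℝ) < Nat.totient q := by exact_mod_cast Nat.totient_pos.2 hq1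
  have hφh : (0 : ℝ) < Nat.totient (hq q n) := by exact_mod_cast Nat.totient_pos.2 hh1
  have hφh' : (Nat.totient (hq q n) : ℝ) ≤ hq q n := by exact_mod_cast Nat.totient_le _
  have e2 : (Nat.totient q : ℝ) * Real.sqrt (Λ ^ 2 * (1 / (Nat.totient q : ℝ) * Z)) =
      Λ * Real.sqrt (Nat.totient q) * Real.sqrt Z := by
    rw [Real.sqrt_mul (by positivity), Real.sqrt_sq hΛ0, Real.sqrt_mul (by positivity),
      Real.sqrt_div (by norm_num), Real.sqrt_one]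
    have hs : (Nat.totient q : ℝ) / Real.sqrt (Nat.totient q) = Real.sqrt (Nat.totient q) :=
      Real.div_sqrt
    calc (Nat.totient q : ℝ) * (Λ * (1 / Real.sqrt (Nat.totient q) * Real.sqrt Z))
        = (Nat.totient q : ℝ) / Real.sqrt (Nat.totient q) * (Λ * Real.sqrt Z) := by ring
      _ = Λ * Real.sqrt (Nat.totient q) * Real.sqrt Z := by rw [hs]; ring
  have e3 : Real.sqrt ((3 * (1 + |ρ|) + 0) * (C1 * Am ^ 2 * M * Nat.totient (hq q n) * (1 + |ρ|) +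
      C1 * Am ^ 2 * M * M)) / Real.sqrt (1 + |ρ|) ≤
      Real.sqrt (3 * C1) * (Am * Real.sqrt (M * (hq q n * (1 + β) + M))) := by
    have hp : (0 : ℝ) < 1 + |ρ| := by positivity
    rw [← Real.sqrt_div (by positivity)]
    have e4 : (3 * (1 + |ρ|) + 0) * (C1 * Am ^ 2 * M * Nat.totient (hq q n) * (1 + |ρ|) +
      C1 * Am ^ 2 * M * M) / (1 + |ρ|) =
      (3 * C1) * (Am ^ 2 * (M * (Nat.totient (hq q n) * (1 + |ρ|) + M))) := by
      field_simp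
      ring
    rw [e4, Real.sqrt_mul (show (0 : ℝ) ≤ 3 * C1 by positivity), Real.sqrt_mul (sq_nonneg Am),
      Real.sqrt_sq hAm]
    refine mul_le_mul_of_nonneg_left (mul_le_mul_of_nonneg_left (Real.sqrt_le_sqrt ?_) hAm)
      (Real.sqrt_nonneg _)
    refine mul_le_mul_of_nonneg_left ?_ (by linarith)
    refine add_le_add ?_ le_rfl
    refine mul_le_mul hφh' (by linarith) hp.le (by positivity)
  have hlog : 0 ≤ Real.log J := Real.log_nonneg (by exact_mod_cast hJ)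
  have hs3 : 0 ≤ Real.sqrt (3 * C1) := Real.sqrt_nonneg _
  set κ := Real.sqrt ((hq q n : ℝ) * (hq q n).divisors.card) / Nat.totient (hq q n) with hκ
  have hκ0 : 0 ≤ κ := by positivity
  have h3 : C0 * (1 + Real.log J) * κ * Nat.totient q *
      Real.sqrt (Λ ^ 2 * (1 / (Nat.totient q : ℝ) * Z)) *
      Real.sqrt ((3 * (1 + |ρ|) + 0) * (C1 * Am ^ 2 * M * Nat.totient (hq q n) * (1 + |ρ|) +
      C1 * Am ^ 2 * M * M)) / Real.sqrt (1 + |ρ|) ≤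
      C0 * (1 + Real.sqrt (3 * C1)) * (1 + Real.log J) * κ * (Λ * Real.sqrt (Nat.totient q) *
        Real.sqrt Z) * (Am * Real.sqrt (M * (hq q n * (1 + β) + M))) := by
    have e5 : C0 * (1 + Real.log J) * κ * Nat.totient q *
      Real.sqrt (Λ ^ 2 * (1 / (Nat.totient q : ℝ) * Z)) *
      Real.sqrt ((3 * (1 + |ρ|) + 0) * (C1 * Am ^ 2 * M * Nat.totient (hq q n) * (1 + |ρ|) +
      C1 * Am ^ 2 * M * M)) / Real.sqrt (1 + |ρ|) = (C0 * (1 + Real.log J) * κ *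
      (Nat.totient q * Real.sqrt (Λ ^ 2 * (1 / (Nat.totient q : ℝ) * Z)))) *
      (Real.sqrt ((3 * (1 + |ρ|) + 0) * (C1 * Am ^ 2 * M * Nat.totient (hq q n) * (1 + |ρ|) +
      C1 * Am ^ 2 * M * M)) / Real.sqrt (1 + |ρ|)) := by ring
    rw [e5, e2]
    have h4 : 0 ≤ C0 * (1 + Real.log J) * κ * (Λ * Real.sqrt (Nat.totient q) * Real.sqrt Z) := by
      positivity
    refine (mul_le_mul_of_nonneg_left e3 h4).trans ?_
    have h5 : 0 ≤ Am * Real.sqrt (M * (hq q n * (1 + β) + M)) := by positivity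
    nlinarith [mul_nonneg h4 h5]
  refine add_le_add h3 ?_
  have h6 : 0 ≤ C0 * Nat.totient q * Bd ^ 2 / Real.sqrt J := by positivity
  have e7 : C0 * (1 + Real.sqrt (3 * C1)) * Nat.totient q * Bd ^ 2 / Real.sqrt J =
    (1 + Real.sqrt (3 * C1)) * (C0 * Nat.totient q * Bd ^ 2 / Real.sqrt J) := by ring
  rw [e7]
  nlinarith

/-- the factor of the kernel -/
noncomputable def ltK (h : ℕ) : ℝ := Real.sqrt ((h : ℝ) * h.divisors.card) / Nat.totient h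

theorem ltK_nonneg (h : ℕ) : 0 ≤ ltK h := by unfold ltK; positivity

theorem ltK_sq (h : ℕ) (hh : 1 ≤ h) : ltK h ^ 2 ≤ (h.divisors.card : ℝ) ^ 3 / h := by
  have h1 := cardlem h hh
  have hh0 : (0 : ℝ) < h := by exact_mod_cast hh
  have hτ0 : (0 : ℝ) ≤ (h.divisors.card : ℝ) := Nat.cast_nonneg _
  calc ltK h ^ 2 ≤ ((h.divisors.card : ℝ) ^ (3 / 2 : ℝ) * (h : ℝ) ^ (-(1 / 2) : ℝ)) ^ 2 :=
        pow_le_pow_left₀ (ltK_nonneg h) h1 2
    _ = (h.divisors.card : ℝ) ^ 3 / h := by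
        have e1 : ((h.divisors.card : ℝ) ^ (3 / 2 : ℝ)) ^ 2 = (h.divisors.card : ℝ) ^ 3 := by
          rw [← Real.rpow_natCast, ← Real.rpow_natCast, ← Real.rpow_mul hτ0]
          norm_num
        have e2 : ((h : ℝ) ^ (-(1 / 2) : ℝ)) ^ 2 = (h : ℝ)⁻¹ := by
          rw [← Real.rpow_natCast, ← Real.rpow_mul hh0.le, ← Real.rpow_neg_one]
          norm_num
        rw [mul_pow, e1, e2, div_eq_mul_inv]

theorem lt_tau (k : ℕ) : ∃ D : ℝ, 1 ≤ D ∧ ∀ h : ℕ, 1 ≤ h →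
    (h.divisors.card : ℝ) ^ k ≤ D * h := by
  obtain ⟨C, hC1, hC⟩ := Pool.Agent.Lib.MP_dd84fd_nt.DivBound.div_bound k
  exact ⟨C, by exact_mod_cast hC1, fun h hh => by exact_mod_cast hC h (by omega)⟩

theorem lt_D4 : ∃ D : ℝ, 1 ≤ D ∧ ∀ h : ℕ, 1 ≤ h →
    ltK h ^ 2 ≤ D * (1 / (h : ℝ) ^ (1 / 4 : ℝ)) := by
  obtain ⟨D, hD, h4⟩ := lt_tau 4
  refine ⟨D, hD, fun h hh => (ltK_sq h hh).trans ?_⟩
  have hh0 : (0 : ℝ) < h := by exact_mod_cast hh
  have hτ0 : (0 : ℝ) ≤ (h.divisors.card : ℝ) := Nat.cast_nonneg _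
  have h1 : (h.divisors.card : ℝ) ^ 3 ≤ D * (h : ℝ) ^ (3 / 4 : ℝ) := by
    calc (h.divisors.card : ℝ) ^ 3 = ((h.divisors.card : ℝ) ^ 4) ^ (3 / 4 : ℝ) := by
          rw [← Real.rpow_natCast, ← Real.rpow_natCast, ← Real.rpow_mul hτ0]
          norm_num
      _ ≤ (D * h) ^ (3 / 4 : ℝ) := Real.rpow_le_rpow (by positivity) (h4 h hh) (by norm_num)
      _ = D ^ (3 / 4 : ℝ) * (h : ℝ) ^ (3 / 4 : ℝ) := Real.mul_rpow (by linarith) hh0.le
      _ ≤ D ^ (1 : ℝ) * (h : ℝ) ^ (3 / 4 : ℝ) := by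
          refine mul_le_mul_of_nonneg_right ?_ (by positivity)
          exact Real.rpow_le_rpow_of_exponent_le hD (by norm_num)
      _ = D * (h : ℝ) ^ (3 / 4 : ℝ) := by rw [Real.rpow_one]
  have h2 : (h : ℝ) ^ (3 / 4 : ℝ) * (h : ℝ) ^ (1 / 4 : ℝ) = h := by
    rw [← Real.rpow_add hh0]
    norm_num
  have h3 : (0 : ℝ) < (h : ℝ) ^ (1 / 4 : ℝ) := by positivity
  rw [div_le_iff₀ hh0]
  refine h1.trans (le_of_eq ?_)
  calc D * (h : ℝ) ^ (3 / 4 : ℝ) = D * (1 / (h : ℝ) ^ (1 / 4 : ℝ)) *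
        ((h : ℝ) ^ (3 / 4 : ℝ) * (h : ℝ) ^ (1 / 4 : ℝ)) := by field_simp
    _ = D * (1 / (h : ℝ) ^ (1 / 4 : ℝ)) * h := by rw [h2]

theorem lt_D48 : ∃ D : ℝ, 1 ≤ D ∧ ∀ (h X : ℕ), 1 ≤ h → h ≤ X →
    ltK h ^ 2 * h ≤ D * (X : ℝ) ^ (1 / 16 : ℝ) := by
  obtain ⟨D, hD, h4⟩ := lt_tau 48
  refine ⟨D, hD, fun h X hh hX => ?_⟩
  have hh0 : (0 : ℝ) < h := by exact_mod_cast hh
  have hX' : (h : ℝ) ≤ X := by exact_mod_cast hX
  have hτ0 : (0 : ℝ) ≤ (h.divisors.card : ℝ) := Nat.cast_nonneg _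
  have h0 := ltK_sq h hh
  rw [le_div_iff₀ hh0] at h0
  refine h0.trans ?_
  calc (h.divisors.card : ℝ) ^ 3 = ((h.divisors.card : ℝ) ^ 48) ^ (1 / 16 : ℝ) := by
        rw [← Real.rpow_natCast, ← Real.rpow_natCast, ← Real.rpow_mul hτ0]
        norm_num
    _ ≤ (D * X) ^ (1 / 16 : ℝ) :=
        Real.rpow_le_rpow (by positivity) ((h4 h hh).trans
          (mul_le_mul_of_nonneg_left hX' (by linarith))) (by norm_num)
    _ = D ^ (1 / 16 : ℝ) * (X : ℝ) ^ (1 / 16 : ℝ) := Real.mul_rpow (by linarith) (by positivity)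
    _ ≤ D ^ (1 : ℝ) * (X : ℝ) ^ (1 / 16 : ℝ) := by
        refine mul_le_mul_of_nonneg_right ?_ (by positivity)
        exact Real.rpow_le_rpow_of_exponent_le hD (by norm_num)
    _ = D * (X : ℝ) ^ (1 / 16 : ℝ) := by rw [Real.rpow_one]

theorem lt_harm (X : ℕ) (hX : 1 ≤ X) (QQ : Finset ℕ) (hQ : ∀ q ∈ QQ, 1 ≤ q ∧ q ≤ X) :
    ∑ q ∈ QQ, 1 / (q : ℝ) ≤ 17 * (X : ℝ) ^ (1 / 16 : ℝ) := by
  have hX' : (1 : ℝ) ≤ X := by exact_mod_cast hX
  have h1 : ∑ q ∈ QQ, 1 / (q : ℝ) ≤ ∑ q ∈ Icc 1 X, 1 / (q : ℝ) := by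
    refine Finset.sum_le_sum_of_subset_of_nonneg (fun q hq => ?_) fun q _ _ => by positivity
    exact Finset.mem_Icc.2 (hQ q hq)
  have h2 : ∑ q ∈ Icc 1 X, 1 / (q : ℝ) ≤ 1 + Real.log X := by
    have := harmonic_le_one_add_log X
    rw [harmonic_eq_sum_Icc] at this
    push_cast at this
    simpa [one_div] using this
  have h3 : Real.log X ≤ 16 * (X : ℝ) ^ (1 / 16 : ℝ) := by
    have := Real.log_le_rpow_div (x := (X : ℝ)) (by linarith) (show (0 : ℝ) < 1 / 16 by norm_num)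
    linarith
  have h4 : (1 : ℝ) ≤ (X : ℝ) ^ (1 / 16 : ℝ) := Real.one_le_rpow hX' (by norm_num)
  linarith

theorem lt_ev (A1 : ℕ) (C : ℝ) : ∃ X0 : ℕ, ∀ X : ℕ, X0 ≤ X → 16 ≤ X ∧ 1 ≤ Real.log X ∧
    (Real.log X) ^ (A1 : ℝ) ≤ (X : ℝ) ^ (1 / 2 : ℝ) ∧ 128 * C ≤ X := by
  have h1 : ∀ᶠ x : ℝ in Filter.atTop, (Real.log x) ^ (A1 : ℝ) ≤ x ^ (1 / 2 : ℝ) := by
    have h := isLittleO_log_rpow_rpow_atTop (A1 : ℝ) (show (0 : ℝ) < 1 / 2 by norm_num)
    filter_upwards [h.bound (show (0 : ℝ) < 1 by norm_num), Filter.eventually_ge_atTop (1 : ℝ)]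
      with x hx hx1
    rw [Real.norm_of_nonneg (Real.rpow_nonneg (Real.log_nonneg hx1) _),
      Real.norm_of_nonneg (Real.rpow_nonneg (by linarith) _), one_mul] at hx
    exact hx
  have h2 : ∀ᶠ x : ℝ in Filter.atTop, 1 ≤ Real.log x :=
    Real.tendsto_log_atTop.eventually_ge_atTop 1
  have h3 := (h1.and h2).and ((Filter.eventually_ge_atTop (16 : ℝ)).and
    (Filter.eventually_ge_atTop (128 * C)))
  have h4 := tendsto_natCast_atTop_atTop (R := ℝ) |>.eventually h3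
  obtain ⟨X0, hX0⟩ := Filter.eventually_atTop.1 h4
  refine ⟨X0, fun X hX => ?_⟩
  have h5 := hX0 X hX
  exact ⟨by exact_mod_cast h5.2.1, h5.1.2, h5.1.1, h5.2.2⟩

theorem lt_cs (QQ : Finset ℕ) (κ hh Z : ℕ → ℝ) (M R : ℝ)
    (hh0 : ∀ q ∈ QQ, 0 ≤ hh q) (hZ : ∀ q ∈ QQ, 0 ≤ Z q) (hM : 0 ≤ M) (hR : 0 ≤ R) :
    ∑ q ∈ QQ, κ q / Real.sqrt q * Real.sqrt (Z q) * (M + R * Real.sqrt (hh q)) ≤
      (M * Real.sqrt (∑ q ∈ QQ, κ q ^ 2 / q) + R * Real.sqrt (∑ q ∈ QQ, κ q ^ 2 * hh q / q)) *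
        Real.sqrt (∑ q ∈ QQ, Z q) := by
  have hq : ∀ q : ℕ, Real.sqrt (q : ℝ) ^ 2 = q := fun q => Real.sq_sqrt (Nat.cast_nonneg q)
  have h1 := Real.sum_mul_le_sqrt_mul_sqrt QQ (fun q => κ q / Real.sqrt q)
    (fun q => Real.sqrt (Z q))
  have h2 := Real.sum_mul_le_sqrt_mul_sqrt QQ (fun q => κ q * Real.sqrt (hh q) / Real.sqrt q)
    (fun q => Real.sqrt (Z q))
  have e1 : ∑ q ∈ QQ, (κ q / Real.sqrt q) ^ 2 = ∑ q ∈ QQ, κ q ^ 2 / q :=
    Finset.sum_congr rfl fun q _ => by rw [div_pow, hq]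
  have e2 : ∑ q ∈ QQ, (κ q * Real.sqrt (hh q) / Real.sqrt q) ^ 2 =
      ∑ q ∈ QQ, κ q ^ 2 * hh q / q :=
    Finset.sum_congr rfl fun q hq' => by rw [div_pow, hq, mul_pow, Real.sq_sqrt (hh0 q hq')]
  have e3 : ∑ q ∈ QQ, Real.sqrt (Z q) ^ 2 = ∑ q ∈ QQ, Z q :=
    Finset.sum_congr rfl fun q hq' => Real.sq_sqrt (hZ q hq')
  rw [e1, e3] at h1
  rw [e2, e3] at h2
  have e4 : ∑ q ∈ QQ, κ q / Real.sqrt q * Real.sqrt (Z q) * (M + R * Real.sqrt (hh q)) =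
      M * ∑ q ∈ QQ, κ q / Real.sqrt q * Real.sqrt (Z q) +
      R * ∑ q ∈ QQ, κ q * Real.sqrt (hh q) / Real.sqrt q * Real.sqrt (Z q) := by
    rw [Finset.mul_sum, Finset.mul_sum, ← Finset.sum_add_distrib]
    exact Finset.sum_congr rfl fun q _ => by ring
  rw [e4]
  have h3 := mul_le_mul_of_nonneg_left h1 hM
  have h4 := mul_le_mul_of_nonneg_left h2 hR
  calc _ ≤ _ := add_le_add h3 h4
    _ = _ := by ring

theorem lt_num (y b N M S U1 U2 V Y D4 D48 : ℝ) (hy : 0 < y) (hb : 0 < b)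
    (hN : 0 ≤ N) (hM1 : y ^ 4 / 2 ≤ M) (hNM : N * b * M ≤ 2 * y ^ 16) (hS : 0 ≤ S) (hY : 0 ≤ Y)
    (hV0 : 0 ≤ V) (hV : V ≤ (8 * N + y ^ 16 / (M * b)) * (S * y ^ 16 / M)) (hU10 : 0 ≤ U1)
    (hU1 : U1 ≤ D4 * Y) (hU20 : 0 ≤ U2) (hU2 : U2 ≤ 17 * D48 * y ^ 2) (hD4 : 1 ≤ D4)
    (hD48 : 1 ≤ D48) :
    b * ((M * Real.sqrt U1 + Real.sqrt (2 * M * (1 + b)) * Real.sqrt U2) * Real.sqrt V) ≤
      (5 * D4 + 34 * D48) * (1 + b) * Real.sqrt S * y ^ 16 * (Real.sqrt Y + 1 / y) := by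
  have hM : 0 < M := lt_of_lt_of_le (by positivity) hM1
  have hV1 : b ^ 2 * M ^ 2 * V ≤ 17 * S * y ^ 32 * b := by
    calc b ^ 2 * M ^ 2 * V ≤ b ^ 2 * M ^ 2 * ((8 * N + y ^ 16 / (M * b)) * (S * y ^ 16 / M)) :=
          mul_le_mul_of_nonneg_left hV (by positivity)
      _ = S * y ^ 16 * b * (8 * (N * b * M) + y ^ 16) := by
          field_simp
      _ ≤ S * y ^ 16 * b * (8 * (2 * y ^ 16) + y ^ 16) := by
          refine mul_le_mul_of_nonneg_left (by linarith) (by positivity)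
      _ = 17 * S * y ^ 32 * b := by ring
  have hV2 : b ^ 2 * M * V ≤ 34 * S * y ^ 28 * b := by
    have h1 : b ^ 2 * M * V * (y ^ 4 / 2) ≤ 17 * S * y ^ 32 * b := by
      calc b ^ 2 * M * V * (y ^ 4 / 2) ≤ b ^ 2 * M * V * M :=
            mul_le_mul_of_nonneg_left hM1 (by positivity)
        _ = b ^ 2 * M ^ 2 * V := by ring
        _ ≤ _ := hV1
    have h2 : (0 : ℝ) < y ^ 4 / 2 := by positivity
    refine le_of_mul_le_mul_right (h1.trans (le_of_eq ?_)) h2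
    ring
  have hs : Real.sqrt S ^ 2 = S := Real.sq_sqrt hS
  have hbb : b ≤ (1 + b) ^ 2 := by nlinarith
  have hbb' : b * (1 + b) ≤ (1 + b) ^ 2 := by nlinarith
  have p1 : b * (M * Real.sqrt U1 * Real.sqrt V) ≤
      5 * D4 * (1 + b) * Real.sqrt S * y ^ 16 * Real.sqrt Y := by
    refine (abs_le_of_sq_le_sq ?_ (by positivity)).trans' (le_abs_self _)
    calc (b * (M * Real.sqrt U1 * Real.sqrt V)) ^ 2 =
          (b ^ 2 * M ^ 2 * Real.sqrt V ^ 2) * Real.sqrt U1 ^ 2 := by ring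
      _ = (b ^ 2 * M ^ 2 * V) * U1 := by rw [Real.sq_sqrt hV0, Real.sq_sqrt hU10]
      _ ≤ (17 * S * y ^ 32 * b) * (D4 * Y) := mul_le_mul hV1 hU1 hU10 (by positivity)
      _ = S * y ^ 32 * Y * (17 * D4 * b) := by ring
      _ ≤ S * y ^ 32 * Y * (25 * D4 ^ 2 * (1 + b) ^ 2) := by
          refine mul_le_mul_of_nonneg_left ?_ (by positivity)
          have : D4 ≤ D4 ^ 2 := by nlinarith
          calc 17 * D4 * b ≤ 25 * D4 ^ 2 * b := by
                refine mul_le_mul_of_nonneg_right (by nlinarith) hb.le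
            _ ≤ 25 * D4 ^ 2 * (1 + b) ^ 2 := mul_le_mul_of_nonneg_left hbb (by positivity)
      _ = (5 * D4 * (1 + b) * Real.sqrt S * y ^ 16 * Real.sqrt Y) ^ 2 := by
          rw [mul_pow, mul_pow, mul_pow, mul_pow, mul_pow, hs, Real.sq_sqrt hY]
          ring
  have p2 : b * (Real.sqrt (2 * M * (1 + b)) * Real.sqrt U2 * Real.sqrt V) ≤
      34 * D48 * (1 + b) * Real.sqrt S * y ^ 16 * (1 / y) := by
    refine (abs_le_of_sq_le_sq ?_ (by positivity)).trans' (le_abs_self _)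
    calc (b * (Real.sqrt (2 * M * (1 + b)) * Real.sqrt U2 * Real.sqrt V)) ^ 2 =
          b ^ 2 * Real.sqrt (2 * M * (1 + b)) ^ 2 * Real.sqrt U2 ^ 2 * Real.sqrt V ^ 2 := by ring
      _ = b ^ 2 * (2 * M * (1 + b)) * U2 * V := by
          rw [Real.sq_sqrt hV0, Real.sq_sqrt hU20, Real.sq_sqrt (by positivity)]
      _ = (b ^ 2 * M * V) * (2 * (1 + b) * U2) := by ring
      _ ≤ (34 * S * y ^ 28 * b) * (2 * (1 + b) * (17 * D48 * y ^ 2)) := by
          refine mul_le_mul hV2 ?_ (by positivity) (by positivity)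
          exact mul_le_mul_of_nonneg_left hU2 (by positivity)
      _ = S * y ^ 30 * (1156 * D48 * (b * (1 + b))) := by ring
      _ ≤ S * y ^ 30 * (1156 * D48 ^ 2 * (1 + b) ^ 2) := by
          refine mul_le_mul_of_nonneg_left ?_ (by positivity)
          calc 1156 * D48 * (b * (1 + b)) ≤ 1156 * D48 ^ 2 * (b * (1 + b)) := by
                refine mul_le_mul_of_nonneg_right (by nlinarith) (by positivity)
            _ ≤ 1156 * D48 ^ 2 * (1 + b) ^ 2 := mul_le_mul_of_nonneg_left hbb' (by positivity)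
      _ = (34 * D48 * (1 + b) * Real.sqrt S * y ^ 16 * (1 / y)) ^ 2 := by
          rw [mul_pow, mul_pow, mul_pow, mul_pow, mul_pow, hs]
          field_simp
          ring
  have q1 : 0 ≤ 34 * D48 * (1 + b) * Real.sqrt S * y ^ 16 * Real.sqrt Y := by positivity
  have q2 : 0 ≤ 5 * D4 * (1 + b) * Real.sqrt S * y ^ 16 * (1 / y) := by positivity
  calc b * ((M * Real.sqrt U1 + Real.sqrt (2 * M * (1 + b)) * Real.sqrt U2) * Real.sqrt V) =
        b * (M * Real.sqrt U1 * Real.sqrt V) +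
        b * (Real.sqrt (2 * M * (1 + b)) * Real.sqrt U2 * Real.sqrt V) := by ring
    _ ≤ _ := add_le_add p1 p2
    _ ≤ 5 * D4 * (1 + b) * Real.sqrt S * y ^ 16 * Real.sqrt Y +
        34 * D48 * (1 + b) * Real.sqrt S * y ^ 16 * (1 / y) +
        (34 * D48 * (1 + b) * Real.sqrt S * y ^ 16 * Real.sqrt Y +
        5 * D4 * (1 + b) * Real.sqrt S * y ^ 16 * (1 / y)) := by linarith
    _ = _ := by ring

theorem lt_per (C X b β Λ0 q φ κ Z Am M h L Bd JJ : ℝ) (hC : 0 < C) (hX : 1 ≤ X) (hb : 0 < b)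
    (hβ1 : b ≤ β) (hβ2 : β ≤ 2 * b) (hbX : b ≤ X) (hΛ0 : 0 ≤ Λ0) (hq : 1 ≤ q) (hqX : q ≤ X)
    (hφ0 : 0 ≤ φ) (hφ : φ ≤ q) (hκ : 0 ≤ κ) (hAm : 0 ≤ Am) (hM : 0 ≤ M) (hh : 0 ≤ h) (hL : 1 ≤ L)
    (hBd : Bd = 8 * X ^ 4) (hJJ : JJ = X ^ 24) :
    β / X * (C * (1 + 24 * L) * κ * (Λ0 * X / q * Real.sqrt φ * Real.sqrt Z) *
        (Am * Real.sqrt (M * (h * (1 + β) + M))) + C * φ * Bd ^ 2 / Real.sqrt JJ) ≤
      50 * C * L * Λ0 * Am * (b * (κ / Real.sqrt q * Real.sqrt Z *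
        (M + Real.sqrt (2 * M * (1 + b)) * Real.sqrt h))) + 128 * C / X ^ 3 := by
  have hX0 : 0 < X := by linarith
  have hq0 : 0 < q := by linarith
  have hβ0 : 0 < β := by linarith
  have hsq : 0 < Real.sqrt q := Real.sqrt_pos.2 hq0
  have e1 : Real.sqrt (M * (h * (1 + β) + M)) ≤
      M + Real.sqrt (2 * M * (1 + b)) * Real.sqrt h := by
    rw [← Real.sqrt_mul (by positivity)]
    calc Real.sqrt (M * (h * (1 + β) + M)) ≤ Real.sqrt (2 * M * (1 + b) * h + M ^ 2) := by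
          refine Real.sqrt_le_sqrt ?_
          have : M * h * (1 + β) ≤ M * h * (2 * (1 + b)) :=
            mul_le_mul_of_nonneg_left (by linarith) (by positivity)
          nlinarith
      _ ≤ M + Real.sqrt (2 * M * (1 + b) * h) := by
          have h1 : 0 ≤ 2 * M * (1 + b) * h := by positivity
          have h2 := Real.sq_sqrt h1
          have h3 := Real.sqrt_nonneg (2 * M * (1 + b) * h)
          rw [Real.sqrt_le_iff]
          refine ⟨by positivity, ?_⟩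
          nlinarith [mul_nonneg hM h3]
  have e2 : Real.sqrt φ / q ≤ 1 / Real.sqrt q := by
    have : Real.sqrt φ ≤ Real.sqrt q := Real.sqrt_le_sqrt hφ
    rw [div_le_div_iff₀ hq0 hsq, one_mul]
    calc Real.sqrt φ * Real.sqrt q ≤ Real.sqrt q * Real.sqrt q :=
          mul_le_mul_of_nonneg_right this hsq.le
      _ = q := Real.mul_self_sqrt hq0.le
  have e3 : Real.sqrt JJ = X ^ 12 := by
    rw [hJJ, show X ^ 24 = (X ^ 12) ^ 2 by ring, Real.sqrt_sq (by positivity)]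
  have p1 : β / X * (C * (1 + 24 * L) * κ * (Λ0 * X / q * Real.sqrt φ * Real.sqrt Z) *
        (Am * Real.sqrt (M * (h * (1 + β) + M)))) ≤ 50 * C * L * Λ0 * Am *
        (b * (κ / Real.sqrt q * Real.sqrt Z *
        (M + Real.sqrt (2 * M * (1 + b)) * Real.sqrt h))) := by
    calc β / X * (C * (1 + 24 * L) * κ * (Λ0 * X / q * Real.sqrt φ * Real.sqrt Z) *
        (Am * Real.sqrt (M * (h * (1 + β) + M)))) =
        (C * κ * Λ0 * Am * Real.sqrt Z) * (β * (1 + 24 * L)) * (Real.sqrt φ / q) *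
          Real.sqrt (M * (h * (1 + β) + M)) := by
          field_simp
      _ ≤ (C * κ * Λ0 * Am * Real.sqrt Z) * (50 * b * L) * (1 / Real.sqrt q) *
          (M + Real.sqrt (2 * M * (1 + b)) * Real.sqrt h) := by
          refine mul_le_mul (mul_le_mul (mul_le_mul_of_nonneg_left ?_ (by positivity)) e2
            (by positivity) (by positivity)) e1 (by positivity) (by positivity)
          calc β * (1 + 24 * L) ≤ (2 * b) * (25 * L) :=
                mul_le_mul hβ2 (by linarith) (by positivity) (by positivity)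
            _ = 50 * b * L := by ring
      _ = _ := by ring
  have p2 : β / X * (C * φ * Bd ^ 2 / Real.sqrt JJ) ≤ 128 * C / X ^ 3 := by
    rw [e3, hBd]
    calc β / X * (C * φ * (8 * X ^ 4) ^ 2 / X ^ 12) ≤ (2 * X) / X * (C * X * (8 * X ^ 4) ^ 2 / X ^ 12) := by
          refine mul_le_mul (div_le_div_of_nonneg_right (by linarith) hX0.le)
            (div_le_div_of_nonneg_right (mul_le_mul_of_nonneg_right
              (mul_le_mul_of_nonneg_left (by linarith) hC.le) (by positivity)) (by positivity))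
            (by positivity) (by positivity)
      _ = 128 * C / X ^ 3 := by
          field_simp
          ring
  rw [mul_add]
  exact add_le_add p1 p2

theorem lam_two : ∃ C : ℝ, 0 < C ∧ ∀ (δ : ℝ) (A1 : ℕ), 0 < δ → δ ≤ 1 / 8 → ∃ X0 : ℕ,
    ∀ X : ℕ, X0 ≤ X → ∀ (n : ℕ) (b N σ : ℝ) (QQ : Finset ℕ) (bq : ℕ → ℝ),
    Std X n δ A1 b N σ QQ bq →
    ∀ (lam : ℕ → ℝ → ℂ) (Λ0 : ℝ), (∀ q, Continuous (lam q)) → 0 ≤ Λ0 → Λ0 ≤ X →
    (∀ q ∈ QQ, ∀ x, ‖lam q x‖ ≤ Λ0 * X / q) →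
    ∀ (M Am S : ℝ) (K : ℕ) (MM : Finset ℕ) (a c : ℕ → ℂ),
    0 ≤ Am → Am ≤ X → 0 ≤ S → S ≤ X → Blk X M K MM a c Am S →
    ∑ q ∈ QQ, ‖Bq X (bq q) σ n q (fun _ x => lam q x) (f2f MM a (tp K c) σ q)‖ ≤
      C * Real.log X * Λ0 * Am * Real.sqrt S * (1 + b) * X *
        (Real.sqrt (∑ q ∈ QQ, 1 / ((q : ℝ) * (hq q n : ℝ) ^ (1 / 4 : ℝ))) +
          (X : ℝ) ^ (-(1 / 16) : ℝ)) + 1 := by
  obtain ⟨C, hC, h1⟩ := lt_one
  obtain ⟨D4, hD4, h4⟩ := lt_D4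
  obtain ⟨D48, hD48, h48⟩ := lt_D48
  refine ⟨50 * C * (5 * D4 + 34 * D48), by positivity, ?_⟩
  intro δ A1 hδ hδ'
  obtain ⟨X0, hX0⟩ := lt_ev A1 C
  refine ⟨X0, ?_⟩
  intro X hX n b N σ QQ bq hstd lam Λ0 hlam hΛ0 hΛX hlb M Am S K MM a c hAm hAmX hS hSX hblk
  obtain ⟨h2n, hnX, hσ, hbA, hN1, hNb, hFam, hbq⟩ := hstd
  obtain ⟨hM1, hM2, hK, hMM, ha, hc⟩ := hblk
  obtain ⟨hX16, hL1, hLA, hXC⟩ := hX0 X hX
  have hX16' : (16 : ℝ) ≤ X := by exact_mod_cast hX16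
  have hXp : (0 : ℝ) < X := by linarith
  have hX1 : 1 ≤ X := by omega
  have hX1' : (1 : ℝ) ≤ X := by linarith
  have hn1 : 1 ≤ n := by omega
  -- powers
  obtain ⟨y, hy⟩ : ∃ y : ℝ, y = (X : ℝ) ^ (1 / 16 : ℝ) := ⟨_, rfl⟩
  have hy1 : 1 ≤ y := by rw [hy]; exact Real.one_le_rpow hX1' (by norm_num)
  have hy0 : 0 < y := by linarith
  have hyp : ∀ k : ℕ, y ^ k = (X : ℝ) ^ ((k : ℝ) / 16) := by
    intro k
    rw [hy, ← Real.rpow_natCast, ← Real.rpow_mul hXp.le]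
    congr 1
    ring
  have hyX : y ^ 16 = X := by
    rw [hyp 16]
    norm_num
  have e14 : (X : ℝ) ^ (1 / 4 : ℝ) = y ^ 4 := by
    rw [hyp 4]
    norm_num
  have e12 : (X : ℝ) ^ (1 / 2 : ℝ) = y ^ 8 := by
    rw [hyp 8]
    norm_num
  have em : (X : ℝ) ^ (-(1 / 16) : ℝ) = 1 / y := by
    rw [Real.rpow_neg hXp.le, ← hy, one_div]
  rw [e14] at hM1
  rw [e12] at hM2 hLA
  have hb0 : 0 < b := lt_of_lt_of_le (Real.rpow_pos_of_pos (by linarith) _) hbA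
  have hNb' : N * b ≤ y ^ 8 := by
    refine hNb.trans ?_
    rw [← e12]
    exact Real.rpow_le_rpow_of_exponent_le hX1' (by linarith)
  have h88 : y ^ 8 * y ^ 8 = X := by rw [← hyX]; ring
  have hy8 : 1 ≤ y ^ 8 := one_le_pow₀ hy1
  have hy8X : y ^ 8 ≤ X := by nlinarith
  have hNX : N ≤ X := by
    have h2 : 1 ≤ b * (Real.log X) ^ (A1 : ℝ) := by
      have h3 : (0 : ℝ) < (Real.log X) ^ (A1 : ℝ) := Real.rpow_pos_of_pos (by linarith) _
      have h4 := mul_le_mul_of_nonneg_right hbA h3.le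
      rwa [Real.rpow_neg (by linarith), inv_mul_cancel₀ h3.ne'] at h4
    calc N = N * 1 := (mul_one N).symm
      _ ≤ N * (b * (Real.log X) ^ (A1 : ℝ)) := mul_le_mul_of_nonneg_left h2 (by linarith)
      _ = (N * b) * (Real.log X) ^ (A1 : ℝ) := by ring
      _ ≤ y ^ 8 * y ^ 8 := mul_le_mul hNb' hLA (Real.rpow_nonneg (by linarith) _) (by positivity)
      _ = X := h88
  have hbX : b ≤ X := by nlinarith
  have hM12 : 1 ≤ M := by
    have h2 : 2 ≤ y ^ 4 := by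
      refine (abs_le_of_sq_le_sq ?_ (by positivity)).trans' (le_abs_self _)
      have h3 : (y ^ 4) ^ 2 = y ^ 8 := by ring
      rw [h3]
      refine (abs_le_of_sq_le_sq ?_ (by positivity)).trans' (le_abs_self _)
      have h5 : (y ^ 8) ^ 2 = X := by rw [← h88]; ring
      rw [h5]
      linarith
    linarith
  have hMX : M ≤ 2 * X := by linarith
  have hqq : ∀ q ∈ QQ, 1 ≤ q ∧ q ≤ X := by
    intro q hqm
    refine ⟨hFam.1 q hqm, ?_⟩
    have h2 := hFam.2 q hqm q hqm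
    rw [Nat.lcm_self] at h2
    exact_mod_cast h2.trans hNX
  -- bound of the inner polynomial
  have hBs : ∀ x, ‖tp K c x‖ ≤ 2 * (X : ℝ) ^ 2 := by
    intro x
    unfold tp
    refine (norm_sum_le _ _).trans ?_
    have h2 : ∀ k ∈ Icc 1 K, ‖c k * ee ((k : ℝ) * x)‖ ≤ 1 + ‖c k‖ ^ 2 := by
      intro k _
      have h3 : ‖ee ((k : ℝ) * x)‖ = 1 := by
        unfold ee
        rw [Complex.norm_exp]
        simp
      rw [norm_mul, h3, mul_one]
      nlinarith [sq_nonneg (‖c k‖ - 1), norm_nonneg (c k)]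
    refine (Finset.sum_le_sum h2).trans ?_
    rw [Finset.sum_add_distrib]
    have h5 : ∑ _k ∈ Icc 1 K, (1 : ℝ) ≤ X := by
      simp only [Finset.sum_const, Nat.card_Icc, nsmul_eq_mul, mul_one]
      have : K + 1 - 1 = K := by omega
      rw [this]
      exact_mod_cast hK
    have h6 : S * X / M ≤ X ^ 2 := by
      rw [div_le_iff₀ (by linarith)]
      nlinarith
    nlinarith [hc.trans h6]
  -- the masses
  obtain ⟨Z, hZ⟩ : ∃ Z : ℕ → ℝ, Z = fun q => ∑ r ∈ rr q, ∫ t in (0 : ℝ)..1,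
    ‖tp K c ((r : ℝ) / q + σ * (M * (bq q / X)) * Real.exp (2 * Int.fract t))‖ ^ 2 := ⟨_, rfl⟩
  have hZ0 : ∀ q ∈ QQ, 0 ≤ Z q := by
    intro q _
    rw [hZ]
    refine Finset.sum_nonneg fun r _ => ?_
    refine intervalIntegral.integral_nonneg (by norm_num) fun t _ => by positivity
  have hZs : ∑ q ∈ QQ, Z q ≤ (8 * N + y ^ 16 / (M * b)) * (S * y ^ 16 / M) := by
    have h2 := bmass X hX1 b N σ M hb0 hN1 (by linarith) hσ QQ hFam bq hbq K c
    rw [hZ]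
    refine h2.trans ?_
    rw [hyX]
    refine mul_le_mul_of_nonneg_left hc (by positivity)
  -- the bound for one modulus
  have hper : ∀ q ∈ QQ, ‖Bq X (bq q) σ n q (fun _ x => lam q x) (f2f MM a (tp K c) σ q)‖ ≤
      50 * C * Real.log X * Λ0 * Am * (b * (ltK (hq q n) / Real.sqrt q * Real.sqrt (Z q) *
        (M + Real.sqrt (2 * M * (1 + b)) * Real.sqrt (hq q n)))) + 128 * C / (X : ℝ) ^ 3 := by
    intro q hqm
    obtain ⟨hq1, hqX⟩ := hqq q hqm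
    have hq1' : (1 : ℝ) ≤ q := by exact_mod_cast hq1
    have hqX' : (q : ℝ) ≤ X := by exact_mod_cast hqX
    have : NeZero q := ⟨by omega⟩
    have hβ := hbq q hqm
    have h2 := h1 X n q (bq q) σ hX1 hnX (by linarith) hσ hn1 (lam q) (Λ0 * X / q) (hlam q)
      (hlb q hqm) M Am K MM a c hM12 hAm hMM ha (2 * (X : ℝ) ^ 2) (8 * (X : ℝ) ^ 4) (X ^ 24) hBs
      (by
        rw [div_le_iff₀ (by linarith)]
        have h3 : Λ0 * X ≤ X * X := mul_le_mul_of_nonneg_right hΛX hXp.le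
        have h5 : (X : ℝ) * X ≤ 8 * X ^ 4 := by nlinarith [pow_le_pow_left₀ (by norm_num) hX1' 2]
        have h6 : 8 * (X : ℝ) ^ 4 ≤ 8 * (X : ℝ) ^ 4 * q := by nlinarith [pow_pos hXp 4]
        linarith)
      (by
        calc 2 * M * Am * (2 * (X : ℝ) ^ 2) ≤ 2 * (2 * X) * X * (2 * (X : ℝ) ^ 2) := by
              refine mul_le_mul_of_nonneg_right (mul_le_mul (by linarith) hAmX hAm (by linarith))
                (by positivity)
          _ = 8 * (X : ℝ) ^ 4 := by ring)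
      (Nat.one_le_pow _ _ hX1)
      (by
        have h3 : bq q ≤ 2 * X := by linarith [hβ.2]
        have h5 : (16 : ℝ) * X ≤ X ^ 24 := by
          calc (16 : ℝ) * X ≤ X * X := by nlinarith
            _ = X ^ 2 := by ring
            _ ≤ X ^ 24 := pow_le_pow_right₀ hX1' (by norm_num)
        push_cast
        linarith)
    refine h2.trans ?_
    have hlogJ : Real.log ((X ^ 24 : ℕ) : ℝ) = 24 * Real.log X := by
      push_cast
      rw [Real.log_pow]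
      norm_num
    rw [hlogJ]
    have h3 := lt_per C X b (bq q) Λ0 q (Nat.totient q) (ltK (hq q n)) (Z q) Am M (hq q n)
      (Real.log X) (8 * (X : ℝ) ^ 4) ((X ^ 24 : ℕ) : ℝ) hC hX1' hb0 hβ.1 hβ.2 hbX hΛ0 hq1' hqX'
      (Nat.cast_nonneg _) (by exact_mod_cast Nat.totient_le q) (ltK_nonneg _) hAm (by linarith)
      (Nat.cast_nonneg _) hL1 rfl (by push_cast; ring)
    rw [hZ] at h3 ⊢
    exact h3
  have hh1 : ∀ q ∈ QQ, 1 ≤ hq q n ∧ hq q n ≤ X := by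
    intro q hqm
    obtain ⟨hq1, hqX⟩ := hqq q hqm
    unfold hq
    exact ⟨Nat.div_pos (Nat.le_of_dvd hq1 (Nat.gcd_dvd_left q n))
      (Nat.gcd_pos_of_pos_left _ hq1), (Nat.div_le_self _ _).trans hqX⟩
  refine (Finset.sum_le_sum hper).trans ?_
  rw [Finset.sum_add_distrib]
  have htail : ∑ _q ∈ QQ, 128 * C / (X : ℝ) ^ 3 ≤ 1 := by
    rw [Finset.sum_const, nsmul_eq_mul]
    have hcard : (QQ.card : ℝ) ≤ X := by
      have : QQ.card ≤ X := by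
        calc QQ.card ≤ (Icc 1 X).card := Finset.card_le_card fun q hqm => Finset.mem_Icc.2 (hqq q hqm)
          _ = X := by simp
      exact_mod_cast this
    calc (QQ.card : ℝ) * (128 * C / (X : ℝ) ^ 3) ≤ X * (128 * C / (X : ℝ) ^ 3) :=
          mul_le_mul_of_nonneg_right hcard (by positivity)
      _ = 128 * C / X ^ 2 := by field_simp
      _ ≤ 1 := by
          rw [div_le_one (by positivity)]
          nlinarith
  refine add_le_add ?_ htail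
  rw [← Finset.mul_sum, ← Finset.mul_sum]
  have hcs := lt_cs QQ (fun q => ltK (hq q n)) (fun q => (hq q n : ℝ)) Z M
    (Real.sqrt (2 * M * (1 + b))) (fun q _ => Nat.cast_nonneg _) hZ0 (by linarith)
    (Real.sqrt_nonneg _)
  have hU1 : ∑ q ∈ QQ, ltK (hq q n) ^ 2 / q ≤
      D4 * ∑ q ∈ QQ, 1 / ((q : ℝ) * (hq q n : ℝ) ^ (1 / 4 : ℝ)) := by
    rw [Finset.mul_sum]
    refine Finset.sum_le_sum fun q hqm => ?_
    have hq0 : (0 : ℝ) < q := by exact_mod_cast (hqq q hqm).1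
    calc ltK (hq q n) ^ 2 / q ≤ D4 * (1 / (hq q n : ℝ) ^ (1 / 4 : ℝ)) / q :=
          div_le_div_of_nonneg_right (h4 _ (hh1 q hqm).1) hq0.le
      _ = D4 * (1 / ((q : ℝ) * (hq q n : ℝ) ^ (1 / 4 : ℝ))) := by
          rw [mul_div_assoc, div_div, mul_comm ((hq q n : ℝ) ^ (1 / 4 : ℝ))]
  have hU2 : ∑ q ∈ QQ, ltK (hq q n) ^ 2 * (hq q n : ℝ) / q ≤ 17 * D48 * y ^ 2 := by
    calc ∑ q ∈ QQ, ltK (hq q n) ^ 2 * (hq q n : ℝ) / q ≤ ∑ q ∈ QQ, (D48 * y) * (1 / (q : ℝ)) := by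
          refine Finset.sum_le_sum fun q hqm => ?_
          have hq0 : (0 : ℝ) < q := by exact_mod_cast (hqq q hqm).1
          rw [mul_one_div]
          refine div_le_div_of_nonneg_right ?_ hq0.le
          rw [hy]
          exact h48 _ X (hh1 q hqm).1 (hh1 q hqm).2
      _ = D48 * y * ∑ q ∈ QQ, 1 / (q : ℝ) := by rw [Finset.mul_sum]
      _ ≤ D48 * y * (17 * y) := by
          refine mul_le_mul_of_nonneg_left ?_ (by positivity)
          rw [hy]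
          exact lt_harm X hX1 QQ hqq
      _ = 17 * D48 * y ^ 2 := by ring
  have hY0 : 0 ≤ ∑ q ∈ QQ, 1 / ((q : ℝ) * (hq q n : ℝ) ^ (1 / 4 : ℝ)) :=
    Finset.sum_nonneg fun q _ => by positivity
  have hnum := lt_num y b N M S (∑ q ∈ QQ, ltK (hq q n) ^ 2 / q)
    (∑ q ∈ QQ, ltK (hq q n) ^ 2 * (hq q n : ℝ) / q) (∑ q ∈ QQ, Z q)
    (∑ q ∈ QQ, 1 / ((q : ℝ) * (hq q n : ℝ) ^ (1 / 4 : ℝ))) D4 D48 hy0 hb0 (by linarith) hM1
    (by
      calc N * b * M ≤ y ^ 8 * (2 * y ^ 8) := mul_le_mul hNb' hM2 (by linarith) (by positivity)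
        _ = 2 * y ^ 16 := by ring) hS hY0 (Finset.sum_nonneg hZ0) hZs
    (Finset.sum_nonneg fun q _ => by positivity) hU1 (Finset.sum_nonneg fun q _ => by positivity)
    hU2 hD4 hD48
  have hfin := (mul_le_mul_of_nonneg_left hcs hb0.le).trans hnum
  have hc0 : 0 ≤ 50 * C * Real.log X * Λ0 * Am := by
    have : 0 ≤ Real.log X := by linarith
    positivity
  refine (mul_le_mul_of_nonneg_left hfin hc0).trans (le_of_eq ?_)
  rw [em, hyX]
  ring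

end Pool.MP_dd84fd_nt.PL
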