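import Pool.Agent.Lib.MP_dd84fd_nt.E2.Defs
import Pool.Agent.Lib.BV.Defs

/-!
# Theorem F, the pointwise lemma PL: definitions

Paper: /team-store/F_helper3.md.  `W s = P1 + s F2` (`s = -1, 1`): exponential sums with coefficients
`1_p + s f1(n)/log n`.  `rr q`: reduced residues in `[0, q)`.  `Bq`: the integral of `f g e(-n .)` over
half of the arcs `b/X ≤ |x| < 2b/X` around the reduced fractions with denominator `q` (`σ = 1`: right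
half, `σ = -1`: left half).  `fc`: Fourier coefficient on `[0,1]`.
-/

set_option autoImplicit false

namespace Pool.MP_dd84fd_nt.PL

open Finset Pool.MP_67663b_nt.Odd Pool.MP_dd84fd_nt.En Pool.MP_dd84fd_nt.E2

/-- reduced residues in `[0, q)` -/
def rr (q : ℕ) : Finset ℕ := (range q).filter (fun a => Nat.Coprime a q)

/-- exponential sum with coefficients `1_p + s f2` -/
noncomputable def W (s : ℝ) (w X : ℕ) (θ : ℝ) : ℂ := P1 X θ + (s : ℂ) * F2 w X θ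

/-- trigonometric polynomial -/
noncomputable def tp (K : ℕ) (c : ℕ → ℂ) (θ : ℝ) : ℂ := ∑ k ∈ Icc 1 K, c k * ee ((k : ℝ) * θ)

/-- Fourier coefficient on `[0,1]` -/
noncomputable def fc (f : ℝ → ℂ) (j : ℤ) : ℂ := ∫ t in (0 : ℝ)..1, f t * ee ((j : ℝ) * t)

/-- bilinear form over the half arcs `[b/X, 2b/X)` with sign `σ` around the fractions `a/q` -/
noncomputable def Bq (X : ℕ) (b σ : ℝ) (n q : ℕ) (f g : ℕ → ℝ → ℂ) : ℂ :=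
  ∑ a ∈ rr q, ∫ x in (b / X)..(2 * b / X),
    f a x * g a x * ee (-((n : ℝ) * ((a : ℝ) / q + σ * x)))

/-- square of the `L²` norm on the half arcs `[b_q/X, 2b_q/X]` of all moduli in `QQ` -/
noncomputable def N2 (X : ℕ) (bq : ℕ → ℝ) (QQ : Finset ℕ) (f : ℕ → ℕ → ℝ → ℂ) : ℝ :=
  ∑ q ∈ QQ, ∑ a ∈ rr q, ∫ x in (bq q / X)..(2 * bq q / X), ‖f q a x‖ ^ 2

/-- `W` on the half arcs -/
noncomputable def Wa (s σ : ℝ) (w X q a : ℕ) (x : ℝ) : ℂ := W s w X ((a : ℝ) / q + σ * x)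

/-- type II function on the half arcs -/
noncomputable def f2f (MM : Finset ℕ) (c : ℕ → ℂ) (B : ℝ → ℂ) (σ : ℝ) (q a : ℕ) (x : ℝ) : ℂ :=
  ∑ m ∈ MM.filter (fun m => Nat.Coprime m q), c m * B ((m : ℝ) * ((a : ℝ) / q + σ * x))

/-- the integrand `W_- W_+ e(-n .)` -/
noncomputable def FF (w X n : ℕ) (θ : ℝ) : ℂ := W (-1) w X θ * W 1 w X θ * ee (-((n : ℝ) * θ))

/-- `h_q = q / (q,n)` -/
def hq (q n : ℕ) : ℕ := q / Nat.gcd q n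

/-- a finite family of moduli with small least common multiples -/
def Fam (QQ : Finset ℕ) (N : ℝ) : Prop :=
  (∀ q ∈ QQ, 1 ≤ q) ∧ ∀ q ∈ QQ, ∀ q' ∈ QQ, (Nat.lcm q q' : ℝ) ≤ N

/-- a type II block: `m ∈ MM ⊆ (M, 2M]`, `|a_m| ≤ Am`, `∑_{k ≤ K} |c_k|² ≤ S X / M` -/
def Blk (X : ℕ) (M : ℝ) (K : ℕ) (MM : Finset ℕ) (a c : ℕ → ℂ) (Am S : ℝ) : Prop :=
  (X : ℝ) ^ (1 / 4 : ℝ) / 2 ≤ M ∧ M ≤ 2 * (X : ℝ) ^ (1 / 2 : ℝ) ∧ K ≤ X ∧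
    (∀ m ∈ MM, M < (m : ℝ) ∧ (m : ℝ) ≤ 2 * M) ∧ (∀ m ∈ MM, ‖a m‖ ≤ Am) ∧
    ∑ k ∈ Icc 1 K, ‖c k‖ ^ 2 ≤ S * X / M

/-- the standing hypotheses of PL on `X, n, b, N, σ, QQ, bq` -/
def Std (X n : ℕ) (δ : ℝ) (A1 : ℕ) (b N σ : ℝ) (QQ : Finset ℕ) (bq : ℕ → ℝ) : Prop :=
  X < 2 * n ∧ n ≤ X ∧ (σ = 1 ∨ σ = -1) ∧ (Real.log X) ^ (-(A1 : ℝ)) ≤ b ∧ 1 ≤ N ∧
    N * b ≤ (X : ℝ) ^ (1 / 2 - δ) ∧ Fam QQ N ∧ ∀ q ∈ QQ, b ≤ bq q ∧ bq q ≤ 2 * b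

/-- `[√X]` -/
def U0 (X : ℕ) : ℕ := Nat.sqrt X

/-- `[X^(1/4)]` -/
def V0 (X : ℕ) : ℕ := Nat.sqrt (Nat.sqrt X)

/-- type I inner sum -/
noncomputable def ti (X d : ℕ) (u v : ℝ) (θ : ℝ) : ℂ :=
  ∑ k ∈ Icc 1 (X / d), (((u * Real.log k + v) / Real.log ((d * k : ℕ) : ℝ) : ℝ) : ℂ) *
    ee (((d * k : ℕ) : ℝ) * θ)

/-- type I sum -/
noncomputable def TI (X D : ℕ) (u v : ℕ → ℝ) (θ : ℝ) : ℂ := ∑ d ∈ Icc 1 D, ti X d (u d) (v d) θ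

/-- the part `q ∣ d` of a type I sum on the arc around `a/q` (independent of `a`) -/
noncomputable def lamq (X D : ℕ) (u v : ℕ → ℝ) (σ : ℝ) (q : ℕ) (x : ℝ) : ℂ :=
  ∑ d ∈ (Icc 1 D).filter (fun d => q ∣ d), ti X d (u d) (v d) (σ * x)

/-- type II sum -/
noncomputable def TII (X : ℕ) (θ : ℝ) : ℂ :=
  ∑ m ∈ Ioc (V0 X) X, ∑ k ∈ Ioc (U0 X) (X / m),
    ((ArithmeticFunction.vonMangoldt m * Pool.BV.c2 (U0 X) k / Real.log ((m * k : ℕ) : ℝ) : ℝ) : ℂ) *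
      ee (((m * k : ℕ) : ℝ) * θ)

end Pool.MP_dd84fd_nt.PL
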