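import Pool.Agent.Lib.MP_dd84fd_nt.PL.Defs
import Pool.Agent.Lib.MP_dd84fd_nt.E2.Rankin
import Pool.Agent.Lib.MP_dd84fd_nt.E2.MinorP
import Pool.Agent.Lib.MP_dd84fd_nt.E2.FBound
import Pool.Agent.Lib.MP_dd84fd_nt.L2G.DivMom

/-!
# PL-Model: the model is a short type I sum plus an `L²`-small remainder

`P = primorial w`, `w = wX D' X ≤ (log X)^D'`, `W = P/φ(P) ≤ log X` for `X ≥ X0` (e.g. `P/φ(P) ≤ C log w`; a cheap proof:
`P/φ(P) = ∏_{p≤w} (1-1/p)^(-1) ≤ ∑_{n w-smooth} ..`; search `En`, `L2G.ModelL2.ratio_le`, `E2.MinorF`, `E2.FBound`).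
`f1 w n = W ∑_{d ∣ (n,P)} μ(d)`, `f2 = f1/log n` (`0` at `n = 1`).  With `z = V0 X`:
`F2 w X θ = ∑_{d ≤ z, d ∣ P} W μ(d) ∑_{k ≤ X/d} (1/log(dk)) ee(dkθ) + ∑_{n≤X} e_n ee(nθ)`, i.e. `v d = W μ(d)` if `d ∣ P`, `d ≤ z`,
`0` otherwise, and `e_n = (W/log n) ∑_{d ∣ (n,P), d > z} μ(d)`.
`W_l2`: the coefficients are `1_p + s f1(n)/log n`, `|f1| ≤ W ≤ log X`, `1/log n ≤ 1/log 2`, so `|e_n| ≤ 1 + 1.5 log X ≤ 3 log X`.
`|e_n| ≤ 2 (log X) τ(n) 1[∃ d ∣ (n,P), d > z]`, so by Cauchy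
`∑ |e_n|² ≤ 4 (log X)² (∑ τ(n)^4)^(1/2) (∑_{d ∣ P, d > z} X/d)^(1/2) ≤ X^(1-η)`, by `L2G.div_mom 4` and `E2.rankin D'` with
`ε = 1/(64 D')`, `z ≥ X^(1/4)/2`: `∑_{d ∣ P, d > z} 1/d ≤ X^ε z^(-1/(2D')) ≤ X^(-1/(16 D'))`.
-/

set_option autoImplicit false

namespace Pool.MP_dd84fd_nt.PL

open Finset Pool.MP_67663b_nt.Odd Pool.MP_dd84fd_nt.En Pool.MP_dd84fd_nt.E2

/-- the sum over the multiples of `d` -/
private theorem model_mult (d t : ℕ) (hd : 0 < d) (g : ℕ → ℂ) :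
    ∑ n ∈ (Icc 1 t).filter (fun n => d ∣ n), g n = ∑ k ∈ Icc 1 (t / d), g (d * k) := by
  symm
  refine sum_bij (fun k _ => d * k) ?_ ?_ ?_ ?_
  · intro k hk
    rw [mem_Icc] at hk
    rw [mem_filter, mem_Icc]
    refine ⟨⟨Nat.mul_pos hd hk.1, ?_⟩, dvd_mul_right d k⟩
    calc d * k ≤ d * (t / d) := Nat.mul_le_mul_left d hk.2
      _ ≤ t := Nat.mul_div_le t d
  · intro k _ k' _ h
    exact Nat.eq_of_mul_eq_mul_left hd h
  · intro n hn
    rw [mem_filter, mem_Icc] at hn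
    obtain ⟨k, rfl⟩ := hn.2
    refine ⟨k, ?_, rfl⟩
    rw [mem_Icc]
    constructor
    · exact Nat.pos_of_mul_pos_left hn.1.1
    · rw [Nat.le_div_iff_mul_le hd, mul_comm]
      exact hn.1.2
  · intro k _
    rfl

/-- `f1` as a divisor sum -/
private theorem model_f1 (w n : ℕ) (hn : 0 < n) :
    f1 w n = (primorial w : ℝ) / (Nat.totient (primorial w) : ℝ) *
      ∑ d ∈ (primorial w).divisors.filter (fun d => d ∣ n),
        ((ArithmeticFunction.moebius d : ℤ) : ℝ) := by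
  have hP : 0 < primorial w := primorial_pos w
  set P := primorial w with hPdef
  have h2 : ∑ d ∈ P.divisors.filter (fun d => d ∣ n), ((ArithmeticFunction.moebius d : ℤ) : ℝ) =
      ((∑ d ∈ (Nat.gcd n P).divisors, ArithmeticFunction.moebius d : ℤ) : ℝ) := by
    push_cast
    refine sum_congr ?_ fun _ _ => rfl
    ext d
    rw [mem_filter, Nat.mem_divisors, Nat.mem_divisors]
    constructor
    · rintro ⟨⟨h3, _⟩, h4⟩
      exact ⟨Nat.dvd_gcd h4 h3, Nat.gcd_ne_zero_left hn.ne'⟩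
    · rintro ⟨h3, _⟩
      exact ⟨⟨h3.trans (Nat.gcd_dvd_right n P), hP.ne'⟩, h3.trans (Nat.gcd_dvd_left n P)⟩
  have h3 : (∑ d ∈ (Nat.gcd n P).divisors, ArithmeticFunction.moebius d : ℤ) =
      if Nat.gcd n P = 1 then 1 else 0 := by
    rw [← ArithmeticFunction.coe_mul_zeta_apply, ArithmeticFunction.moebius_mul_coe_zeta,
      ArithmeticFunction.one_apply]
  rw [h2, h3]
  unfold f1
  by_cases hc : Nat.Coprime n P
  · rw [if_pos hc, if_pos hc]
    push_cast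
    ring
  · rw [if_neg hc, if_neg hc]
    push_cast
    ring

private theorem model_wX (D' X : ℕ) (hL : 0 ≤ Real.log X) :
    ((wX D' X : ℕ) : ℝ) ≤ (Real.log X) ^ D' := by
  unfold wX
  exact Nat.floor_le (pow_nonneg hL D')

/-- `1 / log n ≤ 3/2` in the form used -/
private theorem model_inv_log (n : ℕ) : 0 ≤ 1 / Real.log (n : ℝ) ∧ 1 / Real.log (n : ℝ) ≤ 3 / 2 := by
  rcases Nat.lt_or_ge n 2 with h | h
  · have h1 : Real.log (n : ℝ) = 0 := by
      interval_cases n <;> simp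
    rw [h1]
    norm_num
  · have h2 : (2 : ℝ) ≤ n := by exact_mod_cast h
    have h3 : Real.log 2 ≤ Real.log n := Real.log_le_log (by norm_num) h2
    have h4 := Real.log_two_gt_d9
    have h5 : 0 < Real.log (n : ℝ) := by linarith
    refine ⟨by positivity, ?_⟩
    rw [div_le_iff₀ h5]
    linarith

private theorem model_V0 (X : ℕ) (hX : 1 ≤ X) :
    (1 : ℝ) ≤ (V0 X : ℝ) ∧ (X : ℝ) ^ (1 / 4 : ℝ) / 2 ≤ (V0 X : ℝ) := by
  have ha : 1 ≤ Nat.sqrt X := Nat.sqrt_pos.2 hX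
  have hb : 1 ≤ V0 X := Nat.sqrt_pos.2 ha
  have hbR : (1 : ℝ) ≤ (V0 X : ℝ) := by exact_mod_cast hb
  refine ⟨hbR, ?_⟩
  have h1 : X < (Nat.sqrt X + 1) * (Nat.sqrt X + 1) := Nat.lt_succ_sqrt X
  have h2 : Nat.sqrt X < (V0 X + 1) * (V0 X + 1) := Nat.lt_succ_sqrt (Nat.sqrt X)
  have h3 : X < (V0 X + 1) ^ 4 := by
    have h4 : Nat.sqrt X + 1 ≤ (V0 X + 1) * (V0 X + 1) := h2
    calc X < (Nat.sqrt X + 1) * (Nat.sqrt X + 1) := h1
      _ ≤ ((V0 X + 1) * (V0 X + 1)) * ((V0 X + 1) * (V0 X + 1)) := Nat.mul_le_mul h4 h4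
      _ = (V0 X + 1) ^ 4 := by ring
  have h5 : (X : ℝ) ≤ ((V0 X : ℝ) + 1) ^ 4 := by exact_mod_cast h3.le
  have h6 : (X : ℝ) ^ (1 / 4 : ℝ) ≤ (V0 X : ℝ) + 1 := by
    calc (X : ℝ) ^ (1 / 4 : ℝ) ≤ (((V0 X : ℝ) + 1) ^ 4) ^ (1 / 4 : ℝ) :=
          Real.rpow_le_rpow (Nat.cast_nonneg X) h5 (by norm_num)
      _ = (V0 X : ℝ) + 1 := by
          rw [← Real.rpow_natCast, ← Real.rpow_mul (by positivity)]
          norm_num
  linarith

/-- the tail of the divisors of the primorial -/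
private theorem model_tail (D' : ℕ) (hD : 1 ≤ D') : ∃ X0 : ℕ, ∀ X : ℕ, X0 ≤ X →
    ∀ w : ℕ, (w : ℝ) ≤ (Real.log X) ^ D' →
    ∑ d ∈ (primorial w).divisors.filter (fun d : ℕ => (V0 X : ℝ) < (d : ℝ)), 1 / (d : ℝ) ≤
      2 * (X : ℝ) ^ (-(7 / (64 * (D' : ℝ)))) := by
  have hDR : (1 : ℝ) ≤ (D' : ℝ) := by exact_mod_cast hD
  obtain ⟨XR, hXR⟩ := rankin D' hD (ε := 1 / (64 * (D' : ℝ))) (by positivity)
  refine ⟨max XR 1, fun X hX w hw => ?_⟩
  have hX1 : 1 ≤ X := (le_max_right _ _).trans hX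
  have hX0 : (0 : ℝ) < X := by exact_mod_cast hX1
  obtain ⟨h1, h2⟩ := model_V0 X hX1
  refine (hXR X ((le_max_left _ _).trans hX) w hw _ h1).1.trans ?_
  have h3 : (0 : ℝ) < (X : ℝ) ^ (1 / 4 : ℝ) / 2 := by positivity
  have h4 : (V0 X : ℝ) ^ (-(1 / (2 * (D' : ℝ)))) ≤
      ((X : ℝ) ^ (1 / 4 : ℝ) / 2) ^ (-(1 / (2 * (D' : ℝ)))) :=
    Real.rpow_le_rpow_of_nonpos h3 h2 (by
      have : 0 ≤ 1 / (2 * (D' : ℝ)) := by positivity
      linarith)
  have h5 : ((X : ℝ) ^ (1 / 4 : ℝ) / 2) ^ (-(1 / (2 * (D' : ℝ)))) ≤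
      2 * (X : ℝ) ^ (-(8 / (64 * (D' : ℝ)))) := by
    rw [Real.div_rpow (by positivity) (by norm_num), ← Real.rpow_mul hX0.le,
      Real.rpow_neg (by norm_num : (0 : ℝ) ≤ 2), div_inv_eq_mul, mul_comm]
    have e1 : (1 / 4 : ℝ) * -(1 / (2 * (D' : ℝ))) = -(8 / (64 * (D' : ℝ))) := by
      field_simp
      norm_num
    rw [e1]
    refine mul_le_mul_of_nonneg_right ?_ (Real.rpow_nonneg hX0.le _)
    calc (2 : ℝ) ^ (1 / (2 * (D' : ℝ))) ≤ (2 : ℝ) ^ (1 : ℝ) := by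
          apply Real.rpow_le_rpow_of_exponent_le (by norm_num)
          rw [div_le_one (by positivity)]
          linarith
      _ = 2 := Real.rpow_one 2
  calc (X : ℝ) ^ (1 / (64 * (D' : ℝ))) * (V0 X : ℝ) ^ (-(1 / (2 * (D' : ℝ))))
      ≤ (X : ℝ) ^ (1 / (64 * (D' : ℝ))) * (2 * (X : ℝ) ^ (-(8 / (64 * (D' : ℝ))))) :=
        mul_le_mul_of_nonneg_left (h4.trans h5) (Real.rpow_nonneg hX0.le _)
    _ = 2 * ((X : ℝ) ^ (1 / (64 * (D' : ℝ))) * (X : ℝ) ^ (-(8 / (64 * (D' : ℝ))))) := by ring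
    _ = 2 * (X : ℝ) ^ (-(7 / (64 * (D' : ℝ)))) := by
        rw [← Real.rpow_add hX0]
        congr 2
        field_simp
        norm_num

/-- the number of `n ≤ X` with a divisor in `DD` -/
private theorem model_count (X : ℕ) (DD : Finset ℕ) (hDD : ∀ d ∈ DD, 0 < d) :
    ((((Icc 1 X).filter (fun n => ∃ d ∈ DD, d ∣ n)).card : ℕ) : ℝ) ≤
      X * ∑ d ∈ DD, 1 / (d : ℝ) := by
  have h1 : ((Icc 1 X).filter (fun n => ∃ d ∈ DD, d ∣ n)).card ≤
      ∑ d ∈ DD, ((Icc 1 X).filter (fun n => d ∣ n)).card := by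
    have h2 : (Icc 1 X).filter (fun n => ∃ d ∈ DD, d ∣ n) ⊆
        DD.biUnion (fun d => (Icc 1 X).filter (fun n => d ∣ n)) := by
      intro n hn
      rw [mem_filter] at hn
      obtain ⟨hn1, d, hd, hdn⟩ := hn
      rw [mem_biUnion]
      exact ⟨d, hd, mem_filter.2 ⟨hn1, hdn⟩⟩
    exact (card_le_card h2).trans card_biUnion_le
  have h3 : ∀ d ∈ DD, ((((Icc 1 X).filter (fun n => d ∣ n)).card : ℕ) : ℝ) ≤ X * (1 / (d : ℝ)) := by
    intro d hd
    have h4 : ((Icc 1 X).filter (fun n => d ∣ n)).card = X / d := by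
      have h5 := model_mult d X (hDD d hd) (fun _ => 1)
      rw [Finset.sum_const, Finset.sum_const, Nat.card_Icc] at h5
      simp only [nsmul_eq_mul, mul_one, Nat.add_sub_cancel] at h5
      exact_mod_cast h5
    rw [h4, mul_one_div]
    exact Nat.cast_div_le
  calc ((((Icc 1 X).filter (fun n => ∃ d ∈ DD, d ∣ n)).card : ℕ) : ℝ)
      ≤ ((∑ d ∈ DD, ((Icc 1 X).filter (fun n => d ∣ n)).card : ℕ) : ℝ) := by exact_mod_cast h1
    _ = ∑ d ∈ DD, ((((Icc 1 X).filter (fun n => d ∣ n)).card : ℕ) : ℝ) := by push_cast; rfl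
    _ ≤ ∑ d ∈ DD, X * (1 / (d : ℝ)) := Finset.sum_le_sum h3
    _ = X * ∑ d ∈ DD, 1 / (d : ℝ) := by rw [Finset.mul_sum]

theorem model_split (D' : ℕ) (hD : 1 ≤ D') : ∃ η : ℝ, 0 < η ∧ ∃ X0 : ℕ, ∀ X : ℕ, X0 ≤ X →
    ∃ (v : ℕ → ℝ) (e : ℕ → ℂ), (∀ d, |v d| ≤ Real.log X) ∧ (∀ d, V0 X < d → v d = 0) ∧
      ∑ n ∈ Icc 1 X, ‖e n‖ ^ 2 ≤ (X : ℝ) ^ (1 - η) ∧
      ∀ θ : ℝ, F2 (wX D' X) X θ = TI X (V0 X) (fun _ => 0) v θ + tp X e θ := by
  classical
  have hDR : (1 : ℝ) ≤ (D' : ℝ) := by exact_mod_cast hD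
  obtain ⟨C0, hC0⟩ := L2G.div_mom 4
  obtain ⟨X1, hX1⟩ := f1_le D'
  obtain ⟨X2, hX2⟩ := model_tail D' hD
  obtain ⟨X3, hX3⟩ := MP_log_large 1
  obtain ⟨X4, hX4⟩ := MP_log_pow (324 * 2 ^ C0) (4 + C0) (ε := 3 / (64 * (D' : ℝ))) (by positivity)
  refine ⟨1 / (32 * (D' : ℝ)), by positivity, max (max X1 X2) (max (max X3 X4) 1),
    fun X hX => ?_⟩
  simp only [max_le_iff] at hX
  obtain ⟨⟨hX1', hX2'⟩, ⟨hX3', hX4'⟩, hXone⟩ := hX
  have hX0 : (0 : ℝ) < X := by exact_mod_cast hXone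
  set L := Real.log X with hL
  have hL1 : 1 ≤ L := hX3 X hX3'
  have hL0 : 0 < L := by linarith
  obtain ⟨w, hw⟩ : ∃ w, wX D' X = w := ⟨_, rfl⟩
  have hwL : (w : ℝ) ≤ L ^ D' := by
    rw [← hw]
    exact model_wX D' X hL0.le
  rw [hw]
  obtain ⟨hPφ, -⟩ := hX1 X hX1' w hwL
  have htail := hX2 X hX2' w hwL
  obtain ⟨P, hP⟩ : ∃ P, primorial w = P := ⟨_, rfl⟩
  have hf1 := fun n hn => model_f1 w n hn
  rw [hP] at hPφ htail hf1
  obtain ⟨R, hR⟩ : ∃ R : ℝ, (P : ℝ) / (Nat.totient P : ℝ) = R := ⟨_, rfl⟩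
  rw [hR] at hPφ hf1
  have hR0 : 0 ≤ R := by rw [← hR]; positivity
  have hmu : ∀ d : ℕ, |((ArithmeticFunction.moebius d : ℤ) : ℝ)| ≤ 1 := fun d => by
    exact_mod_cast ArithmeticFunction.abs_moebius_le_one
  set z := V0 X with hz
  set DD := P.divisors.filter (fun d : ℕ => (z : ℝ) < (d : ℝ)) with hDD
  let v : ℕ → ℝ := fun d => if d ∈ P.divisors ∧ d ≤ z then
    R * ((ArithmeticFunction.moebius d : ℤ) : ℝ) else 0
  let e : ℕ → ℂ := fun n => ((1 / Real.log (n : ℝ) * (R * ∑ d ∈ DD.filter (fun d => d ∣ n),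
    ((ArithmeticFunction.moebius d : ℤ) : ℝ)) : ℝ) : ℂ)
  refine ⟨v, e, ?_, ?_, ?_, ?_⟩
  · intro d
    show |if d ∈ P.divisors ∧ d ≤ z then R * ((ArithmeticFunction.moebius d : ℤ) : ℝ) else 0| ≤ L
    split_ifs with h
    · rw [abs_mul, abs_of_nonneg hR0]
      calc R * |((ArithmeticFunction.moebius d : ℤ) : ℝ)| ≤ R * 1 :=
            mul_le_mul_of_nonneg_left (hmu d) hR0
        _ ≤ L := by rw [mul_one]; exact hPφ
    · rw [abs_zero]
      exact hL0.le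
  · intro d hd
    exact if_neg (fun h => by omega)
  · -- the remainder in mean square
    have hDDpos : ∀ d ∈ DD, 0 < d := fun d hd =>
      Nat.pos_of_mem_divisors (Finset.mem_filter.1 hd).1
    have he : ∀ n ∈ Icc 1 X, ‖e n‖ ^ 2 ≤ (9 / 4 * L ^ 2) *
        ((n.divisors.card : ℝ) ^ 2 * (if ∃ d ∈ DD, d ∣ n then 1 else 0)) := by
      intro n hn
      have hn1 : 0 < n := (mem_Icc.1 hn).1
      obtain ⟨g1, g2⟩ := model_inv_log n
      have hne : ‖e n‖ = 1 / Real.log (n : ℝ) * (R * |∑ d ∈ DD.filter (fun d => d ∣ n),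
          ((ArithmeticFunction.moebius d : ℤ) : ℝ)|) := by
        show ‖((1 / Real.log (n : ℝ) * (R * ∑ d ∈ DD.filter (fun d => d ∣ n),
          ((ArithmeticFunction.moebius d : ℤ) : ℝ)) : ℝ) : ℂ)‖ = _
        rw [Complex.norm_real, Real.norm_eq_abs, abs_mul, abs_mul, abs_of_nonneg g1,
          abs_of_nonneg hR0]
      split_ifs with hex
      · have h1 : |∑ d ∈ DD.filter (fun d => d ∣ n),
            ((ArithmeticFunction.moebius d : ℤ) : ℝ)| ≤ n.divisors.card := by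
          calc |∑ d ∈ DD.filter (fun d => d ∣ n), ((ArithmeticFunction.moebius d : ℤ) : ℝ)|
              ≤ ∑ d ∈ DD.filter (fun d => d ∣ n), |((ArithmeticFunction.moebius d : ℤ) : ℝ)| :=
                Finset.abs_sum_le_sum_abs _ _
            _ ≤ ∑ d ∈ DD.filter (fun d => d ∣ n), (1 : ℝ) := Finset.sum_le_sum fun d _ => hmu d
            _ = ((DD.filter (fun d => d ∣ n)).card : ℝ) := by simp
            _ ≤ n.divisors.card := by
                have : DD.filter (fun d => d ∣ n) ⊆ n.divisors := by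
                  intro d hd
                  rw [Nat.mem_divisors]
                  exact ⟨(mem_filter.1 hd).2, hn1.ne'⟩
                exact_mod_cast card_le_card this
        have h2 : ‖e n‖ ≤ 3 / 2 * (L * n.divisors.card) := by
          rw [hne]
          apply mul_le_mul g2 _ (by positivity) (by norm_num)
          exact mul_le_mul hPφ h1 (abs_nonneg _) hL0.le
        calc ‖e n‖ ^ 2 ≤ (3 / 2 * (L * n.divisors.card)) ^ 2 :=
              pow_le_pow_left₀ (norm_nonneg _) h2 2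
          _ = _ := by ring
      · have h1 : DD.filter (fun d => d ∣ n) = ∅ := by
          rw [Finset.filter_eq_empty_iff]
          intro d hd hdn
          exact hex ⟨d, hd, hdn⟩
        rw [hne, h1]
        simp
    have hS : ∑ n ∈ Icc 1 X, ‖e n‖ ^ 2 ≤ (9 / 4 * L ^ 2) *
        ∑ n ∈ Icc 1 X, ((n.divisors.card : ℝ) ^ 2 * (if ∃ d ∈ DD, d ∣ n then 1 else 0)) := by
      rw [Finset.mul_sum]
      exact Finset.sum_le_sum he
    set S := ∑ n ∈ Icc 1 X, ((n.divisors.card : ℝ) ^ 2 * (if ∃ d ∈ DD, d ∣ n then 1 else 0))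
      with hSdef
    have hS0 : 0 ≤ S := Finset.sum_nonneg fun n _ => by
      split_ifs <;> positivity
    have hcs : S ^ 2 ≤ (∑ n ∈ Icc 1 X, ((n.divisors.card : ℝ) ^ 2) ^ 2) *
        ∑ n ∈ Icc 1 X, (if ∃ d ∈ DD, d ∣ n then (1 : ℝ) else 0) ^ 2 :=
      Finset.sum_mul_sq_le_sq_mul_sq _ _ _
    have hA : ∑ n ∈ Icc 1 X, ((n.divisors.card : ℝ) ^ 2) ^ 2 ≤ X * (1 + L) ^ C0 := by
      refine le_trans (le_of_eq ?_) (hC0 X hXone).1
      refine Finset.sum_congr rfl fun n _ => ?_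
      rw [← pow_mul]
    have hB : ∑ n ∈ Icc 1 X, (if ∃ d ∈ DD, d ∣ n then (1 : ℝ) else 0) ^ 2 ≤
        X * (2 * (X : ℝ) ^ (-(7 / (64 * (D' : ℝ))))) := by
      have h1 : ∑ n ∈ Icc 1 X, (if ∃ d ∈ DD, d ∣ n then (1 : ℝ) else 0) ^ 2 =
          ((((Icc 1 X).filter (fun n => ∃ d ∈ DD, d ∣ n)).card : ℕ) : ℝ) := by
        rw [Finset.card_filter]
        push_cast
        refine Finset.sum_congr rfl fun n _ => ?_
        split_ifs <;> norm_num
      rw [h1]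
      exact (model_count X DD hDDpos).trans (mul_le_mul_of_nonneg_left htail hX0.le)
    have hB0 : 0 ≤ ∑ n ∈ Icc 1 X, (if ∃ d ∈ DD, d ∣ n then (1 : ℝ) else 0) ^ 2 :=
      Finset.sum_nonneg fun n _ => sq_nonneg _
    have hLL : 324 * 2 ^ C0 * L ^ (4 + C0) ≤ (X : ℝ) ^ (3 / (64 * (D' : ℝ))) := hX4 X hX4'
    have h1L : (1 + L) ^ C0 ≤ 2 ^ C0 * L ^ C0 := by
      rw [← mul_pow]
      exact pow_le_pow_left₀ (by positivity) (by linarith) C0
    have hsq : (9 / 4 * L ^ 2 * S) ^ 2 ≤ ((X : ℝ) ^ (1 - 1 / (32 * (D' : ℝ)))) ^ 2 := by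
      have e1 : ((X : ℝ) ^ (1 - 1 / (32 * (D' : ℝ)))) ^ 2 =
          X * X * ((X : ℝ) ^ (3 / (64 * (D' : ℝ))) * (X : ℝ) ^ (-(7 / (64 * (D' : ℝ))))) := by
        rw [← Real.rpow_natCast, ← Real.rpow_mul hX0.le, ← Real.rpow_add hX0]
        have e2 : (X : ℝ) * X = (X : ℝ) ^ (2 : ℝ) := by
          rw [show (2 : ℝ) = ((2 : ℕ) : ℝ) by norm_num, Real.rpow_natCast]
          ring
        rw [e2, ← Real.rpow_add hX0]
        congr 1
        push_cast
        field_simp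
        ring
      rw [e1]
      calc (9 / 4 * L ^ 2 * S) ^ 2 = 81 / 16 * L ^ 4 * S ^ 2 := by ring
        _ ≤ 81 / 16 * L ^ 4 * ((X * (1 + L) ^ C0) *
              (X * (2 * (X : ℝ) ^ (-(7 / (64 * (D' : ℝ))))))) := by
            apply mul_le_mul_of_nonneg_left _ (by positivity)
            exact hcs.trans (mul_le_mul hA hB hB0 (by positivity))
        _ = X * X * ((81 / 8 * L ^ 4 * (1 + L) ^ C0) * (X : ℝ) ^ (-(7 / (64 * (D' : ℝ))))) := by
            ring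
        _ ≤ X * X * ((X : ℝ) ^ (3 / (64 * (D' : ℝ))) * (X : ℝ) ^ (-(7 / (64 * (D' : ℝ))))) := by
            apply mul_le_mul_of_nonneg_left _ (by positivity)
            apply mul_le_mul_of_nonneg_right _ (Real.rpow_nonneg hX0.le _)
            refine le_trans ?_ hLL
            calc 81 / 8 * L ^ 4 * (1 + L) ^ C0 ≤ 81 / 8 * L ^ 4 * (2 ^ C0 * L ^ C0) :=
                  mul_le_mul_of_nonneg_left h1L (by positivity)
              _ = 81 / 8 * (2 ^ C0 * L ^ (4 + C0)) := by rw [pow_add]; ring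
              _ ≤ 324 * (2 ^ C0 * L ^ (4 + C0)) :=
                  mul_le_mul_of_nonneg_right (by norm_num) (by positivity)
              _ = 324 * 2 ^ C0 * L ^ (4 + C0) := by ring
    have hfin : 9 / 4 * L ^ 2 * S ≤ (X : ℝ) ^ (1 - 1 / (32 * (D' : ℝ))) :=
      (sq_le_sq₀ (by positivity) (Real.rpow_nonneg hX0.le _)).1 hsq
    exact hS.trans hfin
  · intro θ
    have hTI : TI X z (fun _ => 0) v θ = ∑ n ∈ Icc 1 X,
        ((1 / Real.log (n : ℝ) * (R * ∑ d ∈ P.divisors.filter (fun d => d ≤ z ∧ d ∣ n),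
          ((ArithmeticFunction.moebius d : ℤ) : ℝ)) : ℝ) : ℂ) * ee ((n : ℝ) * θ) := by
      have h1 : TI X z (fun _ => 0) v θ = ∑ d ∈ P.divisors.filter (fun d => d ≤ z),
          ti X d 0 (R * ((ArithmeticFunction.moebius d : ℤ) : ℝ)) θ := by
        unfold TI
        have h2 : ∀ d, ti X d 0 0 θ = 0 := by
          intro d
          unfold ti
          refine Finset.sum_eq_zero fun k _ => ?_
          simp
        have h3 : P.divisors.filter (fun d => d ≤ z) =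
            (Icc 1 z).filter (fun d => d ∈ P.divisors ∧ d ≤ z) := by
          ext d
          rw [mem_filter, mem_filter, mem_Icc]
          constructor
          · rintro ⟨h4, h5⟩
            exact ⟨⟨Nat.pos_of_mem_divisors h4, h5⟩, h4, h5⟩
          · rintro ⟨-, h4⟩
            exact h4
        rw [h3, Finset.sum_filter]
        refine Finset.sum_congr rfl fun d _ => ?_
        show ti X d 0 (if d ∈ P.divisors ∧ d ≤ z then
          R * ((ArithmeticFunction.moebius d : ℤ) : ℝ) else 0) θ = _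
        split_ifs with h
        · rfl
        · exact h2 d
      rw [h1]
      have h4 : ∀ d ∈ P.divisors.filter (fun d => d ≤ z),
          ti X d 0 (R * ((ArithmeticFunction.moebius d : ℤ) : ℝ)) θ =
          ∑ n ∈ Icc 1 X, if d ∣ n then ((1 / Real.log (n : ℝ) *
            (R * ((ArithmeticFunction.moebius d : ℤ) : ℝ)) : ℝ) : ℂ) * ee ((n : ℝ) * θ) else 0 := by
        intro d hd
        have hd0 : 0 < d := Nat.pos_of_mem_divisors (mem_filter.1 hd).1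
        rw [← Finset.sum_filter, model_mult d X hd0 (fun n => ((1 / Real.log (n : ℝ) *
            (R * ((ArithmeticFunction.moebius d : ℤ) : ℝ)) : ℝ) : ℂ) * ee ((n : ℝ) * θ))]
        unfold ti
        refine Finset.sum_congr rfl fun k _ => ?_
        congr 2
        ring
      rw [Finset.sum_congr rfl h4, Finset.sum_comm]
      refine Finset.sum_congr rfl fun n _ => ?_
      rw [← Finset.sum_filter, Finset.filter_filter, Finset.mul_sum, Finset.mul_sum]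
      push_cast
      rw [Finset.sum_mul]
    rw [hTI]
    unfold F2 tp
    rw [← Finset.sum_add_distrib]
    refine Finset.sum_congr rfl fun n hn => ?_
    have hn1 : 0 < n := (mem_Icc.1 hn).1
    rw [← add_mul]
    congr 1
    show ((f2 w n : ℝ) : ℂ) = _ + ((1 / Real.log (n : ℝ) * (R * ∑ d ∈ DD.filter (fun d => d ∣ n),
      ((ArithmeticFunction.moebius d : ℤ) : ℝ)) : ℝ) : ℂ)
    rw [← Complex.ofReal_add]
    congr 1
    unfold f2
    rw [hf1 n hn1]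
    have h5 : ∑ d ∈ P.divisors.filter (fun d => d ∣ n), ((ArithmeticFunction.moebius d : ℤ) : ℝ) =
        ∑ d ∈ P.divisors.filter (fun d => d ≤ z ∧ d ∣ n),
          ((ArithmeticFunction.moebius d : ℤ) : ℝ) +
        ∑ d ∈ DD.filter (fun d => d ∣ n), ((ArithmeticFunction.moebius d : ℤ) : ℝ) := by
      rw [← Finset.sum_filter_add_sum_filter_not (P.divisors.filter (fun d => d ∣ n))
        (fun d => d ≤ z)]
      congr 1
      · refine Finset.sum_congr ?_ fun _ _ => rfl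
        ext d
        simp only [mem_filter]
        tauto
      · refine Finset.sum_congr ?_ fun _ _ => rfl
        ext d
        rw [hDD]
        simp only [mem_filter, not_le, Nat.cast_lt]
        tauto
    rw [h5]
    ring

/-- crude `L²` bound for the coefficients -/
theorem W_l2 (D' : ℕ) (hD : 1 ≤ D') : ∃ X0 : ℕ, ∀ X : ℕ, X0 ≤ X → ∀ s : ℝ, |s| ≤ 1 →
    ∃ e : ℕ → ℝ, (∀ n, |e n| ≤ 3 * Real.log X) ∧
      ∑ n ∈ Icc 1 X, e n ^ 2 ≤ 9 * X * (Real.log X) ^ 2 ∧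
      ∀ θ : ℝ, W s (wX D' X) X θ = tp X (fun n => (e n : ℂ)) θ := by
  obtain ⟨X1, hX1⟩ := f1_le D'
  obtain ⟨X3, hX3⟩ := MP_log_large 1
  refine ⟨max X1 X3, fun X hX s hs => ?_⟩
  have hL1 : 1 ≤ Real.log X := hX3 X ((le_max_right _ _).trans hX)
  have hL0 : 0 < Real.log X := by linarith
  obtain ⟨-, hf⟩ := hX1 X ((le_max_left _ _).trans hX) (wX D' X) (model_wX D' X hL0.le)
  obtain ⟨w, hw⟩ : ∃ w, wX D' X = w := ⟨_, rfl⟩
  rw [hw] at hf ⊢
  have he : ∀ n : ℕ, |(if n.Prime then (1 : ℝ) else 0) + s * f2 w n| ≤ 3 * Real.log X := by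
    intro n
    obtain ⟨g1, g2⟩ := model_inv_log n
    have h1 : |(if n.Prime then (1 : ℝ) else 0)| ≤ 1 := by
      split_ifs <;> norm_num
    have h2 : |f2 w n| ≤ 3 / 2 * Real.log X := by
      have h3 : f2 w n = 1 / Real.log (n : ℝ) * f1 w n := by
        unfold f2
        ring
      rw [h3, abs_mul, abs_of_nonneg g1, abs_of_nonneg (f1_nonneg w n)]
      exact mul_le_mul g2 (hf n) (f1_nonneg w n) (by norm_num)
    calc |(if n.Prime then (1 : ℝ) else 0) + s * f2 w n|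
        ≤ |(if n.Prime then (1 : ℝ) else 0)| + |s * f2 w n| := abs_add_le _ _
      _ ≤ 1 + 1 * (3 / 2 * Real.log X) := by
          rw [abs_mul]
          exact add_le_add h1 (mul_le_mul hs h2 (abs_nonneg _) (by norm_num))
      _ ≤ 3 * Real.log X := by linarith
  refine ⟨fun n => (if n.Prime then (1 : ℝ) else 0) + s * f2 w n, he, ?_, ?_⟩
  · calc ∑ n ∈ Icc 1 X, ((if n.Prime then (1 : ℝ) else 0) + s * f2 w n) ^ 2
        ≤ ∑ n ∈ Icc 1 X, (3 * Real.log X) ^ 2 := by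
          refine Finset.sum_le_sum fun n _ => ?_
          rw [← sq_abs ((if n.Prime then (1 : ℝ) else 0) + s * f2 w n)]
          exact pow_le_pow_left₀ (abs_nonneg _) (he n) 2
      _ = 9 * X * (Real.log X) ^ 2 := by
          rw [Finset.sum_const, Nat.card_Icc, Nat.add_sub_cancel, nsmul_eq_mul]
          ring
  · intro θ
    unfold W P1 F2 tp
    rw [Finset.sum_filter, Finset.mul_sum, ← Finset.sum_add_distrib]
    refine Finset.sum_congr rfl fun n _ => ?_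
    by_cases hp : n.Prime
    · simp only [hp, if_true]
      push_cast
      ring
    · simp only [hp, if_false]
      push_cast
      ring

end Pool.MP_dd84fd_nt.PL
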