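import Pool.Agent.Lib.MP_dd84fd_nt.PL.Model
import Pool.Agent.Lib.MP_dd84fd_nt.PL.BMass
import Pool.Agent.Lib.MP_dd84fd_nt.PL.Overlap

/-!
# PL-Mass: total mass of the arcs

`L = log X`, `Wt X w T q = ∑_{a ∈ rr q} ∫_{-T/X}^{T/X} ‖W_- W_+‖(a/q + x) dx`.
`mass`: `P0 = ⌊X^(1/2-δ)⌋₊`; `overlap` for the family `{1,..,P0}` (`lcm ≤ P0² ≤ X^(1-2δ) =: N`, `(2T/X) N + 1 ≤ 2` for
`T = L^K2`, `X ≥ X0`), `F = (‖W_-‖² + ‖W_+‖²)/2` (continuous, 1-periodic), `‖W_- W_+‖ ≤ F`, `∫_0^1 F ≤ 9 X L²`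
(`W_l2`, `tp_l2`).
-/

set_option autoImplicit false

namespace Pool.MP_dd84fd_nt.PL

open Finset Pool.MP_67663b_nt.Odd Pool.MP_dd84fd_nt.E2

/-- mass of the arcs of half-width `T/X` around the fractions with denominator `q` -/
noncomputable def Wt (X w : ℕ) (T : ℝ) (q : ℕ) : ℝ :=
  ∑ a ∈ rr q, ∫ x in (-(T / X))..(T / X),
    ‖W (-1) w X ((a : ℝ) / q + x) * W 1 w X ((a : ℝ) / q + x)‖

theorem Wt_nonneg (X w : ℕ) (T : ℝ) (hT : 0 ≤ T) (q : ℕ) : 0 ≤ Wt X w T q := by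
  unfold Wt
  refine sum_nonneg fun a _ => ?_
  have h1 : 0 ≤ T / (X : ℝ) := div_nonneg hT (Nat.cast_nonneg X)
  exact intervalIntegral.integral_nonneg (by linarith) fun x _ => norm_nonneg _

private theorem ms_ee_add (x y : ℝ) : ee (x + y) = ee x * ee y := by
  unfold ee
  rw [← Complex.exp_add]
  congr 1
  push_cast
  ring

private theorem ms_ee_cont : Continuous ee := by
  unfold ee
  fun_prop

private theorem ms_ee_int (m : ℤ) : ee (m : ℝ) = 1 := by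
  unfold ee
  have h : (2 * (Real.pi : ℂ) * ((m : ℝ) : ℂ) * Complex.I) = (m : ℂ) * (2 * Real.pi * Complex.I) := by
    push_cast
    ring
  rw [h]
  exact Complex.exp_int_mul_two_pi_mul_I m

private theorem ms_tp_cont (K : ℕ) (c : ℕ → ℂ) : Continuous (tp K c) := by
  unfold tp
  refine continuous_finsetSum _ fun k _ => ?_
  exact continuous_const.mul (ms_ee_cont.comp (continuous_const.mul continuous_id))

private theorem ms_tp_per (K : ℕ) (c : ℕ → ℂ) (x : ℝ) : tp K c (x + 1) = tp K c x := by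
  unfold tp
  refine sum_congr rfl fun k _ => ?_
  rw [mul_add, mul_one, ms_ee_add]
  have := ms_ee_int (k : ℤ)
  rw [Int.cast_natCast] at this
  rw [this, mul_one]

/-- `2 (log X)^k ≤ X^ε` -/
private theorem ms_log (k : ℕ) (ε : ℝ) (hε : 0 < ε) : ∃ X0 : ℕ, ∀ X : ℕ, X0 ≤ X →
    2 * (Real.log X) ^ k ≤ (X : ℝ) ^ ε := by
  have h1 := isLittleO_log_rpow_rpow_atTop (k : ℝ) hε
  have h2 := (h1.bound (c := 1 / 2) (by norm_num)).and (Filter.eventually_ge_atTop (1 : ℝ))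
  obtain ⟨x0, hx0⟩ := Filter.eventually_atTop.1 h2
  refine ⟨⌈x0⌉₊, fun X hX => ?_⟩
  have h3 : x0 ≤ (X : ℝ) := (Nat.le_ceil x0).trans (by exact_mod_cast hX)
  obtain ⟨h4, h5⟩ := hx0 X h3
  rw [Real.norm_eq_abs, Real.norm_eq_abs, Real.rpow_natCast] at h4
  have h6 : 0 ≤ Real.log (X : ℝ) := Real.log_nonneg h5
  have h7 : (0 : ℝ) ≤ (X : ℝ) ^ ε := Real.rpow_nonneg (by linarith) _
  rw [abs_of_nonneg (pow_nonneg h6 k), abs_of_nonneg h7] at h4
  linarith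

theorem mass (K2 D' : ℕ) (δ : ℝ) (hδ : 0 < δ) (hD : 1 ≤ D') : ∃ X0 : ℕ,
    ∀ X : ℕ, X0 ≤ X →
    ∑ q ∈ Icc 1 ⌊(X : ℝ) ^ (1 / 2 - δ)⌋₊, Wt X (wX D' X) ((Real.log X) ^ K2) q ≤
      18 * X * (Real.log X) ^ 2 := by
  obtain ⟨X1, hX1⟩ := W_l2 D' hD
  obtain ⟨X2, hX2⟩ := ms_log K2 (2 * δ) (by positivity)
  obtain ⟨X3, hX3⟩ := ms_log K2 1 one_pos
  refine ⟨max (max X1 X2) (max X3 1), fun X hX => ?_⟩
  have hXX1 : X1 ≤ X := (le_max_left _ _).trans ((le_max_left _ _).trans hX)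
  have hXX2 : X2 ≤ X := (le_max_right _ _).trans ((le_max_left _ _).trans hX)
  have hXX3 : X3 ≤ X := (le_max_left _ _).trans ((le_max_right _ _).trans hX)
  have hXX4 : 1 ≤ X := (le_max_right _ _).trans ((le_max_right _ _).trans hX)
  have hX0 : (0 : ℝ) < X := by exact_mod_cast hXX4
  have hX1r : (1 : ℝ) ≤ X := by exact_mod_cast hXX4
  have hL0 : 0 ≤ Real.log (X : ℝ) := Real.log_nonneg hX1r
  have h2 := hX2 X hXX2
  have h3 := hX3 X hXX3
  rw [Real.rpow_one] at h3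
  set L := Real.log (X : ℝ) with hL
  obtain ⟨e, -, he2, he⟩ := hX1 X hXX1 (-1) (by simp)
  obtain ⟨e', -, he2', he'⟩ := hX1 X hXX1 1 (by simp)
  set P0 : ℕ := ⌊(X : ℝ) ^ (1 / 2 - δ)⌋₊ with hP0
  set N : ℝ := max 1 ((X : ℝ) ^ (1 - 2 * δ)) with hN
  have hN1 : 1 ≤ N := le_max_left _ _
  have hFam : Fam (Icc 1 P0) N := by
    refine ⟨fun q hq => (mem_Icc.1 hq).1, fun q hq q' hq' => ?_⟩
    have hle : ∀ r ∈ Icc 1 P0, (r : ℝ) ≤ (X : ℝ) ^ (1 / 2 - δ) := fun r hr =>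
      (Nat.le_floor_iff (Real.rpow_nonneg hX0.le _)).1 (mem_Icc.1 hr).2
    have h4 : Nat.lcm q q' ≤ q * q' :=
      Nat.le_of_dvd (Nat.mul_pos (mem_Icc.1 hq).1 (mem_Icc.1 hq').1) (Nat.lcm_dvd_mul q q')
    have h5 : (Nat.lcm q q' : ℝ) ≤ (q : ℝ) * q' := by exact_mod_cast h4
    have h6 : (q : ℝ) * q' ≤ (X : ℝ) ^ (1 / 2 - δ) * (X : ℝ) ^ (1 / 2 - δ) :=
      mul_le_mul (hle q hq) (hle q' hq') (Nat.cast_nonneg _) (Real.rpow_nonneg hX0.le _)
    have h7 : (X : ℝ) ^ (1 / 2 - δ) * (X : ℝ) ^ (1 / 2 - δ) = (X : ℝ) ^ (1 - 2 * δ) := by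
      rw [← Real.rpow_add hX0]
      congr 1
      ring
    rw [h7] at h6
    exact (h5.trans h6).trans (le_max_right _ _)
  set F : ℝ → ℝ := fun θ => (‖W (-1) (wX D' X) X θ‖ ^ 2 + ‖W 1 (wX D' X) X θ‖ ^ 2) / 2 with hFdef
  have hFeq : F = fun θ => (‖tp X (fun n => (e n : ℂ)) θ‖ ^ 2 +
      ‖tp X (fun n => (e' n : ℂ)) θ‖ ^ 2) / 2 := by
    rw [hFdef]
    funext θ
    simp only [he, he']
  have hc1 := ms_tp_cont X (fun n => (e n : ℂ))
  have hc2 := ms_tp_cont X (fun n => (e' n : ℂ))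
  have hFc : Continuous F := by
    rw [hFeq]
    exact ((hc1.norm.pow 2).add (hc2.norm.pow 2)).div_const 2
  have hF0 : ∀ x, 0 ≤ F x := fun x => by
    rw [hFdef]
    positivity
  have hFp : ∀ x, F (x + 1) = F x := fun x => by
    rw [hFeq]
    simp only [ms_tp_per]
  have hFi : ∫ x in (0 : ℝ)..1, F x ≤ 9 * X * L ^ 2 := by
    have hi1 : IntervalIntegrable (fun x : ℝ => ‖tp X (fun n => (e n : ℂ)) x‖ ^ 2)
        MeasureTheory.volume 0 1 := (hc1.norm.pow 2).intervalIntegrable _ _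
    have hi2 : IntervalIntegrable (fun x : ℝ => ‖tp X (fun n => (e' n : ℂ)) x‖ ^ 2)
        MeasureTheory.volume 0 1 := (hc2.norm.pow 2).intervalIntegrable _ _
    rw [hFeq, intervalIntegral.integral_div, intervalIntegral.integral_add hi1 hi2,
      tp_l2, tp_l2]
    have h8 : ∀ c : ℕ → ℝ, ∑ k ∈ Icc 1 X, ‖((c k : ℝ) : ℂ)‖ ^ 2 = ∑ k ∈ Icc 1 X, c k ^ 2 := by
      intro c
      refine sum_congr rfl fun k _ => ?_
      rw [Complex.norm_real, Real.norm_eq_abs, sq_abs]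
    rw [h8 e, h8 e']
    linarith
  set T : ℝ := L ^ K2 with hT
  have hT0 : 0 ≤ T := pow_nonneg hL0 _
  have hTX : 0 ≤ T / (X : ℝ) := div_nonneg hT0 hX0.le
  have hov := overlap (Icc 1 P0) N hFam hN1 F hFc hF0 hFp (-(T / X)) (T / X) (by linarith)
  have hle1 : ∑ q ∈ Icc 1 P0, Wt X (wX D' X) T q ≤
      ∑ q ∈ Icc 1 P0, ∑ a ∈ rr q, ∫ x in (-(T / X))..(T / X), F ((a : ℝ) / q + x) := by
    refine sum_le_sum fun q _ => ?_
    unfold Wt
    refine sum_le_sum fun a _ => ?_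
    refine intervalIntegral.integral_mono_on (by linarith) ?_ ?_ ?_
    · have h9 : Continuous fun x : ℝ => ‖W (-1) (wX D' X) X ((a : ℝ) / q + x) *
          W 1 (wX D' X) X ((a : ℝ) / q + x)‖ := by
        simp only [he, he']
        exact ((hc1.comp (continuous_const.add continuous_id)).mul
          (hc2.comp (continuous_const.add continuous_id))).norm
      exact h9.intervalIntegrable _ _
    · exact (hFc.comp (continuous_const.add continuous_id)).intervalIntegrable _ _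
    · intro x _
      rw [hFdef]
      simp only [norm_mul]
      nlinarith [sq_nonneg (‖W (-1) (wX D' X) X ((a : ℝ) / q + x)‖ -
        ‖W 1 (wX D' X) X ((a : ℝ) / q + x)‖)]
  have hfac : (T / X - -(T / X)) * N + 1 ≤ 2 := by
    have h10 : 2 * T * N ≤ X := by
      rw [hN, mul_max_of_nonneg _ _ (by positivity)]
      refine max_le (by linarith) ?_
      calc 2 * T * (X : ℝ) ^ (1 - 2 * δ) ≤ (X : ℝ) ^ (2 * δ) * (X : ℝ) ^ (1 - 2 * δ) :=
            mul_le_mul_of_nonneg_right h2 (Real.rpow_nonneg hX0.le _)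
        _ = X := by
            rw [← Real.rpow_add hX0]
            conv_rhs => rw [← Real.rpow_one (X : ℝ)]
            congr 1
            ring
    have h11 : (T / X - -(T / X)) * N = 2 * T * N / X := by
      field_simp
      ring
    rw [h11]
    have h12 : 2 * T * N / X ≤ 1 := by
      rw [div_le_one hX0]
      exact h10
    linarith
  have hI0 : 0 ≤ ∫ x in (0 : ℝ)..1, F x :=
    intervalIntegral.integral_nonneg zero_le_one fun x _ => hF0 x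
  calc ∑ q ∈ Icc 1 P0, Wt X (wX D' X) T q
      ≤ ((T / X - -(T / X)) * N + 1) * ∫ x in (0 : ℝ)..1, F x := hle1.trans hov
    _ ≤ 2 * ∫ x in (0 : ℝ)..1, F x := mul_le_mul_of_nonneg_right hfac hI0
    _ ≤ 2 * (9 * X * L ^ 2) := by linarith
    _ = 18 * X * L ^ 2 := by ring

end Pool.MP_dd84fd_nt.PL
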