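import Mathlib

/-!
# PL-Cover: greedy covering by multiples

Proof.  Let `T = (W/η) log |E| + 1`.  Greedy: `E_0 = E`; if `E_i ≠ ∅` then
`η |E_i| ≤ ∑_{n ∈ E_i} ∑_{d ∈ S, d ∣ n} m d = ∑_{d ∈ S} m d · #{n ∈ E_i : d ∣ n}
≤ W · max_d #{n ∈ E_i : d ∣ n}`, so some `d ∈ S` with `m d > 0` divides at least `(η/W)|E_i|` elements of
`E_i`; put `E_{i+1} = {n ∈ E_i : ¬ d ∣ n}`, `|E_{i+1}| ≤ (1 - η/W)|E_i| ≤ exp(-η/W) |E_i|`.
Induction on `|E|` (strong): if `|E| = 0` take `D = ∅`; otherwise `D = {d} ∪ D'` with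
`|D'| ≤ (W/η) log|E'| + 1` where `|E'| ≤ exp(-η/W)|E|`: if `E' = ∅` then `|D| = 1 ≤ (W/η) log |E| + 1`;
if not, `(W/η) log|E'| ≤ (W/η) log |E| - 1`.  (`W > 0` because `η ≤ W` if `E ≠ ∅`.)
-/

set_option autoImplicit false

namespace Pool.MP_dd84fd_nt.PL

open Finset

private theorem greedy_step (E S : Finset ℕ) (m : ℕ → ℝ) (hm : ∀ d, 0 ≤ m d) (W η : ℝ)
    (hη : 0 < η) (hW0 : 0 < W) (hW : ∑ d ∈ S, m d ≤ W) (hE : E.Nonempty)
    (h : ∀ n ∈ E, η ≤ ∑ d ∈ S.filter (fun d => d ∣ n), m d) :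
    ∃ d ∈ S, 0 < m d ∧ η / W * (E.card : ℝ) ≤ ((E.filter (fun n => d ∣ n)).card : ℝ) := by
  by_contra hcon
  push Not at hcon
  have h1 : η * (E.card : ℝ) ≤ ∑ d ∈ S, m d * ((E.filter (fun n => d ∣ n)).card : ℝ) := by
    calc η * (E.card : ℝ) = ∑ _n ∈ E, η := by rw [sum_const, nsmul_eq_mul, mul_comm]
      _ ≤ ∑ n ∈ E, ∑ d ∈ S.filter (fun d => d ∣ n), m d := sum_le_sum h
      _ = ∑ n ∈ E, ∑ d ∈ S, if d ∣ n then m d else 0 := by
          refine sum_congr rfl fun n _ => ?_
          rw [sum_filter]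
      _ = ∑ d ∈ S, ∑ n ∈ E, if d ∣ n then m d else 0 := sum_comm
      _ = ∑ d ∈ S, m d * ((E.filter (fun n => d ∣ n)).card : ℝ) := by
          refine sum_congr rfl fun d _ => ?_
          rw [← sum_filter, sum_const, nsmul_eq_mul, mul_comm]
  obtain ⟨n0, hn0⟩ := hE
  have hEc : (0 : ℝ) < E.card := by exact_mod_cast card_pos.2 ⟨n0, hn0⟩
  -- some `d` has positive mass
  have h2 : ∃ d ∈ S, 0 < m d := by
    by_contra h3
    push Not at h3
    have h4 : ∑ d ∈ S.filter (fun d => d ∣ n0), m d ≤ 0 :=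
      sum_nonpos fun d hd => h3 d (mem_filter.1 hd).1
    have := h n0 hn0
    linarith
  obtain ⟨d0, hd0, hmd0⟩ := h2
  have h5 : ∑ d ∈ S, m d * ((E.filter (fun n => d ∣ n)).card : ℝ)
      < ∑ d ∈ S, m d * (η / W * (E.card : ℝ)) := by
    refine sum_lt_sum ?_ ⟨d0, hd0, mul_lt_mul_of_pos_left (hcon d0 hd0 hmd0) hmd0⟩
    intro d hd
    rcases (hm d).lt_or_eq with h6 | h6
    · exact mul_le_mul_of_nonneg_left (hcon d hd h6).le (hm d)
    · rw [← h6]
      simp
  rw [← sum_mul] at h5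
  have h7 : (∑ d ∈ S, m d) * (η / W * (E.card : ℝ)) ≤ W * (η / W * (E.card : ℝ)) :=
    mul_le_mul_of_nonneg_right hW (by positivity)
  have h8 : W * (η / W * (E.card : ℝ)) = η * (E.card : ℝ) := by
    field_simp
  linarith

theorem greedy_cover (E S : Finset ℕ) (m : ℕ → ℝ) (hm : ∀ d, 0 ≤ m d) (W η : ℝ) (hη : 0 < η)
    (hW : ∑ d ∈ S, m d ≤ W) (h : ∀ n ∈ E, η ≤ ∑ d ∈ S.filter (fun d => d ∣ n), m d) :
    ∃ D : Finset ℕ, D ⊆ S.filter (fun d => 0 < m d) ∧
      (D.card : ℝ) ≤ W / η * Real.log E.card + 1 ∧ ∀ n ∈ E, ∃ d ∈ D, d ∣ n := by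
  induction hk : E.card using Nat.strong_induction_on generalizing E with
  | _ k ih =>
    rcases E.eq_empty_or_nonempty with hE | hE
    · subst hE
      refine ⟨∅, by simp, ?_, by simp⟩
      rw [card_empty] at hk
      subst hk
      simp
    · obtain ⟨n0, hn0⟩ := hE
      have hW0 : 0 < W := by
        have h1 := h n0 hn0
        have h2 : ∑ d ∈ S.filter (fun d => d ∣ n0), m d ≤ ∑ d ∈ S, m d :=
          sum_le_sum_of_subset_of_nonneg (filter_subset _ _) fun d _ _ => hm d
        linarith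
      obtain ⟨d, hdS, hmd, hd⟩ := greedy_step E S m hm W η hη hW0 hW ⟨n0, hn0⟩ h
      have hEc : (0 : ℝ) < E.card := by exact_mod_cast card_pos.2 ⟨n0, hn0⟩
      have hE1 : (1 : ℝ) ≤ E.card := by
        have : 1 ≤ E.card := card_pos.2 ⟨n0, hn0⟩
        exact_mod_cast this
      have hcard : (E.filter (fun n => d ∣ n)).card + (E.filter (fun n => ¬ d ∣ n)).card
          = E.card := card_filter_add_card_filter_not _
      have hcardR : ((E.filter (fun n => d ∣ n)).card : ℝ)
          + ((E.filter (fun n => ¬ d ∣ n)).card : ℝ) = E.card := by exact_mod_cast hcard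
      have hpos : 0 < (E.filter (fun n => d ∣ n)).card := by
        have h3 : (0 : ℝ) < ((E.filter (fun n => d ∣ n)).card : ℝ) :=
          lt_of_lt_of_le (by positivity) hd
        exact_mod_cast h3
      have hdmem : d ∈ S.filter (fun d => 0 < m d) := mem_filter.2 ⟨hdS, hmd⟩
      rcases (E.filter (fun n => ¬ d ∣ n)).eq_empty_or_nonempty with hE' | hE'
      · refine ⟨{d}, by simpa using ⟨hdS, hmd⟩, ?_, ?_⟩
        · rw [card_singleton, ← hk]
          have h4 := Real.log_nonneg hE1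
          have h5 : 0 ≤ W / η * Real.log E.card := by positivity
          push_cast
          linarith
        · intro n hn
          refine ⟨d, mem_singleton_self d, ?_⟩
          by_contra h6
          have h7 : n ∈ E.filter (fun n => ¬ d ∣ n) := mem_filter.2 ⟨hn, h6⟩
          rw [hE'] at h7
          simp at h7
      · obtain ⟨D', hD'1, hD'2, hD'3⟩ := ih (E.filter (fun n => ¬ d ∣ n)).card (by omega)
          (E.filter (fun n => ¬ d ∣ n)) (fun n hn => h n (mem_filter.1 hn).1) rfl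
        refine ⟨insert d D', insert_subset hdmem hD'1, ?_, ?_⟩
        · have hE'c : (0 : ℝ) < ((E.filter (fun n => ¬ d ∣ n)).card : ℝ) := by
            exact_mod_cast card_pos.2 hE'
          have h8 : ((E.filter (fun n => ¬ d ∣ n)).card : ℝ)
              ≤ Real.exp (-(η / W)) * (E.card : ℝ) := by
            have h9 : 1 - η / W ≤ Real.exp (-(η / W)) := by
              have := Real.add_one_le_exp (-(η / W))
              linarith
            have h10 : ((E.filter (fun n => ¬ d ∣ n)).card : ℝ) ≤ (1 - η / W) * (E.card : ℝ) := by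
              linarith
            exact h10.trans (mul_le_mul_of_nonneg_right h9 hEc.le)
          have h11 : Real.log ((E.filter (fun n => ¬ d ∣ n)).card : ℝ)
              ≤ -(η / W) + Real.log (E.card : ℝ) := by
            have h12 := Real.log_le_log hE'c h8
            rwa [Real.log_mul (Real.exp_pos _).ne' hEc.ne', Real.log_exp] at h12
          have h13 : W / η * Real.log ((E.filter (fun n => ¬ d ∣ n)).card : ℝ)
              ≤ W / η * (-(η / W) + Real.log (E.card : ℝ)) :=
            mul_le_mul_of_nonneg_left h11 (by positivity)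
          have h14 : W / η * (-(η / W) + Real.log (E.card : ℝ))
              = -1 + W / η * Real.log (E.card : ℝ) := by
            field_simp
          have h15 : ((insert d D').card : ℝ) ≤ (D'.card : ℝ) + 1 := by
            exact_mod_cast card_insert_le d D'
          rw [← hk]
          linarith
        · intro n hn
          by_cases h16 : d ∣ n
          · exact ⟨d, mem_insert_self d D', h16⟩
          · obtain ⟨d', hd', hdn⟩ := hD'3 n (mem_filter.2 ⟨hn, h16⟩)
            exact ⟨d', mem_insert_of_mem hd', hdn⟩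

end Pool.MP_dd84fd_nt.PL
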