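import Pool.Agent.Lib.MP_dd84fd_nt.PL.PlSigma

/-!
# PL-Final: the pointwise lemma PL

`K1, K2` from `pl_sigma (A+1)`.  If `QQ = ∅` trivial; otherwise `N ≥ lcm(q,q) ≥ 1`.  `Std` holds (`1/L^A0 = L^(-A0)`), for
`σ = 1` and `σ = -1`; `FF θ = W_- θ · W_+ θ · ee(-(nθ))`, so the inner sum is `Bq .. σ=1 .. + Bq .. σ=-1 ..` with
`Wa s σ w X q a x = W s w X (a/q + σx)` (`a/q - x = a/q + (-1) x`); the two halves are each `≤ X/L^(A+1)`, `2/L ≤ 1`.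
-/

set_option autoImplicit false

namespace Pool.MP_dd84fd_nt.PL

open Finset Pool.MP_67663b_nt.Odd Pool.MP_dd84fd_nt.E2

theorem pl (A : ℕ) : ∃ K1 K2 : ℕ, ∀ (δ : ℝ) (D' A0 : ℕ), 0 < δ → δ ≤ 1 / 8 → 1 ≤ D' →
    ∃ X0 : ℕ, ∀ X : ℕ, X0 ≤ X → ∀ n : ℕ, X < 2 * n → n ≤ X →
    ∀ (QQ : Finset ℕ) (N b : ℝ) (bq : ℕ → ℝ), (∀ q ∈ QQ, 1 ≤ q ∧ b ≤ bq q ∧ bq q ≤ 2 * b) →
    (∀ q ∈ QQ, ∀ q' ∈ QQ, (Nat.lcm q q' : ℝ) ≤ N) → 1 / (Real.log X) ^ A0 ≤ b →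
    N * b ≤ (X : ℝ) ^ (1 / 2 - δ) →
    ((Real.log X) ^ K2 < b ∨ ∀ q ∈ QQ, (Real.log X) ^ K1 * (Nat.gcd q n : ℝ) < q) →
    ∑ q ∈ QQ, ‖∑ a ∈ rr q, ((∫ x in (bq q / X)..(2 * bq q / X), FF (wX D' X) X n ((a : ℝ) / q + x)) +
      ∫ x in (bq q / X)..(2 * bq q / X), FF (wX D' X) X n ((a : ℝ) / q - x))‖ ≤
      X / (Real.log X) ^ A := by
  obtain ⟨K1, K2, h⟩ := pl_sigma (A + 1)
  refine ⟨K1, K2, fun δ D' A0 hδ hδ1 hD => ?_⟩
  obtain ⟨X1, hX1⟩ := h δ A0 D' hδ hδ1 hD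
  refine ⟨max X1 8, fun X hX n hn1 hn2 QQ N b bq hq hlcm hb hNb hor => ?_⟩
  have hXX1 : X1 ≤ X := (le_max_left _ _).trans hX
  have hX8 : 8 ≤ X := (le_max_right _ _).trans hX
  have hX0 : (0 : ℝ) < X := by exact_mod_cast (by omega : 0 < X)
  have hL2 : 2 ≤ Real.log (X : ℝ) := by
    rw [Real.le_log_iff_exp_le hX0]
    have h1 : Real.exp 2 = Real.exp 1 * Real.exp 1 := by
      rw [← Real.exp_add]; norm_num
    have h2 := Real.exp_one_lt_d9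
    have h3 : (8 : ℝ) ≤ X := by exact_mod_cast hX8
    have h4 : 0 < Real.exp 1 := Real.exp_pos 1
    rw [h1]
    nlinarith
  have hL0 : 0 < Real.log (X : ℝ) := by linarith
  rcases QQ.eq_empty_or_nonempty with hQ | ⟨q0, hq0⟩
  · rw [hQ, Finset.sum_empty]
    positivity
  have hN1 : 1 ≤ N := by
    have h5 := hlcm q0 hq0 q0 hq0
    have h6 : 1 ≤ Nat.lcm q0 q0 := by
      rw [Nat.lcm_self]
      exact (hq q0 hq0).1
    have h7 : (1 : ℝ) ≤ (Nat.lcm q0 q0 : ℝ) := by exact_mod_cast h6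
    linarith
  have hb' : (Real.log (X : ℝ)) ^ (-(A0 : ℝ)) ≤ b := by
    rw [Real.rpow_neg hL0.le, Real.rpow_natCast, ← one_div]
    exact hb
  have hstd : ∀ σ : ℝ, (σ = 1 ∨ σ = -1) → Std X n δ A0 b N σ QQ bq := by
    intro σ hσ
    exact ⟨hn1, hn2, hσ, hb', hN1, hNb, ⟨fun q hqq => (hq q hqq).1, hlcm⟩,
      fun q hqq => (hq q hqq).2⟩
  have r1 := hX1 X hXX1 n b N 1 QQ bq (hstd 1 (Or.inl rfl)) hor
  have r2 := hX1 X hXX1 n b N (-1) QQ bq (hstd (-1) (Or.inr rfl)) hor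
  have key : ∀ q ∈ QQ, ‖∑ a ∈ rr q, ((∫ x in (bq q / X)..(2 * bq q / X),
        FF (wX D' X) X n ((a : ℝ) / q + x)) +
        ∫ x in (bq q / X)..(2 * bq q / X), FF (wX D' X) X n ((a : ℝ) / q - x))‖ ≤
      ‖Bq X (bq q) 1 n q (Wa (-1) 1 (wX D' X) X q) (Wa 1 1 (wX D' X) X q)‖ +
      ‖Bq X (bq q) (-1) n q (Wa (-1) (-1) (wX D' X) X q) (Wa 1 (-1) (wX D' X) X q)‖ := by
    intro q _
    rw [Finset.sum_add_distrib]
    refine (norm_add_le _ _).trans (le_of_eq ?_)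
    congr 2
    · unfold Bq
      refine Finset.sum_congr rfl fun a _ => ?_
      refine intervalIntegral.integral_congr fun x _ => ?_
      simp only [Wa, FF, one_mul]
    · unfold Bq
      refine Finset.sum_congr rfl fun a _ => ?_
      refine intervalIntegral.integral_congr fun x _ => ?_
      simp only [Wa, FF, neg_mul, one_mul, ← sub_eq_add_neg]
  refine (Finset.sum_le_sum key).trans ?_
  rw [Finset.sum_add_distrib]
  have h8 : (X : ℝ) / (Real.log X) ^ (A + 1) + X / (Real.log X) ^ (A + 1) ≤ X / (Real.log X) ^ A := by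
    have h9 : (X : ℝ) / (Real.log X) ^ (A + 1) + X / (Real.log X) ^ (A + 1) =
        X / (Real.log X) ^ A * (2 / Real.log X) := by
      rw [pow_succ]
      field_simp
      ring
    rw [h9]
    have h10 : 2 / Real.log (X : ℝ) ≤ 1 := by
      rw [div_le_one hL0]
      exact hL2
    exact mul_le_of_le_one_right (by positivity) h10
  linarith

end Pool.MP_dd84fd_nt.PL
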