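import Pool.Agent.Lib.MP_dd84fd_nt.PL.SmallM
import Pool.Agent.Lib.MP_dd84fd_nt.PL.Cover

/-!
# PL-Greedy: the moduli `D`

`L = log X`, `P0 = ⌊X^(1/2-δ)⌋₊`, `Z = L^(K+K1)`, `Wt q = Wt X (wX D' X) (L^K2) q`, `D0 = max (D0 of small_mass A (K+K1) K2) 1`.
`m(d) = ∑_{Z < q ≤ P0, d ∣ q, q ≤ L^K1 d} Wt q`, `S = Icc 1 P0`.  For `q` with `Z < q ≤ P0`, `q ≤ L^K1 gcd(q,n)` put `d = gcd(q,n)`:
`d ∣ n`, `d ∣ q`, so `∑_{Z<q≤P0, q ≤ L^K1 gcd(q,n)} Wt q ≤ ∑_{d ∈ S, d ∣ n} m(d)`;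
`∑_d m(d) ≤ ∑_q Wt q #{d ∣ q : q/d ≤ L^K1} ≤ L^K1 · 18 X L²` (`d ↦ q/d` is injective on divisors; `mass`).
`greedy_cover` for `E = {n ∈ Icc 1 X : ∑_{d ∈ S, d ∣ n} m d ≥ η}`, `η = X/(2L^A)`: `#D ≤ 36 L^(K1+2+A) log X + 1 ≤ L^(A+K1+5)`; `m d > 0`
implies that some `q > Z` has `q ≤ L^K1 d`, so `d > Z/L^K1 = L^K`, and `d ≤ P0 ≤ X^(1/2)`.  If no `d ∈ D` divides `n ∈ Icc 1 X` then
`n ∉ E`, so the part `q > Z` of the sum is `≤ η`; the part `q ≤ Z` is `≤ X/(2L^A)` (`small_mass`).  (If `δ ≥ 1/2` then `P0 ≤ 1`: same proof.)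
-/

set_option autoImplicit false

namespace Pool.MP_dd84fd_nt.PL

open Finset Pool.MP_67663b_nt.Odd Pool.MP_dd84fd_nt.E2

/-- number of divisors `d` of `q` with `q / d ≤ Y` -/
private theorem gr_card (q P0 : ℕ) (Y : ℝ) (hY : 0 ≤ Y) (hq : 1 ≤ q) :
    (((Icc 1 P0).filter (fun d : ℕ => d ∣ q ∧ (q : ℝ) ≤ Y * d)).card : ℝ) ≤ Y := by
  have h1 : ((Icc 1 P0).filter (fun d : ℕ => d ∣ q ∧ (q : ℝ) ≤ Y * d)).card ≤
      (Icc 1 ⌊Y⌋₊).card := by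
    refine card_le_card_of_injOn (fun d => q / d) ?_ ?_
    · intro d hd
      rw [mem_coe, mem_filter, mem_Icc] at hd
      obtain ⟨⟨hd1, -⟩, hdq, hd3⟩ := hd
      rw [mem_coe, mem_Icc]
      have hd0 : (0 : ℝ) < d := by exact_mod_cast hd1
      refine ⟨Nat.div_pos (Nat.le_of_dvd (by omega) hdq) (by omega), ?_⟩
      refine Nat.le_floor ?_
      rw [Nat.cast_div hdq hd0.ne', div_le_iff₀ hd0]
      exact hd3
    · intro d hd d' hd' h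
      rw [mem_coe, mem_filter, mem_Icc] at hd hd'
      obtain ⟨⟨hd1, -⟩, ⟨u, hu⟩, -⟩ := hd
      obtain ⟨⟨hd1', -⟩, ⟨v, hv⟩, -⟩ := hd'
      simp only at h
      have e1 : q / d = u := by rw [hu]; exact Nat.mul_div_cancel_left u (by omega)
      have e2 : q / d' = v := by rw [hv]; exact Nat.mul_div_cancel_left v (by omega)
      have e3 : u = v := by rw [← e1, ← e2, h]
      have hu0 : 0 < u := by
        rcases Nat.eq_zero_or_pos u with h0 | h0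
        · rw [h0, mul_zero] at hu; omega
        · exact h0
      have e4 : d * u = d' * u := by rw [← hu, e3, ← hv]
      exact Nat.eq_of_mul_eq_mul_right hu0 e4
  have h2 : (((Icc 1 P0).filter (fun d : ℕ => d ∣ q ∧ (q : ℝ) ≤ Y * d)).card : ℝ) ≤
      ((Icc 1 ⌊Y⌋₊).card : ℝ) := by exact_mod_cast h1
  refine h2.trans ?_
  rw [Nat.card_Icc, Nat.add_sub_cancel]
  exact Nat.floor_le hY

/-- the masses `m(d)` -/
private noncomputable def md (w : ℕ → ℝ) (P0 : ℕ) (Z Y : ℝ) (d : ℕ) : ℝ :=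
  ∑ q ∈ (Icc 1 P0).filter (fun q : ℕ => Z < (q : ℝ) ∧ d ∣ q ∧ (q : ℝ) ≤ Y * d), w q

private theorem md_nonneg (w : ℕ → ℝ) (hw : ∀ q, 0 ≤ w q) (P0 : ℕ) (Z Y : ℝ) (d : ℕ) :
    0 ≤ md w P0 Z Y d := by
  unfold md
  exact sum_nonneg fun q _ => hw q

private theorem md_sum (w : ℕ → ℝ) (hw : ∀ q, 0 ≤ w q) (P0 : ℕ) (Z Y : ℝ) (hY : 0 ≤ Y) :
    ∑ d ∈ Icc 1 P0, md w P0 Z Y d ≤ Y * ∑ q ∈ Icc 1 P0, w q := by
  unfold md
  calc ∑ d ∈ Icc 1 P0, ∑ q ∈ (Icc 1 P0).filter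
        (fun q : ℕ => Z < (q : ℝ) ∧ d ∣ q ∧ (q : ℝ) ≤ Y * d), w q
      ≤ ∑ d ∈ Icc 1 P0, ∑ q ∈ Icc 1 P0, if d ∣ q ∧ (q : ℝ) ≤ Y * d then w q else 0 := by
        refine sum_le_sum fun d _ => ?_
        rw [← sum_filter]
        refine sum_le_sum_of_subset_of_nonneg ?_ fun q _ _ => hw q
        intro q hq
        rw [mem_filter] at hq ⊢
        exact ⟨hq.1, hq.2.2⟩
    _ = ∑ q ∈ Icc 1 P0, ∑ d ∈ Icc 1 P0, if d ∣ q ∧ (q : ℝ) ≤ Y * d then w q else 0 := sum_comm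
    _ = ∑ q ∈ Icc 1 P0, (((Icc 1 P0).filter (fun d : ℕ => d ∣ q ∧ (q : ℝ) ≤ Y * d)).card : ℝ) *
          w q := by
        refine sum_congr rfl fun q _ => ?_
        rw [← sum_filter, sum_const, nsmul_eq_mul]
    _ ≤ ∑ q ∈ Icc 1 P0, Y * w q := by
        refine sum_le_sum fun q hq => ?_
        exact mul_le_mul_of_nonneg_right (gr_card q P0 Y hY (mem_Icc.1 hq).1) (hw q)
    _ = Y * ∑ q ∈ Icc 1 P0, w q := by rw [mul_sum]

private theorem md_part (w : ℕ → ℝ) (hw : ∀ q, 0 ≤ w q) (P0 : ℕ) (Z Y : ℝ) (n : ℕ) :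
    ∑ q ∈ (Icc 1 P0).filter (fun q : ℕ => Z < (q : ℝ) ∧ (q : ℝ) ≤ Y * (Nat.gcd q n : ℝ)), w q ≤
      ∑ d ∈ (Icc 1 P0).filter (fun d => d ∣ n), md w P0 Z Y d := by
  have hmaps : ∀ q ∈ (Icc 1 P0).filter
      (fun q : ℕ => Z < (q : ℝ) ∧ (q : ℝ) ≤ Y * (Nat.gcd q n : ℝ)),
      Nat.gcd q n ∈ (Icc 1 P0).filter (fun d => d ∣ n) := by
    intro q hq
    rw [mem_filter, mem_Icc] at hq ⊢
    obtain ⟨⟨h1, h2⟩, -⟩ := hq
    exact ⟨⟨Nat.gcd_pos_of_pos_left n (by omega), (Nat.gcd_le_left n (by omega)).trans h2⟩,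
      Nat.gcd_dvd_right q n⟩
  rw [← sum_fiberwise_of_maps_to hmaps]
  refine sum_le_sum fun d _ => ?_
  unfold md
  refine sum_le_sum_of_subset_of_nonneg ?_ fun q _ _ => hw q
  intro q hq
  rw [mem_filter, mem_filter] at hq
  rw [mem_filter]
  obtain ⟨⟨h1, h2, h3⟩, h4⟩ := hq
  refine ⟨h1, h2, ?_, ?_⟩
  · rw [← h4]
    exact Nat.gcd_dvd_left q n
  · rw [← h4]
    exact h3

theorem greedy (A K1 K2 : ℕ) : ∃ C : ℕ, ∀ (K : ℕ) (δ : ℝ), 0 < δ →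
    ∃ D0 : ℕ, ∀ D' : ℕ, D0 ≤ D' → ∃ X0 : ℕ, ∀ X : ℕ, X0 ≤ X → ∃ D : Finset ℕ,
      (D.card : ℝ) ≤ (Real.log X) ^ C ∧
      (∀ d ∈ D, (Real.log X) ^ K ≤ (d : ℝ) ∧ (d : ℝ) ≤ (X : ℝ) ^ (1 / 2 : ℝ)) ∧
      ∀ n ∈ Icc 1 X, (∀ d ∈ D, ¬ d ∣ n) →
        ∑ q ∈ (Icc 1 ⌊(X : ℝ) ^ (1 / 2 - δ)⌋₊).filter
          (fun q : ℕ => (q : ℝ) ≤ (Real.log X) ^ K1 * (Nat.gcd q n : ℝ)),
          Wt X (wX D' X) ((Real.log X) ^ K2) q ≤ X / (Real.log X) ^ A := by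
  refine ⟨A + K1 + 4, fun K δ hδ => ?_⟩
  obtain ⟨D0, hD0⟩ := small_mass A (K + K1) K2
  refine ⟨max D0 1, fun D' hD' => ?_⟩
  obtain ⟨X1, hX1⟩ := hD0 D' ((le_max_left _ _).trans hD')
  obtain ⟨X2, hX2⟩ := mass K2 D' δ hδ ((le_max_right _ _).trans hD')
  refine ⟨max (max X1 X2) ⌈Real.exp 37⌉₊, fun X hX => ?_⟩
  have hXX1 : X1 ≤ X := (le_max_left _ _).trans ((le_max_left _ _).trans hX)
  have hXX2 : X2 ≤ X := (le_max_right _ _).trans ((le_max_left _ _).trans hX)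
  have hXe : Real.exp 37 ≤ (X : ℝ) := Nat.ceil_le.mp ((le_max_right _ _).trans hX)
  have hX0 : (0 : ℝ) < X := lt_of_lt_of_le (Real.exp_pos 37) hXe
  have hXn : 0 < X := by exact_mod_cast hX0
  have hX1r : (1 : ℝ) ≤ X := by exact_mod_cast hXn
  have hL37 : 37 ≤ Real.log (X : ℝ) := by
    rw [Real.le_log_iff_exp_le hX0]
    exact hXe
  have hsm := hX1 X hXX1 ((Real.log X) ^ (K + K1)) (by positivity) le_rfl
  have hms := hX2 X hXX2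
  set L := Real.log (X : ℝ) with hL
  have hL0 : 0 < L := by linarith
  set P0 : ℕ := ⌊(X : ℝ) ^ (1 / 2 - δ)⌋₊ with hP0
  set w : ℕ → ℝ := fun q => Wt X (wX D' X) (L ^ K2) q with hw
  have hw0 : ∀ q, 0 ≤ w q := fun q => Wt_nonneg X _ _ (pow_nonneg hL0.le _) q
  set Z : ℝ := L ^ (K + K1) with hZ
  set Y : ℝ := L ^ K1 with hY
  have hY0 : 0 < Y := pow_pos hL0 _
  set η : ℝ := X / (2 * L ^ A) with hη
  have hη0 : 0 < η := by positivity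
  set m : ℕ → ℝ := md w P0 Z Y with hm
  have hm0 : ∀ d, 0 ≤ m d := fun d => md_nonneg w hw0 P0 Z Y d
  set WW : ℝ := Y * (18 * X * L ^ 2) with hWW
  have hWW1 : ∑ d ∈ Icc 1 P0, m d ≤ WW :=
    (md_sum w hw0 P0 Z Y hY0.le).trans (mul_le_mul_of_nonneg_left hms hY0.le)
  set E : Finset ℕ := (Icc 1 X).filter
    (fun n => η ≤ ∑ d ∈ (Icc 1 P0).filter (fun d => d ∣ n), m d) with hE
  obtain ⟨D, hD1, hD2, hD3⟩ := greedy_cover E (Icc 1 P0) m hm0 WW η hη0 hWW1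
    (fun n hn => (mem_filter.1 hn).2)
  refine ⟨D, ?_, ?_, ?_⟩
  · -- cardinality
    have h1 : Real.log (E.card : ℝ) ≤ L := by
      have h2 : E.card ≤ X := (card_filter_le _ _).trans (by rw [Nat.card_Icc]; omega)
      rcases Nat.eq_zero_or_pos E.card with h3 | h3
      · rw [h3]
        simp only [Nat.cast_zero, Real.log_zero]
        exact hL0.le
      · exact Real.log_le_log (by exact_mod_cast h3) (by exact_mod_cast h2)
    have h4 : WW / η = 36 * L ^ (A + K1 + 2) := by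
      rw [hWW, hη, hY]
      have : L ≠ 0 := hL0.ne'
      have : (X : ℝ) ≠ 0 := hX0.ne'
      field_simp
      ring
    rw [h4] at hD2
    have h5 : (1 : ℝ) ≤ L ^ (A + K1 + 3) := one_le_pow₀ (by linarith)
    calc (D.card : ℝ) ≤ 36 * L ^ (A + K1 + 2) * Real.log (E.card : ℝ) + 1 := hD2
      _ ≤ 36 * L ^ (A + K1 + 2) * L + 1 := by
          have := mul_le_mul_of_nonneg_left h1 (by positivity : 0 ≤ 36 * L ^ (A + K1 + 2))
          linarith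
      _ = 36 * L ^ (A + K1 + 3) + 1 := by ring
      _ ≤ 37 * L ^ (A + K1 + 3) := by linarith
      _ ≤ L * L ^ (A + K1 + 3) := mul_le_mul_of_nonneg_right hL37 (by positivity)
      _ = L ^ (A + K1 + 4) := by ring
  · intro d hd
    have h1 := hD1 hd
    rw [mem_filter, mem_Icc] at h1
    obtain ⟨⟨h2, h3⟩, h4⟩ := h1
    have h5 : ∃ q ∈ (Icc 1 P0).filter (fun q : ℕ => Z < (q : ℝ) ∧ d ∣ q ∧ (q : ℝ) ≤ Y * d),
        0 < w q := by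
      by_contra hcon
      push Not at hcon
      have h6 : m d ≤ 0 := by
        rw [hm]
        unfold md
        exact sum_nonpos fun q hq => hcon q hq
      linarith
    obtain ⟨q, hq, -⟩ := h5
    rw [mem_filter] at hq
    obtain ⟨-, hq1, -, hq2⟩ := hq
    constructor
    · have h7 : L ^ K * Y < Y * d := by
        have : L ^ K * Y = Z := by rw [hZ, hY, pow_add]
        rw [this]
        exact lt_of_lt_of_le hq1 hq2
      rw [mul_comm (L ^ K) Y] at h7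
      exact (lt_of_mul_lt_mul_left h7 hY0.le).le
    · have h8 : (d : ℝ) ≤ (X : ℝ) ^ (1 / 2 - δ) := by
        have h9 : (d : ℝ) ≤ P0 := by exact_mod_cast h3
        exact h9.trans (Nat.floor_le (Real.rpow_nonneg hX0.le _))
      exact h8.trans (Real.rpow_le_rpow_of_exponent_le hX1r (by linarith))
  · intro n hn hnd
    have hnE : n ∉ E := by
      intro h
      obtain ⟨d, hd, hdn⟩ := hD3 n h
      exact hnd d hd hdn
    have h1 : ∑ d ∈ (Icc 1 P0).filter (fun d => d ∣ n), m d < η := by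
      by_contra hcon
      push Not at hcon
      exact hnE (mem_filter.2 ⟨hn, hcon⟩)
    have h2 := md_part w hw0 P0 Z Y n
    -- splitting
    have h3 : (Icc 1 P0).filter (fun q : ℕ => (q : ℝ) ≤ Y * (Nat.gcd q n : ℝ)) ⊆
        Icc 1 ⌊Z⌋₊ ∪ (Icc 1 P0).filter
          (fun q : ℕ => Z < (q : ℝ) ∧ (q : ℝ) ≤ Y * (Nat.gcd q n : ℝ)) := by
      intro q hq
      rw [mem_filter] at hq
      rw [mem_union]
      by_cases hqZ : (q : ℝ) ≤ Z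
      · left
        rw [mem_Icc]
        exact ⟨(mem_Icc.1 hq.1).1, Nat.le_floor hqZ⟩
      · right
        rw [mem_filter]
        exact ⟨hq.1, lt_of_not_ge hqZ, hq.2⟩
    calc ∑ q ∈ (Icc 1 P0).filter (fun q : ℕ => (q : ℝ) ≤ Y * (Nat.gcd q n : ℝ)), w q
        ≤ ∑ q ∈ Icc 1 ⌊Z⌋₊ ∪ (Icc 1 P0).filter
            (fun q : ℕ => Z < (q : ℝ) ∧ (q : ℝ) ≤ Y * (Nat.gcd q n : ℝ)), w q :=
          sum_le_sum_of_subset_of_nonneg h3 fun q _ _ => hw0 q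
      _ ≤ ∑ q ∈ Icc 1 ⌊Z⌋₊, w q + ∑ q ∈ (Icc 1 P0).filter
            (fun q : ℕ => Z < (q : ℝ) ∧ (q : ℝ) ≤ Y * (Nat.gcd q n : ℝ)), w q := by
          rw [← sum_union_inter]
          have : 0 ≤ ∑ q ∈ Icc 1 ⌊Z⌋₊ ∩ (Icc 1 P0).filter
            (fun q : ℕ => Z < (q : ℝ) ∧ (q : ℝ) ≤ Y * (Nat.gcd q n : ℝ)), w q :=
            sum_nonneg fun q _ => hw0 q
          linarith
      _ ≤ X / (2 * L ^ A) + η := add_le_add hsm (h2.trans h1.le)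
      _ = X / L ^ A := by
          rw [hη]
          field_simp
          ring

end Pool.MP_dd84fd_nt.PL
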