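import Pool.Agent.Lib.MP_dd84fd_nt.PL.Defs
import Pool.Agent.Lib.MP_dd84fd_nt.L2G.MinSum
import Pool.Agent.Lib.MP_dd84fd_nt.En.Geo

/-!
# PL-TypeI: the inner sums

`ti_le`: the weight `γ(k) = (u log k + v)/log(dk)` (`= 0` if `dk = 1`, division by zero).  For `d ≥ 2`: `log k/log(dk)`
increases from `0` to `≤ 1`, `1/log(dk)` decreases from `≤ 1/log 2`; for `d = 1`: `γ(1) = 0` and for `k ≥ 2`
`log k/log k = 1`, `1/log k` decreases from `1/log 2`.  So `|γ(k)| ≤ 3R` and `∑_{k<K} |γ(k+1) - γ(k)| ≤ 12 R`.  Abel summation: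
`‖∑_{k≤K} γ(k) ee(dkθ)‖ ≤ 15 R max_{t≤K} ‖∑_{k ≤ t} ee(k(dθ))‖ ≤ 15 R mn(X/d, dθ)` (`L2G.geo_sum`, `En.mn`; `K = ⌊X/d⌋`).
`ti_triv`: `‖ti‖ ≤ 3 R X/d`.
`lamq_le`: `∑_{d ≤ D, q ∣ d} 3RX/d = 3R(X/q) ∑_{e ≤ D/q} 1/e ≤ 3R (X/q)(1+log X)`.
-/

set_option autoImplicit false

namespace Pool.MP_dd84fd_nt.PL

open Finset Pool.MP_67663b_nt.Odd

private theorem ty_abel (a : ℕ → ℂ) (γ V : ℕ → ℝ) (B : ℝ) (m : ℕ)
    (h : ∀ l ≤ m, ‖∑ k ∈ Icc 1 l, a k‖ ≤ B) (hV0 : 0 ≤ V 1)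
    (hV : ∀ l, 1 ≤ l → l < m → |γ (l + 1) - γ l| ≤ V (l + 1) - V l) (hm : 1 ≤ m) :
    ‖∑ k ∈ Icc 1 m, ((γ k : ℝ) : ℂ) * a k‖ ≤ (V m + |γ m|) * B := by
  have hB : 0 ≤ B := (norm_nonneg _).trans (h 0 (Nat.zero_le _))
  have key : ∀ l, 1 ≤ l → l ≤ m → ‖∑ k ∈ Icc 1 l, ((γ k : ℝ) : ℂ) * a k -
      ((γ l : ℝ) : ℂ) * ∑ k ∈ Icc 1 l, a k‖ ≤ V l * B := by
    intro l hl
    induction l, hl using Nat.le_induction with
    | base =>
      intro _
      simp only [Finset.Icc_self, Finset.sum_singleton, sub_self, norm_zero]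
      exact mul_nonneg hV0 hB
    | succ l hl ih =>
      intro hlm
      have h1 := ih (by omega)
      have h2 := h l (by omega)
      have h3 := hV l hl (by omega)
      have e1 : ∑ k ∈ Icc 1 (l + 1), ((γ k : ℝ) : ℂ) * a k -
          ((γ (l + 1) : ℝ) : ℂ) * ∑ k ∈ Icc 1 (l + 1), a k =
          (∑ k ∈ Icc 1 l, ((γ k : ℝ) : ℂ) * a k - ((γ l : ℝ) : ℂ) * ∑ k ∈ Icc 1 l, a k) -
          ((γ (l + 1) - γ l : ℝ) : ℂ) * ∑ k ∈ Icc 1 l, a k := by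
        rw [Finset.sum_Icc_succ_top (by omega), Finset.sum_Icc_succ_top (by omega)]
        push_cast
        ring
      rw [e1]
      refine (norm_sub_le _ _).trans ?_
      rw [norm_mul, Complex.norm_real, Real.norm_eq_abs]
      have h4 : |γ (l + 1) - γ l| * ‖∑ k ∈ Icc 1 l, a k‖ ≤ (V (l + 1) - V l) * B :=
        mul_le_mul h3 h2 (norm_nonneg _) ((abs_nonneg _).trans h3)
      linarith
  have h1 := key m hm le_rfl
  have h2 := h m le_rfl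
  have e : ∑ k ∈ Icc 1 m, ((γ k : ℝ) : ℂ) * a k =
      (∑ k ∈ Icc 1 m, ((γ k : ℝ) : ℂ) * a k - ((γ m : ℝ) : ℂ) * ∑ k ∈ Icc 1 m, a k) +
      ((γ m : ℝ) : ℂ) * ∑ k ∈ Icc 1 m, a k := by ring
  rw [e]
  refine (norm_add_le _ _).trans ?_
  rw [norm_mul, Complex.norm_real, Real.norm_eq_abs]
  have h4 : |γ m| * ‖∑ k ∈ Icc 1 m, a k‖ ≤ |γ m| * B :=
    mul_le_mul_of_nonneg_left h2 (abs_nonneg _)
  linarith

private theorem ty_alpha (d l : ℕ) (hd : 1 ≤ d) (hl : 1 ≤ l) :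
    0 ≤ Real.log l / Real.log ((d * l : ℕ) : ℝ) ∧ Real.log l / Real.log ((d * l : ℕ) : ℝ) ≤ 1 ∧
      Real.log l / Real.log ((d * l : ℕ) : ℝ) ≤
        Real.log ((l + 1 : ℕ) : ℝ) / Real.log ((d * (l + 1) : ℕ) : ℝ) := by
  have hl0 : (0 : ℝ) < l := by exact_mod_cast hl
  have hd0 : (0 : ℝ) < d := by exact_mod_cast hd
  have hlogd : 0 ≤ Real.log (d : ℝ) := Real.log_natCast_nonneg d
  have hlogl : 0 ≤ Real.log (l : ℝ) := Real.log_natCast_nonneg l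
  have hmono : Real.log (l : ℝ) ≤ Real.log ((l + 1 : ℕ) : ℝ) :=
    Real.log_le_log hl0 (by push_cast; linarith)
  have e1 : Real.log ((d * l : ℕ) : ℝ) = Real.log d + Real.log l := by
    push_cast
    exact Real.log_mul hd0.ne' hl0.ne'
  have e2 : Real.log ((d * (l + 1) : ℕ) : ℝ) = Real.log d + Real.log ((l + 1 : ℕ) : ℝ) := by
    push_cast
    exact Real.log_mul hd0.ne' (by positivity)
  rw [e1, e2]
  have hl1 : 0 < Real.log ((l + 1 : ℕ) : ℝ) := Real.log_pos (by push_cast; linarith)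
  refine ⟨div_nonneg hlogl (by linarith), div_le_one_of_le₀ (by linarith) (by linarith), ?_⟩
  rcases (add_nonneg hlogd hlogl).eq_or_lt with h0 | h0
  · rw [← h0, div_zero]
    exact div_nonneg hl1.le (by linarith)
  · rw [div_le_div_iff₀ h0 (by linarith)]
    nlinarith

private theorem ty_beta (n : ℕ) : 0 ≤ 1 / Real.log ((max n 2 : ℕ) : ℝ) ∧
    1 / Real.log ((max n 2 : ℕ) : ℝ) ≤ 3 / 2 := by
  have h1 : Real.log 2 ≤ Real.log ((max n 2 : ℕ) : ℝ) :=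
    Real.log_le_log (by norm_num) (by exact_mod_cast le_max_right n 2)
  have h2 := Real.log_two_gt_d9
  refine ⟨by positivity, ?_⟩
  rw [div_le_iff₀ (by linarith)]
  linarith

private theorem ty_beta_anti {n n' : ℕ} (h : n ≤ n') :
    1 / Real.log ((max n' 2 : ℕ) : ℝ) ≤ 1 / Real.log ((max n 2 : ℕ) : ℝ) := by
  have h0 : (2 : ℝ) ≤ ((max n 2 : ℕ) : ℝ) := by exact_mod_cast le_max_right n 2
  have h1 : 0 < Real.log ((max n 2 : ℕ) : ℝ) := Real.log_pos (by linarith)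
  refine one_div_le_one_div_of_le h1 (Real.log_le_log (by linarith) ?_)
  exact_mod_cast max_le_max_right 2 h

private theorem ty_sum (a : ℕ → ℂ) (B : ℝ) (m d : ℕ) (u v R : ℝ) (hd : 1 ≤ d) (hm : 1 ≤ m)
    (hu : |u| ≤ R) (hv : |v| ≤ R) (h : ∀ l ≤ m, ‖∑ k ∈ Icc 1 l, a k‖ ≤ B) :
    ‖∑ k ∈ Icc 1 m, (((u * Real.log k + v) / Real.log ((d * k : ℕ) : ℝ) : ℝ) : ℂ) * a k‖ ≤
      5 * R * B := by
  have hB : 0 ≤ B := (norm_nonneg _).trans (h 0 (Nat.zero_le _))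
  have hR : 0 ≤ R := (abs_nonneg _).trans hu
  have h1 : ‖∑ k ∈ Icc 1 m, ((Real.log k / Real.log ((d * k : ℕ) : ℝ) : ℝ) : ℂ) * a k‖ ≤
      2 * B := by
    refine (ty_abel a (fun k => Real.log k / Real.log ((d * k : ℕ) : ℝ))
      (fun k => Real.log k / Real.log ((d * k : ℕ) : ℝ)) B m h (ty_alpha d 1 hd le_rfl).1 ?_
      hm).trans ?_
    · intro l hl _
      rw [abs_of_nonneg (sub_nonneg.2 (ty_alpha d l hd hl).2.2)]
    · have h2 := ty_alpha d m hd hm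
      rw [abs_of_nonneg h2.1]
      refine mul_le_mul_of_nonneg_right ?_ hB
      linarith [h2.2.1]
  have h2 : ‖∑ k ∈ Icc 1 m, ((1 / Real.log ((max (d * k) 2 : ℕ) : ℝ) : ℝ) : ℂ) * a k‖ ≤
      3 / 2 * B := by
    refine (ty_abel a (fun k => 1 / Real.log ((max (d * k) 2 : ℕ) : ℝ))
      (fun k => 3 / 2 - 1 / Real.log ((max (d * k) 2 : ℕ) : ℝ)) B m h
      (sub_nonneg.2 (ty_beta _).2) ?_ hm).trans ?_
    · intro l _ _
      rw [abs_sub_comm, abs_of_nonneg (sub_nonneg.2 (ty_beta_anti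
        (Nat.mul_le_mul_left d (Nat.le_succ l))))]
      linarith
    · rw [abs_of_nonneg (ty_beta _).1]
      refine mul_le_mul_of_nonneg_right ?_ hB
      linarith
  have h3 : ‖∑ k ∈ Icc 1 m, ((1 / Real.log ((d * k : ℕ) : ℝ) : ℝ) : ℂ) * a k‖ ≤ 3 * B := by
    have e1 : ∑ k ∈ Icc 1 m, ((1 / Real.log ((d * k : ℕ) : ℝ) : ℝ) : ℂ) * a k =
        ∑ k ∈ Icc 1 m, ((1 / Real.log ((max (d * k) 2 : ℕ) : ℝ) : ℝ) : ℂ) * a k -
        ∑ k ∈ Icc 1 m, (if k = 1 then (if d = 1 then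
          ((1 / Real.log 2 : ℝ) : ℂ) * a 1 else 0) else 0) := by
      rw [← Finset.sum_sub_distrib]
      refine Finset.sum_congr rfl fun k hk => ?_
      have hk1 := (Finset.mem_Icc.1 hk).1
      by_cases h4 : 2 ≤ d * k
      · rw [max_eq_left h4]
        by_cases h5 : k = 1
        · subst h5
          rw [if_pos rfl, if_neg (by omega), sub_zero]
        · rw [if_neg h5, sub_zero]
      · have h5 : k = 1 := by nlinarith
        subst h5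
        have h6 : d = 1 := by omega
        subst h6
        simp
    rw [e1, Finset.sum_ite_eq' (Icc 1 m) 1, if_pos (Finset.mem_Icc.2 ⟨le_rfl, hm⟩)]
    refine (norm_sub_le _ _).trans ?_
    have h4 : ‖(if d = 1 then ((1 / Real.log 2 : ℝ) : ℂ) * a 1 else 0)‖ ≤ 3 / 2 * B := by
      split_ifs
      · rw [norm_mul, Complex.norm_real, Real.norm_eq_abs]
        have h5 := ty_beta 2
        simp only [max_self, Nat.cast_ofNat] at h5
        rw [abs_of_nonneg h5.1]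
        refine mul_le_mul h5.2 ?_ (norm_nonneg _) (by norm_num)
        have h6 := h 1 hm
        simpa using h6
      · rw [norm_zero]
        positivity
    linarith
  have e2 : ∑ k ∈ Icc 1 m, (((u * Real.log k + v) / Real.log ((d * k : ℕ) : ℝ) : ℝ) : ℂ) * a k =
      (u : ℂ) * ∑ k ∈ Icc 1 m, ((Real.log k / Real.log ((d * k : ℕ) : ℝ) : ℝ) : ℂ) * a k +
      (v : ℂ) * ∑ k ∈ Icc 1 m, ((1 / Real.log ((d * k : ℕ) : ℝ) : ℝ) : ℂ) * a k := by
    rw [Finset.mul_sum, Finset.mul_sum, ← Finset.sum_add_distrib]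
    refine Finset.sum_congr rfl fun k _ => ?_
    have e3 : (u * Real.log k + v) / Real.log ((d * k : ℕ) : ℝ) =
        u * (Real.log k / Real.log ((d * k : ℕ) : ℝ)) + v * (1 / Real.log ((d * k : ℕ) : ℝ)) := by
      ring
    rw [e3, Complex.ofReal_add, Complex.ofReal_mul, Complex.ofReal_mul]
    ring
  rw [e2]
  refine (norm_add_le _ _).trans ?_
  rw [norm_mul, norm_mul, Complex.norm_real, Complex.norm_real, Real.norm_eq_abs,
    Real.norm_eq_abs]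
  have h4 : |u| * ‖∑ k ∈ Icc 1 m, ((Real.log k / Real.log ((d * k : ℕ) : ℝ) : ℝ) : ℂ) * a k‖ ≤
      R * (2 * B) := mul_le_mul hu h1 (norm_nonneg _) hR
  have h5 : |v| * ‖∑ k ∈ Icc 1 m, ((1 / Real.log ((d * k : ℕ) : ℝ) : ℝ) : ℂ) * a k‖ ≤
      R * (3 * B) := mul_le_mul hv h3 (norm_nonneg _) hR
  linarith

private theorem ty_ee_cont : Continuous ee := by
  unfold ee
  fun_prop

private theorem ty_dk (d k : ℕ) (θ : ℝ) :
    ee (((d * k : ℕ) : ℝ) * θ) = ee ((k : ℝ) * ((d : ℝ) * θ)) := by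
  congr 1
  push_cast
  ring

private theorem ty_coef (d k : ℕ) (u v R : ℝ) (hd : 1 ≤ d) (hk : 1 ≤ k) (hu : |u| ≤ R)
    (hv : |v| ≤ R) : |(u * Real.log k + v) / Real.log ((d * k : ℕ) : ℝ)| ≤ 5 * R := by
  have hR : 0 ≤ R := (abs_nonneg _).trans hu
  have e3 : (u * Real.log k + v) / Real.log ((d * k : ℕ) : ℝ) =
      u * (Real.log k / Real.log ((d * k : ℕ) : ℝ)) + v * (1 / Real.log ((d * k : ℕ) : ℝ)) := by
    ring
  rw [e3]
  refine (abs_add_le _ _).trans ?_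
  rw [abs_mul, abs_mul]
  have h1 := ty_alpha d k hd hk
  have h2 : |1 / Real.log ((d * k : ℕ) : ℝ)| ≤ 3 := by
    by_cases h4 : 2 ≤ d * k
    · have h5 := ty_beta (d * k)
      rw [max_eq_left h4] at h5
      rw [abs_of_nonneg h5.1]
      linarith
    · have h5 : d * k = 1 := by
        have : 1 ≤ d * k := Nat.mul_pos hd hk
        omega
      rw [h5]
      simp
  rw [abs_of_nonneg h1.1]
  have h3 : |u| * (Real.log k / Real.log ((d * k : ℕ) : ℝ)) ≤ R * 1 :=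
    mul_le_mul hu h1.2.1 h1.1 hR
  have h4 : |v| * |1 / Real.log ((d * k : ℕ) : ℝ)| ≤ R * 3 :=
    mul_le_mul hv h2 (abs_nonneg _) hR
  linarith

private theorem ty_harm (X D q : ℕ) (hX : 1 ≤ X) (hD : D ≤ X) (hq : 1 ≤ q) :
    ∑ d ∈ (Icc 1 D).filter (fun d => q ∣ d), (1 : ℝ) / d ≤ (1 + Real.log X) / q := by
  have hq0 : (0 : ℝ) < q := by exact_mod_cast hq
  have h1 : ∑ d ∈ (Icc 1 D).filter (fun d => q ∣ d), (1 : ℝ) / d ≤
      ∑ e ∈ Icc 1 D, (1 : ℝ) / ((q : ℝ) * e) := by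
    have h2 : ∑ d ∈ (Icc 1 D).filter (fun d => q ∣ d), (1 : ℝ) / d =
        ∑ e ∈ ((Icc 1 D).filter (fun d => q ∣ d)).image (fun d => d / q),
          (1 : ℝ) / ((q : ℝ) * e) := by
      rw [Finset.sum_image]
      · refine Finset.sum_congr rfl fun d hd => ?_
        have hqd := (Finset.mem_filter.1 hd).2
        have h3 : ((d : ℕ) : ℝ) = (q : ℝ) * ((d / q : ℕ) : ℝ) := by
          rw [← Nat.cast_mul, Nat.mul_div_cancel' hqd]
        rw [← h3]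
      · intro d hd d' hd' hdd
        have h3 := (Finset.mem_filter.1 (Finset.mem_coe.1 hd)).2
        have h4 := (Finset.mem_filter.1 (Finset.mem_coe.1 hd')).2
        have hdd : d / q = d' / q := hdd
        rw [← Nat.mul_div_cancel' h3, hdd, Nat.mul_div_cancel' h4]
    rw [h2]
    refine Finset.sum_le_sum_of_subset_of_nonneg ?_ (fun _ _ _ => by positivity)
    intro e he
    obtain ⟨d, hd, rfl⟩ := Finset.mem_image.1 he
    obtain ⟨hd1, hqd⟩ := Finset.mem_filter.1 hd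
    have hd2 := Finset.mem_Icc.1 hd1
    refine Finset.mem_Icc.2 ⟨Nat.div_pos (Nat.le_of_dvd (by omega) hqd) (by omega),
      (Nat.div_le_self _ _).trans hd2.2⟩
  refine h1.trans ?_
  have h3 : ∑ e ∈ Icc 1 D, (1 : ℝ) / ((q : ℝ) * e) = (∑ e ∈ Icc 1 D, ((e : ℝ))⁻¹) / q := by
    rw [Finset.sum_div]
    refine Finset.sum_congr rfl fun e _ => ?_
    rw [one_div, mul_inv, mul_comm, div_eq_mul_inv]
  rw [h3]
  refine div_le_div_of_nonneg_right ?_ hq0.le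
  have h4 : ∑ e ∈ Icc 1 D, ((e : ℝ))⁻¹ ≤ ∑ e ∈ Icc 1 X, ((e : ℝ))⁻¹ :=
    Finset.sum_le_sum_of_subset_of_nonneg (Finset.Icc_subset_Icc_right hD)
      (fun _ _ _ => by positivity)
  refine h4.trans ?_
  have h5 := harmonic_le_one_add_log X
  rw [harmonic_eq_sum_Icc] at h5
  push_cast at h5
  exact h5

theorem ti_le : ∃ C : ℝ, 0 < C ∧ ∀ (X d : ℕ) (u v R θ : ℝ), 1 ≤ d → d ≤ X → |u| ≤ R → |v| ≤ R →
    ‖ti X d u v θ‖ ≤ C * R * En.mn ((X : ℝ) / d) ((d : ℝ) * θ) := by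
  refine ⟨5, by norm_num, fun X d u v R θ hd hdX hu hv => ?_⟩
  have hd0 : (0 : ℝ) < d := by exact_mod_cast hd
  unfold ti
  simp only [ty_dk]
  refine ty_sum (fun k => ee ((k : ℝ) * ((d : ℝ) * θ))) _ (X / d) d u v R hd
    (Nat.div_pos hdX hd) hu hv ?_
  intro l hl
  have e : Icc 1 l = Ioc 0 l := by
    ext k
    simp only [Finset.mem_Ioc, Finset.mem_Icc]
    omega
  rw [e]
  refine En.norm_sum_Ioc_le_mn 0 l _ _ ?_
  rw [Nat.sub_zero]
  have h1 : (l : ℝ) ≤ ((X / d : ℕ) : ℝ) := by exact_mod_cast hl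
  exact h1.trans Nat.cast_div_le

theorem ti_triv : ∃ C : ℝ, 0 < C ∧ ∀ (X d : ℕ) (u v R θ : ℝ), 1 ≤ d → |u| ≤ R → |v| ≤ R →
    ‖ti X d u v θ‖ ≤ C * R * ((X : ℝ) / d) := by
  refine ⟨5, by norm_num, fun X d u v R θ hd hu hv => ?_⟩
  have hR : 0 ≤ R := (abs_nonneg _).trans hu
  unfold ti
  refine (norm_sum_le _ _).trans ?_
  refine (Finset.sum_le_card_nsmul _ _ (5 * R) (fun k hk => ?_)).trans ?_
  · rw [norm_mul, norm_ee, mul_one, Complex.norm_real, Real.norm_eq_abs]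
    exact ty_coef d k u v R hd (Finset.mem_Icc.1 hk).1 hu hv
  · rw [nsmul_eq_mul, Nat.card_Icc, Nat.add_sub_cancel]
    have h1 : ((X / d : ℕ) : ℝ) ≤ (X : ℝ) / d := Nat.cast_div_le
    have h2 : ((X / d : ℕ) : ℝ) * (5 * R) ≤ (X : ℝ) / d * (5 * R) :=
      mul_le_mul_of_nonneg_right h1 (by positivity)
    linarith

theorem lamq_cont (X D : ℕ) (u v : ℕ → ℝ) (σ : ℝ) (q : ℕ) : Continuous (lamq X D u v σ q) := by
  unfold lamq ti
  have h := ty_ee_cont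
  fun_prop

theorem lamq_le : ∃ C : ℝ, 0 < C ∧ ∀ (X D : ℕ) (u v : ℕ → ℝ) (R σ : ℝ) (q : ℕ) (x : ℝ),
    1 ≤ X → D ≤ X → 1 ≤ q → (∀ d, |u d| ≤ R) → (∀ d, |v d| ≤ R) →
    ‖lamq X D u v σ q x‖ ≤ C * R * (1 + Real.log X) * X / q := by
  obtain ⟨C, hC, h⟩ := ti_triv
  refine ⟨C, hC, fun X D u v R σ q x hX hD hq hu hv => ?_⟩
  have hR : 0 ≤ R := (abs_nonneg _).trans (hu 0)
  unfold lamq
  refine (norm_sum_le _ _).trans ?_
  have h1 : ∑ d ∈ (Icc 1 D).filter (fun d => q ∣ d), ‖ti X d (u d) (v d) (σ * x)‖ ≤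
      ∑ d ∈ (Icc 1 D).filter (fun d => q ∣ d), C * R * X * ((1 : ℝ) / d) := by
    refine Finset.sum_le_sum fun d hd => ?_
    have hd1 := (Finset.mem_Icc.1 (Finset.mem_filter.1 hd).1).1
    refine (h X d (u d) (v d) R (σ * x) hd1 (hu d) (hv d)).trans (le_of_eq ?_)
    ring
  refine h1.trans ?_
  rw [← Finset.mul_sum]
  refine (mul_le_mul_of_nonneg_left (ty_harm X D q hX hD hq) (by positivity)).trans
    (le_of_eq ?_)
  ring

end Pool.MP_dd84fd_nt.PL
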