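import Pool.Agent.Lib.MP_dd84fd_nt.PL.Defs

/-!
# PL-DivSum: `∑ 1/(q h_q^(1/4))`

Write `q = d h` with `d = gcd(q,n) ∣ n`, `h = hq q n ≥ H`.  The map `q ↦ (d, h)` is injective on `QQ`, so the sum is
`≤ ∑_{d ∣ n} 1/d ∑_{h ≥ H} h^(-5/4) ≤ (1 + log n) · (H^(-5/4) + 4 H^(-1/4)) ≤ 5 (1 + log n) H^(-1/4)`
(finite sums: all `h ≤ max QQ`; `∑_{h ≥ H} h^(-5/4)`: compare with the integral or telescope
`h^(-5/4) ≤ 4·((h-1)^(-1/4) - h^(-1/4))`, `h ≥ 2`).  `∑_{d ∣ n} 1/d ≤ ∑_{d ≤ n} 1/d ≤ 1 + log n`.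
-/

set_option autoImplicit false

namespace Pool.MP_dd84fd_nt.PL

open Finset

private theorem harm (x : ℕ) : ∑ j ∈ Icc 1 x, 1 / (j : ℝ) ≤ 1 + Real.log x := by
  have h := harmonic_le_one_add_log x
  rw [harmonic_eq_sum_Icc] at h
  push_cast at h
  simpa [one_div] using h

/-- one step of the telescoping sum -/
private theorem step (m : ℕ) (hm : 1 ≤ m) :
    1 / (((m + 1 : ℕ) : ℝ) * ((m + 1 : ℕ) : ℝ) ^ (1 / 4 : ℝ)) ≤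
      4 * (1 / (m : ℝ) ^ (1 / 4 : ℝ) - 1 / ((m + 1 : ℕ) : ℝ) ^ (1 / 4 : ℝ)) := by
  have hm0 : (0 : ℝ) < m := by exact_mod_cast hm
  have hh0 : (0 : ℝ) < ((m + 1 : ℕ) : ℝ) := by positivity
  set h : ℝ := ((m + 1 : ℕ) : ℝ) with hh
  have hmh : (m : ℝ) = h * (1 + (-(1 / h))) := by
    rw [hh]
    push_cast
    field_simp
    ring
  have h1h : 1 / h ≤ 1 := by
    rw [div_le_one hh0, hh]
    push_cast
    linarith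
  have hpos : 0 ≤ 1 / h := by positivity
  have h1 : (1 + (-(1 / h))) ^ (1 / 4 : ℝ) ≤ 1 + 1 / 4 * (-(1 / h)) :=
    rpow_one_add_le_one_add_mul_self (by linarith) (by norm_num) (by norm_num)
  have hu : 0 < h ^ (1 / 4 : ℝ) := Real.rpow_pos_of_pos hh0 _
  have hw : 0 < (m : ℝ) ^ (1 / 4 : ℝ) := Real.rpow_pos_of_pos hm0 _
  have h2 : (m : ℝ) ^ (1 / 4 : ℝ) ≤ h ^ (1 / 4 : ℝ) * (1 - 1 / (4 * h)) := by
    rw [hmh, Real.mul_rpow hh0.le (by linarith)]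
    apply mul_le_mul_of_nonneg_left _ hu.le
    refine h1.trans (le_of_eq ?_)
    field_simp
    ring
  have h3 : 1 / h ^ (1 / 4 : ℝ) * (1 + 1 / (4 * h)) ≤ 1 / (m : ℝ) ^ (1 / 4 : ℝ) := by
    rw [le_div_iff₀ hw]
    have h4 : 0 ≤ 1 / (4 * h) := by positivity
    calc 1 / h ^ (1 / 4 : ℝ) * (1 + 1 / (4 * h)) * (m : ℝ) ^ (1 / 4 : ℝ)
        ≤ 1 / h ^ (1 / 4 : ℝ) * (1 + 1 / (4 * h)) * (h ^ (1 / 4 : ℝ) * (1 - 1 / (4 * h))) := by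
          apply mul_le_mul_of_nonneg_left h2
          positivity
      _ = 1 - (1 / (4 * h)) ^ 2 := by
          field_simp
          ring
      _ ≤ 1 := by
          have : 0 ≤ (1 / (4 * h)) ^ 2 := by positivity
          linarith
  have h5 : 1 / (h * h ^ (1 / 4 : ℝ)) = 4 * (1 / h ^ (1 / 4 : ℝ) * (1 / (4 * h))) := by
    field_simp
  rw [h5]
  linarith

private theorem tail (N : ℕ) (hN : 1 ≤ N) (M : ℕ) (hNM : N ≤ M) :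
    ∑ h ∈ Icc N M, 1 / ((h : ℝ) * (h : ℝ) ^ (1 / 4 : ℝ)) ≤
      5 * (1 / (N : ℝ) ^ (1 / 4 : ℝ)) - 4 * (1 / (M : ℝ) ^ (1 / 4 : ℝ)) := by
  induction M, hNM using Nat.le_induction with
  | base =>
    rw [Icc_self, sum_singleton]
    have hN0 : (1 : ℝ) ≤ N := by exact_mod_cast hN
    have hu : 0 < (N : ℝ) ^ (1 / 4 : ℝ) := Real.rpow_pos_of_pos (by linarith) _
    have h1 : 1 / ((N : ℝ) * (N : ℝ) ^ (1 / 4 : ℝ)) ≤ 1 / (N : ℝ) ^ (1 / 4 : ℝ) := by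
      apply one_div_le_one_div_of_le hu
      nlinarith
    linarith
  | succ M hM ih =>
    rw [sum_Icc_succ_top (by omega)]
    have := step M (by omega)
    linarith

private theorem tail' (H : ℝ) (hH : 1 ≤ H) (S : Finset ℕ) (hS : ∀ h ∈ S, H ≤ (h : ℝ)) :
    ∑ h ∈ S, 1 / ((h : ℝ) * (h : ℝ) ^ (1 / 4 : ℝ)) ≤ 5 * (1 / H ^ (1 / 4 : ℝ)) := by
  have hH0 : 0 < H := by linarith
  have hN : 1 ≤ ⌈H⌉₊ := Nat.one_le_ceil_iff.2 hH0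
  have hsub : S ⊆ Icc ⌈H⌉₊ (S.sup id + ⌈H⌉₊) := by
    intro h hh
    rw [mem_Icc]
    refine ⟨Nat.ceil_le.2 (hS h hh), ?_⟩
    have : h ≤ S.sup id := le_sup (f := id) hh
    omega
  have h1 : ∑ h ∈ S, 1 / ((h : ℝ) * (h : ℝ) ^ (1 / 4 : ℝ)) ≤
      ∑ h ∈ Icc ⌈H⌉₊ (S.sup id + ⌈H⌉₊), 1 / ((h : ℝ) * (h : ℝ) ^ (1 / 4 : ℝ)) := by
    refine sum_le_sum_of_subset_of_nonneg hsub fun q _ _ => ?_
    have : (0 : ℝ) ≤ (q : ℝ) ^ (1 / 4 : ℝ) := Real.rpow_nonneg (Nat.cast_nonneg q) _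
    positivity
  have h2 := tail ⌈H⌉₊ hN (S.sup id + ⌈H⌉₊) (by omega)
  have h3 : (0 : ℝ) ≤ 1 / ((S.sup id + ⌈H⌉₊ : ℕ) : ℝ) ^ (1 / 4 : ℝ) := by
    have : (0 : ℝ) ≤ ((S.sup id + ⌈H⌉₊ : ℕ) : ℝ) ^ (1 / 4 : ℝ) :=
      Real.rpow_nonneg (Nat.cast_nonneg _) _
    positivity
  have h4 : 1 / ((⌈H⌉₊ : ℕ) : ℝ) ^ (1 / 4 : ℝ) ≤ 1 / H ^ (1 / 4 : ℝ) := by
    apply one_div_le_one_div_of_le (Real.rpow_pos_of_pos hH0 _)
    exact Real.rpow_le_rpow hH0.le (Nat.le_ceil H) (by norm_num)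
  linarith

theorem div_sum : ∃ C : ℝ, 0 < C ∧ ∀ (n : ℕ) (QQ : Finset ℕ) (H : ℝ), 1 ≤ n → 1 ≤ H →
    (∀ q ∈ QQ, 1 ≤ q ∧ H ≤ (hq q n : ℝ)) →
    ∑ q ∈ QQ, 1 / ((q : ℝ) * (hq q n : ℝ) ^ (1 / 4 : ℝ)) ≤
      C * (1 + Real.log n) * H ^ (-(1 / 4) : ℝ) := by
  refine ⟨5, by norm_num, fun n QQ H hn hH hQ => ?_⟩
  have hH0 : 0 < H := by linarith
  have hq1 : ∀ q ∈ QQ, (Nat.gcd q n) * hq q n = q := by
    intro q _
    unfold hq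
    exact Nat.mul_div_cancel' (Nat.gcd_dvd_left q n)
  set F : ℕ × ℕ → ℝ := fun w => 1 / (w.1 : ℝ) * (1 / ((w.2 : ℝ) * (w.2 : ℝ) ^ (1 / 4 : ℝ)))
    with hF
  have hFnn : ∀ w, 0 ≤ F w := by
    intro w
    have : (0 : ℝ) ≤ (w.2 : ℝ) ^ (1 / 4 : ℝ) := Real.rpow_nonneg (Nat.cast_nonneg _) _
    rw [hF]
    positivity
  have h1 : ∑ q ∈ QQ, 1 / ((q : ℝ) * (hq q n : ℝ) ^ (1 / 4 : ℝ)) =
      ∑ q ∈ QQ, F (Nat.gcd q n, hq q n) := by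
    refine sum_congr rfl fun q hq' => ?_
    rw [hF]
    simp only
    rw [one_div_mul_one_div, ← mul_assoc, ← Nat.cast_mul, hq1 q hq']
  rw [h1]
  have hinj : Set.InjOn (fun q => (Nat.gcd q n, hq q n)) (QQ : Set ℕ) := by
    intro a ha b hb hab
    have h2 := hq1 a ha
    have h3 := hq1 b hb
    simp only [Prod.mk.injEq] at hab
    rw [← h2, ← h3, hab.1, hab.2]
  rw [← sum_image (f := F) hinj]
  set Hs := QQ.image (fun q => hq q n) with hHs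
  have hsub : QQ.image (fun q => (Nat.gcd q n, hq q n)) ⊆ (Icc 1 n) ×ˢ Hs := by
    intro w hw
    rw [mem_image] at hw
    obtain ⟨q, hq', rfl⟩ := hw
    rw [mem_product, mem_Icc]
    refine ⟨⟨Nat.gcd_pos_of_pos_right q (by omega), Nat.le_of_dvd (by omega)
      (Nat.gcd_dvd_right q n)⟩, ?_⟩
    exact mem_image_of_mem _ hq'
  refine (sum_le_sum_of_subset_of_nonneg hsub fun w _ _ => hFnn w).trans ?_
  have h2 : ∑ w ∈ (Icc 1 n) ×ˢ Hs, F w =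
      (∑ d ∈ Icc 1 n, 1 / (d : ℝ)) *
        ∑ h ∈ Hs, 1 / ((h : ℝ) * (h : ℝ) ^ (1 / 4 : ℝ)) := by
    rw [sum_mul_sum, sum_product]
  rw [h2]
  have h3 := harm n
  have h4 : ∑ h ∈ Hs, 1 / ((h : ℝ) * (h : ℝ) ^ (1 / 4 : ℝ)) ≤ 5 * (1 / H ^ (1 / 4 : ℝ)) := by
    apply tail' H hH
    intro h hh
    rw [hHs, mem_image] at hh
    obtain ⟨q, hq', rfl⟩ := hh
    exact (hQ q hq').2
  have h5 : (0 : ℝ) ≤ ∑ h ∈ Hs, 1 / ((h : ℝ) * (h : ℝ) ^ (1 / 4 : ℝ)) := by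
    refine sum_nonneg fun h _ => ?_
    have : (0 : ℝ) ≤ (h : ℝ) ^ (1 / 4 : ℝ) := Real.rpow_nonneg (Nat.cast_nonneg _) _
    positivity
  have h6 : 0 ≤ 1 + Real.log n := by
    have : 0 ≤ Real.log n := Real.log_natCast_nonneg n
    linarith
  calc (∑ d ∈ Icc 1 n, 1 / (d : ℝ)) * ∑ h ∈ Hs, 1 / ((h : ℝ) * (h : ℝ) ^ (1 / 4 : ℝ))
      ≤ (1 + Real.log n) * (5 * (1 / H ^ (1 / 4 : ℝ))) := mul_le_mul h3 h4 h5 h6
    _ = 5 * (1 + Real.log n) * H ^ (-(1 / 4) : ℝ) := by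
        rw [Real.rpow_neg hH0.le]
        ring

end Pool.MP_dd84fd_nt.PL
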