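import Pool.Agent.Lib.MP_dd84fd_nt.PL.Units
import Pool.Agent.Lib.MP_dd84fd_nt.PL.QKer
import Pool.Agent.Lib.MP_dd84fd_nt.DivBound

/-!
# PL-LamLam: two functions independent of `a`

`Bq = (∑_{a ∈ rr q} ee (-(n a/q))) ∫ lam lam' ee (-(n σ x)) dx`; `q_kernel` with `F = 1` (`sum_units`):
`‖∑_a ee(-(n a/q))‖ ≤ (√(hτ)/φ(h)) ∑_ξ ‖∑_x ξ'(x)‖ = (√(hτ)/φ(h)) φ(q) ≤ C h^(-1/4) q` (`ξ' = changeLevel ξ`, the
inner sum is `0` unless `ξ' = 1` i.e. `ξ = 1`; `cardlem`, `div_bound 6`).  The integral is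
`≤ (bq/X)(Λ0 X/q)² ≤ 2 b X Λ0²/q²`.
-/

set_option autoImplicit false

namespace Pool.MP_dd84fd_nt.PL

open Finset Pool.MP_67663b_nt.Odd

private theorem ll_kernel (q h n : ℕ) [NeZero q] [NeZero h] (hh : h = hq q n) (hd : h ∣ q) :
    ‖∑ a ∈ rr q, ee (-((n : ℝ) * ((a : ℝ) / q)))‖ ≤
      Real.sqrt ((h : ℝ) * h.divisors.card) / Nat.totient h * q := by
  classical
  have h1 := q_kernel q h n hh hd (fun _ => 1)
  have h2 := sum_units q (fun a : ℕ => ee (-((n : ℝ) * ((a : ℝ) / q))))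
  simp only [one_mul, mul_one] at h1
  rw [h2] at h1
  refine h1.trans ?_
  have h3 : ∑ ξ : DirichletCharacter ℂ h, ‖∑ x : ZMod q, DirichletCharacter.changeLevel hd ξ x‖
      ≤ (q : ℝ) := by
    rw [Finset.sum_eq_single (1 : DirichletCharacter ℂ h)]
    · rw [map_one]
      calc ‖∑ x : ZMod q, (1 : DirichletCharacter ℂ q) x‖
          ≤ ∑ x : ZMod q, ‖(1 : DirichletCharacter ℂ q) x‖ := norm_sum_le _ _
        _ ≤ ∑ _x : ZMod q, (1 : ℝ) :=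
            Finset.sum_le_sum fun x _ => DirichletCharacter.norm_le_one _ x
        _ = (q : ℝ) := by
            rw [Finset.sum_const, Finset.card_univ, ZMod.card, nsmul_eq_mul, mul_one]
    · intro ξ _ hξ
      have h4 : DirichletCharacter.changeLevel hd ξ ≠ 1 := by
        rw [Ne, DirichletCharacter.changeLevel_eq_one_iff hd]
        exact hξ
      rw [MulChar.sum_eq_zero_of_ne_one h4, norm_zero]
    · intro h4
      exact absurd (mem_univ _) h4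
  exact mul_le_mul_of_nonneg_left h3 (by positivity)

private theorem ll_card : ∃ C : ℝ, 0 < C ∧ ∀ h : ℕ, 1 ≤ h →
    Real.sqrt ((h : ℝ) * h.divisors.card) / Nat.totient h ≤ C / (h : ℝ) ^ (1 / 4 : ℝ) := by
  obtain ⟨C0, hC0, hdiv⟩ := Pool.Agent.Lib.MP_dd84fd_nt.DivBound.div_bound 6
  have hC0' : (0 : ℝ) < C0 := by exact_mod_cast hC0
  refine ⟨(C0 : ℝ) ^ (1 / 4 : ℝ), Real.rpow_pos_of_pos hC0' _, fun h hh => ?_⟩
  have hh0 : (0 : ℝ) < h := by exact_mod_cast hh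
  refine (cardlem h hh).trans ?_
  have h1 : (h.divisors.card : ℝ) ^ 6 ≤ C0 * h := by exact_mod_cast hdiv h (by omega)
  have hτ0 : (0 : ℝ) ≤ (h.divisors.card : ℝ) := by positivity
  have h2 : (h.divisors.card : ℝ) ^ (3 / 2 : ℝ) ≤ (C0 : ℝ) ^ (1 / 4 : ℝ) * (h : ℝ) ^ (1 / 4 : ℝ) := by
    rw [← Real.mul_rpow hC0'.le hh0.le]
    calc (h.divisors.card : ℝ) ^ (3 / 2 : ℝ)
        = ((h.divisors.card : ℝ) ^ 6) ^ (1 / 4 : ℝ) := by
          rw [← Real.rpow_natCast, ← Real.rpow_mul hτ0]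
          norm_num
      _ ≤ ((C0 : ℝ) * h) ^ (1 / 4 : ℝ) :=
          Real.rpow_le_rpow (by positivity) h1 (by norm_num)
  have h3 : (h : ℝ) ^ (1 / 4 : ℝ) * (h : ℝ) ^ (-(1 / 2) : ℝ) = 1 / (h : ℝ) ^ (1 / 4 : ℝ) := by
    rw [← Real.rpow_add hh0, one_div ((h : ℝ) ^ (1 / 4 : ℝ)), ← Real.rpow_neg hh0.le]
    norm_num
  calc (h.divisors.card : ℝ) ^ (3 / 2 : ℝ) * (h : ℝ) ^ (-(1 / 2) : ℝ)
      ≤ ((C0 : ℝ) ^ (1 / 4 : ℝ) * (h : ℝ) ^ (1 / 4 : ℝ)) * (h : ℝ) ^ (-(1 / 2) : ℝ) :=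
        mul_le_mul_of_nonneg_right h2 (by positivity)
    _ = (C0 : ℝ) ^ (1 / 4 : ℝ) / (h : ℝ) ^ (1 / 4 : ℝ) := by
        rw [mul_assoc, h3, mul_one_div]

theorem lam_lam : ∃ C : ℝ, 0 < C ∧ ∀ (X n : ℕ) (b σ : ℝ) (QQ : Finset ℕ) (bq : ℕ → ℝ),
    1 ≤ X → 0 < b → (σ = 1 ∨ σ = -1) → (∀ q ∈ QQ, 1 ≤ q) → 1 ≤ n →
    (∀ q ∈ QQ, b ≤ bq q ∧ bq q ≤ 2 * b) →
    ∀ (lam lam' : ℕ → ℝ → ℂ) (Λ0 : ℝ), (∀ q, Continuous (lam q)) → (∀ q, Continuous (lam' q)) →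
    0 ≤ Λ0 → (∀ q ∈ QQ, ∀ x, ‖lam q x‖ ≤ Λ0 * X / q) → (∀ q ∈ QQ, ∀ x, ‖lam' q x‖ ≤ Λ0 * X / q) →
    ∑ q ∈ QQ, ‖Bq X (bq q) σ n q (fun _ x => lam q x) (fun _ x => lam' q x)‖ ≤
      C * Λ0 ^ 2 * b * X * ∑ q ∈ QQ, 1 / ((q : ℝ) * (hq q n : ℝ) ^ (1 / 4 : ℝ)) := by
  obtain ⟨C1, hC1, hcard⟩ := ll_card
  refine ⟨2 * C1, by positivity, ?_⟩
  intro X n b σ QQ bq hX hb _hσ hQ hn hbq lam lam' Λ0 _hc _hc' hΛ hl hl'
  rw [Finset.mul_sum]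
  refine Finset.sum_le_sum fun q hq1 => ?_
  have hX0 : (0 : ℝ) < X := by exact_mod_cast hX
  have hq1' : 1 ≤ q := hQ q hq1
  have hq0 : (0 : ℝ) < q := by exact_mod_cast hq1'
  have : NeZero q := ⟨by omega⟩
  have hd : hq q n ∣ q := Nat.div_dvd_of_dvd (Nat.gcd_dvd_left q n)
  have hh1 : 1 ≤ hq q n := Nat.pos_of_dvd_of_pos hd hq1'
  have : NeZero (hq q n) := ⟨by omega⟩
  obtain ⟨hb1, hb2⟩ := hbq q hq1
  have hbq0 : 0 < bq q := lt_of_lt_of_le hb hb1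
  -- factor the sum
  have e1 : Bq X (bq q) σ n q (fun _ x => lam q x) (fun _ x => lam' q x) =
      (∑ a ∈ rr q, ee (-((n : ℝ) * ((a : ℝ) / q)))) *
        ∫ x in (bq q / X)..(2 * bq q / X), lam q x * lam' q x * ee (-((n : ℝ) * (σ * x))) := by
    rw [Bq, Finset.sum_mul]
    refine Finset.sum_congr rfl fun a _ => ?_
    rw [← intervalIntegral.integral_const_mul]
    refine intervalIntegral.integral_congr fun x _ => ?_
    have he : ee (-((n : ℝ) * ((a : ℝ) / q + σ * x))) =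
        ee (-((n : ℝ) * ((a : ℝ) / q))) * ee (-((n : ℝ) * (σ * x))) := by
      unfold ee
      rw [← Complex.exp_add]
      congr 1
      push_cast
      ring
    change lam q x * lam' q x * ee (-((n : ℝ) * ((a : ℝ) / q + σ * x))) =
      ee (-((n : ℝ) * ((a : ℝ) / q))) * (lam q x * lam' q x * ee (-((n : ℝ) * (σ * x))))
    rw [he]
    ring
  have e2 : ‖∫ x in (bq q / X)..(2 * bq q / X), lam q x * lam' q x * ee (-((n : ℝ) * (σ * x)))‖ ≤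
      (Λ0 * X / q * (Λ0 * X / q)) * (2 * b / X) := by
    have h1 : ∀ x ∈ Set.uIoc (bq q / X) (2 * bq q / X),
        ‖lam q x * lam' q x * ee (-((n : ℝ) * (σ * x)))‖ ≤ Λ0 * X / q * (Λ0 * X / q) := by
      intro x _
      rw [norm_mul, norm_mul, norm_ee, mul_one]
      exact mul_le_mul (hl q hq1 x) (hl' q hq1 x) (norm_nonneg _) (by positivity)
    refine (intervalIntegral.norm_integral_le_of_norm_le_const h1).trans ?_
    refine mul_le_mul_of_nonneg_left ?_ (by positivity)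
    have h2 : 2 * bq q / X - bq q / X = bq q / X := by ring
    rw [h2, abs_of_pos (by positivity)]
    exact div_le_div_of_nonneg_right hb2 hX0.le
  rw [e1, norm_mul]
  have e3 := (ll_kernel q (hq q n) n rfl hd).trans
    (mul_le_mul_of_nonneg_right (hcard (hq q n) hh1) hq0.le)
  have hpow : 0 < (hq q n : ℝ) ^ (1 / 4 : ℝ) :=
    Real.rpow_pos_of_pos (by exact_mod_cast hh1) _
  calc ‖∑ a ∈ rr q, ee (-((n : ℝ) * ((a : ℝ) / q)))‖ *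
        ‖∫ x in (bq q / X)..(2 * bq q / X), lam q x * lam' q x * ee (-((n : ℝ) * (σ * x)))‖
      ≤ (C1 / (hq q n : ℝ) ^ (1 / 4 : ℝ) * q) * ((Λ0 * X / q * (Λ0 * X / q)) * (2 * b / X)) :=
        mul_le_mul e3 e2 (norm_nonneg _) (by positivity)
    _ = 2 * C1 * Λ0 ^ 2 * b * X * (1 / ((q : ℝ) * (hq q n : ℝ) ^ (1 / 4 : ℝ))) := by
        field_simp

end Pool.MP_dd84fd_nt.PL
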