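import Pool.Agent.Lib.MP_dd84fd_nt.PL.Defs

/-!
# PL-BqN2: elementary properties of `Bq` and `N2`

All functions are continuous in `x`, all integrals are over `[bq q/X, 2 bq q/X]`, `bq q > 0`.
`Bq_le`: `‖Bq‖ ≤ ∑_a ∫ ‖f‖‖g‖`, Cauchy-Schwarz for the sum over `q`, `a` and the integral.
`N2_sum`: `‖∑_{i<I} f_i‖² ≤ I ∑ ‖f_i‖²`.
-/

set_option autoImplicit false

namespace Pool.MP_dd84fd_nt.PL

open Finset Pool.MP_67663b_nt.Odd

private theorem cont_ee : Continuous ee := by
  unfold ee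
  fun_prop

private theorem hle (X : ℕ) {b : ℝ} (hb : 0 < b) : b / X ≤ 2 * b / X := by
  apply div_le_div_of_nonneg_right _ (Nat.cast_nonneg X)
  linarith

private theorem le_sqrt_sqrt {S A B : ℝ} (hA : 0 ≤ A) (hB : 0 ≤ B)
    (h : ∀ t : ℝ, 0 < t → 2 * S ≤ t * A + B / t) : S ≤ Real.sqrt A * Real.sqrt B := by
  by_contra hcon
  push Not at hcon
  have hS : 0 < S := lt_of_le_of_lt (by positivity) hcon
  rcases hA.eq_or_lt with hA0 | hA0
  · have ht : 0 < (B + 1) / S := by positivity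
    have h1 := h _ ht
    rw [← hA0, mul_zero, zero_add, div_div_eq_mul_div] at h1
    have h2 : B * S / (B + 1) ≤ S := by
      rw [div_le_iff₀ (by positivity)]
      nlinarith
    linarith
  · rcases hB.eq_or_lt with hB0 | hB0
    · have ht : 0 < S / A := by positivity
      have h1 := h _ ht
      rw [← hB0, zero_div, add_zero, div_mul_cancel₀ _ hA0.ne'] at h1
      linarith
    · have ha : 0 < Real.sqrt A := Real.sqrt_pos.2 hA0
      have hb : 0 < Real.sqrt B := Real.sqrt_pos.2 hB0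
      have h1 := h (Real.sqrt B / Real.sqrt A) (by positivity)
      have h2 : Real.sqrt B / Real.sqrt A * A = Real.sqrt A * Real.sqrt B := by
        nth_rewrite 2 [← Real.mul_self_sqrt hA]
        field_simp
      have h3 : B / (Real.sqrt B / Real.sqrt A) = Real.sqrt A * Real.sqrt B := by
        nth_rewrite 1 [← Real.mul_self_sqrt hB]
        field_simp
      rw [h2, h3] at h1
      linarith

theorem N2_nonneg (X : ℕ) (bq : ℕ → ℝ) (QQ : Finset ℕ) (hb : ∀ q ∈ QQ, 0 < bq q)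
    (f : ℕ → ℕ → ℝ → ℂ) : 0 ≤ N2 X bq QQ f := by
  unfold N2
  refine Finset.sum_nonneg fun q hq => Finset.sum_nonneg fun a _ => ?_
  refine intervalIntegral.integral_nonneg (hle X (hb q hq)) fun x _ => ?_
  positivity

private theorem Bq_norm_le (X : ℕ) {b : ℝ} (hb : 0 < b) (σ : ℝ) (n q : ℕ) (f g : ℕ → ℝ → ℂ)
    (hf : ∀ a, Continuous (f a)) (hg : ∀ a, Continuous (g a)) (t : ℝ) (ht : 0 < t) :
    2 * ‖Bq X b σ n q f g‖ ≤ t * (∑ a ∈ rr q, ∫ x in (b / X)..(2 * b / X), ‖f a x‖ ^ 2) +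
      (∑ a ∈ rr q, ∫ x in (b / X)..(2 * b / X), ‖g a x‖ ^ 2) / t := by
  unfold Bq
  have h1 : ‖∑ a ∈ rr q, ∫ x in (b / X)..(2 * b / X),
      f a x * g a x * ee (-((n : ℝ) * ((a : ℝ) / q + σ * x)))‖ ≤
      ∑ a ∈ rr q, ∫ x in (b / X)..(2 * b / X), ‖f a x‖ * ‖g a x‖ := by
    refine le_trans (norm_sum_le _ _) (Finset.sum_le_sum fun a _ => ?_)
    refine le_trans (intervalIntegral.norm_integral_le_integral_norm (hle X hb)) ?_
    apply le_of_eq
    apply intervalIntegral.integral_congr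
    intro x _
    simp only [norm_mul, norm_ee, mul_one]
  have h2 : ∀ a ∈ rr q, 2 * (∫ x in (b / X)..(2 * b / X), ‖f a x‖ * ‖g a x‖) ≤
      t * (∫ x in (b / X)..(2 * b / X), ‖f a x‖ ^ 2) +
        (∫ x in (b / X)..(2 * b / X), ‖g a x‖ ^ 2) / t := by
    intro a _
    have hf2 : Continuous fun x => ‖f a x‖ := (hf a).norm
    have hg2 : Continuous fun x => ‖g a x‖ := (hg a).norm
    have h0 : (∫ x in (b / X)..(2 * b / X), ‖g a x‖ ^ 2) / t =
        t⁻¹ * ∫ x in (b / X)..(2 * b / X), ‖g a x‖ ^ 2 := by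
      rw [div_eq_mul_inv, mul_comm]
    rw [h0,
      ← intervalIntegral.integral_const_mul, ← intervalIntegral.integral_const_mul,
      ← intervalIntegral.integral_const_mul, ← intervalIntegral.integral_add]
    · apply intervalIntegral.integral_mono_on (hle X hb)
      · apply Continuous.intervalIntegrable
        fun_prop
      · apply Continuous.intervalIntegrable
        fun_prop
      · intro x _
        have h3 : 0 ≤ (t * ‖f a x‖ - ‖g a x‖) ^ 2 / t := by positivity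
        have h4 : (t * ‖f a x‖ - ‖g a x‖) ^ 2 / t =
            t * ‖f a x‖ ^ 2 + t⁻¹ * ‖g a x‖ ^ 2 - 2 * (‖f a x‖ * ‖g a x‖) := by
          field_simp
          ring
        linarith
    · apply Continuous.intervalIntegrable
      fun_prop
    · apply Continuous.intervalIntegrable
      fun_prop
  calc 2 * ‖∑ a ∈ rr q, ∫ x in (b / X)..(2 * b / X),
      f a x * g a x * ee (-((n : ℝ) * ((a : ℝ) / q + σ * x)))‖
      ≤ 2 * ∑ a ∈ rr q, ∫ x in (b / X)..(2 * b / X), ‖f a x‖ * ‖g a x‖ := by linarith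
    _ = ∑ a ∈ rr q, 2 * (∫ x in (b / X)..(2 * b / X), ‖f a x‖ * ‖g a x‖) := by
        rw [Finset.mul_sum]
    _ ≤ ∑ a ∈ rr q, (t * (∫ x in (b / X)..(2 * b / X), ‖f a x‖ ^ 2) +
        (∫ x in (b / X)..(2 * b / X), ‖g a x‖ ^ 2) / t) := Finset.sum_le_sum h2
    _ = _ := by rw [Finset.sum_add_distrib, Finset.mul_sum, Finset.sum_div]

theorem Bq_cauchy (X : ℕ) (bq : ℕ → ℝ) (σ : ℝ) (n : ℕ) (QQ : Finset ℕ) (hb : ∀ q ∈ QQ, 0 < bq q)
    (f g : ℕ → ℕ → ℝ → ℂ) (hf : ∀ q a, Continuous (f q a)) (hg : ∀ q a, Continuous (g q a)) :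
    ∑ q ∈ QQ, ‖Bq X (bq q) σ n q (f q) (g q)‖ ≤
      Real.sqrt (N2 X bq QQ f) * Real.sqrt (N2 X bq QQ g) := by
  apply le_sqrt_sqrt (N2_nonneg X bq QQ hb f) (N2_nonneg X bq QQ hb g)
  intro t ht
  unfold N2
  rw [Finset.mul_sum, Finset.mul_sum, Finset.sum_div, ← Finset.sum_add_distrib]
  exact Finset.sum_le_sum fun q hq =>
    Bq_norm_le X (hb q hq) σ n q (f q) (g q) (hf q) (hg q) t ht

theorem N2_sum (X : ℕ) (bq : ℕ → ℝ) (QQ : Finset ℕ) (hb : ∀ q ∈ QQ, 0 < bq q) (I : ℕ)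
    (f : ℕ → ℕ → ℕ → ℝ → ℂ) (hf : ∀ i q a, Continuous (f i q a)) :
    N2 X bq QQ (fun q a x => ∑ i ∈ range I, f i q a x) ≤ I * ∑ i ∈ range I, N2 X bq QQ (f i) := by
  unfold N2
  rw [Finset.sum_comm, Finset.mul_sum]
  refine Finset.sum_le_sum fun q hq => ?_
  rw [Finset.sum_comm, Finset.mul_sum]
  refine Finset.sum_le_sum fun a _ => ?_
  rw [← intervalIntegral.integral_finsetSum, ← intervalIntegral.integral_const_mul]
  · apply intervalIntegral.integral_mono_on (hle X (hb q hq))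
    · apply Continuous.intervalIntegrable
      fun_prop
    · apply Continuous.intervalIntegrable
      fun_prop
    · intro x _
      have h1 : ‖∑ i ∈ range I, f i q a x‖ ≤ ∑ i ∈ range I, ‖f i q a x‖ := norm_sum_le _ _
      have h2 : (∑ i ∈ range I, ‖f i q a x‖) ^ 2 ≤
          ((range I).card : ℝ) * ∑ i ∈ range I, ‖f i q a x‖ ^ 2 := sq_sum_le_card_mul_sum_sq
      rw [Finset.card_range] at h2
      exact le_trans (pow_le_pow_left₀ (norm_nonneg _) h1 2) h2
  · intro i _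
    apply Continuous.intervalIntegrable
    fun_prop

theorem N2_add (X : ℕ) (bq : ℕ → ℝ) (QQ : Finset ℕ) (hb : ∀ q ∈ QQ, 0 < bq q)
    (f g : ℕ → ℕ → ℝ → ℂ) (hf : ∀ q a, Continuous (f q a)) (hg : ∀ q a, Continuous (g q a)) :
    N2 X bq QQ (fun q a x => f q a x + g q a x) ≤ 2 * N2 X bq QQ f + 2 * N2 X bq QQ g := by
  unfold N2
  rw [Finset.mul_sum, Finset.mul_sum, ← Finset.sum_add_distrib]
  refine Finset.sum_le_sum fun q hq => ?_
  rw [Finset.mul_sum, Finset.mul_sum, ← Finset.sum_add_distrib]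
  refine Finset.sum_le_sum fun a _ => ?_
  rw [← intervalIntegral.integral_const_mul, ← intervalIntegral.integral_const_mul,
    ← intervalIntegral.integral_add]
  · apply intervalIntegral.integral_mono_on (hle X (hb q hq))
    · apply Continuous.intervalIntegrable
      fun_prop
    · apply Continuous.intervalIntegrable
      fun_prop
    · intro x _
      have h1 : ‖f q a x + g q a x‖ ≤ ‖f q a x‖ + ‖g q a x‖ := norm_add_le _ _
      have h2 := pow_le_pow_left₀ (norm_nonneg _) h1 2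
      nlinarith [sq_nonneg (‖f q a x‖ - ‖g q a x‖)]
  · apply Continuous.intervalIntegrable
    fun_prop
  · apply Continuous.intervalIntegrable
    fun_prop

private theorem int_cont (X : ℕ) (b σ : ℝ) (n q a : ℕ) (f g : ℝ → ℂ) (hf : Continuous f)
    (hg : Continuous g) : IntervalIntegrable
      (fun x => f x * g x * ee (-((n : ℝ) * ((a : ℝ) / q + σ * x)))) MeasureTheory.volume
      (b / X) (2 * b / X) := by
  apply Continuous.intervalIntegrable
  have h := cont_ee
  fun_prop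

theorem Bq_add_left (X : ℕ) (b σ : ℝ) (n q : ℕ) (f f' g : ℕ → ℝ → ℂ)
    (hf : ∀ a, Continuous (f a)) (hf' : ∀ a, Continuous (f' a)) (hg : ∀ a, Continuous (g a)) :
    Bq X b σ n q (fun a x => f a x + f' a x) g = Bq X b σ n q f g + Bq X b σ n q f' g := by
  unfold Bq
  rw [← Finset.sum_add_distrib]
  refine Finset.sum_congr rfl fun a _ => ?_
  rw [← intervalIntegral.integral_add (int_cont X b σ n q a (f a) (g a) (hf a) (hg a))
    (int_cont X b σ n q a (f' a) (g a) (hf' a) (hg a))]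
  apply intervalIntegral.integral_congr
  intro x _
  show (f a x + f' a x) * g a x * _ = _
  ring

theorem Bq_comm (X : ℕ) (b σ : ℝ) (n q : ℕ) (f g : ℕ → ℝ → ℂ) :
    Bq X b σ n q f g = Bq X b σ n q g f := by
  unfold Bq
  refine Finset.sum_congr rfl fun a _ => ?_
  apply intervalIntegral.integral_congr
  intro x _
  show f a x * g a x * _ = g a x * f a x * _
  rw [mul_comm (f a x) (g a x)]

theorem Bq_sum_left (X : ℕ) (b σ : ℝ) (n q I : ℕ) (f : ℕ → ℕ → ℝ → ℂ) (g : ℕ → ℝ → ℂ)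
    (hf : ∀ i a, Continuous (f i a)) (hg : ∀ a, Continuous (g a)) :
    Bq X b σ n q (fun a x => ∑ i ∈ range I, f i a x) g = ∑ i ∈ range I, Bq X b σ n q (f i) g := by
  unfold Bq
  rw [Finset.sum_comm]
  refine Finset.sum_congr rfl fun a _ => ?_
  rw [← intervalIntegral.integral_finsetSum
    (fun i _ => int_cont X b σ n q a (f i a) (g a) (hf i a) (hg a))]
  apply intervalIntegral.integral_congr
  intro x _
  show (∑ i ∈ range I, f i a x) * g a x * _ = _
  rw [Finset.sum_mul, Finset.sum_mul]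

theorem tp_cont (K : ℕ) (c : ℕ → ℂ) : Continuous (tp K c) := by
  unfold tp
  have h := cont_ee
  fun_prop

theorem f2f_cont (MM : Finset ℕ) (c : ℕ → ℂ) (K : ℕ) (c' : ℕ → ℂ) (σ : ℝ) (q a : ℕ) :
    Continuous (f2f MM c (tp K c') σ q a) := by
  unfold f2f
  have h := tp_cont K c'
  fun_prop

theorem W_cont (s : ℝ) (w X : ℕ) : Continuous (W s w X) := by
  unfold W E2.P1 E2.F2
  have h := cont_ee
  fun_prop

theorem Wa_cont (s σ : ℝ) (w X q a : ℕ) : Continuous (Wa s σ w X q a) := by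
  unfold Wa
  have h := W_cont s w X
  fun_prop

end Pool.MP_dd84fd_nt.PL
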