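import Pool.Agent.Lib.MP_dd84fd_nt.PL.Four
import Pool.Agent.Lib.MP_dd84fd_nt.L2G.CharOrth

/-!
# PL-GFour: Fourier analysis on `(ℤ/q)^* × ℝ/ℤ`

`fq q f χ j = (1/φ(q)) ∑_x χ(x) ∫_0^1 f(x,t) e(jt) dt`.

Proof of `fq_parseval`: for fixed `j`, `∑_χ ‖∑_x χ(x) fc (f x) j‖² = φ(q) ∑_{x unit} ‖fc (f x) j‖²`
(`L2G.co_parseval_zmod`); sum over `j` with `fc_parseval` (finite sums of `HasSum`; product index:
`HasSum` over `χ × j` from the sum over the finite type of `χ`, all terms nonnegative).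
Proof of `fq_mul`: for fixed `k`, `∑_χ fq f χ k · fq g (ξ χ⁻¹) (j-k)
= (1/φ(q)²) ∑_{x,y} fc (f x) k · fc (g y) (j-k) ξ(y) ∑_χ χ(x) χ⁻¹(y)`, and `∑_χ χ(x) χ⁻¹(y) = φ(q)` if
`x = y` is a unit, `0` if `x ≠ y` or not units (`DirichletCharacter.sum_char_inv_mul_char_eq`); so it is
`(1/φ(q)) ∑_x ξ(x) fc (f x) k · fc (g x) (j-k)`; sum over `k` by `fc_mul`.  Summability over `χ × k`:
`|fq f χ k · fq g ..| ≤ |..|² + |..|²` and `fq_parseval`.
-/

set_option autoImplicit false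

namespace Pool.MP_dd84fd_nt.PL

open Finset Pool.MP_67663b_nt.Odd

/-- Fourier coefficient on `(ℤ/q)^* × ℝ/ℤ` -/
noncomputable def fq (q : ℕ) [NeZero q] (f : ZMod q → ℝ → ℂ) (χ : DirichletCharacter ℂ q)
    (j : ℤ) : ℂ :=
  (1 / (Nat.totient q : ℂ)) * ∑ x : ZMod q, χ x * fc (f x) j

theorem gf_fin_prod {α β E : Type*} [Fintype α] [AddCommMonoid E] [TopologicalSpace E]
    [ContinuousAdd E] {f : α × β → E} {s : α → E}
    (h : ∀ a, HasSum (fun b => f (a, b)) (s a)) : HasSum f (∑ a, s a) := by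
  classical
  have h1 : ∀ a, HasSum (fun p : α × β => if p.1 = a then f p else 0) (s a) := by
    intro a
    have hinj : Function.Injective (fun b : β => (a, b)) := fun b b' hb => (Prod.mk.inj hb).2
    refine (hinj.hasSum_iff (f := fun p : α × β => if p.1 = a then f p else 0) ?_).1 ?_
    · rintro ⟨a', b⟩ hp
      have hne : a' ≠ a := by
        rintro rfl
        exact hp ⟨b, rfl⟩
      exact if_neg hne
    · have h2 : ((fun p : α × β => if p.1 = a then f p else 0) ∘ fun b : β => (a, b)) =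
          fun b => f (a, b) := by
        funext b
        simp
      rw [h2]
      exact h a
  have h3 := hasSum_sum (s := (univ : Finset α)) (fun a _ => h1 a)
  have h4 : (fun p : α × β => ∑ a, if p.1 = a then f p else 0) = f := by
    funext p
    simp
  rw [h4] at h3
  exact h3

theorem gf_level (q : ℕ) [NeZero q] (f : ZMod q → ℝ → ℂ) (j : ℤ) :
    ∑ χ : DirichletCharacter ℂ q, ‖fq q f χ j‖ ^ 2 =
      (1 / (Nat.totient q : ℝ)) *
        ∑ x ∈ univ.filter (fun x : ZMod q => IsUnit x), ‖fc (f x) j‖ ^ 2 := by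
  have hφ : (0 : ℝ) < Nat.totient q := by
    exact_mod_cast Nat.totient_pos.2 (Nat.pos_of_ne_zero (NeZero.ne q))
  have h1 := L2G.co_parseval_zmod q (fun x => fc (f x) j)
  have h2 : ∀ χ : DirichletCharacter ℂ q, ‖fq q f χ j‖ ^ 2 =
      (1 / (Nat.totient q : ℝ)) ^ 2 * ‖∑ b : ZMod q, fc (f b) j * χ b‖ ^ 2 := by
    intro χ
    unfold fq
    rw [norm_mul, mul_pow]
    congr 1
    · rw [norm_div, norm_one, Complex.norm_natCast]
    · congr 2
      exact Finset.sum_congr rfl fun x _ => mul_comm _ _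
  rw [Finset.sum_congr rfl fun χ _ => h2 χ, ← Finset.mul_sum, h1, ← mul_assoc]
  congr 1
  field_simp

theorem gf_level_hasSum (q : ℕ) [NeZero q] (f : ZMod q → ℝ → ℂ) (B : ℝ)
    (hm : ∀ x, Measurable (f x)) (hB : ∀ x t, ‖f x t‖ ≤ B) :
    HasSum (fun j : ℤ => ∑ χ : DirichletCharacter ℂ q, ‖fq q f χ j‖ ^ 2)
      ((1 / (Nat.totient q : ℝ)) * ∑ x ∈ univ.filter (fun x : ZMod q => IsUnit x),
        ∫ t in (0 : ℝ)..1, ‖f x t‖ ^ 2) := by
  simp only [gf_level]
  refine HasSum.mul_left _ ?_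
  exact hasSum_sum fun x _ => fc_parseval (f x) B (hm x) (hB x)

theorem gf_summable (q : ℕ) [NeZero q] (f : ZMod q → ℝ → ℂ) (B : ℝ)
    (hm : ∀ x, Measurable (f x)) (hB : ∀ x t, ‖f x t‖ ≤ B) (χ : DirichletCharacter ℂ q) :
    Summable (fun j : ℤ => ‖fq q f χ j‖ ^ 2) := by
  refine Summable.of_nonneg_of_le (fun j => by positivity) (fun j => ?_)
    (gf_level_hasSum q f B hm hB).summable
  exact Finset.single_le_sum (f := fun χ : DirichletCharacter ℂ q => ‖fq q f χ j‖ ^ 2)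
    (fun χ _ => by positivity) (Finset.mem_univ χ)

theorem fq_parseval (q : ℕ) [NeZero q] (f : ZMod q → ℝ → ℂ) (B : ℝ)
    (hm : ∀ x, Measurable (f x)) (hB : ∀ x t, ‖f x t‖ ≤ B) :
    HasSum (fun p : DirichletCharacter ℂ q × ℤ => ‖fq q f p.1 p.2‖ ^ 2)
      ((1 / (Nat.totient q : ℝ)) * ∑ x ∈ univ.filter (fun x : ZMod q => IsUnit x),
        ∫ t in (0 : ℝ)..1, ‖f x t‖ ^ 2) := by
  have h1 := fun χ : DirichletCharacter ℂ q => (gf_summable q f B hm hB χ).hasSum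
  have h2 := hasSum_sum (s := (univ : Finset (DirichletCharacter ℂ q))) (fun χ _ => h1 χ)
  have h3 := h2.unique (gf_level_hasSum q f B hm hB)
  rw [← h3]
  exact gf_fin_prod (f := fun p : DirichletCharacter ℂ q × ℤ => ‖fq q f p.1 p.2‖ ^ 2) h1

theorem gf_conv (q : ℕ) [NeZero q] (f g : ZMod q → ℝ → ℂ) (ξ : DirichletCharacter ℂ q)
    (j k : ℤ) :
    ∑ χ : DirichletCharacter ℂ q, fq q f χ k * fq q g (ξ * χ⁻¹) (j - k) =
      (1 / (Nat.totient q : ℂ)) * ∑ x : ZMod q, ξ x * (fc (f x) k * fc (g x) (j - k)) := by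
  classical
  have hφ : (Nat.totient q : ℂ) ≠ 0 := by
    exact_mod_cast (Nat.totient_pos.2 (Nat.pos_of_ne_zero (NeZero.ne q))).ne'
  have h1 : ∀ χ : DirichletCharacter ℂ q, fq q f χ k * fq q g (ξ * χ⁻¹) (j - k) =
      ∑ y : ZMod q, ∑ x : ZMod q, (1 / (Nat.totient q : ℂ)) ^ 2 *
        (ξ y * fc (f x) k * fc (g y) (j - k)) * (χ y⁻¹ * χ x) := by
    intro χ
    have h2 : ∀ y : ZMod q, (ξ * χ⁻¹) y = ξ y * χ y⁻¹ := by
      intro y
      by_cases hy : IsUnit y
      · rw [MulChar.mul_apply, L2G.co_char_inv_unit q χ y hy, MulChar.inv_apply_eq_inv]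
        congr 1
        have h3 : χ y ≠ 0 := by
          obtain ⟨u, rfl⟩ := hy
          intro hc
          have := DirichletCharacter.unit_norm_eq_one χ u
          rw [hc, norm_zero] at this
          exact zero_ne_one this
        exact Ring.inverse_of_isUnit (Ne.isUnit h3) |>.trans (by simp)
      · rw [MulChar.map_nonunit _ hy, MulChar.map_nonunit ξ hy, zero_mul]
    unfold fq
    rw [mul_mul_mul_comm, Finset.sum_mul_sum, Finset.sum_comm, Finset.mul_sum]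
    refine Finset.sum_congr rfl fun y _ => ?_
    rw [Finset.mul_sum]
    refine Finset.sum_congr rfl fun x _ => ?_
    rw [h2]
    ring
  rw [Finset.sum_congr rfl fun χ _ => h1 χ, Finset.sum_comm, Finset.mul_sum]
  refine Finset.sum_congr rfl fun y _ => ?_
  rw [Finset.sum_comm]
  by_cases hy : IsUnit y
  · have h3 : ∀ x : ZMod q, ∑ χ : DirichletCharacter ℂ q, (1 / (Nat.totient q : ℂ)) ^ 2 *
        (ξ y * fc (f x) k * fc (g y) (j - k)) * (χ y⁻¹ * χ x) =
        if y = x then (1 / (Nat.totient q : ℂ)) ^ 2 * (ξ y * fc (f x) k * fc (g y) (j - k)) *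
          (Nat.totient q : ℂ) else 0 := by
      intro x
      rw [← Finset.mul_sum, DirichletCharacter.sum_char_inv_mul_char_eq ℂ hy x]
      split_ifs <;> simp
    rw [Finset.sum_congr rfl fun x _ => h3 x, Finset.sum_ite_eq univ y,
      if_pos (Finset.mem_univ _)]
    field_simp
  · simp only [MulChar.map_nonunit ξ hy, zero_mul, mul_zero, Finset.sum_const_zero]

theorem fq_mul (q : ℕ) [NeZero q] (f g : ZMod q → ℝ → ℂ) (B : ℝ)
    (hmf : ∀ x, Measurable (f x)) (hmg : ∀ x, Measurable (g x))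
    (hf : ∀ x t, ‖f x t‖ ≤ B) (hg : ∀ x t, ‖g x t‖ ≤ B) (ξ : DirichletCharacter ℂ q) (j : ℤ) :
    HasSum (fun p : DirichletCharacter ℂ q × ℤ => fq q f p.1 p.2 * fq q g (ξ * p.1⁻¹) (j - p.2))
      ((1 / (Nat.totient q : ℂ)) * ∑ x : ZMod q, ξ x * fc (fun t => f x t * g x t) j) := by
  have h1 : ∀ χ : DirichletCharacter ℂ q,
      Summable fun k : ℤ => fq q f χ k * fq q g (ξ * χ⁻¹) (j - k) := by
    intro χ
    have h2 := gf_summable q f B hmf hf χ
    have h3 := gf_summable q g B hmg hg (ξ * χ⁻¹)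
    have h4 : Summable fun k : ℤ => ‖fq q g (ξ * χ⁻¹) (j - k)‖ ^ 2 :=
      (Equiv.subLeft j).summable_iff.2 h3
    refine Summable.of_norm_bounded (h2.add h4) fun k => ?_
    rw [norm_mul]
    nlinarith [sq_nonneg (‖fq q f χ k‖ - ‖fq q g (ξ * χ⁻¹) (j - k)‖),
      sq_nonneg ‖fq q f χ k‖, sq_nonneg ‖fq q g (ξ * χ⁻¹) (j - k)‖]
  have h2 := fun χ : DirichletCharacter ℂ q => (h1 χ).hasSum
  have h3 := hasSum_sum (s := (univ : Finset (DirichletCharacter ℂ q))) (fun χ _ => h2 χ)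
  have h4 : HasSum (fun k : ℤ => ∑ χ : DirichletCharacter ℂ q,
      fq q f χ k * fq q g (ξ * χ⁻¹) (j - k))
      ((1 / (Nat.totient q : ℂ)) * ∑ x : ZMod q, ξ x * fc (fun t => f x t * g x t) j) := by
    simp only [gf_conv]
    refine HasSum.mul_left _ ?_
    exact hasSum_sum fun x _ => (fc_mul (f x) (g x) B (hmf x) (hmg x) (hf x) (hg x) j).mul_left _
  rw [← h3.unique h4]
  exact gf_fin_prod
    (f := fun p : DirichletCharacter ℂ q × ℤ => fq q f p.1 p.2 * fq q g (ξ * p.1⁻¹) (j - p.2)) h2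

end Pool.MP_dd84fd_nt.PL
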