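import Pool.Agent.Lib.MP_dd84fd_nt.PL.Vau
import Pool.Agent.Lib.MP_dd84fd_nt.L2G.DivMom

/-!
# PL-Blocks: the type II sum as a sum of rectangles

`L = log X`, `κ = L^(-2A')`, `M_i = min (V0 (1+κ)^i) √X`, `i < I = ⌈2 L^(2A'+1)⌉`.
`MM_i = {m : M_i < m ≤ M_{i+1}}`, `K_i = ⌊X/M_{i+1}⌋`,
`c_i(k) = c2 (U0 X) k / log(M_i k)` for `U0 < k ≤ K_i`, `0` otherwise.
-/

set_option autoImplicit false

namespace Pool.MP_dd84fd_nt.PL

open Finset Pool.MP_67663b_nt.Odd

private theorem swapMK (V U X : ℕ) (F : ℕ → ℕ → ℂ) (E : ℕ → ℂ) :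
    ∑ m ∈ Ioc V X, ∑ k ∈ Ioc U (X / m), F m k * E (m * k) =
      ∑ n ∈ Icc 1 X, (∑ z ∈ n.divisorsAntidiagonal.filter (fun z => V < z.1 ∧ U < z.2),
        F z.1 z.2) * E n := by
  have h0 : ∀ n ∈ Icc 1 X, (∑ z ∈ n.divisorsAntidiagonal.filter (fun z => V < z.1 ∧ U < z.2),
        F z.1 z.2) * E n = ∑ z ∈ n.divisorsAntidiagonal.filter (fun z => V < z.1 ∧ U < z.2),
        F z.1 z.2 * E n := fun n _ => by rw [Finset.sum_mul]
  rw [Finset.sum_congr rfl h0, Finset.sum_sigma', Finset.sum_sigma']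
  refine Finset.sum_bij' (fun p _ => (⟨p.1 * p.2, (p.1, p.2)⟩ : Σ _ : ℕ, ℕ × ℕ))
    (fun p _ => (⟨p.2.1, p.2.2⟩ : Σ _ : ℕ, ℕ)) ?_ ?_ ?_ ?_ ?_
  · rintro ⟨m, k⟩ h
    rw [Finset.mem_sigma, Finset.mem_Ioc, Finset.mem_Ioc] at h
    obtain ⟨⟨h1, h2⟩, h3, h4⟩ := h
    simp only at h1 h2 h3 h4
    have hm : 0 < m := by omega
    have hk : 0 < k := by omega
    rw [Finset.mem_sigma, Finset.mem_Icc, Finset.mem_filter, Nat.mem_divisorsAntidiagonal]
    refine ⟨⟨Nat.mul_pos hm hk, ?_⟩, ⟨rfl, (Nat.mul_pos hm hk).ne'⟩, h1, h3⟩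
    calc m * k ≤ m * (X / m) := Nat.mul_le_mul_left _ h4
      _ ≤ X := Nat.mul_div_le X m
  · rintro ⟨n, a, b⟩ h
    rw [Finset.mem_sigma, Finset.mem_Icc, Finset.mem_filter, Nat.mem_divisorsAntidiagonal] at h
    obtain ⟨⟨h1, h2⟩, ⟨h3, h4⟩, h5, h6⟩ := h
    simp only at h1 h2 h3 h4 h5 h6
    have ha : 0 < a := by omega
    have hb : 0 < b := by omega
    rw [Finset.mem_sigma, Finset.mem_Ioc, Finset.mem_Ioc]
    refine ⟨⟨h5, ?_⟩, h6, ?_⟩
    · calc a ≤ a * b := Nat.le_mul_of_pos_right _ hb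
        _ ≤ X := by rw [h3]; exact h2
    · rw [Nat.le_div_iff_mul_le ha, mul_comm, h3]
      exact h2
  · rintro ⟨m, k⟩ h
    rfl
  · rintro ⟨n, a, b⟩ h
    rw [Finset.mem_sigma, Finset.mem_Icc, Finset.mem_filter, Nat.mem_divisorsAntidiagonal] at h
    obtain ⟨⟨h1, h2⟩, ⟨h3, h4⟩, h5, h6⟩ := h
    simp only at h3
    simp only [h3]
  · rintro ⟨m, k⟩ h
    rfl

private theorem idx (M : ℕ → ℝ) (hM : Monotone M) (I : ℕ) (x : ℝ) (h0 : M 0 < x)
    (hI : x ≤ M I) : ∃ i < I, M i < x ∧ x ≤ M (i + 1) ∧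
      ∀ j < I, (M j < x ∧ x ≤ M (j + 1)) → j = i := by
  classical
  have hex : ∃ j, x ≤ M j := ⟨I, hI⟩
  have h1 : x ≤ M (Nat.find hex) := Nat.find_spec hex
  have h2 : Nat.find hex ≤ I := Nat.find_min' hex hI
  have h3 : Nat.find hex ≠ 0 := by
    intro h
    rw [h] at h1
    linarith
  obtain ⟨i, hi⟩ := Nat.exists_eq_succ_of_ne_zero h3
  have h4 : M i < x := by
    have := Nat.find_min hex (m := i) (by omega)
    exact not_le.1 this
  refine ⟨i, by omega, h4, by rw [hi] at h1; exact h1, ?_⟩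
  rintro j hj ⟨h5, h6⟩
  by_contra hne
  rcases lt_or_gt_of_ne hne with h7 | h7
  · have := hM (show j + 1 ≤ i by omega)
    linarith
  · have := hM (show i + 1 ≤ j by omega)
    rw [hi] at h1
    have h8 : x ≤ M (i + 1) := h1
    linarith

private theorem exp_half_le {κ : ℝ} (h0 : 0 ≤ κ) (h1 : κ ≤ 1) : Real.exp (κ / 2) ≤ 1 + κ := by
  have h2 := Real.add_one_le_exp (-(κ / 2))
  have h3 : Real.exp (κ / 2) * Real.exp (-(κ / 2)) = 1 := by
    rw [← Real.exp_add]; simp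
  have h4 := Real.exp_pos (κ / 2)
  have h5 : Real.exp (κ / 2) * (1 - κ / 2) ≤ 1 := by
    rw [← h3]
    apply mul_le_mul_of_nonneg_left _ h4.le
    linarith
  have h6 : 0 < 1 - κ / 2 := by linarith
  rw [← sub_nonneg]
  have h7 : 0 ≤ (1 + κ - Real.exp (κ / 2)) * (1 - κ / 2) := by nlinarith
  exact nonneg_of_mul_nonneg_left h7 h6

private theorem V0_lower {X : ℕ} (hX : 16 ≤ X) : (X : ℝ) ^ (1 / 4 : ℝ) / 2 ≤ V0 X := by
  have h1 : Nat.sqrt X < (V0 X + 1) * (V0 X + 1) := Nat.lt_succ_sqrt _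
  have h2 : X < (Nat.sqrt X + 1) * (Nat.sqrt X + 1) := Nat.lt_succ_sqrt _
  have h3 : X < ((V0 X + 1) * (V0 X + 1)) * ((V0 X + 1) * (V0 X + 1)) :=
    lt_of_lt_of_le h2 (Nat.mul_le_mul (Nat.succ_le_of_lt h1) (Nat.succ_le_of_lt h1))
  have h4 : (X : ℝ) ≤ ((V0 X : ℝ) + 1) ^ (4 : ℕ) := by
    have : (X : ℝ) < (((V0 X + 1) * (V0 X + 1)) * ((V0 X + 1) * (V0 X + 1)) : ℕ) := by
      exact_mod_cast h3
    push_cast at this
    nlinarith
  have h5 : (X : ℝ) ^ (1 / 4 : ℝ) ≤ (V0 X : ℝ) + 1 := by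
    calc (X : ℝ) ^ (1 / 4 : ℝ) ≤ (((V0 X : ℝ) + 1) ^ (4 : ℕ)) ^ (1 / 4 : ℝ) :=
          Real.rpow_le_rpow (by positivity) h4 (by norm_num)
      _ = (V0 X : ℝ) + 1 := by
          rw [← Real.rpow_natCast, ← Real.rpow_mul (by positivity)]
          norm_num
  have h6 : (2 : ℝ) ≤ (X : ℝ) ^ (1 / 4 : ℝ) := by
    calc (2 : ℝ) = (16 : ℝ) ^ (1 / 4 : ℝ) := by
          rw [show (16 : ℝ) = 2 ^ (4 : ℕ) by norm_num, ← Real.rpow_natCast,
            ← Real.rpow_mul (by positivity)]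
          norm_num
      _ ≤ (X : ℝ) ^ (1 / 4 : ℝ) :=
          Real.rpow_le_rpow (by norm_num) (by exact_mod_cast hX) (by norm_num)
  linarith

private theorem blockSum (X U V : ℕ) (a b : ℕ → ℝ) (Mi Mi1 : ℝ) (K : ℕ)
    (hK : ∀ m : ℕ, (m : ℝ) ≤ Mi1 → m * K ≤ X) (θ : ℝ) :
    ∑ m ∈ (Ioc V X).filter (fun m : ℕ => Mi < (m : ℝ) ∧ (m : ℝ) ≤ Mi1), ((a m : ℝ) : ℂ) *
      tp K (fun k => if U < k then ((b k / Real.log (Mi * k) : ℝ) : ℂ) else 0) ((m : ℝ) * θ) =
    ∑ m ∈ Ioc V X, ∑ k ∈ Ioc U (X / m),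
      ((a m * b k * (if (Mi < (m : ℝ) ∧ (m : ℝ) ≤ Mi1) ∧ k ≤ K then 1 / Real.log (Mi * k)
        else 0) : ℝ) : ℂ) * ee (((m * k : ℕ) : ℝ) * θ) := by
  rw [Finset.sum_filter]
  refine Finset.sum_congr rfl fun m hm => ?_
  rw [mem_Ioc] at hm
  have hm0 : 0 < m := by omega
  by_cases hc : Mi < (m : ℝ) ∧ (m : ℝ) ≤ Mi1
  · rw [if_pos hc]
    simp only [hc, true_and]
    unfold tp
    rw [Finset.mul_sum]
    have h1 : ∑ k ∈ Icc 1 K, ((a m : ℝ) : ℂ) *
        ((if U < k then ((b k / Real.log (Mi * k) : ℝ) : ℂ) else 0) * ee ((k : ℝ) * ((m : ℝ) * θ)))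
        = ∑ k ∈ (Icc 1 K).filter (fun k => U < k), ((a m : ℝ) : ℂ) *
        (((b k / Real.log (Mi * k) : ℝ) : ℂ) * ee ((k : ℝ) * ((m : ℝ) * θ))) := by
      rw [Finset.sum_filter]
      refine Finset.sum_congr rfl fun k _ => ?_
      by_cases hk : U < k
      · simp only [hk, if_true]
      · simp only [hk, if_false, zero_mul, mul_zero]
    have h2 : ∑ k ∈ Ioc U (X / m),
        ((a m * b k * (if k ≤ K then 1 / Real.log (Mi * k) else 0) : ℝ) : ℂ) *
          ee (((m * k : ℕ) : ℝ) * θ) = ∑ k ∈ (Ioc U (X / m)).filter (fun k => k ≤ K),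
        ((a m * b k * (1 / Real.log (Mi * k)) : ℝ) : ℂ) * ee (((m * k : ℕ) : ℝ) * θ) := by
      rw [Finset.sum_filter]
      refine Finset.sum_congr rfl fun k _ => ?_
      by_cases hk : k ≤ K
      · simp only [hk, if_true]
      · simp only [hk, if_false, mul_zero, Complex.ofReal_zero, zero_mul]
    rw [h1, h2]
    have h3 : (Icc 1 K).filter (fun k => U < k) = (Ioc U (X / m)).filter (fun k => k ≤ K) := by
      ext k
      rw [mem_filter, mem_filter, mem_Icc, mem_Ioc]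
      constructor
      · rintro ⟨⟨h4, h5⟩, h6⟩
        refine ⟨⟨h6, ?_⟩, h5⟩
        rw [Nat.le_div_iff_mul_le hm0, mul_comm]
        exact (Nat.mul_le_mul_left m h5).trans (hK m hc.2)
      · rintro ⟨⟨h4, h5⟩, h6⟩
        exact ⟨⟨by omega, h6⟩, h4⟩
    rw [h3]
    refine Finset.sum_congr rfl fun k _ => ?_
    have h4 : (k : ℝ) * ((m : ℝ) * θ) = ((m * k : ℕ) : ℝ) * θ := by push_cast; ring
    rw [h4]
    push_cast
    ring
  · rw [if_neg hc]
    symm
    apply Finset.sum_eq_zero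
    intro k _
    rw [if_neg (fun h => hc h.1)]
    simp

/-- the bound for the difference of the reciprocals of the logarithms -/
private theorem recip {x y : ℝ} {κ : ℝ} (hy : Real.exp 1 ≤ y) (hyx : y ≤ x)
    (hx : x ≤ (1 + κ) * y) : |1 / Real.log x - 1 / Real.log y| ≤ κ := by
  have h0 : 0 < Real.exp 1 := Real.exp_pos 1
  have hy0 : 0 < y := lt_of_lt_of_le h0 hy
  have hx0 : 0 < x := lt_of_lt_of_le hy0 hyx
  have h1 : 1 ≤ Real.log y := by
    rw [Real.le_log_iff_exp_le hy0]; exact hy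
  have h2 : Real.log y ≤ Real.log x := Real.log_le_log hy0 hyx
  have h3 : Real.log x - Real.log y ≤ κ := by
    rw [← Real.log_div hx0.ne' hy0.ne']
    have h4 := Real.log_le_sub_one_of_pos (div_pos hx0 hy0)
    have h5 : x / y ≤ 1 + κ := by
      rw [div_le_iff₀ hy0]; exact hx
    linarith
  have h6 : 1 / Real.log x - 1 / Real.log y =
      -((Real.log x - Real.log y) / (Real.log x * Real.log y)) := by
    have : Real.log x ≠ 0 := by linarith
    have : Real.log y ≠ 0 := by linarith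
    field_simp
    ring
  rw [h6, abs_neg, abs_of_nonneg (by apply div_nonneg <;> nlinarith)]
  refine (div_le_self (by linarith) ?_).trans h3
  nlinarith

private theorem one_add_pow_le {L : ℝ} (hL : 2 ≤ L) (c : ℕ) : (1 + L) ^ c ≤ L ^ (2 * c) := by
  rw [pow_mul]
  exact pow_le_pow_left₀ (by linarith) (by nlinarith) c

private theorem ev (A : ℕ) : ∃ X0 : ℕ, ∀ X : ℕ, X0 ≤ X →
    (5 : ℝ) ≤ Real.log X ∧ (Real.log X) ^ A ≤ (X : ℝ) ∧ 16 ≤ X := by
  have h1 : Filter.Tendsto (fun X : ℕ => Real.log X) Filter.atTop Filter.atTop :=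
    Real.tendsto_log_atTop.comp tendsto_natCast_atTop_atTop
  have h2 : ∀ᶠ x : ℝ in Filter.atTop, (Real.log x) ^ A ≤ x := by
    have := (Real.isLittleO_pow_log_id_atTop (n := A)).bound (one_pos)
    filter_upwards [this, Filter.eventually_ge_atTop 1] with x hx h1
    rw [one_mul, Real.norm_eq_abs, id, Real.norm_eq_abs, abs_of_nonneg (by linarith : 0 ≤ x)] at hx
    exact (le_abs_self _).trans hx
  have h3 : ∀ᶠ X : ℕ in Filter.atTop, (Real.log X) ^ A ≤ (X : ℝ) :=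
    tendsto_natCast_atTop_atTop.eventually h2
  have h4 : ∀ᶠ X : ℕ in Filter.atTop, (5 : ℝ) ≤ Real.log X ∧ (Real.log X) ^ A ≤ (X : ℝ) ∧ 16 ≤ X := by
    filter_upwards [h1.eventually_ge_atTop 5, h3, Filter.eventually_ge_atTop 16] with X a b c
    exact ⟨a, b, c⟩
  exact Filter.eventually_atTop.1 h4

/-- the main computation: everything about the partition -/
private theorem Dbound {X U V I : ℕ} {κ s : ℝ} {M : ℕ → ℝ} {K : ℕ → ℕ} (hκ0 : 0 < κ)
    (hM : Monotone M) (hM0 : M 0 = V) (hMI : M I = s) (hV : 1 ≤ V) (hU : 4 ≤ U)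
    (hs : s * s = X) (hs0 : 0 < s) (hUs : s < (U : ℝ) + 1)
    (hMs : ∀ i, M (i + 1) ≤ (1 + κ) * M i)
    (hK : ∀ i, K i = ⌊(X : ℝ) / M (i + 1)⌋₊) {m k : ℕ} (hm : V < m) (hk : U < k)
    (hmk : m * k ≤ X) :
    |1 / Real.log ((m * k : ℕ) : ℝ) - ∑ i ∈ range I,
      (if (M i < (m : ℝ) ∧ (m : ℝ) ≤ M (i + 1)) ∧ k ≤ K i then 1 / Real.log (M i * k) else 0)| ≤
      κ + (if (X : ℝ) / (1 + κ) < ((m * k : ℕ) : ℝ) then 1 else 0) := by
  have hk1 : s < (k : ℝ) := by
    have : ((U + 1 : ℕ) : ℝ) ≤ k := by exact_mod_cast hk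
    push_cast at this
    linarith
  have hmk' : (m : ℝ) * k ≤ X := by exact_mod_cast hmk
  have hms : (m : ℝ) ≤ s := by
    by_contra h
    push Not at h
    nlinarith
  have hMV : ∀ i, (V : ℝ) ≤ M i := fun i => by rw [← hM0]; exact hM (Nat.zero_le i)
  have hV1 : (1 : ℝ) ≤ V := by exact_mod_cast hV
  obtain ⟨i, hi, h1, h2, h3⟩ := idx M hM I m (by rw [hM0]; exact_mod_cast hm) (by rw [hMI]; exact hms)
  have hsum : ∑ i ∈ range I,
      (if (M i < (m : ℝ) ∧ (m : ℝ) ≤ M (i + 1)) ∧ k ≤ K i then 1 / Real.log (M i * k) else 0) =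
      (if k ≤ K i then 1 / Real.log (M i * k) else 0) := by
    rw [Finset.sum_eq_single i]
    · simp only [h1, h2, true_and]
    · intro j hj hne
      rw [if_neg]
      rintro ⟨h4, _⟩
      exact hne (h3 j (mem_range.1 hj) h4)
    · intro h
      exact absurd (mem_range.2 hi) h
  rw [hsum]
  have hMi : 1 ≤ M i := hV1.trans (hMV i)
  have hMi1 : 1 ≤ M (i + 1) := hV1.trans (hMV (i + 1))
  have hk4 : (4 : ℝ) ≤ k := by exact_mod_cast (by omega : 4 ≤ k)
  have he : Real.exp 1 ≤ M i * k := by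
    have := Real.exp_one_lt_d9
    nlinarith
  have hcast : ((m * k : ℕ) : ℝ) = (m : ℝ) * k := by push_cast; ring
  rw [hcast]
  by_cases hc : k ≤ K i
  · rw [if_pos hc]
    have h4 := recip (x := (m : ℝ) * k) (y := M i * k) (κ := κ) he
      (by apply mul_le_mul_of_nonneg_right h1.le (by linarith))
      (by
        have := (h2.trans (hMs i))
        calc (m : ℝ) * k ≤ ((1 + κ) * M i) * k := mul_le_mul_of_nonneg_right this (by linarith)
          _ = (1 + κ) * (M i * k) := by ring)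
    refine h4.trans ?_
    have : (0 : ℝ) ≤ (if (X : ℝ) / (1 + κ) < (m : ℝ) * k then 1 else 0) := by
      split_ifs <;> norm_num
    linarith
  · rw [if_neg hc, sub_zero]
    push Not at hc
    rw [hK, Nat.floor_lt (by positivity)] at hc
    rw [div_lt_iff₀ (by linarith)] at hc
    have h5 : (X : ℝ) / (1 + κ) < (m : ℝ) * k := by
      rw [div_lt_iff₀ (by linarith)]
      have h6 := hMs i
      have h7 : (0 : ℝ) < k := by linarith
      calc (X : ℝ) < k * M (i + 1) := hc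
        _ ≤ k * ((1 + κ) * M i) := mul_le_mul_of_nonneg_left h6 h7.le
        _ ≤ k * ((1 + κ) * m) := by
            apply mul_le_mul_of_nonneg_left _ h7.le
            apply mul_le_mul_of_nonneg_left h1.le (by linarith)
        _ = (m : ℝ) * k * (1 + κ) := by ring
    rw [if_pos h5]
    have h8 : Real.exp 1 ≤ (m : ℝ) * k := he.trans (mul_le_mul_of_nonneg_right h1.le (by linarith))
    have h9 : 1 ≤ Real.log ((m : ℝ) * k) := by
      rw [Real.le_log_iff_exp_le (lt_of_lt_of_le (Real.exp_pos 1) h8)]; exact h8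
    rw [abs_of_nonneg (by positivity)]
    have h10 : 1 / Real.log ((m : ℝ) * k) ≤ 1 := by
      rw [div_le_one (by linarith)]; exact h9
    linarith

/-- the number of integers near `X` -/
private theorem cardS {X : ℕ} {κ : ℝ} (hκ0 : 0 < κ) (h : 1 ≤ κ * X) :
    (((Icc 1 X).filter (fun n : ℕ => (X : ℝ) / (1 + κ) < (n : ℝ))).card : ℝ) ≤ 2 * κ * X := by
  have hX0 : (0 : ℝ) ≤ X := Nat.cast_nonneg _
  have h1 : (Icc 1 X).filter (fun n : ℕ => (X : ℝ) / (1 + κ) < (n : ℝ)) ⊆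
      Ioc ⌊(X : ℝ) / (1 + κ)⌋₊ X := by
    intro n hn
    rw [mem_filter, mem_Icc] at hn
    rw [mem_Ioc, Nat.floor_lt (by positivity)]
    exact ⟨hn.2, hn.1.2⟩
  have h2 := Finset.card_le_card h1
  rw [Nat.card_Ioc] at h2
  have h3 : ⌊(X : ℝ) / (1 + κ)⌋₊ ≤ X := by
    apply Nat.floor_le_of_le
    exact div_le_self hX0 (by linarith)
  have h4 : (((Icc 1 X).filter (fun n : ℕ => (X : ℝ) / (1 + κ) < (n : ℝ))).card : ℝ) ≤
      X - (⌊(X : ℝ) / (1 + κ)⌋₊ : ℝ) := by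
    rw [← Nat.cast_sub h3]
    exact_mod_cast h2
  have h5 := Nat.lt_floor_add_one ((X : ℝ) / (1 + κ))
  have h6 : (X : ℝ) - X / (1 + κ) ≤ κ * X := by
    have h7 : (X : ℝ) - X / (1 + κ) = κ * X / (1 + κ) := by
      field_simp
      ring
    rw [h7]
    exact div_le_self (by positivity) (by linarith)
  linarith

private theorem e_bound {X U V n : ℕ} {κ : ℝ} (hκ0 : 0 < κ) (hn : n ∈ Icc 1 X) (D : ℕ → ℕ → ℝ)
    (hD : ∀ m k : ℕ, V < m → U < k → m * k ≤ X → |D m k| ≤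
      κ + (if (X : ℝ) / (1 + κ) < ((m * k : ℕ) : ℝ) then 1 else 0)) :
    ‖∑ z ∈ n.divisorsAntidiagonal.filter (fun z => V < z.1 ∧ U < z.2),
      ((ArithmeticFunction.vonMangoldt z.1 * Pool.BV.c2 U z.2 * D z.1 z.2 : ℝ) : ℂ)‖ ≤
      Real.log X * (n.divisors.card : ℝ) *
        (κ + (if (X : ℝ) / (1 + κ) < (n : ℝ) then 1 else 0)) := by
  rw [mem_Icc] at hn
  set β : ℝ := κ + (if (X : ℝ) / (1 + κ) < (n : ℝ) then 1 else 0) with hβ
  have hβ0 : 0 ≤ β := by
    rw [hβ]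
    split_ifs <;> linarith
  calc ‖∑ z ∈ n.divisorsAntidiagonal.filter (fun z => V < z.1 ∧ U < z.2),
      ((ArithmeticFunction.vonMangoldt z.1 * Pool.BV.c2 U z.2 * D z.1 z.2 : ℝ) : ℂ)‖
      ≤ ∑ z ∈ n.divisorsAntidiagonal.filter (fun z => V < z.1 ∧ U < z.2),
      ArithmeticFunction.vonMangoldt z.1 * ((n.divisors.card : ℝ) * β) := by
        refine (norm_sum_le _ _).trans (Finset.sum_le_sum fun z hz => ?_)
        rw [mem_filter, Nat.mem_divisorsAntidiagonal] at hz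
        obtain ⟨⟨h1, h2⟩, h3, h4⟩ := hz
        rw [Complex.norm_real, Real.norm_eq_abs, abs_mul, abs_mul,
          abs_of_nonneg ArithmeticFunction.vonMangoldt_nonneg, mul_assoc]
        apply mul_le_mul_of_nonneg_left _ ArithmeticFunction.vonMangoldt_nonneg
        apply mul_le_mul _ _ (abs_nonneg _) (Nat.cast_nonneg _)
        · refine (c2_le U z.2).trans ?_
          have : z.2.divisors ⊆ n.divisors := Nat.divisors_subset_of_dvd h2 ⟨z.1, by rw [← h1, mul_comm]⟩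
          exact_mod_cast Finset.card_le_card this
        · have := hD z.1 z.2 h3 h4 (by rw [h1]; exact hn.2)
          rw [h1] at this
          exact this
    _ ≤ ∑ z ∈ n.divisorsAntidiagonal,
      ArithmeticFunction.vonMangoldt z.1 * ((n.divisors.card : ℝ) * β) := by
        apply sum_le_sum_of_subset_of_nonneg (filter_subset _ _)
        intro z _ _
        exact mul_nonneg ArithmeticFunction.vonMangoldt_nonneg
          (mul_nonneg (Nat.cast_nonneg _) hβ0)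
    _ = Real.log n * ((n.divisors.card : ℝ) * β) := by
        rw [← Finset.sum_mul,
          Nat.sum_divisorsAntidiagonal (fun d _ => ArithmeticFunction.vonMangoldt d),
          ArithmeticFunction.vonMangoldt_sum]
    _ ≤ Real.log X * ((n.divisors.card : ℝ) * β) := by
        apply mul_le_mul_of_nonneg_right
        · apply Real.log_le_log
          · exact_mod_cast hn.1
          · exact_mod_cast hn.2
        · exact mul_nonneg (Nat.cast_nonneg _) hβ0
    _ = Real.log X * (n.divisors.card : ℝ) * β := by ring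

private theorem sum_e {X : ℕ} {L T κ : ℝ} {C2 C4 : ℕ} (hL : 5 ≤ L) (hLX : L = Real.log X)
    (hT : 1 ≤ T) (hκ : κ = 1 / T ^ 2) (hκX : 1 ≤ κ * X) (hX : 1 ≤ X)
    (h2 : ∑ n ∈ Icc 1 X, (n.divisors.card : ℝ) ^ 2 ≤ X * (1 + Real.log X) ^ C2)
    (h4 : ∑ n ∈ Icc 1 X, (n.divisors.card : ℝ) ^ 4 ≤ X * (1 + Real.log X) ^ C4)
    (e : ℕ → ℂ) (he : ∀ n ∈ Icc 1 X, ‖e n‖ ≤ L * (n.divisors.card : ℝ) *
        (κ + (if (X : ℝ) / (1 + κ) < (n : ℝ) then 1 else 0))) :
    ∑ n ∈ Icc 1 X, ‖e n‖ ^ 2 ≤ X * L ^ (2 * C2 + 2 * C4 + 3) / T := by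
  have hT0 : 0 < T := by linarith
  have hL0 : 0 < L := by linarith
  have hκ0 : 0 < κ := by rw [hκ]; positivity
  have hX0 : (0 : ℝ) < X := by exact_mod_cast hX
  set S := (Icc 1 X).filter (fun n : ℕ => (X : ℝ) / (1 + κ) < (n : ℝ)) with hS
  have hcard := cardS hκ0 hκX
  rw [← hS] at hcard
  have hstep : ∀ n ∈ Icc 1 X, ‖e n‖ ^ 2 ≤ 2 * L ^ 2 * (κ ^ 2 * (n.divisors.card : ℝ) ^ 2) +
      (if (X : ℝ) / (1 + κ) < (n : ℝ) then 2 * L ^ 2 * (n.divisors.card : ℝ) ^ 2 else 0) := by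
    intro n hn
    have h5 := pow_le_pow_left₀ (norm_nonneg _) (he n hn) 2
    refine h5.trans ?_
    by_cases hc : (X : ℝ) / (1 + κ) < (n : ℝ)
    · rw [if_pos hc, if_pos hc]
      have h6 : (κ + 1) ^ 2 ≤ 2 * κ ^ 2 + 2 := by nlinarith [sq_nonneg (κ - 1)]
      calc (L * (n.divisors.card : ℝ) * (κ + 1)) ^ 2 =
            (L ^ 2 * (n.divisors.card : ℝ) ^ 2) * (κ + 1) ^ 2 := by ring
        _ ≤ (L ^ 2 * (n.divisors.card : ℝ) ^ 2) * (2 * κ ^ 2 + 2) :=
            mul_le_mul_of_nonneg_left h6 (by positivity)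
        _ = _ := by ring
    · rw [if_neg hc, if_neg hc, add_zero, add_zero]
      have : 0 ≤ L ^ 2 * (κ ^ 2 * (n.divisors.card : ℝ) ^ 2) := by positivity
      nlinarith
  have hS4 : ∑ n ∈ S, (n.divisors.card : ℝ) ^ 2 ≤ X / T * (1 + (1 + L) ^ C4 / 2) := by
    have h7 : ∀ n ∈ S, (n.divisors.card : ℝ) ^ 2 ≤ T / 2 + (n.divisors.card : ℝ) ^ 4 / (2 * T) := by
      intro n _
      rw [← sub_nonneg]
      have h8 : T / 2 + (n.divisors.card : ℝ) ^ 4 / (2 * T) - (n.divisors.card : ℝ) ^ 2 =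
          (T - (n.divisors.card : ℝ) ^ 2) ^ 2 / (2 * T) := by
        field_simp
        ring
      rw [h8]
      positivity
    calc ∑ n ∈ S, (n.divisors.card : ℝ) ^ 2
        ≤ ∑ n ∈ S, (T / 2 + (n.divisors.card : ℝ) ^ 4 / (2 * T)) := Finset.sum_le_sum h7
      _ = (S.card : ℝ) * (T / 2) + (∑ n ∈ S, (n.divisors.card : ℝ) ^ 4) / (2 * T) := by
          rw [Finset.sum_add_distrib, Finset.sum_const, nsmul_eq_mul, Finset.sum_div]
      _ ≤ (2 * κ * X) * (T / 2) + (X * (1 + L) ^ C4) / (2 * T) := by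
          apply add_le_add
          · exact mul_le_mul_of_nonneg_right hcard (by positivity)
          · apply div_le_div_of_nonneg_right _ (by positivity)
            refine (sum_le_sum_of_subset_of_nonneg (filter_subset _ _)
              fun _ _ _ => by positivity).trans ?_
            rw [hLX]
            exact h4
      _ = X / T * (1 + (1 + L) ^ C4 / 2) := by
          rw [hκ]
          field_simp
  have hκ2 : κ ^ 2 ≤ 1 / T := by
    rw [hκ, div_pow, one_pow, ← pow_mul]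
    apply one_div_le_one_div_of_le hT0
    calc T = T ^ 1 := (pow_one T).symm
      _ ≤ T ^ (2 * 2) := pow_le_pow_right₀ hT (by norm_num)
  calc ∑ n ∈ Icc 1 X, ‖e n‖ ^ 2
      ≤ ∑ n ∈ Icc 1 X, (2 * L ^ 2 * (κ ^ 2 * (n.divisors.card : ℝ) ^ 2) +
      (if (X : ℝ) / (1 + κ) < (n : ℝ) then 2 * L ^ 2 * (n.divisors.card : ℝ) ^ 2 else 0)) :=
        Finset.sum_le_sum hstep
    _ = 2 * L ^ 2 * (κ ^ 2 * ∑ n ∈ Icc 1 X, (n.divisors.card : ℝ) ^ 2) +
        2 * L ^ 2 * ∑ n ∈ S, (n.divisors.card : ℝ) ^ 2 := by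
        rw [Finset.sum_add_distrib, ← Finset.sum_filter, ← hS, Finset.mul_sum, Finset.mul_sum,
          Finset.mul_sum]
    _ ≤ 2 * L ^ 2 * (1 / T * (X * (1 + L) ^ C2)) +
        2 * L ^ 2 * (X / T * (1 + (1 + L) ^ C4 / 2)) := by
        apply add_le_add
        · apply mul_le_mul_of_nonneg_left _ (by positivity)
          apply mul_le_mul hκ2 _ (Finset.sum_nonneg fun _ _ => by positivity) (by positivity)
          rw [hLX]
          exact h2
        · exact mul_le_mul_of_nonneg_left hS4 (by positivity)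
    _ = X / T * (L ^ 2 * (2 * (1 + L) ^ C2 + 2 + (1 + L) ^ C4)) := by
        field_simp
        ring
    _ ≤ X / T * L ^ (2 * C2 + 2 * C4 + 3) := by
        apply mul_le_mul_of_nonneg_left _ (by positivity)
        have hL2 : 2 ≤ L := by linarith
        have hL1 : 1 ≤ L := by linarith
        have h9 := one_add_pow_le hL2 C2
        have h10 := one_add_pow_le hL2 C4
        have h11 : L ^ (2 * C2) ≤ L ^ (2 * C2 + 2 * C4) := pow_le_pow_right₀ hL1 (by omega)
        have h12 : L ^ (2 * C4) ≤ L ^ (2 * C2 + 2 * C4) := pow_le_pow_right₀ hL1 (by omega)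
        have h13 : 1 ≤ L ^ (2 * C2 + 2 * C4) := one_le_pow₀ hL1
        calc L ^ 2 * (2 * (1 + L) ^ C2 + 2 + (1 + L) ^ C4)
            ≤ L ^ 2 * (L * L ^ (2 * C2 + 2 * C4)) := by
              apply mul_le_mul_of_nonneg_left _ (by positivity)
              nlinarith
          _ = L ^ (2 * C2 + 2 * C4 + 3) := by ring
    _ = X * L ^ (2 * C2 + 2 * C4 + 3) / T := by ring

theorem blocks : ∃ C : ℕ, ∀ A' : ℕ, ∃ X0 : ℕ, ∀ X : ℕ, X0 ≤ X →
    ∃ (I : ℕ) (M : ℕ → ℝ) (K : ℕ → ℕ) (MM : ℕ → Finset ℕ) (c : ℕ → ℕ → ℂ) (e : ℕ → ℂ),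
      (I : ℝ) ≤ (Real.log X) ^ (2 * A' + 2) ∧
      (∀ i < I, Blk X (M i) (K i) (MM i) (fun m => (ArithmeticFunction.vonMangoldt m : ℂ)) (c i)
        (Real.log X) ((Real.log X) ^ C)) ∧
      (∀ i < I, ∀ m ∈ MM i, m ≤ X) ∧
      ∑ n ∈ Icc 1 X, ‖e n‖ ^ 2 ≤ X * (Real.log X) ^ C / (Real.log X) ^ A' ∧
      ∀ θ : ℝ, TII X θ = ∑ i ∈ range I, ∑ m ∈ MM i,
        (ArithmeticFunction.vonMangoldt m : ℂ) * tp (K i) (c i) ((m : ℝ) * θ) + tp X e θ := by
  obtain ⟨C2, hC2⟩ := Pool.MP_dd84fd_nt.L2G.div_mom 2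
  obtain ⟨C4, hC4⟩ := Pool.MP_dd84fd_nt.L2G.div_mom 4
  refine ⟨2 * C2 + 2 * C4 + 3, fun A' => ?_⟩
  obtain ⟨X0, hX0⟩ := ev (2 * A')
  refine ⟨X0, fun X hX => ?_⟩
  obtain ⟨hL5, hpow, h16⟩ := hX0 X hX
  set L := Real.log X with hL
  have hL0 : 0 < L := by linarith
  have hX0' : (0 : ℝ) < X := by exact_mod_cast (by omega : 0 < X)
  set T : ℝ := L ^ A' with hT
  have hT1 : 1 ≤ T := one_le_pow₀ (by linarith)
  have hT0 : 0 < T := by linarith
  set κ : ℝ := 1 / T ^ 2 with hκ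
  have hκ0 : 0 < κ := by positivity
  have hκ1 : κ ≤ 1 := by
    rw [hκ, div_le_one (by positivity)]
    exact one_le_pow₀ hT1
  have hT2 : T ^ 2 = L ^ (2 * A') := by rw [hT, ← pow_mul, mul_comm]
  have hκX : 1 ≤ κ * X := by
    rw [hκ, hT2, one_div, inv_mul_eq_div, le_div_iff₀ (by positivity), one_mul]
    exact hpow
  set U := U0 X with hU
  set V := V0 X with hV
  have hUU : U * U ≤ X := Nat.sqrt_le X
  have hVV : V * V ≤ U := Nat.sqrt_le _
  have hU4 : 4 ≤ U := by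
    rw [hU, U0, Nat.le_sqrt]
    omega
  have hV1 : 1 ≤ V := by
    rw [hV, V0, Nat.le_sqrt]
    exact le_trans (by norm_num) hU4
  set s : ℝ := Real.sqrt X with hs
  have hss : s * s = X := Real.mul_self_sqrt hX0'.le
  have hs0 : 0 < s := Real.sqrt_pos.2 hX0'
  have hUs : s < (U : ℝ) + 1 := by
    rw [hs, Real.sqrt_lt' (by positivity)]
    have : X < (U + 1) * (U + 1) := Nat.lt_succ_sqrt X
    have h' : (X : ℝ) < ((U + 1) * (U + 1) : ℕ) := by exact_mod_cast this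
    push_cast at h'
    nlinarith
  have hUs' : (U : ℝ) ≤ s := by
    rw [hs]
    apply Real.le_sqrt_of_sq_le
    have h' : ((U * U : ℕ) : ℝ) ≤ X := by exact_mod_cast hUU
    push_cast at h'
    nlinarith
  have hVs : (V : ℝ) ≤ s := by
    refine le_trans ?_ hUs'
    exact_mod_cast (le_trans (Nat.le_mul_of_pos_right V hV1) hVV)
  have hVr : (1 : ℝ) ≤ V := by exact_mod_cast hV1
  set M : ℕ → ℝ := fun i => min ((V : ℝ) * (1 + κ) ^ i) s with hMdef
  set K : ℕ → ℕ := fun i => ⌊(X : ℝ) / M (i + 1)⌋₊ with hKdef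
  have hMmono : Monotone M := by
    intro i j hij
    apply min_le_min_right
    apply mul_le_mul_of_nonneg_left _ (by positivity)
    exact pow_le_pow_right₀ (by linarith) hij
  have hM0 : M 0 = V := by
    simp only [hMdef, pow_zero, mul_one]
    exact min_eq_left hVs
  have hMs : ∀ i, M (i + 1) ≤ (1 + κ) * M i := by
    intro i
    rw [hMdef]
    simp only
    rw [mul_min_of_nonneg _ _ (by linarith : 0 ≤ 1 + κ)]
    apply min_le_min
    · rw [pow_succ]
      exact le_of_eq (by ring)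
    · nlinarith
  set I : ℕ := ⌈2 * L ^ (2 * A' + 1)⌉₊ with hI
  have hIub : (I : ℝ) ≤ L ^ (2 * A' + 2) := by
    have h1 := Nat.ceil_lt_add_one (show 0 ≤ 2 * L ^ (2 * A' + 1) by positivity)
    have h2 : 1 ≤ L ^ (2 * A' + 1) := one_le_pow₀ (by linarith)
    calc (I : ℝ) ≤ 2 * L ^ (2 * A' + 1) + 1 := h1.le
      _ ≤ L * L ^ (2 * A' + 1) := by nlinarith
      _ = L ^ (2 * A' + 2) := by ring
  have hMI : M I = s := by
    rw [hMdef]
    simp only
    apply min_eq_right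
    have h1 : 2 * L ^ (2 * A' + 1) ≤ I := Nat.le_ceil _
    have h2 : Real.exp L = X := Real.exp_log hX0'
    have h3 : L ≤ I * (κ / 2) := by
      calc L = 2 * L ^ (2 * A' + 1) * (κ / 2) := by
            rw [hκ, hT2, pow_succ]
            field_simp
        _ ≤ I * (κ / 2) := mul_le_mul_of_nonneg_right h1 (by positivity)
    have h4 : (X : ℝ) ≤ (1 + κ) ^ I := by
      calc (X : ℝ) = Real.exp L := h2.symm
        _ ≤ Real.exp (I * (κ / 2)) := Real.exp_le_exp.2 h3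
        _ = (Real.exp (κ / 2)) ^ I := by rw [← Real.exp_nat_mul]
        _ ≤ (1 + κ) ^ I := pow_le_pow_left₀ (Real.exp_pos _).le (exp_half_le hκ0.le hκ1) I
    have h5 : s ≤ X := by
      have : (1 : ℝ) ≤ s := hVr.trans hVs
      nlinarith
    calc s ≤ X := h5
      _ ≤ (1 + κ) ^ I := h4
      _ = 1 * (1 + κ) ^ I := (one_mul _).symm
      _ ≤ V * (1 + κ) ^ I := mul_le_mul_of_nonneg_right hVr (by positivity)
  have hMV : ∀ i, (V : ℝ) ≤ M i := fun i => by rw [← hM0]; exact hMmono (Nat.zero_le i)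
  have hMpos : ∀ i, 0 < M i := fun i => by linarith [hMV i]
  have hM1 : ∀ i, 1 ≤ M i := fun i => hVr.trans (hMV i)
  set MM : ℕ → Finset ℕ := fun i =>
    (Ioc V X).filter (fun m : ℕ => M i < (m : ℝ) ∧ (m : ℝ) ≤ M (i + 1)) with hMM
  set c : ℕ → ℕ → ℂ := fun i k =>
    if U < k then ((Pool.BV.c2 U k / Real.log (M i * k) : ℝ) : ℂ) else 0 with hc
  set D : ℕ → ℕ → ℝ := fun m k => 1 / Real.log ((m * k : ℕ) : ℝ) - ∑ i ∈ range I,
      (if (M i < (m : ℝ) ∧ (m : ℝ) ≤ M (i + 1)) ∧ k ≤ K i then 1 / Real.log (M i * k) else 0)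
    with hD
  have hKX : ∀ i, ∀ m : ℕ, (m : ℝ) ≤ M (i + 1) → m * K i ≤ X := by
    intro i m hm
    have h1 : (K i : ℝ) ≤ X / M (i + 1) := Nat.floor_le (div_nonneg hX0'.le (hMpos _).le)
    have h2 : (m : ℝ) * K i ≤ X := by
      calc (m : ℝ) * K i ≤ M (i + 1) * (X / M (i + 1)) := by
            apply mul_le_mul hm h1 (Nat.cast_nonneg _) (hMpos _).le
        _ = X := by
            have := (hMpos (i + 1)).ne'
            field_simp
    exact_mod_cast h2
  refine ⟨I, M, K, MM, c, fun n => ∑ z ∈ n.divisorsAntidiagonal.filter (fun z => V < z.1 ∧ U < z.2),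
      ((ArithmeticFunction.vonMangoldt z.1 * Pool.BV.c2 U z.2 * D z.1 z.2 : ℝ) : ℂ),
      hIub, ?_, ?_, ?_, ?_⟩
  · intro i _
    refine ⟨?_, ?_, ?_, ?_, ?_, ?_⟩
    · exact (V0_lower h16).trans (hMV i)
    · have h1 : M i ≤ s := min_le_right _ _
      rw [← Real.sqrt_eq_rpow, ← hs]
      linarith
    · apply Nat.floor_le_of_le
      exact div_le_self hX0'.le (hM1 _)
    · intro m hm
      rw [hMM, mem_filter] at hm
      refine ⟨hm.2.1, hm.2.2.trans ((hMs i).trans ?_)⟩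
      have := hMpos i
      nlinarith
    · intro m hm
      rw [hMM, mem_filter, mem_Ioc] at hm
      rw [Complex.norm_real, Real.norm_eq_abs, abs_of_nonneg ArithmeticFunction.vonMangoldt_nonneg]
      refine ArithmeticFunction.vonMangoldt_le_log.trans ?_
      apply Real.log_le_log
      · exact_mod_cast (by omega : 0 < m)
      · exact_mod_cast hm.1.2
    · have h1 : ∀ k ∈ Icc 1 (K i), ‖c i k‖ ^ 2 ≤ (k.divisors.card : ℝ) ^ 2 := by
        intro k _
        apply pow_le_pow_left₀ (norm_nonneg _)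
        rw [hc]
        simp only
        by_cases hk : U < k
        · rw [if_pos hk, Complex.norm_real, Real.norm_eq_abs, abs_div]
          have hk4 : (4 : ℝ) ≤ k := by exact_mod_cast (by omega : 4 ≤ k)
          have he : Real.exp 1 ≤ M i * k := by
            have := Real.exp_one_lt_d9
            have := hM1 i
            nlinarith
          have h2 : 1 ≤ Real.log (M i * k) := by
            rw [Real.le_log_iff_exp_le (lt_of_lt_of_le (Real.exp_pos 1) he)]; exact he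
          rw [abs_of_nonneg (by linarith : 0 ≤ Real.log (M i * k))]
          exact (div_le_self (abs_nonneg _) h2).trans (c2_le U k)
        · rw [if_neg hk, norm_zero]
          exact Nat.cast_nonneg _
      refine (Finset.sum_le_sum h1).trans ?_
      rcases Nat.eq_zero_or_pos (K i) with h0 | h0
      · rw [h0]
        simp only [Finset.Icc_eq_empty (by norm_num : ¬ (1 ≤ 0)), Finset.sum_empty]
        have := hMpos i
        positivity
      · refine ((hC2 (K i) h0).1).trans ?_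
        have h3 : Real.log (K i) ≤ L := by
          apply Real.log_le_log (by exact_mod_cast h0)
          have : K i ≤ X := by
            apply Nat.floor_le_of_le
            exact div_le_self hX0'.le (hM1 _)
          exact_mod_cast this
        have h4 : 0 ≤ Real.log (K i) := Real.log_nonneg (by exact_mod_cast h0)
        have h5 : (K i : ℝ) ≤ X / M i := by
          refine (Nat.floor_le (div_nonneg hX0'.le (hMpos _).le)).trans ?_
          exact div_le_div_of_nonneg_left hX0'.le (hMpos i) (hMmono (Nat.le_succ i))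
        have h6 : (1 + Real.log (K i)) ^ C2 ≤ L ^ (2 * C2 + 2 * C4 + 3) := by
          calc (1 + Real.log (K i)) ^ C2 ≤ (1 + L) ^ C2 :=
                pow_le_pow_left₀ (by linarith) (by linarith) _
            _ ≤ L ^ (2 * C2) := one_add_pow_le (by linarith) C2
            _ ≤ L ^ (2 * C2 + 2 * C4 + 3) := pow_le_pow_right₀ (by linarith) (by omega)
        calc (K i : ℝ) * (1 + Real.log (K i)) ^ C2 ≤ X / M i * L ^ (2 * C2 + 2 * C4 + 3) :=
              mul_le_mul h5 h6 (by positivity) (div_nonneg hX0'.le (hMpos i).le)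
          _ = L ^ (2 * C2 + 2 * C4 + 3) * X / M i := by ring
  · intro i _ m hm
    rw [hMM, mem_filter, mem_Ioc] at hm
    exact hm.1.2
  · apply sum_e hL5 hL hT1 hκ hκX (by omega) (hC2 X (by omega)).1 (hC4 X (by omega)).1
    intro n hn
    exact e_bound hκ0 hn D fun m k hm hk hmk =>
      Dbound hκ0 hMmono hM0 hMI hV1 hU4 hss hs0 hUs hMs (fun _ => rfl) hm hk hmk
  · intro θ
    have h1 : ∀ i ∈ range I, ∑ m ∈ MM i, (ArithmeticFunction.vonMangoldt m : ℂ) *
        tp (K i) (c i) ((m : ℝ) * θ) = ∑ m ∈ Ioc V X, ∑ k ∈ Ioc U (X / m),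
      ((ArithmeticFunction.vonMangoldt m * Pool.BV.c2 U k *
        (if (M i < (m : ℝ) ∧ (m : ℝ) ≤ M (i + 1)) ∧ k ≤ K i then 1 / Real.log (M i * k)
        else 0) : ℝ) : ℂ) * ee (((m * k : ℕ) : ℝ) * θ) := fun i _ =>
      blockSum X U V _ _ (M i) (M (i + 1)) (K i) (hKX i) θ
    rw [Finset.sum_congr rfl h1]
    have h2 : tp X (fun n => ∑ z ∈ n.divisorsAntidiagonal.filter (fun z => V < z.1 ∧ U < z.2),
      ((ArithmeticFunction.vonMangoldt z.1 * Pool.BV.c2 U z.2 * D z.1 z.2 : ℝ) : ℂ)) θ =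
      ∑ m ∈ Ioc V X, ∑ k ∈ Ioc U (X / m),
        ((ArithmeticFunction.vonMangoldt m * Pool.BV.c2 U k * D m k : ℝ) : ℂ) *
          ee (((m * k : ℕ) : ℝ) * θ) := by
      rw [swapMK V U X (fun m k => ((ArithmeticFunction.vonMangoldt m * Pool.BV.c2 U k *
        D m k : ℝ) : ℂ)) (fun n => ee ((n : ℝ) * θ))]
      rfl
    rw [h2, Finset.sum_comm, ← Finset.sum_add_distrib]
    unfold TII
    rw [← hU, ← hV]
    refine Finset.sum_congr rfl fun m _ => ?_
    rw [Finset.sum_comm, ← Finset.sum_add_distrib]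
    refine Finset.sum_congr rfl fun k _ => ?_
    rw [← Finset.sum_mul, ← add_mul]
    congr 1
    rw [← Complex.ofReal_sum, ← Complex.ofReal_add]
    congr 1
    rw [← Finset.mul_sum, ← mul_add, hD]
    simp only
    ring

end Pool.MP_dd84fd_nt.PL
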