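import Pool.Agent.Lib.MP_dd84fd_nt.PL.Overlap
import Pool.Agent.Lib.MP_dd84fd_nt.PL.BMass
import Pool.Agent.Lib.MP_dd84fd_nt.DivBound

/-!
# PL-Gcd: the terms with `(m, q) > 1`

Fix `q ∈ QQ`.  If `Λ(m) ≠ 0` and `(m,q) > 1` then `m = p^j`, `p ∣ q`; at most `(log₂ q)(log₂ X) ≤ 4 L²` such `m ≤ X`.
Cauchy: `‖∑_m‖² ≤ 4 L² ∑_m L² ‖P(m(a/q+σx))‖²`, `P = tp K c`.  With `g = gcd(m,q)`: `m/g` is coprime to `q/g`
(`m/g` is a power of `p`; either `m/g = 1`, or `g = p^i` is the full power of `p` dividing `q`, so `p ∤ q/g`), and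
`a ↦ (m/g) a mod (q/g)` maps `rr q` to `rr (q/g)`, each value at most `φ(q)/φ(q/g) ≤ g` times (or crudely: the number of
`a < q` in a given class modulo `q/g` is exactly `g`).  So
`∑_a ∫_{bq/X}^{2bq/X} ‖P(m(a/q+σx))‖² dx ≤ g ∑_{a' ∈ rr(q/g)} ∫ ‖P(a'/(q/g) + σ m x)‖² dx
= (g/m) ∑_{a'} ∫_{m bq/X}^{2m bq/X} ‖P(a'/(q/g) + σ y)‖² dy ≤ (g/m)(m (bq/X)(q/g) + 1) ∑‖c_k‖²`
(`overlap_sigma` for the family `{q/g}`, `N = q/g`; `tp_l2`) `≤ q (2b/X + 1/M) S X/M` (`g ≤ q`, `m > M`, `S = L^C1`).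
`∑_{q ∈ QQ} q ≤ ∑ φ(q) τ(q) ≤ C X^(δ/16) (N+1)` (`count`, `q ≤ φ(q) τ(q)`, `div_bound`).
Total `≤ 16 L^6·X^(δ/8)·L^C1·N (2b/M·.. + X/M²) ≤ X^(1-δ/2)`: `N b ≤ X^(1/2-δ)`, `N ≤ X^(1/2-δ) L^A1`, `M ≥ X^(1/4)/2`.
-/

set_option autoImplicit false

namespace Pool.MP_dd84fd_nt.PL

open Finset Pool.MP_67663b_nt.Odd

private theorem gp_per {F : ℝ → ℝ} (hp : ∀ x, F (x + 1) = F x) (n : ℕ) (x : ℝ) :
    F ((n : ℝ) + x) = F x := by
  induction n with
  | zero => simp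
  | succ n ih =>
    have h := hp ((n : ℝ) + x)
    rw [ih] at h
    rw [← h]
    congr 1
    push_cast
    ring

private theorem gp_card (g m' q' r : ℕ) (hc : Nat.Coprime m' q') (S : Finset ℕ)
    (hS : ∀ a ∈ S, a < g * q' ∧ (m' * a) % q' = r) : S.card ≤ g := by
  rcases Nat.eq_zero_or_pos q' with hq | hq
  · subst hq
    have : S = ∅ := by
      refine Finset.eq_empty_of_forall_notMem fun a ha => ?_
      have := (hS a ha).1
      simp at this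
    simp [this]
  have h := Finset.card_le_card_of_injOn (s := S) (t := range g) (fun a => a / q') (by
    intro a ha
    have h1 := (hS a ha).1
    rw [Finset.coe_range]
    exact Set.mem_Iio.2 (Nat.div_lt_of_lt_mul (by rwa [mul_comm] at h1))) (by
    intro a ha b hb hab
    have h1 := (hS a ha).2
    have h2 := (hS b hb).2
    have h3 : m' * a ≡ m' * b [MOD q'] := by
      unfold Nat.ModEq
      rw [h1, h2]
    have h4 : a ≡ b [MOD q'] := Nat.ModEq.cancel_left_of_coprime (by rwa [Nat.coprime_comm] at hc) h3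
    have h5 : a % q' = b % q' := h4
    have h6 : a / q' = b / q' := hab
    rw [← Nat.div_add_mod a q', ← Nat.div_add_mod b q', h5, h6])
  rwa [Finset.card_range] at h

private theorem gp_inner (q m : ℕ) (hq : 1 ≤ q) (hm : 1 ≤ m) (F : ℝ → ℝ) (hF : Continuous F)
    (h0 : ∀ x, 0 ≤ F x) (hp : ∀ x, F (x + 1) = F x) (s t : ℝ) (hst : s ≤ t) (σ : ℝ)
    (hσ : σ = 1 ∨ σ = -1) :
    ∑ a ∈ rr q, ∫ x in s..t, F ((m : ℝ) * ((a : ℝ) / q + σ * x)) ≤
      (q : ℝ) * ((t - s) + 1 / m) * ∫ x in (0 : ℝ)..1, F x := by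
  have hg0 : 0 < Nat.gcd m q := Nat.gcd_pos_of_pos_left _ (by omega)
  set g : ℕ := Nat.gcd m q with hg
  obtain ⟨m', hm'⟩ : g ∣ m := Nat.gcd_dvd_left m q
  obtain ⟨q', hq'⟩ : g ∣ q := Nat.gcd_dvd_right m q
  have hcop : Nat.Coprime m' q' := by
    have h1 := Nat.coprime_div_gcd_div_gcd hg0
    rw [← hg] at h1
    have e1 : m / g = m' := by rw [hm', Nat.mul_div_cancel_left _ hg0]
    have e2 : q / g = q' := by rw [hq', Nat.mul_div_cancel_left _ hg0]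
    rwa [e1, e2] at h1
  have hq'0 : 0 < q' := by
    rcases Nat.eq_zero_or_pos q' with h | h
    · rw [h, mul_zero] at hq'
      omega
    · exact h
  have hm0 : (0 : ℝ) < m := by exact_mod_cast hm
  have hgr : (0 : ℝ) < g := by exact_mod_cast hg0
  have hqr : (0 : ℝ) < q' := by exact_mod_cast hq'0
  have hmm : (m : ℝ) = g * m' := by exact_mod_cast hm'
  have hqq : (q : ℝ) = g * q' := by exact_mod_cast hq'
  have hI0 : 0 ≤ ∫ x in (0 : ℝ)..1, F x :=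
    intervalIntegral.integral_nonneg zero_le_one fun x _ => h0 x
  set G : ℕ → ℝ := fun r => ∫ y in ((m : ℝ) * s)..((m : ℝ) * t), F ((r : ℝ) / q' + σ * y) with hG
  have hmst : (m : ℝ) * s ≤ m * t := mul_le_mul_of_nonneg_left hst hm0.le
  have hG0 : ∀ r, 0 ≤ G r := fun r => intervalIntegral.integral_nonneg hmst fun x _ => h0 _
  have h1 : ∀ a : ℕ, ∫ x in s..t, F ((m : ℝ) * ((a : ℝ) / q + σ * x)) =
      (m : ℝ)⁻¹ * G ((m' * a) % q') := by
    intro a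
    have e1 : ∀ x : ℝ, F ((m : ℝ) * ((a : ℝ) / q + σ * x)) =
        (fun y : ℝ => F ((((m' * a) % q' : ℕ) : ℝ) / q' + σ * y)) ((m : ℝ) * x) := by
      intro x
      show _ = F ((((m' * a) % q' : ℕ) : ℝ) / q' + σ * ((m : ℝ) * x))
      rw [← gp_per hp ((m' * a) / q') ((((m' * a) % q' : ℕ) : ℝ) / q' + σ * ((m : ℝ) * x))]
      congr 1
      have e2 : ((m' : ℝ) * a) = q' * (((m' * a) / q' : ℕ) : ℝ) + (((m' * a) % q' : ℕ) : ℝ) := by
        have := Nat.div_add_mod (m' * a) q'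
        exact_mod_cast this.symm
      have e3 : (m : ℝ) * ((a : ℝ) / q) = (m' * a) / q' := by
        rw [hmm, hqq]
        field_simp
      have e4 : ((m' : ℝ) * a) / q' = (((m' * a) / q' : ℕ) : ℝ) + (((m' * a) % q' : ℕ) : ℝ) / q' := by
        rw [e2]
        field_simp
      rw [mul_add, e3, e4]
      ring
    rw [intervalIntegral.integral_congr (g := fun x : ℝ =>
      (fun y : ℝ => F ((((m' * a) % q' : ℕ) : ℝ) / q' + σ * y)) ((m : ℝ) * x)) (fun x _ => e1 x),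
      intervalIntegral.integral_comp_mul_left (fun y : ℝ => F ((((m' * a) % q' : ℕ) : ℝ) / q' + σ * y))
        hm0.ne', smul_eq_mul]
  simp_rw [h1]
  rw [← Finset.mul_sum]
  have hmaps : ∀ a ∈ rr q, (m' * a) % q' ∈ rr q' := by
    intro a ha
    unfold rr at ha ⊢
    rw [mem_filter, mem_range] at ha ⊢
    refine ⟨Nat.mod_lt _ hq'0, ?_⟩
    have h2 : Nat.Coprime a q' := Nat.Coprime.coprime_dvd_right ⟨g, by rw [hq', mul_comm]⟩ ha.2
    have h3 : Nat.Coprime (m' * a) q' := Nat.Coprime.mul_left hcop h2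
    show Nat.gcd ((m' * a) % q') q' = 1
    rw [← Nat.gcd_rec q' (m' * a), Nat.gcd_comm]
    exact h3
  have h2 : ∑ a ∈ rr q, G ((m' * a) % q') ≤ ∑ r ∈ rr q', (g : ℝ) * G r := by
    rw [← Finset.sum_fiberwise_of_maps_to hmaps]
    refine Finset.sum_le_sum fun r _ => ?_
    have h3 : ∑ a ∈ (rr q).filter (fun a => (m' * a) % q' = r), G ((m' * a) % q') =
        (((rr q).filter (fun a => (m' * a) % q' = r)).card : ℝ) * G r := by
      rw [Finset.sum_congr rfl (fun a ha => by rw [(mem_filter.1 ha).2]), Finset.sum_const,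
        nsmul_eq_mul]
    rw [h3]
    refine mul_le_mul_of_nonneg_right ?_ (hG0 r)
    have h4 := gp_card g m' q' r hcop ((rr q).filter (fun a => (m' * a) % q' = r)) (by
      intro a ha
      rw [mem_filter] at ha
      refine ⟨?_, ha.2⟩
      have h5 := ha.1
      unfold rr at h5
      rw [mem_filter, mem_range, hq'] at h5
      exact h5.1)
    exact_mod_cast h4
  have h3 := overlap_sigma {q'} (q' : ℝ) ⟨by simp; omega, by simp⟩ (by exact_mod_cast hq'0) F hF h0 hp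
    ((m : ℝ) * s) ((m : ℝ) * t) hmst σ hσ
  rw [Finset.sum_singleton] at h3
  have hgq : (g : ℝ) ≤ q := by
    have : g ≤ q := Nat.le_of_dvd (by omega) (Nat.gcd_dvd_right m q)
    exact_mod_cast this
  calc (m : ℝ)⁻¹ * ∑ a ∈ rr q, G ((m' * a) % q')
      ≤ (m : ℝ)⁻¹ * ∑ r ∈ rr q', (g : ℝ) * G r := mul_le_mul_of_nonneg_left h2 (by positivity)
    _ = (m : ℝ)⁻¹ * (g * ∑ r ∈ rr q', G r) := by rw [← Finset.mul_sum]
    _ ≤ (m : ℝ)⁻¹ * (g * ((((m : ℝ) * t - m * s) * q' + 1) * ∫ x in (0 : ℝ)..1, F x)) :=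
        mul_le_mul_of_nonneg_left (mul_le_mul_of_nonneg_left h3 hgr.le) (by positivity)
    _ = ((q : ℝ) * (t - s) + g / m) * ∫ x in (0 : ℝ)..1, F x := by
        rw [hqq]
        field_simp
    _ ≤ (q : ℝ) * ((t - s) + 1 / m) * ∫ x in (0 : ℝ)..1, F x := by
        refine mul_le_mul_of_nonneg_right ?_ hI0
        rw [mul_add, mul_one_div]
        have : (g : ℝ) / m ≤ q / m := div_le_div_of_nonneg_right hgq hm0.le
        linarith

private theorem gp_omega (q : ℕ) (hq : 1 ≤ q) : q.primeFactors.card ≤ Nat.log 2 q := by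
  refine Nat.le_log_of_pow_le (by norm_num) ?_
  calc 2 ^ q.primeFactors.card = ∏ _p ∈ q.primeFactors, 2 := by rw [Finset.prod_const]
    _ ≤ ∏ p ∈ q.primeFactors, p := Finset.prod_le_prod' fun p hp =>
        (Nat.prime_of_mem_primeFactors hp).two_le
    _ ≤ q := Nat.le_of_dvd (by omega) (Nat.prod_primeFactors_dvd q)

private theorem gp_cardS (q X : ℕ) (hq : 1 ≤ q) (hqX : q ≤ X) (S : Finset ℕ)
    (hS : ∀ m ∈ S, m ≤ X ∧ ¬ Nat.Coprime m q ∧ ArithmeticFunction.vonMangoldt m ≠ 0) :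
    S.card ≤ Nat.log 2 X * Nat.log 2 X := by
  have key : ∀ m ∈ S, ∃ p j : ℕ, p.Prime ∧ 1 ≤ j ∧ m = p ^ j ∧ p ∣ q ∧ j ≤ Nat.log 2 X := by
    intro m hm
    obtain ⟨h1, h2, h3⟩ := hS m hm
    rw [ArithmeticFunction.vonMangoldt_ne_zero_iff] at h3
    obtain ⟨p, j, hp, hj, rfl⟩ := (isPrimePow_nat_iff _).1 h3
    refine ⟨p, j, hp, hj, rfl, ?_, ?_⟩
    · by_contra h
      exact h2 (Nat.Coprime.pow_left j ((Nat.Prime.coprime_iff_not_dvd hp).2 h))
    · refine Nat.le_log_of_pow_le (by norm_num) ?_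
      exact (Nat.pow_le_pow_left hp.two_le j).trans h1
  have h := Finset.card_le_card_of_injOn (s := S)
    (t := q.primeFactors ×ˢ Icc 1 (Nat.log 2 X))
    (fun m => (m.minFac, m.factorization m.minFac)) (by
      intro m hm
      obtain ⟨p, j, hp, hj, rfl, hpq, hjX⟩ := key m hm
      have e1 : (p ^ j).minFac = p := by
        rw [Nat.Prime.pow_minFac hp (by omega)]
      simp only [e1, Finset.coe_product, Set.mem_prod, Finset.mem_coe, Nat.mem_primeFactors,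
        Nat.factorization_pow_self hp, Finset.mem_Icc]
      exact ⟨⟨hp, hpq, by omega⟩, hj, hjX⟩) (by
      intro m hm m' hm' hmm
      obtain ⟨p, j, hp, hj, rfl, hpq, hjX⟩ := key m hm
      obtain ⟨p', j', hp', hj', rfl, hpq', hjX'⟩ := key m' hm'
      have e1 : (p ^ j).minFac = p := by
        rw [Nat.Prime.pow_minFac hp (by omega)]
      have e2 : (p' ^ j').minFac = p' := by
        rw [Nat.Prime.pow_minFac hp' (by omega)]
      simp only [e1, e2, Prod.mk.injEq] at hmm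
      obtain ⟨h1, h2⟩ := hmm
      subst h1
      rw [Nat.factorization_pow_self hp, Nat.factorization_pow_self hp] at h2
      rw [h2])
  refine h.trans ?_
  rw [Finset.card_product, Nat.card_Icc, Nat.add_sub_cancel]
  exact Nat.mul_le_mul_right _ ((gp_omega q hq).trans (Nat.log_mono_right hqX))

private theorem gp_log (X : ℕ) (hX : 1 ≤ X) : (Nat.log 2 X : ℝ) ≤ 2 * Real.log X := by
  have h1 : ((2 ^ Nat.log 2 X : ℕ) : ℝ) ≤ X := by
    exact_mod_cast Nat.pow_log_le_self 2 (by omega)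
  have h2 : Real.log ((2 ^ Nat.log 2 X : ℕ) : ℝ) ≤ Real.log X := Real.log_le_log (by positivity) h1
  push_cast at h2
  rw [Real.log_pow] at h2
  have h3 := Real.log_two_gt_d9
  have h4 : (0 : ℝ) ≤ Nat.log 2 X := Nat.cast_nonneg _
  nlinarith

private theorem gp_ee_cont : Continuous ee := by
  unfold ee
  fun_prop

private theorem gp_ee_add (x y : ℝ) : ee (x + y) = ee x * ee y := by
  unfold ee
  rw [← Complex.exp_add]
  congr 1
  push_cast
  ring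

private theorem gp_ee_int (m : ℤ) : ee (m : ℝ) = 1 := by
  unfold ee
  have h : (2 * (Real.pi : ℂ) * ((m : ℝ) : ℂ) * Complex.I) = (m : ℂ) * (2 * Real.pi * Complex.I) := by
    push_cast
    ring
  rw [h]
  exact Complex.exp_int_mul_two_pi_mul_I m

private theorem gp_tp_cont (K : ℕ) (c : ℕ → ℂ) : Continuous (tp K c) := by
  unfold tp
  refine continuous_finsetSum _ fun k _ => ?_
  exact continuous_const.mul (gp_ee_cont.comp (continuous_const.mul continuous_id))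

private theorem gp_tp_per (K : ℕ) (c : ℕ → ℂ) (x : ℝ) : tp K c (x + 1) = tp K c x := by
  unfold tp
  refine sum_congr rfl fun k _ => ?_
  rw [mul_add, mul_one, gp_ee_add]
  have := gp_ee_int (k : ℤ)
  rw [Int.cast_natCast] at this
  rw [this, mul_one]

private theorem gp_oneq (X q K : ℕ) (hX : 1 ≤ X) (hL : 1 ≤ Real.log X) (hq : 1 ≤ q) (hqX : q ≤ X)
    (b M σ β : ℝ) (hM : 0 < M) (hσ : σ = 1 ∨ σ = -1) (hβ : 0 < β) (hβb : β ≤ 2 * b)
    (MM : Finset ℕ) (hMM : ∀ m ∈ MM, M < (m : ℝ)) (hMX : ∀ m ∈ MM, m ≤ X)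
    (ha : ∀ m ∈ MM, ‖(ArithmeticFunction.vonMangoldt m : ℂ)‖ ≤ Real.log X) (c : ℕ → ℂ) :
    ∑ a ∈ rr q, ∫ x in (β / X)..(2 * β / X),
      ‖∑ m ∈ MM.filter (fun m => ¬ Nat.Coprime m q),
        (ArithmeticFunction.vonMangoldt m : ℂ) * tp K c ((m : ℝ) * ((a : ℝ) / q + σ * x))‖ ^ 2 ≤
      16 * (Real.log X) ^ 6 * (q * (2 * b / X + 1 / M)) * ∑ k ∈ Icc 1 K, ‖c k‖ ^ 2 := by
  classical
  set L : ℝ := Real.log X with hLdef
  have hX0 : (0 : ℝ) < X := by exact_mod_cast hX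
  have hq0 : (0 : ℝ) < q := by exact_mod_cast hq
  have hst : β / X ≤ 2 * β / X := by
    apply div_le_div_of_nonneg_right _ hX0.le
    linarith
  set S : Finset ℕ := (MM.filter (fun m => ¬ Nat.Coprime m q)).filter
    (fun m => ArithmeticFunction.vonMangoldt m ≠ 0) with hS
  set T : ℝ := ∑ k ∈ Icc 1 K, ‖c k‖ ^ 2 with hT
  have hT0 : 0 ≤ T := Finset.sum_nonneg fun k _ => by positivity
  have hSM : ∀ m ∈ S, m ∈ MM ∧ ¬ Nat.Coprime m q ∧ ArithmeticFunction.vonMangoldt m ≠ 0 := by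
    intro m hm
    rw [hS, mem_filter, mem_filter] at hm
    exact ⟨hm.1.1, hm.1.2, hm.2⟩
  have hcard : (S.card : ℝ) ≤ 4 * L ^ 2 := by
    have h1 := gp_cardS q X hq hqX S (fun m hm => ⟨hMX m (hSM m hm).1, (hSM m hm).2⟩)
    have h2 : (S.card : ℝ) ≤ (Nat.log 2 X : ℝ) * (Nat.log 2 X : ℝ) := by exact_mod_cast h1
    have h3 := gp_log X hX
    have h4 : (0 : ℝ) ≤ Nat.log 2 X := Nat.cast_nonneg _
    nlinarith
  have hpt : ∀ (a : ℕ) (x : ℝ), ‖∑ m ∈ MM.filter (fun m => ¬ Nat.Coprime m q),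
        (ArithmeticFunction.vonMangoldt m : ℂ) * tp K c ((m : ℝ) * ((a : ℝ) / q + σ * x))‖ ^ 2 ≤
      4 * L ^ 4 * ∑ m ∈ S, ‖tp K c ((m : ℝ) * ((a : ℝ) / q + σ * x))‖ ^ 2 := by
    intro a x
    have e1 : ∑ m ∈ MM.filter (fun m => ¬ Nat.Coprime m q),
        (ArithmeticFunction.vonMangoldt m : ℂ) * tp K c ((m : ℝ) * ((a : ℝ) / q + σ * x)) =
        ∑ m ∈ S, (ArithmeticFunction.vonMangoldt m : ℂ) *
          tp K c ((m : ℝ) * ((a : ℝ) / q + σ * x)) := by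
      rw [hS]
      symm
      refine Finset.sum_filter_of_ne fun m _ hne => ?_
      intro h0
      apply hne
      rw [h0]
      simp
    rw [e1]
    have e2 : ‖∑ m ∈ S, (ArithmeticFunction.vonMangoldt m : ℂ) *
          tp K c ((m : ℝ) * ((a : ℝ) / q + σ * x))‖ ≤
        ∑ m ∈ S, L * ‖tp K c ((m : ℝ) * ((a : ℝ) / q + σ * x))‖ := by
      refine (norm_sum_le _ _).trans (Finset.sum_le_sum fun m hm => ?_)
      rw [norm_mul]
      exact mul_le_mul_of_nonneg_right (ha m (hSM m hm).1) (norm_nonneg _)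
    have e3 : (∑ m ∈ S, L * ‖tp K c ((m : ℝ) * ((a : ℝ) / q + σ * x))‖) ^ 2 ≤
        (∑ _m ∈ S, L ^ 2) * ∑ m ∈ S, ‖tp K c ((m : ℝ) * ((a : ℝ) / q + σ * x))‖ ^ 2 :=
      Finset.sum_mul_sq_le_sq_mul_sq S (fun _ => L) _
    have e4 : (∑ _m ∈ S, L ^ 2) ≤ 4 * L ^ 4 := by
      rw [Finset.sum_const, nsmul_eq_mul]
      calc (S.card : ℝ) * L ^ 2 ≤ (4 * L ^ 2) * L ^ 2 :=
            mul_le_mul_of_nonneg_right hcard (by positivity)
        _ = 4 * L ^ 4 := by ring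
    have e5 : 0 ≤ ∑ m ∈ S, ‖tp K c ((m : ℝ) * ((a : ℝ) / q + σ * x))‖ ^ 2 :=
      Finset.sum_nonneg fun m _ => by positivity
    calc ‖∑ m ∈ S, (ArithmeticFunction.vonMangoldt m : ℂ) *
          tp K c ((m : ℝ) * ((a : ℝ) / q + σ * x))‖ ^ 2
        ≤ (∑ m ∈ S, L * ‖tp K c ((m : ℝ) * ((a : ℝ) / q + σ * x))‖) ^ 2 :=
          pow_le_pow_left₀ (norm_nonneg _) e2 2
      _ ≤ _ := e3
      _ ≤ _ := mul_le_mul_of_nonneg_right e4 e5
  have hcontm : ∀ (m a : ℕ), Continuous fun x : ℝ =>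
      ‖tp K c ((m : ℝ) * ((a : ℝ) / q + σ * x))‖ ^ 2 := by
    intro m a
    exact ((gp_tp_cont K c).comp (by fun_prop)).norm.pow 2
  have hcontL : ∀ a : ℕ, Continuous fun x : ℝ =>
      ‖∑ m ∈ MM.filter (fun m => ¬ Nat.Coprime m q),
        (ArithmeticFunction.vonMangoldt m : ℂ) * tp K c ((m : ℝ) * ((a : ℝ) / q + σ * x))‖ ^ 2 := by
    intro a
    refine Continuous.pow (Continuous.norm ?_) 2
    refine continuous_finsetSum _ fun m _ => continuous_const.mul ?_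
    exact (gp_tp_cont K c).comp (by fun_prop)
  have hstep : ∀ a : ℕ, ∫ x in (β / X)..(2 * β / X),
      ‖∑ m ∈ MM.filter (fun m => ¬ Nat.Coprime m q),
        (ArithmeticFunction.vonMangoldt m : ℂ) * tp K c ((m : ℝ) * ((a : ℝ) / q + σ * x))‖ ^ 2 ≤
      4 * L ^ 4 * ∑ m ∈ S, ∫ x in (β / X)..(2 * β / X),
        ‖tp K c ((m : ℝ) * ((a : ℝ) / q + σ * x))‖ ^ 2 := by
    intro a
    rw [← intervalIntegral.integral_finsetSum fun m _ => (hcontm m a).intervalIntegrable _ _,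
      ← intervalIntegral.integral_const_mul]
    refine intervalIntegral.integral_mono_on hst ((hcontL a).intervalIntegrable _ _) ?_
      (fun x _ => hpt a x)
    exact (continuous_const.mul (continuous_finsetSum _ fun m _ => hcontm m a)).intervalIntegrable _ _
  have hF : Continuous (fun x => ‖tp K c x‖ ^ 2) := (gp_tp_cont K c).norm.pow 2
  have hmain : ∀ m ∈ S, ∑ a ∈ rr q, ∫ x in (β / X)..(2 * β / X),
        ‖tp K c ((m : ℝ) * ((a : ℝ) / q + σ * x))‖ ^ 2 ≤ (q * (2 * b / X + 1 / M)) * T := by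
    intro m hm
    have hmM := hMM m (hSM m hm).1
    have hm0 : (0 : ℝ) < m := hM.trans hmM
    have hm1 : 1 ≤ m := by
      have : 0 < m := by exact_mod_cast hm0
      omega
    have h1 := gp_inner q m hq hm1 (fun x => ‖tp K c x‖ ^ 2) hF (fun x => by positivity)
      (fun x => by rw [gp_tp_per]) (β / X) (2 * β / X) hst σ hσ
    rw [tp_l2] at h1
    refine h1.trans (mul_le_mul_of_nonneg_right ?_ hT0)
    refine mul_le_mul_of_nonneg_left ?_ hq0.le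
    have h2 : 2 * β / X - β / X ≤ 2 * b / X := by
      rw [← sub_div]
      apply div_le_div_of_nonneg_right _ hX0.le
      linarith
    have h3 : 1 / (m : ℝ) ≤ 1 / M := one_div_le_one_div_of_le hM hmM.le
    linarith
  have hb0 : 0 ≤ q * (2 * b / X + 1 / M) * T := by
    have : 0 < b := by linarith
    positivity
  calc ∑ a ∈ rr q, ∫ x in (β / X)..(2 * β / X),
      ‖∑ m ∈ MM.filter (fun m => ¬ Nat.Coprime m q),
        (ArithmeticFunction.vonMangoldt m : ℂ) * tp K c ((m : ℝ) * ((a : ℝ) / q + σ * x))‖ ^ 2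
      ≤ ∑ a ∈ rr q, 4 * L ^ 4 * ∑ m ∈ S, ∫ x in (β / X)..(2 * β / X),
        ‖tp K c ((m : ℝ) * ((a : ℝ) / q + σ * x))‖ ^ 2 := Finset.sum_le_sum fun a _ => hstep a
    _ = 4 * L ^ 4 * ∑ m ∈ S, ∑ a ∈ rr q, ∫ x in (β / X)..(2 * β / X),
        ‖tp K c ((m : ℝ) * ((a : ℝ) / q + σ * x))‖ ^ 2 := by
        rw [← Finset.mul_sum, Finset.sum_comm]
    _ ≤ 4 * L ^ 4 * ∑ _m ∈ S, (q * (2 * b / X + 1 / M)) * T :=
        mul_le_mul_of_nonneg_left (Finset.sum_le_sum hmain) (by positivity)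
    _ = 4 * L ^ 4 * (S.card * ((q * (2 * b / X + 1 / M)) * T)) := by
        rw [Finset.sum_const, nsmul_eq_mul]
    _ ≤ 4 * L ^ 4 * ((4 * L ^ 2) * ((q * (2 * b / X + 1 / M)) * T)) :=
        mul_le_mul_of_nonneg_left (mul_le_mul_of_nonneg_right hcard hb0) (by positivity)
    _ = 16 * L ^ 6 * (q * (2 * b / X + 1 / M)) * T := by ring

private theorem gp_tau (ε : ℝ) (hε : 0 < ε) : ∃ C : ℝ, 0 < C ∧ ∀ q X : ℕ, 1 ≤ q → q ≤ X →
    (q.divisors.card : ℝ) ≤ C * (X : ℝ) ^ ε := by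
  obtain ⟨k, hk⟩ := exists_nat_gt (1 / ε)
  have hk0 : (0 : ℝ) < k := lt_trans (by positivity) hk
  have hk1 : k ≠ 0 := by
    rintro rfl
    simp at hk0
  obtain ⟨C, hC1, hC⟩ := Pool.Agent.Lib.MP_dd84fd_nt.DivBound.div_bound k
  have hC0 : (1 : ℝ) ≤ C := by exact_mod_cast hC1
  refine ⟨C, by linarith, fun q X hq hqX => ?_⟩
  have h1 : ((q.divisors.card : ℝ)) ^ k ≤ C * q := by exact_mod_cast hC q (by omega)
  have hX1 : (1 : ℝ) ≤ X := by exact_mod_cast hq.trans hqX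
  have hqX' : (q : ℝ) ≤ X := by exact_mod_cast hqX
  have h2 : (C * (X : ℝ) ^ ε) ^ k ≥ C * q := by
    rw [mul_pow, ← Real.rpow_mul_natCast (by linarith)]
    have h3 : (X : ℝ) ≤ (X : ℝ) ^ (ε * k) := by
      have h4 : 1 ≤ ε * k := by
        rw [div_lt_iff₀ hε] at hk
        linarith
      calc (X : ℝ) = (X : ℝ) ^ (1 : ℝ) := (Real.rpow_one _).symm
        _ ≤ _ := Real.rpow_le_rpow_of_exponent_le hX1 h4
    have h5 : (C : ℝ) ≤ (C : ℝ) ^ k := le_self_pow₀ hC0 hk1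
    exact mul_le_mul h5 (hqX'.trans h3) (Nat.cast_nonneg _) (by positivity)
  exact le_of_pow_le_pow_left₀ hk1 (by positivity) (h1.trans h2)

private theorem gp_sumq (QQ : Finset ℕ) (N T : ℝ) (hN : Fam QQ N) (hN1 : 1 ≤ N)
    (hT : ∀ q ∈ QQ, (q.divisors.card : ℝ) ≤ T) (hT0 : 0 ≤ T) :
    ∑ q ∈ QQ, (q : ℝ) ≤ T * (2 * N) := by
  have h1 : ∀ q ∈ QQ, (q : ℝ) ≤ T * Nat.totient q := by
    intro q hq
    have h2 : q ≤ q.divisors.card * Nat.totient q := by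
      have hq1 := hN.1 q hq
      calc q = ∑ d ∈ q.divisors, Nat.totient d := (Nat.sum_totient q).symm
        _ ≤ ∑ _d ∈ q.divisors, Nat.totient q := Finset.sum_le_sum fun d hd =>
            Nat.le_of_dvd (Nat.totient_pos.2 (by omega))
              (Nat.totient_dvd_of_dvd (Nat.dvd_of_mem_divisors hd))
        _ = q.divisors.card * Nat.totient q := by rw [Finset.sum_const, smul_eq_mul]
    have h3 : (q : ℝ) ≤ (q.divisors.card : ℝ) * Nat.totient q := by exact_mod_cast h2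
    exact h3.trans (mul_le_mul_of_nonneg_right (hT q hq) (Nat.cast_nonneg _))
  have h2 := count QQ N hN hN1
  calc ∑ q ∈ QQ, (q : ℝ) ≤ ∑ q ∈ QQ, T * (Nat.totient q : ℝ) := Finset.sum_le_sum h1
    _ = T * ∑ q ∈ QQ, (Nat.totient q : ℝ) := by rw [Finset.mul_sum]
    _ ≤ T * (2 * N) := mul_le_mul_of_nonneg_left (by linarith) hT0

private theorem gp_large (c η : ℝ) (D : ℕ) (hη : 0 < η) : ∃ X0 : ℕ, ∀ X : ℕ, X0 ≤ X →
    c * (Real.log X) ^ D ≤ (X : ℝ) ^ η := by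
  have h1 := (isLittleO_log_rpow_rpow_atTop (D : ℝ) hη).def (show (0 : ℝ) < 1 / (|c| + 1) by positivity)
  obtain ⟨x0, hx0⟩ := Filter.eventually_atTop.1 (h1.and (Filter.eventually_ge_atTop (1 : ℝ)))
  refine ⟨⌈x0⌉₊, fun X hX => ?_⟩
  have hX' : x0 ≤ (X : ℝ) := Nat.ceil_le.1 hX
  obtain ⟨h2, h3⟩ := hx0 X hX'
  have hL : 0 ≤ Real.log X := Real.log_nonneg h3
  rw [Real.rpow_natCast, Real.norm_of_nonneg (by positivity), Real.norm_of_nonneg (by positivity)] at h2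
  have h4 : c * (Real.log X) ^ D ≤ (|c| + 1) * (Real.log X) ^ D := by
    refine mul_le_mul_of_nonneg_right ?_ (by positivity)
    have := le_abs_self c
    linarith
  refine h4.trans ?_
  have h5 : (|c| + 1) * (Real.log X) ^ D ≤ (|c| + 1) * (1 / (|c| + 1) * (X : ℝ) ^ η) :=
    mul_le_mul_of_nonneg_left h2 (by positivity)
  refine h5.trans (le_of_eq ?_)
  field_simp

theorem gcd_part (δ : ℝ) (A1 C1 : ℕ) (hδ : 0 < δ) (hδ' : δ ≤ 1 / 8) : ∃ X0 : ℕ, ∀ X : ℕ, X0 ≤ X →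
    ∀ (n : ℕ) (b N σ : ℝ) (QQ : Finset ℕ) (bq : ℕ → ℝ), Std X n δ A1 b N σ QQ bq →
    ∀ (M : ℝ) (K : ℕ) (MM : Finset ℕ) (c : ℕ → ℂ),
    Blk X M K MM (fun m => (ArithmeticFunction.vonMangoldt m : ℂ)) c (Real.log X)
      ((Real.log X) ^ C1) → (∀ m ∈ MM, m ≤ X) →
    N2 X bq QQ (fun q a x => ∑ m ∈ MM.filter (fun m => ¬ Nat.Coprime m q),
      (ArithmeticFunction.vonMangoldt m : ℂ) * tp K c ((m : ℝ) * ((a : ℝ) / q + σ * x))) ≤
        (X : ℝ) ^ (1 - δ / 2) := by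
  obtain ⟨C, hC, hτ⟩ := gp_tau (δ / 16) (by positivity)
  obtain ⟨X1, hX1⟩ := gp_large (256 * C) (δ / 4) (6 + C1 + A1) (by positivity)
  obtain ⟨X2, hX2⟩ := gp_large 1 (1 / 2) A1 (by norm_num)
  refine ⟨max 3 (max X1 X2), fun X hX n b N σ QQ bq hS M K MM c hB hMX => ?_⟩
  have hX3 : 3 ≤ X := (le_max_left _ _).trans hX
  have hXX1 := hX1 X ((le_max_left _ _).trans ((le_max_right _ _).trans hX))
  have hXX2 := hX2 X ((le_max_right _ _).trans ((le_max_right _ _).trans hX))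
  obtain ⟨hn1, hn2, hσ, hb, hN1, hNb, hFam, hbq⟩ := hS
  obtain ⟨hM1, hM2, hK, hMM, ha, hc⟩ := hB
  have hX0 : (0 : ℝ) < X := by
    have : 0 < X := by omega
    exact_mod_cast this
  have hX1' : (1 : ℝ) ≤ X := by
    have : 1 ≤ X := by omega
    exact_mod_cast this
  set L : ℝ := Real.log X with hLdef
  have hL : 1 ≤ L := by
    rw [hLdef, Real.le_log_iff_exp_le hX0]
    have h1 := Real.exp_one_lt_d9
    have h2 : (3 : ℝ) ≤ X := by exact_mod_cast hX3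
    linarith
  have hL0 : 0 < L := by linarith
  have hb' : 1 ≤ b * L ^ A1 := by
    rw [Real.rpow_neg hL0.le, Real.rpow_natCast] at hb
    have h1 : (L ^ A1)⁻¹ * L ^ A1 ≤ b * L ^ A1 := mul_le_mul_of_nonneg_right hb (by positivity)
    rwa [inv_mul_cancel₀ (by positivity)] at h1
  have hb0 : 0 < b := by
    have h1 : 0 < b * L ^ A1 := by linarith
    exact pos_of_mul_pos_left h1 (by positivity)
  have hN0 : 0 < N := by linarith
  have hM0 : 0 < M := lt_of_lt_of_le (by positivity) hM1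
  have hNle : N ≤ (X : ℝ) ^ (1 / 2 - δ) * L ^ A1 := by
    calc N = N * 1 := (mul_one N).symm
      _ ≤ N * (b * L ^ A1) := mul_le_mul_of_nonneg_left hb' hN0.le
      _ = N * b * L ^ A1 := by ring
      _ ≤ _ := mul_le_mul_of_nonneg_right hNb (by positivity)
  have hNX : N ≤ X := by
    refine hNle.trans ?_
    rw [one_mul] at hXX2
    calc (X : ℝ) ^ (1 / 2 - δ) * L ^ A1 ≤ (X : ℝ) ^ (1 / 2 - δ) * (X : ℝ) ^ (1 / 2 : ℝ) :=
          mul_le_mul_of_nonneg_left hXX2 (by positivity)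
      _ = (X : ℝ) ^ (1 - δ) := by
          rw [← Real.rpow_add hX0]
          congr 1
          ring
      _ ≤ (X : ℝ) ^ (1 : ℝ) := Real.rpow_le_rpow_of_exponent_le hX1' (by linarith)
      _ = X := Real.rpow_one _
  have hqX : ∀ q ∈ QQ, q ≤ X := by
    intro q hq
    have h1 := hFam.2 q hq q hq
    rw [Nat.lcm_self] at h1
    have h2 : (q : ℝ) ≤ X := h1.trans hNX
    exact_mod_cast h2
  set T : ℝ := ∑ k ∈ Icc 1 K, ‖c k‖ ^ 2 with hT
  have hT0 : 0 ≤ T := Finset.sum_nonneg fun k _ => by positivity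
  have hsq : ∑ q ∈ QQ, (q : ℝ) ≤ (C * (X : ℝ) ^ (δ / 16)) * (2 * N) :=
    gp_sumq QQ N _ hFam hN1 (fun q hq => hτ q X (hFam.1 q hq) (hqX q hq)) (by positivity)
  have h1 : N2 X bq QQ (fun q a x => ∑ m ∈ MM.filter (fun m => ¬ Nat.Coprime m q),
      (ArithmeticFunction.vonMangoldt m : ℂ) * tp K c ((m : ℝ) * ((a : ℝ) / q + σ * x))) ≤
      ∑ q ∈ QQ, 16 * L ^ 6 * (q * (2 * b / X + 1 / M)) * T := by
    unfold N2
    refine Finset.sum_le_sum fun q hq => ?_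
    exact gp_oneq X q K (by omega) hL (hFam.1 q hq) (hqX q hq) b M σ (bq q) hM0 hσ
      (by linarith [(hbq q hq).1]) (hbq q hq).2 MM (fun m hm => (hMM m hm).1) hMX ha c
  have h2 : ∑ q ∈ QQ, 16 * L ^ 6 * (q * (2 * b / X + 1 / M)) * T =
      16 * L ^ 6 * (2 * b / X + 1 / M) * T * ∑ q ∈ QQ, (q : ℝ) := by
    rw [Finset.mul_sum]
    refine Finset.sum_congr rfl fun q _ => ?_
    ring
  have hMi : 1 / M ≤ 2 * (X : ℝ) ^ (-(1 / 4) : ℝ) := by
    rw [Real.rpow_neg hX0.le, div_le_iff₀ hM0]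
    have h3 : (0 : ℝ) < (X : ℝ) ^ (1 / 4 : ℝ) := by positivity
    calc (1 : ℝ) = 2 * ((X : ℝ) ^ (1 / 4 : ℝ))⁻¹ * ((X : ℝ) ^ (1 / 4 : ℝ) / 2) := by field_simp
      _ ≤ 2 * ((X : ℝ) ^ (1 / 4 : ℝ))⁻¹ * M := mul_le_mul_of_nonneg_left hM1 (by positivity)
  have hb1 : N * b * (1 / M) ≤ 2 * (X : ℝ) ^ (1 - δ) := by
    calc N * b * (1 / M) ≤ (X : ℝ) ^ (1 / 2 - δ) * (2 * (X : ℝ) ^ (-(1 / 4) : ℝ)) :=
          mul_le_mul hNb hMi (by positivity) (by positivity)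
      _ = 2 * (X : ℝ) ^ (1 / 4 - δ) := by
          rw [mul_left_comm, ← Real.rpow_add hX0]
          congr 2
          ring
      _ ≤ 2 * (X : ℝ) ^ (1 - δ) := by
          refine mul_le_mul_of_nonneg_left ?_ (by norm_num)
          exact Real.rpow_le_rpow_of_exponent_le hX1' (by linarith)
  have hMi2 : (1 / M) ^ 2 ≤ 4 * (X : ℝ) ^ (-(1 / 2) : ℝ) := by
    calc (1 / M) ^ 2 ≤ (2 * (X : ℝ) ^ (-(1 / 4) : ℝ)) ^ 2 :=
          pow_le_pow_left₀ (by positivity) hMi 2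
      _ = 4 * (X : ℝ) ^ (-(1 / 2) : ℝ) := by
          rw [mul_pow, ← Real.rpow_natCast ((X : ℝ) ^ (-(1 / 4) : ℝ)) 2, ← Real.rpow_mul hX0.le]
          norm_num
  have hb2 : N * X * (1 / M) ^ 2 ≤ 4 * (X : ℝ) ^ (1 - δ) * L ^ A1 := by
    calc N * X * (1 / M) ^ 2 ≤ ((X : ℝ) ^ (1 / 2 - δ) * L ^ A1) * X * (4 * (X : ℝ) ^ (-(1 / 2) : ℝ)) :=
          mul_le_mul (mul_le_mul_of_nonneg_right hNle hX0.le) hMi2 (by positivity) (by positivity)
      _ = 4 * ((X : ℝ) ^ (1 / 2 - δ) * (X : ℝ) ^ (1 : ℝ) * (X : ℝ) ^ (-(1 / 2) : ℝ)) * L ^ A1 := by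
          rw [Real.rpow_one]
          ring
      _ = 4 * (X : ℝ) ^ (1 - δ) * L ^ A1 := by
          rw [← Real.rpow_add hX0, ← Real.rpow_add hX0]
          congr 3
          ring
  have hLA : 1 ≤ L ^ A1 := one_le_pow₀ hL
  have h3 : (2 * b / X + 1 / M) * (X / M) * N ≤ 8 * (X : ℝ) ^ (1 - δ) * L ^ A1 := by
    have e1 : (2 * b / X + 1 / M) * (X / M) * N = 2 * (N * b * (1 / M)) + N * X * (1 / M) ^ 2 := by
      field_simp
    rw [e1]
    have h4 : 0 ≤ (X : ℝ) ^ (1 - δ) := by positivity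
    nlinarith
  have hs0 : 0 ≤ ∑ q ∈ QQ, (q : ℝ) := Finset.sum_nonneg fun q _ => Nat.cast_nonneg _
  refine h1.trans ?_
  rw [h2]
  calc 16 * L ^ 6 * (2 * b / X + 1 / M) * T * ∑ q ∈ QQ, (q : ℝ)
      ≤ 16 * L ^ 6 * (2 * b / X + 1 / M) * (L ^ C1 * X / M) *
          ((C * (X : ℝ) ^ (δ / 16)) * (2 * N)) := by
        refine mul_le_mul (mul_le_mul_of_nonneg_left hc (by positivity)) hsq hs0 (by positivity)
    _ = 32 * C * L ^ (6 + C1) * (X : ℝ) ^ (δ / 16) * ((2 * b / X + 1 / M) * (X / M) * N) := by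
        rw [pow_add]
        ring
    _ ≤ 32 * C * L ^ (6 + C1) * (X : ℝ) ^ (δ / 16) * (8 * (X : ℝ) ^ (1 - δ) * L ^ A1) :=
        mul_le_mul_of_nonneg_left h3 (by positivity)
    _ = (256 * C * L ^ (6 + C1 + A1)) * ((X : ℝ) ^ (δ / 16) * (X : ℝ) ^ (1 - δ)) := by
        rw [pow_add L (6 + C1) A1]
        ring
    _ ≤ (X : ℝ) ^ (δ / 4) * ((X : ℝ) ^ (δ / 16) * (X : ℝ) ^ (1 - δ)) :=
        mul_le_mul_of_nonneg_right hXX1 (by positivity)
    _ = (X : ℝ) ^ (δ / 4 + (δ / 16 + (1 - δ))) := by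
        rw [← Real.rpow_add hX0, ← Real.rpow_add hX0]
    _ ≤ (X : ℝ) ^ (1 - δ / 2) := Real.rpow_le_rpow_of_exponent_le hX1' (by linarith)

end Pool.MP_dd84fd_nt.PL
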