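import Pool.Agent.Lib.MP_dd84fd_nt.PL.TypeI
import Pool.Agent.Lib.MP_dd84fd_nt.En.Recip2

/-!
# PL-TILarge: type I sums at distance `≍ y/X` from `a/q`

`α = a/q + σx`, `y/X ≤ x ≤ 2y/X`, `y ≥ 1`, `8 y q² ≤ X`.  Dirichlet with `R_D = 2X/(qy)` (`≥ 16 q`): a reduced `c/r`,
`1 ≤ r ≤ R_D`, `|α - c/r| ≤ 1/(r R_D) ≤ 1/r²`.  `c/r ≠ a/q`, since otherwise `x ≤ 1/(q R_D) = y/(2X) < x`.  So
`1/(q r) ≤ |a/q - c/r| ≤ 2y/X + 1/(r R_D)`, `1 ≤ 2 y q r/X + q/R_D ≤ 2yqr/X + 1/16`, `r ≥ X/(4 q y)`.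
`∑_{d ≤ D} mn(X/d, dα)`: for `d ≤ r/2`: `nrm(dα) ≥ 1/r - d/r² ≥ 1/(2r)`, `mn ≤ r` so `mn(X/d,dα) ≤ mn(r, dα)` and `min_sum` with
`Y = r/2`, `M = r`: `≤ C r(1+log r)`.  For `d > r/2`: dyadic blocks `2^j < d ≤ 2^(j+1)`, `2^j ≥ r/4`: `mn(X/d,·) ≤ mn(X/2^j,·)` and
`min_sum` up to `2^(j+1)`: `≤ C(2^(j+1)/r + 1)(X/2^j + r(1+log r)) ≤ C'(X/r + 2^j(1+log r))`; at most `2 + 2 log X` blocks with
`2^j ≤ D`.  Total `≤ C (1+log X)² (X/r + D + r) ≤ C(1+log X)² (4qy + D + 2X/(qy))`.  With `ti_le`.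
(There may be a ready lemma in `L2G/AI2`, `L2G/UVsums`, `En/`: search for `min_sum` / `sum_mn`.)
-/

set_option autoImplicit false

namespace Pool.MP_dd84fd_nt.PL

open Finset Pool.MP_67663b_nt.Odd

/-- rational approximation at distance `≍ y/X` from `a/q` -/
private theorem tl_dirichlet (X q a : ℕ) (y x σ : ℝ) (hX : 1 ≤ X) (hq : 1 ≤ q)
    (hc : Nat.Coprime a q) (hσ : σ = 1 ∨ σ = -1) (hy : 1 ≤ y) (hx1 : y / X ≤ x) (hx2 : x ≤ 2 * y / X)
    (hyq : 8 * y * (q : ℝ) ^ 2 ≤ X) :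
    ∃ (r : ℕ) (c : ℤ), 0 < r ∧ Int.gcd c r = 1 ∧
      |(a : ℝ) / q + σ * x - (c : ℝ) / r| ≤ 1 / (r : ℝ) ^ 2 ∧
      (r : ℝ) ≤ 2 * X / (q * y) ∧ (X : ℝ) / r ≤ 4 * (q * y) := by
  have hX0 : (0 : ℝ) < X := by exact_mod_cast hX
  have hq0 : (0 : ℝ) < q := by exact_mod_cast hq
  have hq1 : (1 : ℝ) ≤ q := by exact_mod_cast hq
  have hy0 : 0 < y := by linarith
  have hqy : 0 < (q : ℝ) * y := by positivity
  have hx0 : 0 < x := lt_of_lt_of_le (by positivity) hx1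
  set RD : ℝ := 2 * X / (q * y) with hRD
  have hRD1 : 1 ≤ RD := by
    rw [hRD, le_div_iff₀ hqy, one_mul]
    nlinarith [mul_pos hy0 hq0]
  set n : ℕ := ⌊RD⌋₊ with hn
  have hn0 : 0 < n := Nat.floor_pos.mpr hRD1
  have hnle : (n : ℝ) ≤ RD := Nat.floor_le (by linarith)
  have hnlt : RD < n + 1 := Nat.lt_floor_add_one _
  set α : ℝ := (a : ℝ) / q + σ * x with hα
  obtain ⟨r, hr1, hr2⟩ := Real.exists_rat_abs_sub_le_and_den_le α hn0
  have hden : 0 < r.den := r.den_pos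
  have hdR : (0 : ℝ) < r.den := by exact_mod_cast hden
  have hqn : (r.den : ℝ) ≤ n := by exact_mod_cast hr2
  have hr : (r : ℝ) = (r.num : ℝ) / (r.den : ℝ) := by
    exact_mod_cast (Rat.num_div_den r).symm
  rw [hr] at hr1
  have hax : |α - (a : ℝ) / q| = x := by
    have h1 : α - (a : ℝ) / q = σ * x := by rw [hα]; ring
    rw [h1, abs_mul, abs_of_pos hx0]
    rcases hσ with h | h <;> rw [h] <;> norm_num
  have hr3 : |α - (r.num : ℝ) / (r.den : ℝ)| ≤ (q * y) / (2 * X * r.den) := by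
    refine hr1.trans ?_
    rw [div_le_div_iff₀ (by positivity) (by positivity), one_mul]
    have h1 : 2 * (X : ℝ) = RD * (q * y) := by
      rw [hRD]
      field_simp
    have h2 : RD * (q * y) ≤ ((n : ℝ) + 1) * (q * y) := by gcongr
    calc 2 * (X : ℝ) * r.den = RD * (q * y) * r.den := by rw [h1]
      _ ≤ ((n : ℝ) + 1) * (q * y) * r.den := by gcongr
      _ = q * y * (((n : ℝ) + 1) * r.den) := by ring
  refine ⟨r.den, r.num, hden, ?_, ?_, hqn.trans hnle, ?_⟩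
  · have := r.reduced
    rw [Int.gcd, Int.natAbs_natCast]
    exact this
  · refine hr1.trans ?_
    apply one_div_le_one_div_of_le (by positivity)
    rw [pow_two]
    apply mul_le_mul_of_nonneg_right _ hdR.le
    linarith
  · -- the fraction differs from `a/q`
    have hne : (a : ℤ) * r.den - r.num * q ≠ 0 := by
      intro h0
      have h1 : (a : ℝ) * r.den = r.num * q := by
        have : (a : ℤ) * r.den = r.num * q := by linarith
        exact_mod_cast this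
      have h2 : (r.num : ℝ) / (r.den : ℝ) = (a : ℝ) / q := by
        rw [div_eq_div_iff hdR.ne' hq0.ne']
        linarith
      have h3 : q ∣ r.den := by
        have h4 : (q : ℤ) ∣ (a : ℤ) * r.den := ⟨r.num, by linarith⟩
        have h5 : q ∣ a * r.den := by exact_mod_cast h4
        exact hc.symm.dvd_of_dvd_mul_left h5
      have h6 : q ≤ r.den := Nat.le_of_dvd hden h3
      have h7 : (q : ℝ) ≤ r.den := by exact_mod_cast h6
      rw [h2, hax] at hr3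
      have h8 : q * y / (2 * X * r.den) ≤ q * y / (2 * X * q) := by gcongr
      have h9 : q * y / (2 * X * q) = (y / X) / 2 := by
        field_simp
      have h10 : 0 < y / X := by positivity
      linarith
    have h1 : (1 : ℝ) ≤ |(a : ℝ) * r.den - r.num * q| := by
      have h9 := Int.one_le_abs hne
      have h10 : ((1 : ℤ) : ℝ) ≤ ((|(a : ℤ) * r.den - r.num * q| : ℤ) : ℝ) := by exact_mod_cast h9
      push_cast at h10
      exact h10
    have h2 : (a : ℝ) * r.den - r.num * q =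
        q * r.den * ((α - (r.num : ℝ) / r.den) - (α - (a : ℝ) / q)) := by
      field_simp
      ring
    have h3 : |(a : ℝ) * r.den - r.num * q| ≤ q * r.den * ((q * y) / (2 * X * r.den) + 2 * y / X) := by
      rw [h2, abs_mul, abs_of_pos (by positivity)]
      refine mul_le_mul_of_nonneg_left ?_ (by positivity)
      refine (abs_sub _ _).trans ?_
      rw [hax]
      exact add_le_add hr3 hx2
    have h4 : (q : ℝ) * r.den * ((q * y) / (2 * X * r.den) + 2 * y / X) =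
        (y * (q : ℝ) ^ 2 / 2 + 2 * (q * y) * r.den) / X := by
      field_simp
    rw [h4] at h3
    have h5 : (X : ℝ) ≤ y * (q : ℝ) ^ 2 / 2 + 2 * (q * y) * r.den := by
      have h6 := h1.trans h3
      rw [le_div_iff₀ hX0, one_mul] at h6
      exact h6
    rw [div_le_iff₀ hdR]
    linarith

theorem ti_large : ∃ C : ℝ, 0 < C ∧ ∀ (X D q a : ℕ) (u v : ℕ → ℝ) (R y x σ : ℝ),
    1 ≤ X → D ≤ X → 1 ≤ q → Nat.Coprime a q → (σ = 1 ∨ σ = -1) → 1 ≤ y → y / X ≤ x →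
    x ≤ 2 * y / X → 8 * y * (q : ℝ) ^ 2 ≤ X → 0 ≤ R → (∀ d, |u d| ≤ R) → (∀ d, |v d| ≤ R) →
    ‖TI X D u v ((a : ℝ) / q + σ * x)‖ ≤
      C * R * (1 + Real.log X) ^ 2 * ((X : ℝ) / (q * y) + D + q * y) := by
  obtain ⟨C1, hC1, h1⟩ := ti_le
  obtain ⟨C2, hC2, h2⟩ := En.sum_mn'
  refine ⟨16 * C1 * C2, by positivity, ?_⟩
  intro X D q a u v R y x σ hX hD hq hc hσ hy hx1 hx2 hyq hR hu hv
  have hX0 : (0 : ℝ) < X := by exact_mod_cast hX
  have hq0 : (0 : ℝ) < q := by exact_mod_cast hq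
  have hq1 : (1 : ℝ) ≤ q := by exact_mod_cast hq
  have hqy : 1 ≤ (q : ℝ) * y := by nlinarith
  have hX8 : (8 : ℝ) ≤ X := by
    have h3 : (1 : ℝ) ≤ y * (q : ℝ) ^ 2 := by
      have h4 : (1 : ℝ) ≤ (q : ℝ) ^ 2 := one_le_pow₀ hq1
      nlinarith
    nlinarith
  have hD0 : (0 : ℝ) ≤ D := Nat.cast_nonneg _
  obtain ⟨r, c, hr, hg, hα, hr1, hr2⟩ := tl_dirichlet X q a y x σ hX hq hc hσ hy hx1 hx2 hyq
  set α : ℝ := (a : ℝ) / q + σ * x with hαd
  have hr0 : (0 : ℝ) < r := by exact_mod_cast hr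
  have hsum := h2 α r c hr hg hα X D (by exact_mod_cast hD) (by linarith)
  have hmain : ‖TI X D u v α‖ ≤ C1 * R * ∑ d ∈ Icc 1 D, En.mn ((X : ℝ) / d) ((d : ℝ) * α) := by
    unfold TI
    rw [Finset.mul_sum]
    refine (norm_sum_le _ _).trans (sum_le_sum fun d hd => ?_)
    rw [mem_Icc] at hd
    exact h1 X d (u d) (v d) R α hd.1 (hd.2.trans hD) (hu d) (hv d)
  have hL0 : 0 ≤ Real.log X := Real.log_nonneg (by linarith)
  have hr1' : (r : ℝ) ≤ 2 * (X / (q * y)) := by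
    rw [← mul_div_assoc]
    exact hr1
  have hXqy : (X : ℝ) / (q * y) ≤ X := div_le_self hX0.le hqy
  have hlog : Real.log (2 * r * X) ≤ 4 * (1 + Real.log X) ^ 2 := by
    have h3 : Real.log (2 * r * X) ≤ 4 * Real.log X := by
      rw [show (4 : ℝ) * Real.log X = Real.log ((X : ℝ) ^ 4) by rw [Real.log_pow]; norm_num]
      refine Real.log_le_log (by positivity) ?_
      have h5 : 2 * (r : ℝ) * X ≤ 4 * (X : ℝ) ^ 2 := by nlinarith
      have h6 : 4 * (X : ℝ) ^ 2 ≤ (X : ℝ) ^ 4 := by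
        have : (4 : ℝ) ≤ (X : ℝ) ^ 2 := by nlinarith
        nlinarith
      linarith
    nlinarith
  have hS : (X : ℝ) / r + D + r ≤ 4 * ((X : ℝ) / (q * y) + D + q * y) := by
    have h3 : 0 ≤ (X : ℝ) / (q * y) := by positivity
    linarith
  have hS0 : 0 ≤ (X : ℝ) / r + D + r := by positivity
  calc ‖TI X D u v α‖ ≤ C1 * R * ∑ d ∈ Icc 1 D, En.mn ((X : ℝ) / d) ((d : ℝ) * α) := hmain
    _ ≤ C1 * R * (C2 * ((X : ℝ) / r + D + r) * Real.log (2 * r * X)) :=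
        mul_le_mul_of_nonneg_left hsum (by positivity)
    _ ≤ C1 * R * (C2 * ((X : ℝ) / r + D + r) * (4 * (1 + Real.log X) ^ 2)) := by
        refine mul_le_mul_of_nonneg_left ?_ (by positivity)
        exact mul_le_mul_of_nonneg_left hlog (by positivity)
    _ ≤ C1 * R * (C2 * (4 * ((X : ℝ) / (q * y) + D + q * y)) * (4 * (1 + Real.log X) ^ 2)) := by
        refine mul_le_mul_of_nonneg_left ?_ (by positivity)
        refine mul_le_mul_of_nonneg_right ?_ (by positivity)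
        exact mul_le_mul_of_nonneg_left hS hC2.le
    _ = 16 * C1 * C2 * R * (1 + Real.log X) ^ 2 * ((X : ℝ) / (q * y) + D + q * y) := by ring

end Pool.MP_dd84fd_nt.PL
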