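import Pool.Agent.Lib.MP_dd84fd_nt.PL.TISmall
import Pool.Agent.Lib.MP_dd84fd_nt.PL.TILarge
import Pool.Agent.Lib.MP_dd84fd_nt.PL.Overlap
import Pool.Agent.Lib.MP_dd84fd_nt.DivBound

/-!
# PL-TIN2: `L²` norms of type I sums on the arcs

`D = U0 X * V0 X ≤ X^(3/4)`, `R = 2 log X`; `∑_{q ∈ QQ} φ(q) ≤ N + 1 ≤ 2N` (`count`), `q ≤ N`; `L = log X`.
`ti_N2_small` (`b ≤ L^K2`): `x ≤ 2bq/X ≤ 4b/X ≤ y/X`, `y = 4 L^K2`, `y q² ≤ X` (`q² ≤ N² ≤ X^(1-2δ) L^(2 A1)`); `ti_small`: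
the integrand is `≤ (C L (X^(3/4) + q) L^K2 (1+L))²`, so `N2 ≤ 2N (2b/X) C X^(3/2) L^(2K2+6) ≤ X^(1-δ/2)` (`Nb ≤ X^(1/2-δ)`).
`ti_N2_large` (`b > 1`): `bq/X ≤ x ≤ 2bq/X`, `ti_large` with `y = bq`, `8 bq q² ≤ 16 b N² ≤ 16 X^(1-2δ)/b·.. ≤ X`
(`b N² = (bN)²/b ≤ X^(1-2δ)`): `N2 ≤ ∑_q φ(q) (2b/X) C L² (1+L)^4 · 3 (X²/(q b)² + D² + 4 q² b²)`:
`∑_q φ(q)/q² ≤ ∑_{q ≤ N} 1/q ≤ 1 + L`: first part `≤ C L^7·X/b·(1+L)`; second `≤ (b/X) 2N X^(3/2) L^C ≤ X^(1-δ) L^C`;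
third `≤ (b/X) 2N · N² b² L^C ≤ (Nb)³ L^C/X ≤ X^(1/2)`.
-/

set_option autoImplicit false

namespace Pool.MP_dd84fd_nt.PL

open Finset Pool.MP_67663b_nt.Odd

private theorem tn_log (K : ℕ) (A η : ℝ) (hη : 0 < η) : ∃ X0 : ℕ, ∀ X : ℕ, X0 ≤ X →
    A * (Real.log X) ^ K ≤ (X : ℝ) ^ η := by
  have h1 := (isLittleO_log_rpow_rpow_atTop (K : ℝ) hη).bound
    (show (0 : ℝ) < 1 / (|A| + 1) by positivity)
  obtain ⟨x0, hx0⟩ := Filter.eventually_atTop.1 h1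
  refine ⟨max ⌈x0⌉₊ 1, fun X hX => ?_⟩
  have hX1 : 1 ≤ X := (le_max_right _ _).trans hX
  have hX2 : x0 ≤ X := (Nat.le_ceil x0).trans (by exact_mod_cast (le_max_left _ _).trans hX)
  have h2 := hx0 X hX2
  have hL : 0 ≤ Real.log X := Real.log_natCast_nonneg X
  have hXp : (0 : ℝ) ≤ (X : ℝ) ^ η := Real.rpow_nonneg (Nat.cast_nonneg X) _
  rw [Real.rpow_natCast, Real.norm_eq_abs, Real.norm_eq_abs, abs_of_nonneg (pow_nonneg hL K),
    abs_of_nonneg hXp] at h2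
  calc A * (Real.log X) ^ K ≤ |A| * (Real.log X) ^ K :=
        mul_le_mul_of_nonneg_right (le_abs_self A) (pow_nonneg hL K)
    _ ≤ |A| * (1 / (|A| + 1) * (X : ℝ) ^ η) := mul_le_mul_of_nonneg_left h2 (abs_nonneg A)
    _ = (|A| / (|A| + 1)) * (X : ℝ) ^ η := by ring
    _ ≤ 1 * (X : ℝ) ^ η := by
        apply mul_le_mul_of_nonneg_right _ hXp
        rw [div_le_one (by positivity)]
        linarith
    _ = (X : ℝ) ^ η := one_mul _

private theorem tn_big (T : ℝ) : ∃ X0 : ℕ, ∀ X : ℕ, X0 ≤ X → T ≤ Real.log X := by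
  refine ⟨⌈Real.exp T⌉₊, fun X hX => ?_⟩
  have h1 : Real.exp T ≤ X := (Nat.le_ceil _).trans (by exact_mod_cast hX)
  rw [Real.le_log_iff_exp_le ((Real.exp_pos T).trans_le h1)]
  exact h1

private theorem tn_D (X : ℕ) (hX : 1 ≤ X) : ((U0 X * V0 X : ℕ) : ℝ) ≤ (X : ℝ) ^ (3 / 4 : ℝ) ∧
    U0 X * V0 X ≤ X := by
  have hX0 : (0 : ℝ) < X := by exact_mod_cast hX
  constructor
  · have h1 : (U0 X : ℝ) ≤ (X : ℝ) ^ (1 / 2 : ℝ) := by
      rw [← Real.sqrt_eq_rpow]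
      exact Real.nat_sqrt_le_real_sqrt
    have h2 : (V0 X : ℝ) ≤ (X : ℝ) ^ (1 / 4 : ℝ) := by
      have h3 : (V0 X : ℝ) ≤ Real.sqrt (Nat.sqrt X) := Real.nat_sqrt_le_real_sqrt
      have h4 : Real.sqrt (Nat.sqrt X) ≤ Real.sqrt (Real.sqrt X) :=
        Real.sqrt_le_sqrt Real.nat_sqrt_le_real_sqrt
      have h5 : Real.sqrt (Real.sqrt X) = (X : ℝ) ^ (1 / 4 : ℝ) := by
        rw [Real.sqrt_eq_rpow, Real.sqrt_eq_rpow, ← Real.rpow_mul hX0.le]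
        norm_num
      exact (h3.trans h4).trans h5.le
    push_cast
    calc (U0 X : ℝ) * V0 X ≤ (X : ℝ) ^ (1 / 2 : ℝ) * (X : ℝ) ^ (1 / 4 : ℝ) :=
          mul_le_mul h1 h2 (Nat.cast_nonneg _) (by positivity)
      _ = (X : ℝ) ^ (3 / 4 : ℝ) := by
          rw [← Real.rpow_add hX0]
          norm_num
  · have h1 : V0 X ≤ U0 X := Nat.sqrt_le_self _
    calc U0 X * V0 X ≤ U0 X * U0 X := Nat.mul_le_mul_left _ h1
      _ ≤ X := Nat.sqrt_le X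

private theorem tn_int (X : ℕ) (QQ : Finset ℕ) (bq : ℕ → ℝ) (f : ℕ → ℕ → ℝ → ℂ) (M : ℕ → ℝ)
    (hbq : ∀ q ∈ QQ, 0 ≤ bq q)
    (hM : ∀ q ∈ QQ, ∀ a ∈ rr q, ∀ x, bq q / X ≤ x → x ≤ 2 * bq q / X → ‖f q a x‖ ^ 2 ≤ M q) :
    N2 X bq QQ f ≤ ∑ q ∈ QQ, (Nat.totient q : ℝ) * (bq q / X * M q) := by
  unfold N2
  apply sum_le_sum
  intro q hq
  have hb := hbq q hq
  have hle : bq q / X ≤ 2 * bq q / X := by
    apply div_le_div_of_nonneg_right _ (Nat.cast_nonneg X)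
    linarith
  have hcard : (Nat.totient q : ℝ) = ((rr q).card : ℝ) := by
    unfold rr
    rw [Nat.totient_eq_card_coprime]
    congr 2
    refine Finset.filter_congr fun a _ => ?_
    exact Nat.coprime_comm
  rw [hcard, ← nsmul_eq_mul]
  apply sum_le_card_nsmul
  intro a ha
  have h1 : ‖∫ x in (bq q / X)..(2 * bq q / X), ‖f q a x‖ ^ 2‖ ≤
      M q * |2 * bq q / X - bq q / X| := by
    apply intervalIntegral.norm_integral_le_of_norm_le_const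
    intro x hx
    rw [Set.uIoc_of_le hle] at hx
    rw [Real.norm_eq_abs, abs_of_nonneg (by positivity)]
    exact hM q hq a ha x hx.1.le hx.2
  have h2 : |2 * bq q / X - bq q / X| = bq q / X := by
    rw [abs_of_nonneg (by linarith)]
    ring
  rw [h2, Real.norm_eq_abs, mul_comm (M q)] at h1
  exact (le_abs_self _).trans h1

private theorem tn_harm (QQ : Finset ℕ) (N : ℝ) (hN : Fam QQ N) (hN1 : 1 ≤ N) :
    ∑ q ∈ QQ, 1 / (q : ℝ) ≤ 1 + Real.log N := by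
  have hsub : QQ ⊆ Icc 1 ⌊N⌋₊ := by
    intro q hq
    rw [mem_Icc]
    refine ⟨hN.1 q hq, Nat.le_floor ?_⟩
    have := hN.2 q hq q hq
    rwa [Nat.lcm_self] at this
  have h1 : ∑ q ∈ QQ, 1 / (q : ℝ) ≤ ∑ q ∈ Icc 1 ⌊N⌋₊, 1 / (q : ℝ) :=
    sum_le_sum_of_subset_of_nonneg hsub fun _ _ _ => by positivity
  have h2 := harmonic_le_one_add_log ⌊N⌋₊
  rw [harmonic_eq_sum_Icc] at h2
  push_cast at h2
  have h3 : ∑ q ∈ Icc 1 ⌊N⌋₊, 1 / (q : ℝ) = ∑ q ∈ Icc 1 ⌊N⌋₊, ((q : ℝ))⁻¹ :=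
    sum_congr rfl fun _ _ => one_div _
  have h4 : Real.log ⌊N⌋₊ ≤ Real.log N := by
    apply Real.log_le_log
    · have : 1 ≤ ⌊N⌋₊ := Nat.le_floor (by exact_mod_cast hN1)
      exact_mod_cast this
    · exact Nat.floor_le (by linarith)
  rw [← h3] at h2
  linarith

theorem ti_N2_small (δ : ℝ) (A1 K2 : ℕ) (hδ : 0 < δ) (hδ' : δ ≤ 1 / 8) : ∃ X0 : ℕ, ∀ X : ℕ,
    X0 ≤ X → ∀ (n : ℕ) (b N σ : ℝ) (QQ : Finset ℕ) (bq : ℕ → ℝ), Std X n δ A1 b N σ QQ bq →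
    b ≤ (Real.log X) ^ K2 → ∀ u v : ℕ → ℝ, (∀ d, |u d| ≤ 2 * Real.log X) →
    (∀ d, |v d| ≤ 2 * Real.log X) →
    N2 X bq QQ (fun q a x => TI X (U0 X * V0 X) u v ((a : ℝ) / q + σ * x) -
      lamq X (U0 X * V0 X) u v σ q x) ≤ (X : ℝ) ^ (1 - δ / 2) := by
  obtain ⟨C, hC, hts⟩ := ti_small
  obtain ⟨X1, hX1⟩ := tn_log (2 * A1 + K2) 4 (2 * δ) (by linarith)
  obtain ⟨X2, hX2⟩ := tn_log A1 1 (1 / 8) (by norm_num)
  obtain ⟨X3, hX3⟩ := tn_log (2 * K2 + 4) (16384 * C ^ 2) (δ / 2) (by linarith)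
  obtain ⟨X4, hX4⟩ := tn_big 1
  refine ⟨max (max X1 X2) (max (max X3 X4) 1), ?_⟩
  intro X hX n b N σ QQ bq hstd hb u v hu hv
  have g1 := hX1 X ((le_max_left _ _).trans ((le_max_left _ _).trans hX))
  have g2 := hX2 X ((le_max_right _ _).trans ((le_max_left _ _).trans hX))
  have g3 := hX3 X ((le_max_left _ _).trans ((le_max_left _ _).trans
    ((le_max_right _ _).trans hX)))
  have g4 := hX4 X ((le_max_right _ _).trans ((le_max_left _ _).trans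
    ((le_max_right _ _).trans hX)))
  have hX1' : 1 ≤ X := (le_max_right _ _).trans ((le_max_right _ _).trans hX)
  have hX0 : (0 : ℝ) < X := by exact_mod_cast hX1'
  have hX1R : (1 : ℝ) ≤ X := by exact_mod_cast hX1'
  obtain ⟨-, -, hσ, hbL, hN1, hNb, hfam, hbq⟩ := hstd
  obtain ⟨L, hL⟩ : ∃ L : ℝ, L = Real.log X := ⟨_, rfl⟩
  rw [← hL] at g1 g2 g3 g4 hb hbL hu hv
  have hL0 : 0 < L := by linarith
  have hb0 : 0 < b := lt_of_lt_of_le (Real.rpow_pos_of_pos hL0 _) hbL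
  -- `N ≤ X^(1/2-δ) L^A1`
  have hNle : N ≤ (X : ℝ) ^ (1 / 2 - δ) * L ^ A1 := by
    have h1 : 1 ≤ b * L ^ A1 := by
      have h2 : L ^ (-(A1 : ℝ)) * L ^ A1 = 1 := by
        rw [← Real.rpow_natCast, ← Real.rpow_add hL0]
        simp
      calc 1 = L ^ (-(A1 : ℝ)) * L ^ A1 := h2.symm
        _ ≤ b * L ^ A1 := mul_le_mul_of_nonneg_right hbL (by positivity)
    calc N = N * 1 := (mul_one N).symm
      _ ≤ N * (b * L ^ A1) := mul_le_mul_of_nonneg_left h1 (by linarith)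
      _ = (N * b) * L ^ A1 := by ring
      _ ≤ (X : ℝ) ^ (1 / 2 - δ) * L ^ A1 := mul_le_mul_of_nonneg_right hNb (by positivity)
  have hN34 : N ≤ (X : ℝ) ^ (3 / 4 : ℝ) := by
    calc N ≤ (X : ℝ) ^ (1 / 2 - δ) * L ^ A1 := hNle
      _ ≤ (X : ℝ) ^ (1 / 2 : ℝ) * (X : ℝ) ^ (1 / 8 : ℝ) := by
          apply mul_le_mul _ _ (by positivity) (by positivity)
          · exact Real.rpow_le_rpow_of_exponent_le hX1R (by linarith)
          · linarith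
      _ = (X : ℝ) ^ (5 / 8 : ℝ) := by
          rw [← Real.rpow_add hX0]
          norm_num
      _ ≤ (X : ℝ) ^ (3 / 4 : ℝ) := Real.rpow_le_rpow_of_exponent_le hX1R (by norm_num)
  have hq : ∀ q ∈ QQ, 1 ≤ q ∧ (q : ℝ) ≤ N := by
    intro q hq
    refine ⟨hfam.1 q hq, ?_⟩
    have := hfam.2 q hq q hq
    rwa [Nat.lcm_self] at this
  obtain ⟨y, hy⟩ : ∃ y : ℝ, y = 4 * L ^ K2 := ⟨_, rfl⟩
  have hLK : 1 ≤ L ^ K2 := one_le_pow₀ g4
  have hy1 : 1 ≤ y := by rw [hy]; linarith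
  obtain ⟨hD1, hD2⟩ := tn_D X hX1'
  obtain ⟨M0, hM0⟩ : ∃ M0 : ℝ, M0 = (C * (2 * L) * (2 * (X : ℝ) ^ (3 / 4 : ℝ)) * y *
    (2 * L)) ^ 2 := ⟨_, rfl⟩
  have hM00 : 0 ≤ M0 := by rw [hM0]; positivity
  have hyq : ∀ q ∈ QQ, y * (q : ℝ) ^ 2 ≤ X := by
    intro q hqq
    have h1 := (hq q hqq).2
    have h2 : (q : ℝ) ^ 2 ≤ ((X : ℝ) ^ (1 / 2 - δ) * L ^ A1) ^ 2 :=
      pow_le_pow_left₀ (Nat.cast_nonneg q) (h1.trans hNle) 2
    have h3 : ((X : ℝ) ^ (1 / 2 - δ)) ^ 2 = (X : ℝ) ^ (1 - 2 * δ) := by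
      rw [← Real.rpow_natCast, ← Real.rpow_mul hX0.le]
      congr 1
      push_cast
      ring
    calc y * (q : ℝ) ^ 2 ≤ y * ((X : ℝ) ^ (1 / 2 - δ) * L ^ A1) ^ 2 :=
          mul_le_mul_of_nonneg_left h2 (by linarith)
      _ = (X : ℝ) ^ (1 - 2 * δ) * (4 * L ^ (2 * A1 + K2)) := by
          rw [mul_pow, h3, hy, pow_add, pow_mul']
          ring
      _ ≤ (X : ℝ) ^ (1 - 2 * δ) * (X : ℝ) ^ (2 * δ) :=
          mul_le_mul_of_nonneg_left g1 (by positivity)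
      _ = X := by
          rw [← Real.rpow_add hX0]
          norm_num
  have hint := tn_int X QQ bq (fun q a x => TI X (U0 X * V0 X) u v ((a : ℝ) / q + σ * x) -
      lamq X (U0 X * V0 X) u v σ q x) (fun _ => M0)
    (fun q hqq => hb0.le.trans (hbq q hqq).1) (by
      intro q hqq a ha x hx1 hx2
      have hq1 := (hq q hqq).1
      have hbq1 := (hbq q hqq).1
      have hbq2 := (hbq q hqq).2
      have hcop : Nat.Coprime a q := by
        unfold rr at ha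
        exact (mem_filter.1 ha).2
      have hx0 : 0 ≤ x := le_trans (div_nonneg (hb0.le.trans hbq1) hX0.le) hx1
      have hxy : x ≤ y / X := by
        refine hx2.trans ?_
        apply div_le_div_of_nonneg_right _ hX0.le
        rw [hy]
        linarith
      have h1 := hts X (U0 X * V0 X) q a u v (2 * L) y x σ hX1' hD2 hq1 hcop hσ hy1 hx0 hxy
        (hyq q hqq) (by linarith) hu hv
      rw [← hL] at h1
      rw [hM0]
      apply pow_le_pow_left₀ (norm_nonneg _)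
      refine h1.trans ?_
      have h2 : ((U0 X * V0 X : ℕ) : ℝ) + q ≤ 2 * (X : ℝ) ^ (3 / 4 : ℝ) := by
        have := (hq q hqq).2
        linarith
      have h3 : 1 + L ≤ 2 * L := by linarith
      gcongr)
  refine hint.trans ?_
  have hcount := count QQ N hfam hN1
  have h5 : ∑ q ∈ QQ, (Nat.totient q : ℝ) * (bq q / X * M0) ≤
      ∑ q ∈ QQ, (Nat.totient q : ℝ) * (2 * b / X * M0) := by
    apply sum_le_sum
    intro q hqq
    have h6 := (hbq q hqq).2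
    gcongr
  refine h5.trans ?_
  rw [← sum_mul]
  have h7 : (∑ q ∈ QQ, (Nat.totient q : ℝ)) * (2 * b / X * M0) ≤ (2 * N) * (2 * b / X * M0) := by
    apply mul_le_mul_of_nonneg_right _ (by positivity)
    linarith
  refine h7.trans ?_
  have h8 : ((X : ℝ) ^ (3 / 4 : ℝ)) ^ 2 = (X : ℝ) * (X : ℝ) ^ (1 / 2 : ℝ) := by
    rw [← Real.rpow_natCast, ← Real.rpow_mul hX0.le]
    nth_rewrite 2 [← Real.rpow_one (X : ℝ)]
    rw [← Real.rpow_add hX0]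
    norm_num
  calc (2 * N) * (2 * b / X * M0)
      = (N * b) * (4 / X) * (C ^ 2 * 16 * L ^ 4 * ((X : ℝ) ^ (3 / 4 : ℝ)) ^ 2 * 4 * y ^ 2) := by
        rw [hM0]
        ring
    _ = (N * b) * (X : ℝ) ^ (1 / 2 : ℝ) * (256 * C ^ 2 * L ^ 4 * y ^ 2) := by
        rw [h8]
        field_simp
        ring
    _ ≤ (X : ℝ) ^ (1 / 2 - δ) * (X : ℝ) ^ (1 / 2 : ℝ) * (256 * C ^ 2 * L ^ 4 * y ^ 2) := by
        gcongr
    _ = (X : ℝ) ^ (1 - δ) * (4096 * C ^ 2 * L ^ (2 * K2 + 4)) := by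
        rw [← Real.rpow_add hX0, hy]
        have e1 : (1 / 2 - δ + 1 / 2 : ℝ) = 1 - δ := by ring
        rw [e1]
        ring
    _ ≤ (X : ℝ) ^ (1 - δ) * (X : ℝ) ^ (δ / 2) := by
        apply mul_le_mul_of_nonneg_left _ (by positivity)
        refine le_trans ?_ g3
        have : 0 ≤ C ^ 2 * L ^ (2 * K2 + 4) := by positivity
        linarith
    _ = (X : ℝ) ^ (1 - δ / 2) := by
        rw [← Real.rpow_add hX0]
        congr 1
        ring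

theorem ti_N2_large : ∃ C : ℕ, ∀ (δ : ℝ) (A1 : ℕ), 0 < δ → δ ≤ 1 / 8 → ∃ X0 : ℕ, ∀ X : ℕ,
    X0 ≤ X → ∀ (n : ℕ) (b N σ : ℝ) (QQ : Finset ℕ) (bq : ℕ → ℝ), Std X n δ A1 b N σ QQ bq →
    1 ≤ b → ∀ u v : ℕ → ℝ, (∀ d, |u d| ≤ 2 * Real.log X) → (∀ d, |v d| ≤ 2 * Real.log X) →
    N2 X bq QQ (fun q a x => TI X (U0 X * V0 X) u v ((a : ℝ) / q + σ * x)) ≤
      X * (Real.log X) ^ C / b + (X : ℝ) ^ (1 - δ / 2) := by
  obtain ⟨C, hC, htl⟩ := ti_large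
  refine ⟨8, ?_⟩
  intro δ A1 hδ hδ'
  obtain ⟨X1, hX1⟩ := tn_log 0 16 (2 * δ) (by linarith)
  obtain ⟨X3, hX3⟩ := tn_log 6 (3840 * C ^ 2) (δ / 2) (by linarith)
  obtain ⟨X4, hX4⟩ := tn_big (max 1 (384 * C ^ 2))
  refine ⟨max X1 (max (max X3 X4) 1), ?_⟩
  intro X hX n b N σ QQ bq hstd hb1 u v hu hv
  have g1 := hX1 X ((le_max_left _ _).trans hX)
  have g3 := hX3 X ((le_max_left _ _).trans ((le_max_left _ _).trans
    ((le_max_right _ _).trans hX)))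
  have g4 := hX4 X ((le_max_right _ _).trans ((le_max_left _ _).trans
    ((le_max_right _ _).trans hX)))
  have hX1' : 1 ≤ X := (le_max_right _ _).trans ((le_max_right _ _).trans hX)
  have hX0 : (0 : ℝ) < X := by exact_mod_cast hX1'
  have hX1R : (1 : ℝ) ≤ X := by exact_mod_cast hX1'
  obtain ⟨-, -, hσ, hbL, hN1, hNb, hfam, hbq⟩ := hstd
  obtain ⟨L, hL⟩ : ∃ L : ℝ, L = Real.log X := ⟨_, rfl⟩
  rw [← hL] at g3 g4 hbL hu hv ⊢
  rw [pow_zero, mul_one] at g1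
  have hL1 : 1 ≤ L := (le_max_left _ _).trans g4
  have hLC : 384 * C ^ 2 ≤ L := (le_max_right _ _).trans g4
  have hL0 : 0 < L := by linarith
  have hb0 : 0 < b := by linarith
  have hq : ∀ q ∈ QQ, 1 ≤ q ∧ (q : ℝ) ≤ N := by
    intro q hq
    refine ⟨hfam.1 q hq, ?_⟩
    have := hfam.2 q hq q hq
    rwa [Nat.lcm_self] at this
  have hNb2 : N * b ≤ (X : ℝ) ^ (1 / 2 : ℝ) :=
    hNb.trans (Real.rpow_le_rpow_of_exponent_le hX1R (by linarith))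
  have hNX : N ≤ X := by
    have h1 : N ≤ N * b := by nlinarith
    have h2 : (X : ℝ) ^ (1 / 2 : ℝ) ≤ (X : ℝ) ^ (1 : ℝ) :=
      Real.rpow_le_rpow_of_exponent_le hX1R (by norm_num)
    rw [Real.rpow_one] at h2
    linarith
  obtain ⟨hD1, hD2⟩ := tn_D X hX1'
  obtain ⟨D, hD⟩ : ∃ D : ℝ, D = ((U0 X * V0 X : ℕ) : ℝ) := ⟨_, rfl⟩
  have hD0 : 0 ≤ D := by rw [hD]; positivity
  obtain ⟨A, hA⟩ : ∃ A : ℝ, A = C * (2 * L) * (1 + L) ^ 2 := ⟨_, rfl⟩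
  have hA0 : 0 ≤ A := by rw [hA]; positivity
  have hyq : ∀ q ∈ QQ, 8 * bq q * (q : ℝ) ^ 2 ≤ X := by
    intro q hqq
    have h1 := (hq q hqq).2
    have h3 : ((X : ℝ) ^ (1 / 2 - δ)) ^ 2 = (X : ℝ) ^ (1 - 2 * δ) := by
      rw [← Real.rpow_natCast, ← Real.rpow_mul hX0.le]
      congr 1
      push_cast
      ring
    have h4 : (N * b) ^ 2 ≤ (X : ℝ) ^ (1 - 2 * δ) := by
      rw [← h3]
      exact pow_le_pow_left₀ (by positivity) hNb 2
    calc 8 * bq q * (q : ℝ) ^ 2 ≤ 8 * (2 * b) * N ^ 2 := by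
          have h5 := (hbq q hqq).2
          have h6 : 0 ≤ bq q := hb0.le.trans (hbq q hqq).1
          gcongr
      _ = 16 * (b * N ^ 2) := by ring
      _ ≤ 16 * (N * b) ^ 2 := by
          have h7 : b * N ^ 2 ≤ (N * b) ^ 2 := by
            have h8 : (N * b) ^ 2 = b * (b * N ^ 2) := by ring
            rw [h8]
            have h9 : 0 ≤ b * N ^ 2 := by positivity
            nlinarith
          linarith
      _ ≤ 16 * (X : ℝ) ^ (1 - 2 * δ) := by linarith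
      _ ≤ (X : ℝ) ^ (2 * δ) * (X : ℝ) ^ (1 - 2 * δ) :=
          mul_le_mul_of_nonneg_right g1 (by positivity)
      _ = X := by
          rw [← Real.rpow_add hX0]
          norm_num
  have hint := tn_int X QQ bq (fun q a x => TI X (U0 X * V0 X) u v ((a : ℝ) / q + σ * x))
    (fun q => 3 * A ^ 2 * (((X : ℝ) / (q * bq q)) ^ 2 + D ^ 2 + (q * bq q) ^ 2))
    (fun q hqq => hb0.le.trans (hbq q hqq).1) (by
      intro q hqq a ha x hx1 hx2
      have hq1 := (hq q hqq).1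
      have hbq1 := (hbq q hqq).1
      have hcop : Nat.Coprime a q := by
        unfold rr at ha
        exact (mem_filter.1 ha).2
      have h1 := htl X (U0 X * V0 X) q a u v (2 * L) (bq q) x σ hX1' hD2 hq1 hcop hσ
        (hb1.trans hbq1) hx1 hx2 (hyq q hqq) (by linarith) hu hv
      rw [← hL, ← hD, ← hA] at h1
      have h2 : ‖TI X (U0 X * V0 X) u v ((a : ℝ) / q + σ * x)‖ ^ 2 ≤
          (A * ((X : ℝ) / (q * bq q) + D + q * bq q)) ^ 2 :=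
        pow_le_pow_left₀ (norm_nonneg _) h1 2
      refine h2.trans ?_
      obtain ⟨s, hs⟩ : ∃ s : ℝ, s = (X : ℝ) / (q * bq q) := ⟨_, rfl⟩
      obtain ⟨t, ht⟩ : ∃ t : ℝ, t = q * bq q := ⟨_, rfl⟩
      rw [← hs, ← ht, mul_pow]
      have h3 : (s + D + t) ^ 2 ≤ 3 * (s ^ 2 + D ^ 2 + t ^ 2) := by
        nlinarith [sq_nonneg (s - D), sq_nonneg (D - t), sq_nonneg (s - t)]
      calc A ^ 2 * (s + D + t) ^ 2 ≤ A ^ 2 * (3 * (s ^ 2 + D ^ 2 + t ^ 2)) :=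
            mul_le_mul_of_nonneg_left h3 (by positivity)
        _ = 3 * A ^ 2 * (s ^ 2 + D ^ 2 + t ^ 2) := by ring)
  refine hint.trans ?_
  have hterm : ∀ q ∈ QQ, (Nat.totient q : ℝ) * (bq q / X *
      (3 * A ^ 2 * (((X : ℝ) / (q * bq q)) ^ 2 + D ^ 2 + (q * bq q) ^ 2))) ≤
      3 * A ^ 2 * ((X / b) * (1 / (q : ℝ)) + (Nat.totient q : ℝ) *
        (2 * b / X * D ^ 2 + 8 * b * (N * b) ^ 2 / X)) := by
    intro q hqq
    have hq1 := (hq q hqq).1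
    have hqN := (hq q hqq).2
    have hbq1 := (hbq q hqq).1
    have hbq2 := (hbq q hqq).2
    have hq0 : (0 : ℝ) < q := by exact_mod_cast hq1
    have hy0 : 0 < bq q := hb0.trans_le hbq1
    have ht : (Nat.totient q : ℝ) ≤ q := by exact_mod_cast Nat.totient_le q
    have e1 : (Nat.totient q : ℝ) * (bq q / X * ((X : ℝ) / (q * bq q)) ^ 2) ≤
        (X / b) * (1 / (q : ℝ)) := by
      have e2 : bq q / X * ((X : ℝ) / (q * bq q)) ^ 2 = X / bq q * (1 / (q : ℝ)) ^ 2 := by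
        field_simp
      rw [e2]
      calc (Nat.totient q : ℝ) * (X / bq q * (1 / (q : ℝ)) ^ 2) ≤
            q * (X / b * (1 / (q : ℝ)) ^ 2) := by gcongr
        _ = (X / b) * (1 / (q : ℝ)) := by field_simp
    have e3 : bq q / X * D ^ 2 ≤ 2 * b / X * D ^ 2 := by gcongr
    have e4 : bq q / X * (q * bq q) ^ 2 ≤ 8 * b * (N * b) ^ 2 / X := by
      calc bq q / X * (q * bq q) ^ 2 ≤ 2 * b / X * (N * (2 * b)) ^ 2 := by gcongr
        _ = 8 * b * (N * b) ^ 2 / X := by ring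
    have e5 : (Nat.totient q : ℝ) * (bq q / X * D ^ 2 + bq q / X * (q * bq q) ^ 2) ≤
        (Nat.totient q : ℝ) * (2 * b / X * D ^ 2 + 8 * b * (N * b) ^ 2 / X) :=
      mul_le_mul_of_nonneg_left (by linarith) (Nat.cast_nonneg _)
    calc (Nat.totient q : ℝ) * (bq q / X *
        (3 * A ^ 2 * (((X : ℝ) / (q * bq q)) ^ 2 + D ^ 2 + (q * bq q) ^ 2)))
        = 3 * A ^ 2 * ((Nat.totient q : ℝ) * (bq q / X * ((X : ℝ) / (q * bq q)) ^ 2) +
          (Nat.totient q : ℝ) * (bq q / X * D ^ 2 + bq q / X * (q * bq q) ^ 2)) := by ring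
      _ ≤ _ := by
          apply mul_le_mul_of_nonneg_left _ (by positivity)
          linarith
  refine (sum_le_sum hterm).trans ?_
  rw [← mul_sum, sum_add_distrib, ← mul_sum, ← sum_mul]
  have hcount := count QQ N hfam hN1
  have hharm := tn_harm QQ N hfam hN1
  have hlogN : Real.log N ≤ L := by
    rw [hL]
    exact Real.log_le_log (by linarith) hNX
  have f1 : (X / b) * ∑ q ∈ QQ, 1 / (q : ℝ) ≤ (X / b) * (2 * L) :=
    mul_le_mul_of_nonneg_left (by linarith) (by positivity)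
  have hD2' : D ^ 2 ≤ (X : ℝ) * (X : ℝ) ^ (1 / 2 : ℝ) := by
    have h8 : ((X : ℝ) ^ (3 / 4 : ℝ)) ^ 2 = (X : ℝ) * (X : ℝ) ^ (1 / 2 : ℝ) := by
      rw [← Real.rpow_natCast, ← Real.rpow_mul hX0.le]
      nth_rewrite 2 [← Real.rpow_one (X : ℝ)]
      rw [← Real.rpow_add hX0]
      norm_num
    rw [← h8]
    apply pow_le_pow_left₀ hD0
    rw [hD]
    exact hD1
  have f2 : (∑ q ∈ QQ, (Nat.totient q : ℝ)) *
      (2 * b / X * D ^ 2 + 8 * b * (N * b) ^ 2 / X) ≤ 20 * (X : ℝ) ^ (1 - δ) := by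
    have h1 : (∑ q ∈ QQ, (Nat.totient q : ℝ)) *
        (2 * b / X * D ^ 2 + 8 * b * (N * b) ^ 2 / X) ≤
        (2 * N) * (2 * b / X * D ^ 2 + 8 * b * (N * b) ^ 2 / X) := by
      apply mul_le_mul_of_nonneg_right _ (by positivity)
      linarith
    refine h1.trans ?_
    have h2 : (2 * N) * (2 * b / X * D ^ 2) ≤ 4 * (X : ℝ) ^ (1 - δ) := by
      calc (2 * N) * (2 * b / X * D ^ 2) ≤
            (2 * N) * (2 * b / X * ((X : ℝ) * (X : ℝ) ^ (1 / 2 : ℝ))) := by gcongr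
        _ = 4 * (N * b) * (X : ℝ) ^ (1 / 2 : ℝ) := by
            field_simp
            ring
        _ ≤ 4 * (X : ℝ) ^ (1 / 2 - δ) * (X : ℝ) ^ (1 / 2 : ℝ) := by gcongr
        _ = 4 * (X : ℝ) ^ (1 - δ) := by
            rw [mul_assoc, ← Real.rpow_add hX0]
            congr 2
            ring
    have h3 : (2 * N) * (8 * b * (N * b) ^ 2 / X) ≤ 16 * (X : ℝ) ^ (1 - δ) := by
      have h4 : (N * b) ^ 2 ≤ X := by
        have h5 : ((X : ℝ) ^ (1 / 2 : ℝ)) ^ 2 = X := by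
          rw [← Real.rpow_natCast, ← Real.rpow_mul hX0.le]
          norm_num
        calc (N * b) ^ 2 ≤ ((X : ℝ) ^ (1 / 2 : ℝ)) ^ 2 :=
              pow_le_pow_left₀ (by positivity) hNb2 2
          _ = X := h5
      calc (2 * N) * (8 * b * (N * b) ^ 2 / X) = 16 * (N * b) * ((N * b) ^ 2 / X) := by ring
        _ ≤ 16 * (N * b) * 1 := by
            apply mul_le_mul_of_nonneg_left _ (by positivity)
            rw [div_le_one hX0]
            exact h4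
        _ ≤ 16 * (X : ℝ) ^ (1 - δ) := by
            have h6 : (X : ℝ) ^ (1 / 2 - δ) ≤ (X : ℝ) ^ (1 - δ) :=
              Real.rpow_le_rpow_of_exponent_le hX1R (by linarith)
            linarith
    calc (2 * N) * (2 * b / X * D ^ 2 + 8 * b * (N * b) ^ 2 / X) =
          (2 * N) * (2 * b / X * D ^ 2) + (2 * N) * (8 * b * (N * b) ^ 2 / X) := by ring
      _ ≤ 20 * (X : ℝ) ^ (1 - δ) := by linarith
  have hA2 : A ^ 2 ≤ 64 * C ^ 2 * L ^ 6 := by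
    have h1 : A ≤ C * (2 * L) * (2 * L) ^ 2 := by
      rw [hA]
      have : 1 + L ≤ 2 * L := by linarith
      gcongr
    calc A ^ 2 ≤ (C * (2 * L) * (2 * L) ^ 2) ^ 2 := pow_le_pow_left₀ hA0 h1 2
      _ = 64 * C ^ 2 * L ^ 6 := by ring
  calc 3 * A ^ 2 * ((X / b) * ∑ q ∈ QQ, 1 / (q : ℝ) + (∑ q ∈ QQ, (Nat.totient q : ℝ)) *
        (2 * b / X * D ^ 2 + 8 * b * (N * b) ^ 2 / X))
      ≤ 3 * A ^ 2 * ((X / b) * (2 * L) + 20 * (X : ℝ) ^ (1 - δ)) := by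
        apply mul_le_mul_of_nonneg_left _ (by positivity)
        linarith
    _ ≤ 3 * (64 * C ^ 2 * L ^ 6) * ((X / b) * (2 * L) + 20 * (X : ℝ) ^ (1 - δ)) := by
        gcongr
    _ = (X / b) * ((384 * C ^ 2) * L ^ 7) + (3840 * C ^ 2 * L ^ 6) * (X : ℝ) ^ (1 - δ) := by
        ring
    _ ≤ (X / b) * (L * L ^ 7) + (X : ℝ) ^ (δ / 2) * (X : ℝ) ^ (1 - δ) := by
        gcongr
    _ = X * L ^ 8 / b + (X : ℝ) ^ (1 - δ / 2) := by
        rw [← Real.rpow_add hX0]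
        have e1 : δ / 2 + (1 - δ) = 1 - δ / 2 := by ring
        rw [e1]
        ring

end Pool.MP_dd84fd_nt.PL
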