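import Pool.Agent.Lib.MP_dd84fd_nt.PL.Dec
import Pool.Agent.Lib.MP_dd84fd_nt.PL.Blocks
import Pool.Agent.Lib.MP_dd84fd_nt.PL.Gcd
import Pool.Agent.Lib.MP_dd84fd_nt.PL.TIN2
import Pool.Agent.Lib.MP_dd84fd_nt.PL.BMass

/-!
# PL-Arc: decomposition of `W_s` on the arcs

`L = log X`; `blocks` with `A' = AE + C_b + 3`; `dec D'`; on the arcs (`θ = a/q + σx`)
`W_s = TI + TII + tp e1`, `TII = ∑_i ∑_{m ∈ MM_i} Λ(m) tp (K_i) (c_i) (mθ) + tp e2`, and
`∑_{m ∈ MM_i} = f2f + (terms with (m,q) > 1)`.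
(small `b`) with `lam = lamq X (U0 X * V0 X) u v σ` (`lamq_cont`, `lamq_le` with `R = 2L`: `≤ C·2L(1+L) X/q ≤ L^3 X/q`):
`W_s - lam - ∑ f2f = (TI - lam) + tp e1 + tp e2 + ∑_i g_i`; `N2` of a sum of 4 functions is `≤ 4` times the sum of the `N2`
(all functions continuous in `x`), `N2(∑_{i<I} g_i) ≤ I ∑ N2(g_i) ≤ I² X^(1-δ/2)` (`gcd_part`), `N2 (tp e) ≤ 4 ∑‖e‖²` (`N2_tp`),
`ti_N2_small`.  Everything is `≤ X/L^(AE+1)` for `X ≥ X0`.
(large `b`): `ti_N2_large`: `≤ X L^C/b ≤ X L^C/L^K2`.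
-/

set_option autoImplicit false

namespace Pool.MP_dd84fd_nt.PL

open Finset Pool.MP_67663b_nt.Odd Pool.MP_dd84fd_nt.E2

private theorem ar_ee_cont : Continuous ee := by
  unfold ee
  fun_prop

private theorem ar_tp_cont (K : ℕ) (c : ℕ → ℂ) : Continuous (tp K c) := by
  unfold tp
  have h := ar_ee_cont
  fun_prop

private theorem ar_TI_cont (X D : ℕ) (u v : ℕ → ℝ) : Continuous (TI X D u v) := by
  unfold TI ti
  have h := ar_ee_cont
  fun_prop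

private theorem ar_log (K : ℕ) (A η : ℝ) (hη : 0 < η) : ∃ X0 : ℕ, ∀ X : ℕ, X0 ≤ X →
    A * (Real.log X) ^ K ≤ (X : ℝ) ^ η := by
  have h1 := (isLittleO_log_rpow_rpow_atTop (K : ℝ) hη).bound
    (show (0 : ℝ) < 1 / (|A| + 1) by positivity)
  obtain ⟨x0, hx0⟩ := Filter.eventually_atTop.1 h1
  refine ⟨max ⌈x0⌉₊ 1, fun X hX => ?_⟩
  have hX1 : 1 ≤ X := (le_max_right _ _).trans hX
  have hX2 : x0 ≤ X := (Nat.le_ceil x0).trans (by exact_mod_cast (le_max_left _ _).trans hX)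
  have h2 := hx0 X hX2
  have hL : 0 ≤ Real.log X := Real.log_natCast_nonneg X
  have hXp : (0 : ℝ) ≤ (X : ℝ) ^ η := Real.rpow_nonneg (Nat.cast_nonneg X) _
  rw [Real.rpow_natCast, Real.norm_eq_abs, Real.norm_eq_abs, abs_of_nonneg (pow_nonneg hL K),
    abs_of_nonneg hXp] at h2
  calc A * (Real.log X) ^ K ≤ |A| * (Real.log X) ^ K :=
        mul_le_mul_of_nonneg_right (le_abs_self A) (pow_nonneg hL K)
    _ ≤ |A| * (1 / (|A| + 1) * (X : ℝ) ^ η) := mul_le_mul_of_nonneg_left h2 (abs_nonneg A)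
    _ = (|A| / (|A| + 1)) * (X : ℝ) ^ η := by ring
    _ ≤ 1 * (X : ℝ) ^ η := by
        apply mul_le_mul_of_nonneg_right _ hXp
        rw [div_le_one (by positivity)]
        linarith
    _ = (X : ℝ) ^ η := one_mul _

private theorem ar_big (T : ℝ) : ∃ X0 : ℕ, ∀ X : ℕ, X0 ≤ X → T ≤ Real.log X := by
  refine ⟨⌈Real.exp T⌉₊, fun X hX => ?_⟩
  have h1 : Real.exp T ≤ X := (Nat.le_ceil _).trans (by exact_mod_cast hX)
  rw [Real.le_log_iff_exp_le ((Real.exp_pos T).trans_le h1)]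
  exact h1

private theorem ar_UV (X : ℕ) : U0 X * V0 X ≤ X := by
  have h1 : V0 X ≤ U0 X := Nat.sqrt_le_self _
  calc U0 X * V0 X ≤ U0 X * U0 X := Nat.mul_le_mul_left _ h1
    _ ≤ X := Nat.sqrt_le X

private theorem ar_add (X : ℕ) (bq : ℕ → ℝ) (QQ : Finset ℕ) (hbq : ∀ q ∈ QQ, 0 ≤ bq q)
    (f g : ℕ → ℕ → ℝ → ℂ) (hf : ∀ q a, Continuous (f q a)) (hg : ∀ q a, Continuous (g q a)) :
    N2 X bq QQ (fun q a x => f q a x + g q a x) ≤ 2 * N2 X bq QQ f + 2 * N2 X bq QQ g := by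
  unfold N2
  rw [mul_sum, mul_sum, ← sum_add_distrib]
  apply sum_le_sum
  intro q hq
  rw [mul_sum, mul_sum, ← sum_add_distrib]
  apply sum_le_sum
  intro a _
  have hle : bq q / X ≤ 2 * bq q / X := by
    apply div_le_div_of_nonneg_right _ (Nat.cast_nonneg X)
    linarith [hbq q hq]
  have cf : Continuous fun x => ‖f q a x‖ ^ 2 := (hf q a).norm.pow 2
  have cg : Continuous fun x => ‖g q a x‖ ^ 2 := (hg q a).norm.pow 2
  have cfg : Continuous fun x => ‖f q a x + g q a x‖ ^ 2 := ((hf q a).add (hg q a)).norm.pow 2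
  rw [← intervalIntegral.integral_const_mul, ← intervalIntegral.integral_const_mul,
    ← intervalIntegral.integral_add ((cf.const_mul 2).intervalIntegrable _ _)
      ((cg.const_mul 2).intervalIntegrable _ _)]
  apply intervalIntegral.integral_mono_on hle (cfg.intervalIntegrable _ _)
    (((cf.const_mul 2).add (cg.const_mul 2)).intervalIntegrable _ _)
  intro x _
  have h1 : ‖f q a x + g q a x‖ ^ 2 ≤ (‖f q a x‖ + ‖g q a x‖) ^ 2 :=
    pow_le_pow_left₀ (norm_nonneg _) (norm_add_le _ _) 2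
  show ‖f q a x + g q a x‖ ^ 2 ≤ 2 * ‖f q a x‖ ^ 2 + 2 * ‖g q a x‖ ^ 2
  nlinarith [sq_nonneg (‖f q a x‖ - ‖g q a x‖)]

private theorem ar_sum (X : ℕ) (bq : ℕ → ℝ) (QQ : Finset ℕ) (hbq : ∀ q ∈ QQ, 0 ≤ bq q)
    (I : ℕ) (g : ℕ → ℕ → ℕ → ℝ → ℂ) (hg : ∀ i q a, Continuous (g i q a)) :
    N2 X bq QQ (fun q a x => ∑ i ∈ range I, g i q a x) ≤
      I * ∑ i ∈ range I, N2 X bq QQ (g i) := by
  have e1 : ∑ i ∈ range I, N2 X bq QQ (g i) = ∑ q ∈ QQ, ∑ a ∈ rr q,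
      ∑ i ∈ range I, ∫ x in (bq q / X)..(2 * bq q / X), ‖g i q a x‖ ^ 2 := by
    unfold N2
    rw [sum_comm]
    refine sum_congr rfl fun q _ => ?_
    rw [sum_comm]
  rw [e1, mul_sum]
  unfold N2
  apply sum_le_sum
  intro q hq
  rw [mul_sum]
  apply sum_le_sum
  intro a _
  have hle : bq q / X ≤ 2 * bq q / X := by
    apply div_le_div_of_nonneg_right _ (Nat.cast_nonneg X)
    linarith [hbq q hq]
  have cg : ∀ i, Continuous fun x => ‖g i q a x‖ ^ 2 := fun i => (hg i q a).norm.pow 2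
  have cs : Continuous fun x => ‖∑ i ∈ range I, g i q a x‖ ^ 2 :=
    (continuous_finsetSum _ fun i _ => hg i q a).norm.pow 2
  rw [← intervalIntegral.integral_finsetSum (fun i _ => (cg i).intervalIntegrable _ _),
    ← intervalIntegral.integral_const_mul]
  apply intervalIntegral.integral_mono_on hle (cs.intervalIntegrable _ _)
    (((continuous_finsetSum _ fun i _ => cg i).const_mul _).intervalIntegrable _ _)
  intro x _
  have h1 : ‖∑ i ∈ range I, g i q a x‖ ^ 2 ≤ (∑ i ∈ range I, ‖g i q a x‖) ^ 2 :=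
    pow_le_pow_left₀ (norm_nonneg _) (norm_sum_le _ _) 2
  refine h1.trans ?_
  have h2 := sq_sum_le_card_mul_sum_sq (s := range I) (f := fun i => ‖g i q a x‖)
  rw [card_range] at h2
  exact h2

/-- the sum of four functions -/
private theorem ar_four (X : ℕ) (bq : ℕ → ℝ) (QQ : Finset ℕ) (hbq : ∀ q ∈ QQ, 0 ≤ bq q)
    (f1 f2 f3 f4 : ℕ → ℕ → ℝ → ℂ) (h1 : ∀ q a, Continuous (f1 q a))
    (h2 : ∀ q a, Continuous (f2 q a)) (h3 : ∀ q a, Continuous (f3 q a))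
    (h4 : ∀ q a, Continuous (f4 q a)) :
    N2 X bq QQ (fun q a x => (f1 q a x + f2 q a x) + (f3 q a x + f4 q a x)) ≤
      4 * (N2 X bq QQ f1 + N2 X bq QQ f2 + N2 X bq QQ f3 + N2 X bq QQ f4) := by
  have e1 := ar_add X bq QQ hbq (fun q a x => f1 q a x + f2 q a x)
    (fun q a x => f3 q a x + f4 q a x) (fun q a => (h1 q a).add (h2 q a))
    (fun q a => (h3 q a).add (h4 q a))
  have e2 := ar_add X bq QQ hbq f1 f2 h1 h2
  have e3 := ar_add X bq QQ hbq f3 f4 h3 h4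
  linarith

/-- decomposition without the type I part -/
private theorem ar_core (X : ℕ) (n : ℕ) (δ : ℝ) (A1 : ℕ) (b N σ : ℝ) (QQ : Finset ℕ)
    (bq : ℕ → ℝ) (hstd : Std X n δ A1 b N σ QQ bq) (hb0 : 0 < b) (hX : 1 ≤ X) (hδ : 0 < δ)
    (I : ℕ) (K : ℕ → ℕ) (MM : ℕ → Finset ℕ) (c : ℕ → ℕ → ℂ) (e1 e2 : ℕ → ℂ) (s : ℝ) (w : ℕ)
    (T : ℝ → ℂ) (l : ℕ → ℕ → ℝ → ℂ) (hT : Continuous T) (hl : ∀ q a, Continuous (l q a))
    (hW : ∀ θ, W s w X θ = T θ + TII X θ + tp X e1 θ)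
    (hII : ∀ θ, TII X θ = ∑ i ∈ range I, ∑ m ∈ MM i,
        (ArithmeticFunction.vonMangoldt m : ℂ) * tp (K i) (c i) ((m : ℝ) * θ) + tp X e2 θ)
    (E1 E2' G TT : ℝ) (hE1 : ∑ n ∈ Icc 1 X, ‖e1 n‖ ^ 2 ≤ E1) (hE2 : ∑ n ∈ Icc 1 X, ‖e2 n‖ ^ 2 ≤ E2')
    (hG : ∀ i < I, N2 X bq QQ (fun q a x => ∑ m ∈ (MM i).filter (fun m => ¬ Nat.Coprime m q),
      (ArithmeticFunction.vonMangoldt m : ℂ) * tp (K i) (c i) ((m : ℝ) * ((a : ℝ) / q + σ * x)))
        ≤ G)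
    (hTT : N2 X bq QQ (fun q a x => T ((a : ℝ) / q + σ * x) - l q a x) ≤ TT) :
    N2 X bq QQ (fun q a x => Wa s σ w X q a x - l q a x -
          ∑ i ∈ range I, f2f (MM i) (fun m => (ArithmeticFunction.vonMangoldt m : ℂ))
            (tp (K i) (c i)) σ q a x) ≤ 4 * (TT + 4 * E1 + 4 * E2' + (I : ℝ) ^ 2 * G) := by
  obtain ⟨-, -, hσ, hbL, hN1, hNb, hfam, hbq⟩ := hstd
  have hX1R : (1 : ℝ) ≤ X := by exact_mod_cast hX
  have hNbX : N * b ≤ X := by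
    refine hNb.trans ?_
    have h := Real.rpow_le_rpow_of_exponent_le hX1R (show (1 / 2 - δ : ℝ) ≤ 1 by linarith)
    rwa [Real.rpow_one] at h
  have hb' : ∀ q ∈ QQ, 0 ≤ bq q := fun q hq => hb0.le.trans (hbq q hq).1
  have heq : (fun q a x => Wa s σ w X q a x - l q a x -
      ∑ i ∈ range I, f2f (MM i) (fun m => (ArithmeticFunction.vonMangoldt m : ℂ))
        (tp (K i) (c i)) σ q a x) =
      (fun (q a : ℕ) (x : ℝ) => ((T ((a : ℝ) / q + σ * x) - l q a x) +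
        tp X e1 ((a : ℝ) / q + σ * x)) + (tp X e2 ((a : ℝ) / q + σ * x) +
        ∑ i ∈ range I, ∑ m ∈ (MM i).filter (fun m => ¬ Nat.Coprime m q),
          (ArithmeticFunction.vonMangoldt m : ℂ) *
            tp (K i) (c i) ((m : ℝ) * ((a : ℝ) / q + σ * x)))) := by
    funext q a x
    have h1 : ∑ i ∈ range I, ∑ m ∈ MM i, (ArithmeticFunction.vonMangoldt m : ℂ) *
        tp (K i) (c i) ((m : ℝ) * ((a : ℝ) / q + σ * x)) =
        ∑ i ∈ range I, f2f (MM i) (fun m => (ArithmeticFunction.vonMangoldt m : ℂ))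
          (tp (K i) (c i)) σ q a x +
        ∑ i ∈ range I, ∑ m ∈ (MM i).filter (fun m => ¬ Nat.Coprime m q),
          (ArithmeticFunction.vonMangoldt m : ℂ) *
            tp (K i) (c i) ((m : ℝ) * ((a : ℝ) / q + σ * x)) := by
      rw [← sum_add_distrib]
      refine sum_congr rfl fun i _ => ?_
      unfold f2f
      rw [sum_filter_add_sum_filter_not]
    unfold Wa
    rw [hW, hII, h1]
    ring
  rw [heq]
  have hcont : ∀ q a : ℕ, Continuous fun x : ℝ => (a : ℝ) / q + σ * x := by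
    intro q a
    fun_prop
  have hg : ∀ i q a : ℕ, Continuous fun x : ℝ => ∑ m ∈ (MM i).filter (fun m => ¬ Nat.Coprime m q),
      (ArithmeticFunction.vonMangoldt m : ℂ) *
        tp (K i) (c i) ((m : ℝ) * ((a : ℝ) / q + σ * x)) := by
    intro i q a
    have := ar_tp_cont (K i) (c i)
    fun_prop
  have h4 := ar_four X bq QQ hb' (fun q a x => T ((a : ℝ) / q + σ * x) - l q a x)
    (fun q a x => tp X e1 ((a : ℝ) / q + σ * x)) (fun q a x => tp X e2 ((a : ℝ) / q + σ * x))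
    (fun q a x => ∑ i ∈ range I, ∑ m ∈ (MM i).filter (fun m => ¬ Nat.Coprime m q),
          (ArithmeticFunction.vonMangoldt m : ℂ) *
            tp (K i) (c i) ((m : ℝ) * ((a : ℝ) / q + σ * x)))
    (fun q a => (hT.comp (hcont q a)).sub (hl q a)) (fun q a => (ar_tp_cont X e1).comp (hcont q a))
    (fun q a => (ar_tp_cont X e2).comp (hcont q a))
    (fun q a => continuous_finsetSum _ fun i _ => hg i q a)
  refine h4.trans ?_
  have t1 := N2_tp X hX b N σ hb0 hN1 hNbX hσ QQ hfam bq hbq X e1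
  have t2 := N2_tp X hX b N σ hb0 hN1 hNbX hσ QQ hfam bq hbq X e2
  have t3 := ar_sum X bq QQ hb' I (fun i q a x => ∑ m ∈ (MM i).filter (fun m => ¬ Nat.Coprime m q),
          (ArithmeticFunction.vonMangoldt m : ℂ) *
            tp (K i) (c i) ((m : ℝ) * ((a : ℝ) / q + σ * x))) hg
  have t4 : ∑ i ∈ range I, N2 X bq QQ (fun q a x => ∑ m ∈ (MM i).filter
      (fun m => ¬ Nat.Coprime m q), (ArithmeticFunction.vonMangoldt m : ℂ) *
        tp (K i) (c i) ((m : ℝ) * ((a : ℝ) / q + σ * x))) ≤ I * G := by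
    have := sum_le_card_nsmul (range I) (fun i => N2 X bq QQ (fun q a x => ∑ m ∈ (MM i).filter
      (fun m => ¬ Nat.Coprime m q), (ArithmeticFunction.vonMangoldt m : ℂ) *
        tp (K i) (c i) ((m : ℝ) * ((a : ℝ) / q + σ * x)))) G
        (fun i hi => hG i (mem_range.1 hi))
    rwa [card_range, nsmul_eq_mul] at this
  have t5 := t3.trans (mul_le_mul_of_nonneg_left t4 (Nat.cast_nonneg I))
  have t6 : (I : ℝ) * (I * G) = (I : ℝ) ^ 2 * G := by ring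
  rw [t6] at t5
  linarith

theorem arc : ∃ C : ℕ, ∀ (AE : ℕ) (δ : ℝ) (A1 K2 D' : ℕ), 0 < δ → δ ≤ 1 / 8 → 1 ≤ D' →
    ∃ X0 : ℕ, ∀ X : ℕ, X0 ≤ X →
    ∃ (I : ℕ) (M : ℕ → ℝ) (K : ℕ → ℕ) (MM : ℕ → Finset ℕ) (c : ℕ → ℕ → ℂ),
      (I : ℝ) ≤ (Real.log X) ^ (2 * AE + C) ∧
      (∀ i < I, Blk X (M i) (K i) (MM i) (fun m => (ArithmeticFunction.vonMangoldt m : ℂ)) (c i)
        (Real.log X) ((Real.log X) ^ C)) ∧
      ∀ (n : ℕ) (b N σ : ℝ) (QQ : Finset ℕ) (bq : ℕ → ℝ), Std X n δ A1 b N σ QQ bq →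
      ∀ s : ℝ, |s| ≤ 1 →
      (b ≤ (Real.log X) ^ K2 → ∃ lam : ℕ → ℝ → ℂ, (∀ q, Continuous (lam q)) ∧
        (∀ q ∈ QQ, ∀ x, ‖lam q x‖ ≤ (Real.log X) ^ 3 * X / q) ∧
        N2 X bq QQ (fun q a x => Wa s σ (wX D' X) X q a x - lam q x -
          ∑ i ∈ range I, f2f (MM i) (fun m => (ArithmeticFunction.vonMangoldt m : ℂ))
            (tp (K i) (c i)) σ q a x) ≤ X / (Real.log X) ^ AE) ∧
      ((Real.log X) ^ K2 < b →
        N2 X bq QQ (fun q a x => Wa s σ (wX D' X) X q a x -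
          ∑ i ∈ range I, f2f (MM i) (fun m => (ArithmeticFunction.vonMangoldt m : ℂ))
            (tp (K i) (c i)) σ q a x) ≤
          X / (Real.log X) ^ AE + X * (Real.log X) ^ C / (Real.log X) ^ K2) := by
  obtain ⟨Cb, hblocks⟩ := blocks
  obtain ⟨Cl, hlarge⟩ := ti_N2_large
  obtain ⟨Cq, hCq, hlamq⟩ := lamq_le
  refine ⟨2 * Cb + Cl + 8, ?_⟩
  intro AE δ A1 K2 D' hδ hδ' hD'
  obtain ⟨Xb, hXb⟩ := hblocks (AE + Cb + 3)
  obtain ⟨η, hη, Xd, hXd⟩ := dec D' hD'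
  obtain ⟨Xg, hXg⟩ := gcd_part δ A1 Cb hδ hδ'
  obtain ⟨Xs, hXs⟩ := ti_N2_small δ A1 K2 hδ hδ'
  obtain ⟨Xl, hXl⟩ := hlarge δ A1 hδ hδ'
  obtain ⟨X1, hX1⟩ := ar_log AE 16 (δ / 2) (by linarith)
  obtain ⟨X2, hX2⟩ := ar_log AE 64 η hη
  obtain ⟨X3, hX3⟩ := ar_log (4 * (AE + Cb + 3) + 4 + AE) 16 (δ / 2) (by linarith)
  obtain ⟨X4, hX4⟩ := ar_big (max 4 (4 * Cq))
  refine ⟨max (max (max Xb Xd) (max Xg Xs)) (max (max Xl X1) (max (max X2 X3) (max X4 1))), ?_⟩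
  intro X hX
  rw [max_le_iff, max_le_iff, max_le_iff, max_le_iff, max_le_iff, max_le_iff, max_le_iff,
    max_le_iff, max_le_iff] at hX
  obtain ⟨⟨⟨gb, gd⟩, ⟨gg, gs⟩⟩, ⟨⟨gl, g1⟩, ⟨⟨g2, g3⟩, ⟨g4, g5⟩⟩⟩⟩ := hX
  obtain ⟨I, M, K, MM, c, e2, hI, hblk, hMX, he2, hII⟩ := hXb X gb
  have hX1R : (1 : ℝ) ≤ X := by exact_mod_cast g5
  have hX0 : (0 : ℝ) < X := by linarith
  have f1 := hX1 X g1
  have f2 := hX2 X g2
  have f3 := hX3 X g3
  have f4 := hX4 X g4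
  obtain ⟨L, hL⟩ : ∃ L : ℝ, L = Real.log X := ⟨_, rfl⟩
  have hXdX := hXd X gd
  have hXgX := hXg X gg
  have hXsX := hXs X gs
  have hXlX := hXl X gl
  rw [← hL] at f1 f2 f3 f4 hI hblk he2 hXdX hXgX hXsX hXlX ⊢
  have hL4 : 4 ≤ L := (le_max_left _ _).trans f4
  have hLq : 4 * Cq ≤ L := (le_max_right _ _).trans f4
  have hL1 : 1 ≤ L := by linarith
  have hL0 : 0 < L := by linarith
  have hLA : 0 < L ^ AE := by positivity
  obtain ⟨Z, hZ⟩ : ∃ Z : ℝ, Z = X / L ^ AE := ⟨_, rfl⟩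
  have hZX : Z * L ^ AE = X := by rw [hZ]; field_simp
  have hZ0 : 0 < Z := by rw [hZ]; positivity
  -- powers of `X`
  have eE : (X : ℝ) ^ (1 - δ / 2) * (X : ℝ) ^ (δ / 2) = X := by
    rw [← Real.rpow_add hX0]
    have : 1 - δ / 2 + δ / 2 = 1 := by ring
    rw [this, Real.rpow_one]
  have eF : (X : ℝ) ^ (1 - η) * (X : ℝ) ^ η = X := by
    rw [← Real.rpow_add hX0]
    have : 1 - η + η = 1 := by ring
    rw [this, Real.rpow_one]
  obtain ⟨E, hE⟩ : ∃ E : ℝ, E = (X : ℝ) ^ (1 - δ / 2) := ⟨_, rfl⟩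
  obtain ⟨F, hF⟩ : ∃ F : ℝ, F = (X : ℝ) ^ (1 - η) := ⟨_, rfl⟩
  have hE0 : 0 < E := by rw [hE]; positivity
  have hF0 : 0 < F := by rw [hF]; positivity
  rw [← hE] at eE hXgX hXsX hXlX
  rw [← hF] at eF hXdX
  have bE : 4 * E ≤ Z / 4 := by
    have h1 : E * (16 * L ^ AE) ≤ Z * L ^ AE := by
      rw [hZX]
      calc E * (16 * L ^ AE) ≤ E * (X : ℝ) ^ (δ / 2) := mul_le_mul_of_nonneg_left f1 hE0.le
        _ = X := eE
    have h2 : (E * 16) * L ^ AE ≤ Z * L ^ AE := by linarith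
    have h3 := le_of_mul_le_mul_right h2 hLA
    linarith
  have bF : 16 * F ≤ Z / 4 := by
    have h1 : F * (64 * L ^ AE) ≤ Z * L ^ AE := by
      rw [hZX]
      calc F * (64 * L ^ AE) ≤ F * (X : ℝ) ^ η := mul_le_mul_of_nonneg_left f2 hF0.le
        _ = X := eF
    have h2 : (F * 64) * L ^ AE ≤ Z * L ^ AE := by linarith
    have h3 := le_of_mul_le_mul_right h2 hLA
    linarith
  have bG : 4 * ((I : ℝ) ^ 2 * E) ≤ Z / 4 := by
    have h0 : (I : ℝ) ^ 2 ≤ L ^ (4 * (AE + Cb + 3) + 4) := by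
      calc (I : ℝ) ^ 2 ≤ (L ^ (2 * (AE + Cb + 3) + 2)) ^ 2 :=
            pow_le_pow_left₀ (Nat.cast_nonneg I) hI 2
        _ = L ^ (4 * (AE + Cb + 3) + 4) := by
            rw [← pow_mul]
            congr 1
            ring
    have h1 : E * (16 * L ^ (4 * (AE + Cb + 3) + 4 + AE)) ≤ Z * L ^ AE := by
      rw [hZX]
      calc E * (16 * L ^ (4 * (AE + Cb + 3) + 4 + AE)) ≤ E * (X : ℝ) ^ (δ / 2) :=
            mul_le_mul_of_nonneg_left f3 hE0.le
        _ = X := eE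
    have h2 : (E * 16 * L ^ (4 * (AE + Cb + 3) + 4)) * L ^ AE ≤ Z * L ^ AE := by
      rw [pow_add L (4 * (AE + Cb + 3) + 4) AE] at h1
      linarith
    have h3 := le_of_mul_le_mul_right h2 hLA
    have h4 : (I : ℝ) ^ 2 * E ≤ L ^ (4 * (AE + Cb + 3) + 4) * E :=
      mul_le_mul_of_nonneg_right h0 hE0.le
    linarith
  have bH : 16 * (X * L ^ Cb / L ^ (AE + Cb + 3)) ≤ Z / 4 := by
    have h1 : X * L ^ Cb / L ^ (AE + Cb + 3) = Z / L ^ 3 := by
      rw [hZ, pow_add, pow_add]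
      field_simp
    rw [h1]
    have h2 : (64 : ℝ) ≤ L ^ 3 := by
      calc (64 : ℝ) = 4 ^ 3 := by norm_num
        _ ≤ L ^ 3 := pow_le_pow_left₀ (by norm_num) hL4 3
    have h3 : Z / L ^ 3 ≤ Z / 64 := div_le_div_of_nonneg_left hZ0.le (by norm_num) h2
    linarith
  refine ⟨I, M, K, MM, c, ?_, ?_, ?_⟩
  · exact hI.trans (pow_le_pow_right₀ hL1 (by omega))
  · intro i hi
    obtain ⟨a1, a2, a3, a4, a5, a6⟩ := hblk i hi
    refine ⟨a1, a2, a3, a4, a5, a6.trans ?_⟩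
    have hM0 : 0 ≤ M i := le_trans (by positivity) a1
    have h1 : L ^ Cb ≤ L ^ (2 * Cb + Cl + 8) := pow_le_pow_right₀ hL1 (by omega)
    apply div_le_div_of_nonneg_right _ hM0
    exact mul_le_mul_of_nonneg_right h1 hX0.le
  · intro n b N σ QQ bq hstd s hs
    obtain ⟨u, v, e1, hu, hv, he1, hW⟩ := hXdX s hs
    have hu' : ∀ d, |u d| ≤ 2 * L := fun d => (hu d).trans (by linarith)
    have hbL : L ^ (-(A1 : ℝ)) ≤ b := by
      rw [hL]
      exact hstd.2.2.2.1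
    have hb0 : 0 < b := lt_of_lt_of_le (Real.rpow_pos_of_pos hL0 _) hbL
    have hG : ∀ i < I, N2 X bq QQ (fun q a x => ∑ m ∈ (MM i).filter
        (fun m => ¬ Nat.Coprime m q), (ArithmeticFunction.vonMangoldt m : ℂ) *
          tp (K i) (c i) ((m : ℝ) * ((a : ℝ) / q + σ * x))) ≤ E := fun i hi =>
      hXgX n b N σ QQ bq hstd (M i) (K i) (MM i) (c i) (hblk i hi) (hMX i hi)
    constructor
    · intro hb
      refine ⟨lamq X (U0 X * V0 X) u v σ, fun q => lamq_cont _ _ _ _ _ _, ?_, ?_⟩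
      · intro q hq x
        have hq1 : 1 ≤ q := hstd.2.2.2.2.2.2.1.1 q hq
        have h1 := hlamq X (U0 X * V0 X) u v (2 * L) σ q x g5 (ar_UV X) hq1 hu' hv
        rw [← hL] at h1
        refine h1.trans ?_
        have hq0 : (0 : ℝ) < q := by exact_mod_cast hq1
        apply div_le_div_of_nonneg_right _ hq0.le
        apply mul_le_mul_of_nonneg_right _ hX0.le
        calc Cq * (2 * L) * (1 + L) ≤ Cq * (2 * L) * (2 * L) := by
              apply mul_le_mul_of_nonneg_left _ (by positivity)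
              linarith
          _ = (4 * Cq) * L ^ 2 := by ring
          _ ≤ L * L ^ 2 := mul_le_mul_of_nonneg_right hLq (by positivity)
          _ = L ^ 3 := by ring
      · have hTT := hXsX n b N σ QQ bq hstd hb u v hu' hv
        have h1 := ar_core X n δ A1 b N σ QQ bq hstd hb0 g5 hδ I K MM c e1 e2 s (wX D' X)
          (TI X (U0 X * V0 X) u v) (fun q _ x => lamq X (U0 X * V0 X) u v σ q x)
          (ar_TI_cont _ _ _ _) (fun q _ => lamq_cont _ _ _ _ _ _) hW hII F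
          (X * L ^ Cb / L ^ (AE + Cb + 3)) E E he1 he2 hG hTT
        refine h1.trans ?_
        rw [← hZ]
        linarith
    · intro hb
      have hb1 : 1 ≤ b := (one_le_pow₀ hL1).trans hb.le
      have hTT := hXlX n b N σ QQ bq hstd hb1 u v hu' hv
      have h1 := ar_core X n δ A1 b N σ QQ bq hstd hb0 g5 hδ I K MM c e1 e2 s (wX D' X)
          (TI X (U0 X * V0 X) u v) (fun _ _ _ => 0)
          (ar_TI_cont _ _ _ _) (fun _ _ => continuous_const) hW hII F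
          (X * L ^ Cb / L ^ (AE + Cb + 3)) E (X * L ^ Cl / b + E) he1 he2 hG
          (by simpa only [sub_zero] using hTT)
      simp only [sub_zero] at h1
      refine h1.trans ?_
      rw [← hZ]
      have h2 : 4 * (X * L ^ Cl / b) ≤ X * L ^ (2 * Cb + Cl + 8) / L ^ K2 := by
        have h3 : X * L ^ Cl / b ≤ X * L ^ Cl / L ^ K2 :=
          div_le_div_of_nonneg_left (by positivity) (by positivity) hb.le
        calc 4 * (X * L ^ Cl / b) ≤ 4 * (X * L ^ Cl / L ^ K2) := by linarith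
          _ = X * (4 * L ^ Cl) / L ^ K2 := by ring
          _ ≤ X * L ^ (2 * Cb + Cl + 8) / L ^ K2 := by
              apply div_le_div_of_nonneg_right _ (by positivity)
              apply mul_le_mul_of_nonneg_left _ hX0.le
              calc 4 * L ^ Cl ≤ L * L ^ Cl := mul_le_mul_of_nonneg_right hL4 (by positivity)
                _ = L ^ (Cl + 1) := by ring
                _ ≤ L ^ (2 * Cb + Cl + 8) := pow_le_pow_right₀ hL1 (by omega)
      linarith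

end Pool.MP_dd84fd_nt.PL
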