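import Pool.Agent.Lib.MP_dd84fd_nt.PL.Vau
import Pool.Agent.Lib.MP_dd84fd_nt.PL.Model

/-!
# PL-Dec: `W_s = TI_s + TII + E_s`

`P1 X θ = ∑_{n ≤ X} (Λ(n)/log n) ee(nθ) - ∑_{prime powers p^j ≤ X, j ≥ 2} (1/j) ee(p^j θ)` (term `n = 1`: `Λ(1) = 0`).
`vaughan2` with `V = V0 X`, `U = U0 X`, `F n = ee(nθ)/log n` (`F 1 = 0` in Lean, division by zero):
`∑ Λ F = ∑_{n ≤ V0} Λ F - ∑_{t ≤ V0 U0} ∑_k v1 F(tk) + ∑_{d ≤ U0} ∑_k μ(d) log k F(dk) + TII`; the second and third sums are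
`TI X (U0 X * V0 X) u v θ` with `u d = μ(d) 1[d ≤ U0]`, `v d = -v1 V0 U0 d` (`|v1| ≤ log d ≤ log X` for `1 ≤ d ≤ U0V0`; put `v d = 0`
for other `d`).  Error coefficients: prime powers and `n ≤ V0`: `∑|e_n|² ≤ 2√X·.. + X^(1/4)· ≤ X^(3/4)` for large `X`.
Add `s F2` by `model_split` (extend the range `d ≤ V0` to `d ≤ U0V0` by `v d = 0`).  `|v| ≤ 2 log X`.
-/

set_option autoImplicit false

namespace Pool.MP_dd84fd_nt.PL

open Finset Pool.MP_67663b_nt.Odd Pool.MP_dd84fd_nt.En Pool.MP_dd84fd_nt.E2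

/-- `Λ(n) / log n` -/
private noncomputable def dr (n : ℕ) : ℝ := ArithmeticFunction.vonMangoldt n / Real.log n

/-- the error coefficients of the primes -/
private noncomputable def de (V n : ℕ) : ℝ :=
  (if n.Prime then 1 else 0) - dr n + (if n ≤ V then dr n else 0)

private theorem dr_prime (n : ℕ) (h : n.Prime) : dr n = 1 := by
  unfold dr
  rw [ArithmeticFunction.vonMangoldt_apply_prime h]
  apply div_self
  have h1 : (1 : ℝ) < n := by exact_mod_cast h.one_lt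
  exact (Real.log_pos h1).ne'

private theorem dr_nonneg (n : ℕ) : 0 ≤ dr n :=
  div_nonneg ArithmeticFunction.vonMangoldt_nonneg (Real.log_natCast_nonneg n)

private theorem dr_le (n : ℕ) : dr n ≤ 1 :=
  div_le_one_of_le₀ ArithmeticFunction.vonMangoldt_le_log (Real.log_natCast_nonneg n)

private theorem de_abs (V n : ℕ) : |de V n| ≤ 1 := by
  have h0 := dr_nonneg n
  have h1 := dr_le n
  unfold de
  by_cases hp : n.Prime
  · rw [if_pos hp, dr_prime n hp]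
    split_ifs <;> norm_num
  · rw [if_neg hp]
    split_ifs <;> rw [abs_le] <;> constructor <;> linarith

private theorem de_ne (X V n : ℕ) (hn : n ∈ Icc 1 X) (h : de V n ≠ 0) :
    n ∈ Icc 1 V ∪ (Icc 1 (Nat.sqrt X) ×ˢ Icc 1 (Nat.log 2 X)).image (fun z => z.1 ^ z.2) := by
  rw [mem_Icc] at hn
  rw [mem_union]
  by_cases hV : n ≤ V
  · exact Or.inl (mem_Icc.mpr ⟨hn.1, hV⟩)
  · right
    unfold de at h
    rw [if_neg hV] at h
    by_cases hp : n.Prime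
    · rw [if_pos hp, dr_prime n hp] at h
      exact absurd (by norm_num) h
    · rw [if_neg hp] at h
      have h1 : dr n ≠ 0 := by
        intro h2
        rw [h2] at h
        exact h (by norm_num)
      have h2 : IsPrimePow n := by
        by_contra h3
        apply h1
        unfold dr
        rw [ArithmeticFunction.vonMangoldt_apply, if_neg h3, zero_div]
      obtain ⟨p, k, hpp, hk, rfl⟩ := (isPrimePow_nat_iff n).mp h2
      have hk2 : 2 ≤ k := by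
        rcases Nat.lt_or_ge k 2 with h3 | h3
        · have : k = 1 := by omega
          rw [this, pow_one] at hp
          exact absurd hpp hp
        · exact h3
      rw [mem_image]
      refine ⟨(p, k), ?_, rfl⟩
      rw [mem_product, mem_Icc, mem_Icc]
      refine ⟨⟨hpp.one_lt.le, ?_⟩, ⟨hk, ?_⟩⟩
      · rw [Nat.le_sqrt']
        exact (Nat.pow_le_pow_right hpp.pos hk2).trans hn.2
      · apply Nat.le_log_of_pow_le (by norm_num)
        exact (Nat.pow_le_pow_left hpp.two_le k).trans hn.2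

private theorem de_l2 (X V : ℕ) :
    ∑ n ∈ Icc 1 X, (de V n) ^ 2 ≤ (V : ℝ) + (Nat.sqrt X : ℝ) * Nat.log 2 X := by
  have h1 : ∑ n ∈ Icc 1 X, (de V n) ^ 2 = ∑ n ∈ (Icc 1 X).filter (fun n => de V n ≠ 0),
      (de V n) ^ 2 := by
    rw [sum_filter_of_ne]
    intro n _ h h2
    rw [h2] at h
    exact h (by norm_num)
  rw [h1]
  have h2 : ∑ n ∈ (Icc 1 X).filter (fun n => de V n ≠ 0), (de V n) ^ 2 ≤
      ∑ n ∈ (Icc 1 X).filter (fun n => de V n ≠ 0), (1 : ℝ) := by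
    apply sum_le_sum
    intro n _
    have := de_abs V n
    rw [← sq_abs]
    have h0 := abs_nonneg (de V n)
    nlinarith
  rw [sum_const, nsmul_eq_mul, mul_one] at h2
  have h3 : ((Icc 1 X).filter (fun n => de V n ≠ 0)).card ≤ V + Nat.sqrt X * Nat.log 2 X := by
    have h4 : (Icc 1 X).filter (fun n => de V n ≠ 0) ⊆
        Icc 1 V ∪ (Icc 1 (Nat.sqrt X) ×ˢ Icc 1 (Nat.log 2 X)).image (fun z => z.1 ^ z.2) := by
      intro n hn
      rw [mem_filter] at hn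
      exact de_ne X V n hn.1 hn.2
    refine (card_le_card h4).trans ((card_union_le _ _).trans ?_)
    have h5 := card_image_le (s := Icc 1 (Nat.sqrt X) ×ˢ Icc 1 (Nat.log 2 X))
      (f := fun z : ℕ × ℕ => z.1 ^ z.2)
    rw [card_product, Nat.card_Icc, Nat.card_Icc, Nat.add_sub_cancel, Nat.add_sub_cancel] at h5
    rw [Nat.card_Icc, Nat.add_sub_cancel]
    omega
  calc _ ≤ (((Icc 1 X).filter (fun n => de V n ≠ 0)).card : ℝ) := h2
    _ ≤ ((V + Nat.sqrt X * Nat.log 2 X : ℕ) : ℝ) := by exact_mod_cast h3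
    _ = _ := by push_cast; ring

/-- the test function of Vaughan's identity -/
private noncomputable def dF (θ : ℝ) (n : ℕ) : ℂ := ee ((n : ℝ) * θ) / ((Real.log n : ℝ) : ℂ)

private theorem ti_eq (X D : ℕ) (u v : ℕ → ℝ) (θ : ℝ) :
    TI X D u v θ = ∑ d ∈ Icc 1 D, ∑ k ∈ Icc 1 (X / d),
      (((u d : ℝ) : ℂ) * ((Real.log k : ℝ) : ℂ) + ((v d : ℝ) : ℂ)) * dF θ (d * k) := by
  unfold TI ti dF
  refine sum_congr rfl fun d _ => sum_congr rfl fun k _ => ?_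
  push_cast
  ring

private theorem dec_P1 (X : ℕ) (hX : 1 ≤ X) (θ : ℝ) :
    P1 X θ = tp X (fun n => ((de (V0 X) n : ℝ) : ℂ)) θ
      - ∑ t ∈ Icc 1 (V0 X * U0 X), ∑ k ∈ Icc 1 (X / t), (v1 (V0 X) (U0 X) t : ℂ) * dF θ (t * k)
      + ∑ d ∈ Icc 1 (U0 X), ∑ k ∈ Icc 1 (X / d),
          (((ArithmeticFunction.moebius d : ℤ) : ℂ)) * ((Real.log k : ℝ) : ℂ) * dF θ (d * k)
      + TII X θ := by
  have hU : 1 ≤ U0 X := by
    unfold U0
    exact Nat.sqrt_pos.mpr hX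
  have hV : 1 ≤ V0 X := by
    unfold V0
    exact Nat.sqrt_pos.mpr hU
  have hVX : V0 X ≤ X := by
    unfold V0
    exact (Nat.sqrt_le_self _).trans (Nat.sqrt_le_self _)
  have hv := vaughan2 (V0 X) (U0 X) X hV hU (dF θ)
  rw [min_eq_left hVX] at hv
  have e1 : P1 X θ = ∑ n ∈ Icc 1 X, ((if n.Prime then (1 : ℝ) else 0 : ℝ) : ℂ) *
      ee ((n : ℝ) * θ) := by
    unfold P1
    rw [sum_filter]
    refine sum_congr rfl fun n _ => ?_
    split_ifs <;> simp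
  have e2 : ∀ n : ℕ, (ArithmeticFunction.vonMangoldt n : ℂ) * dF θ n =
      ((dr n : ℝ) : ℂ) * ee ((n : ℝ) * θ) := by
    intro n
    unfold dF dr
    push_cast
    ring
  have e3 : ∑ n ∈ Icc 1 (V0 X), (ArithmeticFunction.vonMangoldt n : ℂ) * dF θ n =
      ∑ n ∈ Icc 1 X, ((if n ≤ V0 X then dr n else 0 : ℝ) : ℂ) * ee ((n : ℝ) * θ) := by
    rw [← sum_subset (s₁ := Icc 1 (V0 X)) (s₂ := Icc 1 X) (Icc_subset_Icc le_rfl hVX)]
    · refine sum_congr rfl fun n hn => ?_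
      rw [if_pos (mem_Icc.mp hn).2, e2]
    · intro n hn hn2
      have : ¬ n ≤ V0 X := fun h => hn2 (mem_Icc.mpr ⟨(mem_Icc.mp hn).1, h⟩)
      rw [if_neg this]
      simp
  have e4 : tp X (fun n => ((de (V0 X) n : ℝ) : ℂ)) θ =
      ∑ n ∈ Icc 1 X, ((if n.Prime then (1 : ℝ) else 0 : ℝ) : ℂ) * ee ((n : ℝ) * θ)
      - ∑ n ∈ Icc 1 X, (ArithmeticFunction.vonMangoldt n : ℂ) * dF θ n
      + ∑ n ∈ Icc 1 (V0 X), (ArithmeticFunction.vonMangoldt n : ℂ) * dF θ n := by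
    rw [e3, ← sum_sub_distrib, ← sum_add_distrib]
    unfold tp
    refine sum_congr rfl fun n _ => ?_
    rw [e2]
    unfold de
    push_cast
    ring
  have e5 : TII X θ = ∑ m ∈ Ioc (V0 X) X, ∑ k ∈ Ioc (U0 X) (X / m),
      (ArithmeticFunction.vonMangoldt m : ℂ) * (Pool.BV.c2 (U0 X) k : ℂ) * dF θ (m * k) := by
    unfold TII dF
    refine sum_congr rfl fun m _ => sum_congr rfl fun k _ => ?_
    push_cast
    ring
  rw [e1, e4, e5, hv]
  ring

private theorem dec_large (η : ℝ) (hη : 0 < η) : ∃ X0 : ℕ, ∀ X : ℕ, X0 ≤ X →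
    1 ≤ X ∧ 4 ≤ (X : ℝ) ^ η ∧ 1 + 2 * Real.log X ≤ (X : ℝ) ^ (1 / 4 : ℝ) := by
  have h1 : ∀ᶠ X : ℕ in Filter.atTop, 4 ≤ (X : ℝ) ^ η :=
    ((tendsto_rpow_atTop hη).comp tendsto_natCast_atTop_atTop).eventually_ge_atTop 4
  have h2 : ∀ᶠ X : ℕ in Filter.atTop, 2 ≤ (X : ℝ) ^ (1 / 4 : ℝ) :=
    ((tendsto_rpow_atTop (by norm_num)).comp tendsto_natCast_atTop_atTop).eventually_ge_atTop 2
  have h3 : ∀ᶠ X : ℕ in Filter.atTop, ‖Real.log (X : ℝ)‖ ≤ 1 / 4 * ‖(X : ℝ) ^ (1 / 4 : ℝ)‖ :=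
    tendsto_natCast_atTop_atTop.eventually
      ((isLittleO_log_rpow_atTop (r := 1 / 4) (by norm_num)).def (by norm_num))
  obtain ⟨X0, h⟩ := Filter.eventually_atTop.mp
    (h1.and (h2.and (h3.and (Filter.eventually_ge_atTop 1))))
  refine ⟨X0, fun X hX => ?_⟩
  obtain ⟨g1, g2, g3, g4⟩ := h X hX
  refine ⟨g4, g1, ?_⟩
  rw [Real.norm_of_nonneg (Real.log_natCast_nonneg X), Real.norm_of_nonneg (by positivity)] at g3
  linarith

theorem dec (D' : ℕ) (hD : 1 ≤ D') : ∃ η : ℝ, 0 < η ∧ ∃ X0 : ℕ, ∀ X : ℕ, X0 ≤ X →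
    ∀ s : ℝ, |s| ≤ 1 → ∃ (u v : ℕ → ℝ) (e : ℕ → ℂ),
      (∀ d, |u d| ≤ 1) ∧ (∀ d, |v d| ≤ 2 * Real.log X) ∧
      ∑ n ∈ Icc 1 X, ‖e n‖ ^ 2 ≤ (X : ℝ) ^ (1 - η) ∧
      ∀ θ : ℝ, W s (wX D' X) X θ = TI X (U0 X * V0 X) u v θ + TII X θ + tp X e θ := by
  obtain ⟨ηM, hηM, XM, hM⟩ := model_split D' hD
  obtain ⟨η, hη⟩ : ∃ η : ℝ, η = min ηM (1 / 4) / 2 := ⟨_, rfl⟩
  have hη0 : 0 < η := by
    rw [hη]
    have : 0 < min ηM (1 / 4) := lt_min hηM (by norm_num)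
    linarith
  have hη1 : 2 * η ≤ ηM := by
    rw [hη]
    have := min_le_left ηM (1 / 4)
    linarith
  have hη2 : 2 * η ≤ 1 / 4 := by
    rw [hη]
    have := min_le_right ηM (1 / 4)
    linarith
  obtain ⟨X1, h1⟩ := dec_large η hη0
  refine ⟨η, hη0, max XM X1, fun X hX s hs => ?_⟩
  obtain ⟨hX1, hXη, hXl⟩ := h1 X ((le_max_right _ _).trans hX)
  obtain ⟨vM, eM, hvM, hvM0, heM, hF⟩ := hM X ((le_max_left _ _).trans hX)
  have hXr : (1 : ℝ) ≤ X := by exact_mod_cast hX1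
  have hX0 : (0 : ℝ) < X := by linarith
  have hlog : 0 ≤ Real.log X := Real.log_nonneg hXr
  have hU : 1 ≤ U0 X := by
    unfold U0
    exact Nat.sqrt_pos.mpr hX1
  have hV : 1 ≤ V0 X := by
    unfold V0
    exact Nat.sqrt_pos.mpr hU
  have hUV : U0 X * V0 X ≤ X := by
    have h2 : V0 X ≤ U0 X := by
      unfold V0 U0
      exact Nat.sqrt_le_self _
    calc U0 X * V0 X ≤ U0 X * U0 X := Nat.mul_le_mul_left _ h2
      _ ≤ X := by unfold U0; exact Nat.sqrt_le X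
  obtain ⟨u, hu⟩ : ∃ u : ℕ → ℝ, u = fun d =>
      if d ≤ U0 X then ((ArithmeticFunction.moebius d : ℤ) : ℝ) else 0 := ⟨_, rfl⟩
  obtain ⟨v, hv⟩ : ∃ v : ℕ → ℝ, v = fun d =>
      if 1 ≤ d ∧ d ≤ U0 X * V0 X then -v1 (V0 X) (U0 X) d + s * vM d else 0 := ⟨_, rfl⟩
  refine ⟨u, v, fun n => ((de (V0 X) n : ℝ) : ℂ) + (s : ℂ) * eM n, ?_, ?_, ?_, ?_⟩
  · intro d
    rw [hu]
    simp only
    split_ifs
    · have := ArithmeticFunction.abs_moebius_le_one (n := d)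
      exact_mod_cast this
    · simp
  · intro d
    rw [hv]
    simp only
    split_ifs with hd
    · have h2 := v1_le (V0 X) (U0 X) d hd.1
      have h3 : Real.log d ≤ Real.log X := by
        apply Real.log_le_log
        · exact_mod_cast hd.1
        · exact_mod_cast hd.2.trans hUV
      have h4 : |s * vM d| ≤ Real.log X := by
        rw [abs_mul]
        have := hvM d
        have h5 := abs_nonneg (vM d)
        nlinarith [abs_nonneg s]
      calc _ ≤ |-v1 (V0 X) (U0 X) d| + |s * vM d| := abs_add_le _ _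
        _ ≤ 2 * Real.log X := by rw [abs_neg]; linarith
    · rw [abs_zero]
      positivity
  · have h2 : ∀ n ∈ Icc 1 X, ‖((de (V0 X) n : ℝ) : ℂ) + (s : ℂ) * eM n‖ ^ 2 ≤
        2 * (de (V0 X) n) ^ 2 + 2 * ‖eM n‖ ^ 2 := by
      intro n _
      have h3 : ‖((de (V0 X) n : ℝ) : ℂ) + (s : ℂ) * eM n‖ ≤ |de (V0 X) n| + ‖eM n‖ := by
        refine (norm_add_le _ _).trans ?_
        rw [norm_mul, Complex.norm_real, Complex.norm_real, Real.norm_eq_abs, Real.norm_eq_abs]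
        have := norm_nonneg (eM n)
        nlinarith
      have h4 : ‖((de (V0 X) n : ℝ) : ℂ) + (s : ℂ) * eM n‖ ^ 2 ≤
          (|de (V0 X) n| + ‖eM n‖) ^ 2 := pow_le_pow_left₀ (norm_nonneg _) h3 2
      have h5 : (|de (V0 X) n|) ^ 2 = (de (V0 X) n) ^ 2 := sq_abs _
      nlinarith [sq_nonneg (|de (V0 X) n| - ‖eM n‖)]
    have h3 := sum_le_sum h2
    rw [sum_add_distrib, ← mul_sum, ← mul_sum] at h3
    have h4 := de_l2 X (V0 X)
    have h5 : (V0 X : ℝ) + (Nat.sqrt X : ℝ) * Nat.log 2 X ≤ (X : ℝ) ^ (3 / 4 : ℝ) := by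
      have g1 : (Nat.sqrt X : ℝ) ≤ (X : ℝ) ^ (1 / 2 : ℝ) := by
        rw [← Real.sqrt_eq_rpow]
        exact Real.nat_sqrt_le_real_sqrt
      have g2 : (V0 X : ℝ) ≤ (Nat.sqrt X : ℝ) := by
        have : V0 X ≤ Nat.sqrt X := by
          unfold V0
          exact Nat.sqrt_le_self _
        exact_mod_cast this
      have g3 : (Nat.log 2 X : ℝ) ≤ 2 * Real.log X := by
        have g4 : (2 : ℝ) ^ (Nat.log 2 X) ≤ X := by
          exact_mod_cast Nat.pow_log_le_self 2 (by omega)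
        have g5 := Real.log_le_log (by positivity) g4
        rw [Real.log_pow] at g5
        have g6 := Real.log_two_gt_d9
        have g7 : (0 : ℝ) ≤ Nat.log 2 X := Nat.cast_nonneg _
        nlinarith
      have g8 : (X : ℝ) ^ (3 / 4 : ℝ) = (X : ℝ) ^ (1 / 2 : ℝ) * (X : ℝ) ^ (1 / 4 : ℝ) := by
        rw [← Real.rpow_add hX0]
        norm_num
      have g9 : (0 : ℝ) ≤ Nat.sqrt X := Nat.cast_nonneg _
      rw [g8]
      calc _ ≤ (Nat.sqrt X : ℝ) * (1 + 2 * Real.log X) := by nlinarith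
        _ ≤ (X : ℝ) ^ (1 / 2 : ℝ) * (X : ℝ) ^ (1 / 4 : ℝ) :=
            mul_le_mul g1 hXl (by positivity) (by positivity)
    have h6 : (X : ℝ) ^ (3 / 4 : ℝ) ≤ (X : ℝ) ^ (1 - 2 * η) :=
      Real.rpow_le_rpow_of_exponent_le hXr (by linarith)
    have h7 : (X : ℝ) ^ (1 - ηM) ≤ (X : ℝ) ^ (1 - 2 * η) :=
      Real.rpow_le_rpow_of_exponent_le hXr (by linarith)
    have h8 : (X : ℝ) ^ (1 - η) = (X : ℝ) ^ (1 - 2 * η) * (X : ℝ) ^ η := by
      rw [← Real.rpow_add hX0]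
      congr 1
      ring
    have h9 : 0 ≤ (X : ℝ) ^ (1 - 2 * η) := by positivity
    rw [h8]
    calc _ ≤ 2 * ∑ n ∈ Icc 1 X, (de (V0 X) n) ^ 2 + 2 * ∑ n ∈ Icc 1 X, ‖eM n‖ ^ 2 := h3
      _ ≤ 4 * (X : ℝ) ^ (1 - 2 * η) := by linarith
      _ ≤ _ := by nlinarith
  · intro θ
    have hP := dec_P1 X hX1 θ
    unfold W
    rw [hP, hF θ, ti_eq, ti_eq]
    have e1 : ∑ d ∈ Icc 1 (U0 X * V0 X), ∑ k ∈ Icc 1 (X / d),
        (((u d : ℝ) : ℂ) * ((Real.log k : ℝ) : ℂ) + ((v d : ℝ) : ℂ)) * dF θ (d * k) =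
        (∑ d ∈ Icc 1 (U0 X * V0 X), ∑ k ∈ Icc 1 (X / d),
          ((u d : ℝ) : ℂ) * ((Real.log k : ℝ) : ℂ) * dF θ (d * k)) -
        (∑ d ∈ Icc 1 (U0 X * V0 X), ∑ k ∈ Icc 1 (X / d),
          (v1 (V0 X) (U0 X) d : ℂ) * dF θ (d * k)) +
        (s : ℂ) * ∑ d ∈ Icc 1 (U0 X * V0 X), ∑ k ∈ Icc 1 (X / d),
          ((vM d : ℝ) : ℂ) * dF θ (d * k) := by
      rw [mul_sum, ← sum_sub_distrib, ← sum_add_distrib]
      refine sum_congr rfl fun d hd => ?_
      rw [mul_sum, ← sum_sub_distrib, ← sum_add_distrib]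
      refine sum_congr rfl fun k _ => ?_
      have : v d = -v1 (V0 X) (U0 X) d + s * vM d := by
        rw [hv]
        simp only
        rw [if_pos (mem_Icc.mp hd)]
      rw [this]
      push_cast
      ring
    have e2 : ∑ d ∈ Icc 1 (U0 X * V0 X), ∑ k ∈ Icc 1 (X / d),
          ((u d : ℝ) : ℂ) * ((Real.log k : ℝ) : ℂ) * dF θ (d * k) =
        ∑ d ∈ Icc 1 (U0 X), ∑ k ∈ Icc 1 (X / d),
          (((ArithmeticFunction.moebius d : ℤ) : ℂ)) * ((Real.log k : ℝ) : ℂ) * dF θ (d * k) := by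
      symm
      rw [← sum_subset (s₁ := Icc 1 (U0 X)) (s₂ := Icc 1 (U0 X * V0 X))
        (Icc_subset_Icc le_rfl (Nat.le_mul_of_pos_right _ hV))]
      · refine sum_congr rfl fun d hd => sum_congr rfl fun k _ => ?_
        rw [hu]
        simp only
        rw [if_pos (mem_Icc.mp hd).2]
        push_cast
        ring
      · intro d hd hd2
        have : ¬ d ≤ U0 X := fun h => hd2 (mem_Icc.mpr ⟨(mem_Icc.mp hd).1, h⟩)
        rw [hu]
        simp only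
        rw [if_neg this]
        simp
    have e3 : ∑ d ∈ Icc 1 (U0 X * V0 X), ∑ k ∈ Icc 1 (X / d), ((vM d : ℝ) : ℂ) * dF θ (d * k) =
        ∑ d ∈ Icc 1 (V0 X), ∑ k ∈ Icc 1 (X / d),
          ((((fun _ => 0 : ℕ → ℝ) d : ℝ) : ℂ) * ((Real.log k : ℝ) : ℂ) + ((vM d : ℝ) : ℂ)) *
            dF θ (d * k) := by
      symm
      rw [← sum_subset (s₁ := Icc 1 (V0 X)) (s₂ := Icc 1 (U0 X * V0 X))
        (Icc_subset_Icc le_rfl (Nat.le_mul_of_pos_left _ hU))]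
      · refine sum_congr rfl fun d _ => sum_congr rfl fun k _ => ?_
        simp
      · intro d hd hd2
        have : V0 X < d := by
          by_contra h
          exact hd2 (mem_Icc.mpr ⟨(mem_Icc.mp hd).1, by omega⟩)
        rw [hvM0 d this]
        simp
    have e4 : tp X (fun n => ((de (V0 X) n : ℝ) : ℂ) + (s : ℂ) * eM n) θ =
        tp X (fun n => ((de (V0 X) n : ℝ) : ℂ)) θ + (s : ℂ) * tp X eM θ := by
      unfold tp
      rw [mul_sum, ← sum_add_distrib]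
      refine sum_congr rfl fun n _ => ?_
      ring
    rw [e1, e2, e3, e4, mul_comm (V0 X) (U0 X)]
    ring

end Pool.MP_dd84fd_nt.PL
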