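import Pool.Agent.Lib.MP_dd84fd_nt.PL.Defs

/-!
# PL-Four: Fourier series of bounded measurable functions on `[0,1]`

`fc f j = ∫_0^1 f(t) e(jt) dt` (so `fc f j` is the usual coefficient number `-j`).

Proof.  Use Mathlib's `fourierCoeffOn` / `fourierCoeff` on `AddCircle (1 : ℝ)` (`UnitAddCircle`): the
function `f` on `[0,1)` defines `F : AddCircle 1 → ℂ` (`AddCircle.liftIco 1 0 f`), measurable and bounded,
hence in `L²` of the probability measure `haarAddCircle`;  `fourierCoeff F n = ∫_0^1 f(t) e(-nt) dt`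
(`fourierCoeff_eq_intervalIntegral`, or `fourierCoeffOn_eq_integral`, `fourierCoeff_liftIco_eq`).
(1) `hasSum_sq_fourierCoeff` / `tsum_sq_fourierCoeff` (Parseval);  reindex `j ↦ -j`.
(2) `fourierBasis.hasSum_inner_mul_inner` for `conj F * e_{...}` and `G`: the coefficient number `-j` of
`f g` is `∫ f g e(jt) = ⟨conj(f) , g e(j·)⟩`, and `⟨conj f, e_k⟩ ⟨e_k, g e(j ·)⟩ = fc f k · fc g (j-k)`:
indeed `⟨conj f, e_k⟩ = ∫ f e_k = fc f k` and `⟨e_k, g e(j·)⟩ = ∫ g e((j-k)t) = fc g (j-k)`.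
-/

set_option autoImplicit false

namespace Pool.MP_dd84fd_nt.PL

open Finset Pool.MP_67663b_nt.Odd

open MeasureTheory

private theorem ee_norm (x : ℝ) : ‖ee x‖ = 1 := by
  unfold ee
  rw [show (2 * (Real.pi : ℂ) * (x : ℂ) * Complex.I) = ((2 * Real.pi * x : ℝ) : ℂ) * Complex.I by
    push_cast; ring]
  exact Complex.norm_exp_ofReal_mul_I _

private theorem ee_addd (x y : ℝ) : ee (x + y) = ee x * ee y := by
  unfold ee
  rw [← Complex.exp_add]
  congr 1
  push_cast
  ring

private theorem ee_conjj (x : ℝ) : (starRingEnd ℂ) (ee x) = ee (-x) := by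
  unfold ee
  rw [← Complex.exp_conj]
  congr 1
  rw [map_mul, map_mul, map_mul, Complex.conj_I, Complex.conj_ofReal, Complex.conj_ofReal,
    Complex.conj_ofNat]
  push_cast
  ring

private theorem ee_cont : Continuous ee := by
  unfold ee
  fun_prop

private theorem fcoe (n : ℤ) (x : ℝ) :
    (fourier n (x : AddCircle (1 : ℝ)) : ℂ) = ee ((n : ℝ) * x) := by
  rw [fourier_coe_apply]
  unfold ee
  congr 1
  push_cast
  ring

private theorem coeff_eq (f : ℝ → ℂ) (n : ℤ) :
    fourierCoeff (AddCircle.liftIoc (1 : ℝ) 0 f) n = fc f (-n) := by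
  rw [fourierCoeff_eq_intervalIntegral _ n 0]
  simp only [zero_add, div_one, one_smul]
  unfold fc
  rw [intervalIntegral.integral_of_le zero_le_one, intervalIntegral.integral_of_le zero_le_one]
  refine setIntegral_congr_fun measurableSet_Ioc fun x hx => ?_
  have h1 : AddCircle.liftIoc (1 : ℝ) 0 f (x : AddCircle (1 : ℝ)) = f x := by
    rw [AddCircle.liftIoc_coe_apply]
    rwa [zero_add]
  simp only [h1, fcoe, smul_eq_mul]
  rw [mul_comm]

private theorem memLpp (f : ℝ → ℂ) (B : ℝ) (hm : Measurable f) (hB : ∀ t, ‖f t‖ ≤ B) :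
    MemLp (AddCircle.liftIoc (1 : ℝ) 0 f) 2 AddCircle.haarAddCircle := by
  have h0 : MemLp f 2 (volume.restrict (Set.Ioc (0 : ℝ) 1)) :=
    MemLp.of_bound hm.aestronglyMeasurable B (Filter.Eventually.of_forall hB)
  have h1 : MemLp f 2 (volume.restrict (Set.Ioc (0 : ℝ) (0 + 1))) := by rwa [zero_add]
  exact h1.memLp_liftIoc.haarAddCircle

theorem fc_norm_le (f : ℝ → ℂ) (B : ℝ) (hB : ∀ t, ‖f t‖ ≤ B) (j : ℤ) : ‖fc f j‖ ≤ B := by
  unfold fc
  have h := intervalIntegral.norm_integral_le_of_norm_le_const (a := (0 : ℝ)) (b := 1) (C := B)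
    (f := fun t => f t * ee ((j : ℝ) * t)) (fun t _ => by rw [norm_mul, ee_norm, mul_one]; exact hB t)
  simpa using h

theorem fc_parseval (f : ℝ → ℂ) (B : ℝ) (hm : Measurable f) (hB : ∀ t, ‖f t‖ ≤ B) :
    HasSum (fun j : ℤ => ‖fc f j‖ ^ 2) (∫ t in (0 : ℝ)..1, ‖f t‖ ^ 2) := by
  have h := memLpp f B hm hB
  have h2 := hasSum_sq_fourierCoeff h.toLp
  have h3 : (∫ t : AddCircle (1 : ℝ), ‖(h.toLp : AddCircle (1 : ℝ) → ℂ) t‖ ^ 2 ∂AddCircle.haarAddCircle)
      = ∫ t in (0 : ℝ)..1, ‖f t‖ ^ 2 := by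
    have e1 : (∫ t : AddCircle (1 : ℝ), ‖(h.toLp : AddCircle (1 : ℝ) → ℂ) t‖ ^ 2 ∂AddCircle.haarAddCircle)
        = ∫ t : AddCircle (1 : ℝ), ‖AddCircle.liftIoc (1 : ℝ) 0 f t‖ ^ 2
          ∂AddCircle.haarAddCircle := by
      apply integral_congr_ae
      filter_upwards [h.coeFn_toLp] with x hx
      rw [hx]
    rw [e1, AddCircle.integral_haarAddCircle, inv_one, one_smul,
      ← AddCircle.intervalIntegral_preimage (1 : ℝ) 0
        (fun z => ‖AddCircle.liftIoc (1 : ℝ) 0 f z‖ ^ 2)]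
    rw [zero_add, intervalIntegral.integral_of_le zero_le_one,
      intervalIntegral.integral_of_le zero_le_one]
    refine setIntegral_congr_fun measurableSet_Ioc fun x hx => ?_
    have h1 : AddCircle.liftIoc (1 : ℝ) 0 f (x : AddCircle (1 : ℝ)) = f x := by
      rw [AddCircle.liftIoc_coe_apply]
      rwa [zero_add]
    simp only [h1]
  rw [h3] at h2
  have h4 : (fun i : ℤ => ‖fourierCoeff (h.toLp) i‖ ^ 2) = fun i : ℤ => ‖fc f (-i)‖ ^ 2 := by
    funext i
    rw [fourierCoeff_congr_ae h.coeFn_toLp, coeff_eq]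
  rw [h4] at h2
  have h5 := (Equiv.neg ℤ).hasSum_iff (f := fun i : ℤ => ‖fc f i‖ ^ 2)
    (a := ∫ t in (0 : ℝ)..1, ‖f t‖ ^ 2)
  exact h5.1 (by simpa [Function.comp_def] using h2)

theorem fc_mul (f g : ℝ → ℂ) (B : ℝ) (hmf : Measurable f) (hmg : Measurable g)
    (hf : ∀ t, ‖f t‖ ≤ B) (hg : ∀ t, ‖g t‖ ≤ B) (j : ℤ) :
    HasSum (fun k : ℤ => fc f k * fc g (j - k)) (fc (fun t => f t * g t) j) := by
  have hx := memLpp (fun t => (starRingEnd ℂ) (f t)) B
    (Complex.continuous_conj.measurable.comp hmf) (fun t => by rw [RCLike.norm_conj]; exact hf t)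
  have hy := memLpp (fun t => g t * ee ((j : ℝ) * t)) B
    (hmg.mul (ee_cont.measurable.comp (measurable_const.mul measurable_id)))
    (fun t => by rw [norm_mul, ee_norm, mul_one]; exact hg t)
  have h := (fourierBasis (T := 1)).hasSum_inner_mul_inner hx.toLp hy.toLp
  have e1 : ∀ i : ℤ, inner ℂ (hx.toLp) ((fourierBasis (T := 1)) i) = fc f i := by
    intro i
    rw [← inner_conj_symm, ← HilbertBasis.repr_apply_apply, fourierBasis_repr,
      fourierCoeff_congr_ae hx.coeFn_toLp, coeff_eq]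
    unfold fc
    rw [intervalIntegral.integral_of_le zero_le_one, intervalIntegral.integral_of_le zero_le_one,
      ← integral_conj]
    refine setIntegral_congr_fun measurableSet_Ioc fun x _ => ?_
    simp only [map_mul, RCLike.conj_conj, ee_conjj]
    congr 2
    push_cast
    ring
  have e2 : ∀ i : ℤ, inner ℂ ((fourierBasis (T := 1)) i) (hy.toLp) = fc g (j - i) := by
    intro i
    rw [← HilbertBasis.repr_apply_apply, fourierBasis_repr,
      fourierCoeff_congr_ae hy.coeFn_toLp, coeff_eq]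
    unfold fc
    rw [intervalIntegral.integral_of_le zero_le_one, intervalIntegral.integral_of_le zero_le_one]
    refine setIntegral_congr_fun measurableSet_Ioc fun x _ => ?_
    simp only
    rw [mul_assoc, ← ee_addd]
    congr 2
    push_cast
    ring
  have e3 : inner ℂ (hx.toLp) (hy.toLp) = fc (fun t => f t * g t) j := by
    rw [MeasureTheory.L2.inner_def]
    have c1 : (∫ a : AddCircle (1 : ℝ), inner ℂ ((hx.toLp : AddCircle (1 : ℝ) → ℂ) a) ((hy.toLp : AddCircle (1 : ℝ) → ℂ) a)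
          ∂AddCircle.haarAddCircle)
        = ∫ a : AddCircle (1 : ℝ), (starRingEnd ℂ) (AddCircle.liftIoc (1 : ℝ) 0
            (fun t => (starRingEnd ℂ) (f t)) a) *
            (AddCircle.liftIoc (1 : ℝ) 0 (fun t => g t * ee ((j : ℝ) * t)) a)
          ∂AddCircle.haarAddCircle := by
      apply integral_congr_ae
      filter_upwards [hx.coeFn_toLp, hy.coeFn_toLp] with a ha hb
      rw [ha, hb, RCLike.inner_apply']
    rw [c1, AddCircle.integral_haarAddCircle, inv_one, one_smul,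
      ← AddCircle.intervalIntegral_preimage (1 : ℝ) 0
        (fun a => (starRingEnd ℂ) (AddCircle.liftIoc (1 : ℝ) 0
            (fun t => (starRingEnd ℂ) (f t)) a) *
            (AddCircle.liftIoc (1 : ℝ) 0 (fun t => g t * ee ((j : ℝ) * t)) a))]
    unfold fc
    rw [zero_add, intervalIntegral.integral_of_le zero_le_one,
      intervalIntegral.integral_of_le zero_le_one]
    refine setIntegral_congr_fun measurableSet_Ioc fun x hx => ?_
    have h1 : ∀ F : ℝ → ℂ, AddCircle.liftIoc (1 : ℝ) 0 F (x : AddCircle (1 : ℝ)) = F x := by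
      intro F
      rw [AddCircle.liftIoc_coe_apply]
      rwa [zero_add]
    simp only [h1, Complex.conj_conj]
    ring
  rw [e3] at h
  have e4 : (fun i : ℤ => inner ℂ (hx.toLp) ((fourierBasis (T := 1)) i) *
      inner ℂ ((fourierBasis (T := 1)) i) (hy.toLp)) = fun k : ℤ => fc f k * fc g (j - k) := by
    funext i
    rw [e1, e2]
  rwa [e4] at h

end Pool.MP_dd84fd_nt.PL
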