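import Pool.Agent.Lib.MP_dd84fd_nt.PL.Units
import Pool.Agent.Lib.MP_dd84fd_nt.PL.OneQ
import Pool.Agent.Lib.MP_dd84fd_nt.PL.Struct
import Pool.Agent.Lib.MP_dd84fd_nt.PL.BMass
import Pool.Agent.Lib.MP_dd84fd_nt.DivBound

/-!
# PL-TwoTwo: type II against type II

For one `q ∈ QQ` (`h = hq q n`, `h ∣ q`, `NeZero`): `Bq_eq` with `b := bq q` and `f' = cvf q MM1 a1 M1 (σ(M1 bq/X)) (tp K1 c1)`
(`cvf_eq`), then `one_q` with `ρ = -(n σ bq/X)`, `|ρ| = n bq/X ∈ [bq/2, bq]`, `α, β` from `cvf_struct`: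
`a_i = C Am² M_i φ(h)`, `b_i = C Am² M_i²`, `S_i = B_i(q)/φ(q)`, `B_i(q) = ∑_{y unit} ∫_0^1 ‖Bt‖²`, `J = X^20`.
With `T0 = 1 + b` (`1+|ρ| ≤ 2 T0`, `√(1+|ρ|) ≥ √(T0/2)`), `φ(h) ≤ h`:
`‖Bq‖ ≤ C (b/X) log X (√(hτ)/φ(h)) Am² √(M1 M2) √(h T0 + M1) √(h T0 + M2) /√T0 · √(B_1(q) B_2(q)) + (tail)`.
Tail: `Bd ≤ 2M·Am·∑|c_k| ≤ X^4` (`Am, S ≤ X`, `∑_{k≤K}|c_k| ≤ √(K S X/M)`), so `(bq/X) φ(q) Bd²/X^10 ≤ X^(-1)`,
and the number of `q` is `≤ N ≤ X` (`q ≤ lcm(q,q) ≤ N`).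
Sum over `q`: `∑ √(B_1B_2) ≤ √(∑B_1 ∑B_2)` and `bmass` (with `sum_units`): `∑_q B_i(q) ≤ (8N + X/(M_i b)) S X/M_i`.
Per index `i`: `(hT0+M)(8N + X/(Mb)) = (X/b)[1 + 8NbM/X + hT0/M + 8Nb hT0/X] ≤ (X/b)[17 + 3 hT0/X^(1/4)]` because
`Nb ≤ X^(1/2-δ)`, `X^(1/4)/2 ≤ M ≤ 2X^(1/2)`.  Hence the sum is at most
`C log X Am² S X · max_q (√(hτ)/φ(h)) (17 + 3 hT0 X^(-1/4))/√T0`.
`√(hτ)/φ(h) ≤ τ^(3/2) h^(-1/2)` (`cardlem`); `τ(h)^(3/2) ≤ C h^(1/4)` (`div_bound 6`):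
first term `≤ C h^(-1/4) T0^(-1/2) ≤ C (hT0)^(-1/4) ≤ C H^(-1/4)`; second: `τ^(3/2) (hT0)^(1/2) X^(-1/4)`,
`hT0 ≤ N + Nb ≤ X^(1/2-δ)(1 + (log X)^A1) ≤ X^(1/2-δ/2)` (`N ≤ Nb (log X)^A1`), `τ(h)^(3/2) ≤ C X^(δ/8)`
(`div_bound` with a large exponent): `≤ C X^(-δ/8)` for `X ≥ X0`.
-/

set_option autoImplicit false

namespace Pool.MP_dd84fd_nt.PL

open Finset Pool.MP_67663b_nt.Odd

/-- mass of `tp K c` on the arcs of `q` -/
private noncomputable def ttE (X q K : ℕ) (c : ℕ → ℂ) (β σ M : ℝ) : ℝ :=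
  ∑ r ∈ rr q, ∫ t in (0 : ℝ)..1,
    ‖tp K c ((r : ℝ) / q + σ * (M * (β / X)) * Real.exp (2 * Int.fract t))‖ ^ 2

private theorem ttE_nonneg (X q K : ℕ) (c : ℕ → ℂ) (β σ M : ℝ) : 0 ≤ ttE X q K c β σ M := by
  unfold ttE
  refine Finset.sum_nonneg fun r' _ => ?_
  refine intervalIntegral.integral_nonneg (by norm_num) fun t _ => by positivity

private theorem tt_one : ∃ C : ℝ, 0 < C ∧ ∀ (X n q : ℕ) [NeZero q] (β σ : ℝ), 1 ≤ X → X < 2 * n →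
    n ≤ X → 0 < β → (σ = 1 ∨ σ = -1) →
    ∀ (M1 M2 Am : ℝ) (K1 K2 : ℕ) (MM1 MM2 : Finset ℕ) (a1 a2 c1 c2 : ℕ → ℂ),
    1 ≤ M1 → 1 ≤ M2 → 0 ≤ Am →
    (∀ m ∈ MM1, M1 < (m : ℝ) ∧ (m : ℝ) ≤ 2 * M1) → (∀ m ∈ MM2, M2 < (m : ℝ) ∧ (m : ℝ) ≤ 2 * M2) →
    (∀ m ∈ MM1, ‖a1 m‖ ≤ Am) → (∀ m ∈ MM2, ‖a2 m‖ ≤ Am) →
    ∀ (Bs Bd : ℝ) (J : ℕ), (∀ x, ‖tp K1 c1 x‖ ≤ Bs) → (∀ x, ‖tp K2 c2 x‖ ≤ Bs) →
    2 * M1 * Am * Bs ≤ Bd → 2 * M2 * Am * Bs ≤ Bd → 1 ≤ J → 8 * β ≤ J →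
    ‖Bq X β σ n q (f2f MM1 a1 (tp K1 c1) σ q) (f2f MM2 a2 (tp K2 c2) σ q)‖ ≤
      β / X * (C * (1 + Real.log J) *
        (Real.sqrt ((hq q n : ℝ) * (hq q n).divisors.card) / Nat.totient (hq q n)) *
        (Real.sqrt (ttE X q K1 c1 β σ M1) * Real.sqrt (ttE X q K2 c2 β σ M2)) *
        (Am ^ 2 * Real.sqrt (M1 * M2) *
          Real.sqrt ((hq q n * (1 + β) + M1) * (hq q n * (1 + β) + M2)) / Real.sqrt (1 + β)) +
      C * Nat.totient q * Bd ^ 2 / Real.sqrt J) := by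
  obtain ⟨C0, hC0, h0⟩ := one_q
  obtain ⟨C1, hC1, h1⟩ := cvf_struct
  refine ⟨C0 * (1 + 2 * C1), by positivity, ?_⟩
  intro X n q _ β σ hX hXn hn hβ hσ M1 M2 Am K1 K2 MM1 MM2 a1 a2 c1 c2 hM1 hM2 hAm hMM1 hMM2
    ha1 ha2 Bs Bd J hBs1 hBs2 hMB1 hMB2 hJ hβJ
  have hX0 : (0 : ℝ) < X := by exact_mod_cast hX
  have hq1 : 1 ≤ q := Nat.pos_of_ne_zero (NeZero.ne q)
  have hd : hq q n ∣ q := Nat.div_dvd_of_dvd (Nat.gcd_dvd_left q n)
  have hh1 : 1 ≤ hq q n := by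
    unfold hq
    exact Nat.div_pos (Nat.le_of_dvd hq1 (Nat.gcd_dvd_left q n)) (Nat.gcd_pos_of_pos_left _ hq1)
  have : NeZero (hq q n) := ⟨by omega⟩
  have hBs0 : 0 ≤ Bs := (norm_nonneg _).trans (hBs1 0)
  have hBd0 : 0 ≤ Bd := le_trans (by positivity) hMB1
  have hcB : ∀ (K : ℕ) (c : ℕ → ℂ), Continuous (tp K c) := by
    intro K c
    unfold tp ee
    fun_prop
  have hpB : ∀ (K : ℕ) (c : ℕ → ℂ) (x : ℝ), tp K c (x + 1) = tp K c x := by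
    intro K c x
    unfold tp
    refine Finset.sum_congr rfl fun k _ => ?_
    congr 1
    unfold ee
    rw [Complex.exp_eq_exp_iff_exists_int]
    exact ⟨k, by push_cast; ring⟩
  have hcf : ∀ (MM : Finset ℕ) (a : ℕ → ℂ) (K : ℕ) (c : ℕ → ℂ) (a' : ℕ),
      Continuous (f2f MM a (tp K c) σ q a') := by
    intro MM a K c a'
    unfold f2f
    refine continuous_finsetSum _ fun m _ => ?_
    refine continuous_const.mul ((hcB K c).comp ?_)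
    fun_prop
  set r1 := σ * (M1 * (β / X)) with hr1
  set r2 := σ * (M2 * (β / X)) with hr2
  obtain ⟨hgm1, hgb1, α1, β1, hα1, hβ1, hab1, hcos1, hsum1, hts1⟩ :=
    h1 q (hq q n) hd M1 Am r1 MM1 a1 (tp K1 c1) Bs hM1 hAm hMM1 ha1 (hcB _ _) hBs1
  obtain ⟨hgm2, hgb2, α2, β2, hα2, hβ2, hab2, hcos2, hsum2, hts2⟩ :=
    h1 q (hq q n) hd M2 Am r2 MM2 a2 (tp K2 c2) Bs hM2 hAm hMM2 ha2 (hcB _ _) hBs2
  -- rewrite Bq
  have e1 := Bq_eq X hX β σ hβ n q (f2f MM1 a1 (tp K1 c1) σ q) (f2f MM2 a2 (tp K2 c2) σ q)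
    (cvf q MM1 a1 M1 r1 (tp K1 c1)) (cvf q MM2 a2 M2 r2 (tp K2 c2)) (hcf MM1 a1 K1 c1)
    (hcf MM2 a2 K2 c2)
    (by
      intro a' _ t ht ht'
      rw [hr1]
      exact cvf_eq q MM1 a1 M1 (β / X) σ (tp K1 c1) (by linarith) hMM1 (hpB _ _) a' t ht ht')
    (by
      intro a' _ t ht ht'
      rw [hr2]
      exact cvf_eq q MM2 a2 M2 (β / X) σ (tp K2 c2) (by linarith) hMM2 (hpB _ _) a' t ht ht')
  rw [e1, norm_mul, Complex.norm_real, Real.norm_of_nonneg (by positivity)]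
  refine mul_le_mul_of_nonneg_left ?_ (by positivity)
  set ρ : ℝ := -((n : ℝ) * σ * β / X) with hρ
  have hρe : |ρ| = n * β / X := by
    rw [hρ, abs_neg, abs_div, abs_mul, abs_mul, abs_of_pos hX0, abs_of_pos hβ,
      abs_of_nonneg (Nat.cast_nonneg n)]
    have hs1 : |σ| = 1 := by rcases hσ with h | h <;> rw [h] <;> norm_num
    rw [hs1, mul_one]
  have hρa : |ρ| ≤ β := by
    rw [hρe, div_le_iff₀ hX0]
    have : (n : ℝ) ≤ X := by exact_mod_cast hn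
    nlinarith
  have hρb : β / 2 ≤ |ρ| := by
    rw [hρe, div_le_div_iff₀ (by norm_num) hX0]
    have : (X : ℝ) ≤ 2 * n := by exact_mod_cast hXn.le
    nlinarith
  have h2 := h0 q (hq q n) n rfl hd (cvf q MM1 a1 M1 r1 (tp K1 c1))
    (cvf q MM2 a2 M2 r2 (tp K2 c2)) Bd hBd0
    hgm1 hgm2 (fun y t => (hgb1 y t).trans hMB1) (fun y t => (hgb2 y t).trans hMB2)
    α1 β1 α2 β2 hα1 hβ1 hα2 hβ2 hab1 hab2 (C1 * Am ^ 2 * M1 * Nat.totient (hq q n))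
    (C1 * Am ^ 2 * M1 * M1) (C1 * Am ^ 2 * M2 * Nat.totient (hq q n))
    (C1 * Am ^ 2 * M2 * M2)
    ((1 / (Nat.totient q : ℝ)) *
        ∑ y ∈ univ.filter (fun y : ZMod q => IsUnit y), ∫ t in (0 : ℝ)..1,
          ‖Bt q (tp K1 c1) r1 y t‖ ^ 2)
    ((1 / (Nat.totient q : ℝ)) *
        ∑ y ∈ univ.filter (fun y : ZMod q => IsUnit y), ∫ t in (0 : ℝ)..1,
          ‖Bt q (tp K2 c2) r2 y t‖ ^ 2)
    (by positivity) (by positivity) (by positivity) (by positivity)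
    (fun T hT χ k => (hcos1 T hT χ k).trans (le_of_eq (by ring)))
    (fun T hT χ k => (hcos2 T hT χ k).trans (le_of_eq (by ring)))
    hsum1 hts1 hsum2 hts2 ρ J hJ (by linarith [abs_nonneg ρ])
  refine h2.trans ?_
  have hsu : ∀ (K : ℕ) (c : ℕ → ℂ) (M : ℝ),
      ∑ y ∈ univ.filter (fun y : ZMod q => IsUnit y),
        ∫ t in (0 : ℝ)..1, ‖Bt q (tp K c) (σ * (M * (β / X))) y t‖ ^ 2 =
      ttE X q K c β σ M := by
    intro K c M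
    have hsu := sum_units q (fun r' : ℕ => ∫ t in (0 : ℝ)..1,
      ‖tp K c ((r' : ℝ) / q + σ * (M * (β / X)) * Real.exp (2 * Int.fract t))‖ ^ 2)
    unfold ttE
    rw [← hsu]
    rfl
  rw [hr1, hr2, hsu, hsu]
  set Z1 := ttE X q K1 c1 β σ M1 with hZ1
  set Z2 := ttE X q K2 c2 β σ M2 with hZ2
  have hZ10 : 0 ≤ Z1 := ttE_nonneg _ _ _ _ _ _ _
  have hZ20 : 0 ≤ Z2 := ttE_nonneg _ _ _ _ _ _ _
  have hφ : (0 : ℝ) < Nat.totient q := by exact_mod_cast Nat.totient_pos.2 hq1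
  have hφh : (0 : ℝ) < Nat.totient (hq q n) := by exact_mod_cast Nat.totient_pos.2 hh1
  have hφh' : (Nat.totient (hq q n) : ℝ) ≤ hq q n := by exact_mod_cast Nat.totient_le _
  have hh0 : (0 : ℝ) < hq q n := by exact_mod_cast hh1
  have e2 : (Nat.totient q : ℝ) * Real.sqrt ((1 / (Nat.totient q : ℝ) * Z1) *
      (1 / (Nat.totient q : ℝ) * Z2)) = Real.sqrt Z1 * Real.sqrt Z2 := by
    have e3 : (1 / (Nat.totient q : ℝ) * Z1) * (1 / (Nat.totient q : ℝ) * Z2) =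
        (1 / (Nat.totient q : ℝ)) ^ 2 * (Z1 * Z2) := by ring
    rw [e3, Real.sqrt_mul (by positivity), Real.sqrt_sq (by positivity), Real.sqrt_mul hZ10,
      ← mul_assoc, mul_one_div_cancel hφ.ne', one_mul]
  have hu0 : (0 : ℝ) < 1 + |ρ| := by positivity
  have hT0 : (0 : ℝ) < 1 + β := by linarith
  have hlin : ∀ M : ℝ, 1 ≤ M → C1 * Am ^ 2 * M * Nat.totient (hq q n) * (1 + |ρ|) +
      C1 * Am ^ 2 * M * M ≤ C1 * Am ^ 2 * (M * (hq q n * (1 + β) + M)) := by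
    intro M hM
    have h5 : (Nat.totient (hq q n) : ℝ) * (1 + |ρ|) ≤ hq q n * (1 + β) :=
      mul_le_mul hφh' (by linarith) hu0.le hh0.le
    have h6 : 0 ≤ C1 * Am ^ 2 * M := by positivity
    nlinarith [mul_le_mul_of_nonneg_left h5 h6]
  have e3 : Real.sqrt ((C1 * Am ^ 2 * M1 * Nat.totient (hq q n) * (1 + |ρ|) +
      C1 * Am ^ 2 * M1 * M1) * (C1 * Am ^ 2 * M2 * Nat.totient (hq q n) * (1 + |ρ|) +
      C1 * Am ^ 2 * M2 * M2)) / Real.sqrt (1 + |ρ|) ≤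
      2 * C1 * (Am ^ 2 * Real.sqrt (M1 * M2) *
        Real.sqrt ((hq q n * (1 + β) + M1) * (hq q n * (1 + β) + M2)) / Real.sqrt (1 + β)) := by
    have hg1 := hlin M1 hM1
    have hg2 := hlin M2 hM2
    have hn1 : 0 ≤ C1 * Am ^ 2 * M1 * Nat.totient (hq q n) * (1 + |ρ|) +
      C1 * Am ^ 2 * M1 * M1 := by positivity
    have hn2 : 0 ≤ C1 * Am ^ 2 * M2 * Nat.totient (hq q n) * (1 + |ρ|) +
      C1 * Am ^ 2 * M2 * M2 := by positivity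
    have h7 : Real.sqrt ((C1 * Am ^ 2 * M1 * Nat.totient (hq q n) * (1 + |ρ|) +
      C1 * Am ^ 2 * M1 * M1) * (C1 * Am ^ 2 * M2 * Nat.totient (hq q n) * (1 + |ρ|) +
      C1 * Am ^ 2 * M2 * M2)) ≤ C1 * (Am ^ 2 * Real.sqrt (M1 * M2) *
        Real.sqrt ((hq q n * (1 + β) + M1) * (hq q n * (1 + β) + M2))) := by
      have h8 : (C1 * Am ^ 2 * M1 * Nat.totient (hq q n) * (1 + |ρ|) +
        C1 * Am ^ 2 * M1 * M1) * (C1 * Am ^ 2 * M2 * Nat.totient (hq q n) * (1 + |ρ|) +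
        C1 * Am ^ 2 * M2 * M2) ≤ (C1 * Am ^ 2) ^ 2 * ((M1 * M2) *
          ((hq q n * (1 + β) + M1) * (hq q n * (1 + β) + M2))) := by
        refine (mul_le_mul hg1 hg2 hn2 (hn1.trans hg1)).trans (le_of_eq (by ring))
      refine (Real.sqrt_le_sqrt h8).trans (le_of_eq ?_)
      rw [Real.sqrt_mul (by positivity), Real.sqrt_sq (by positivity),
        Real.sqrt_mul (by positivity)]
      ring
    have h9 : 1 / Real.sqrt (1 + |ρ|) ≤ 2 / Real.sqrt (1 + β) := by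
      rw [div_le_div_iff₀ (Real.sqrt_pos.2 hu0) (Real.sqrt_pos.2 hT0), one_mul]
      have h10 : Real.sqrt (1 + β) ≤ Real.sqrt (2 ^ 2 * (1 + |ρ|)) :=
        Real.sqrt_le_sqrt (by linarith)
      rw [Real.sqrt_mul (by norm_num), Real.sqrt_sq (by norm_num)] at h10
      exact h10
    have h11 : 0 ≤ C1 * (Am ^ 2 * Real.sqrt (M1 * M2) *
        Real.sqrt ((hq q n * (1 + β) + M1) * (hq q n * (1 + β) + M2))) := by positivity
    calc Real.sqrt ((C1 * Am ^ 2 * M1 * Nat.totient (hq q n) * (1 + |ρ|) +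
      C1 * Am ^ 2 * M1 * M1) * (C1 * Am ^ 2 * M2 * Nat.totient (hq q n) * (1 + |ρ|) +
      C1 * Am ^ 2 * M2 * M2)) / Real.sqrt (1 + |ρ|)
        = Real.sqrt ((C1 * Am ^ 2 * M1 * Nat.totient (hq q n) * (1 + |ρ|) +
      C1 * Am ^ 2 * M1 * M1) * (C1 * Am ^ 2 * M2 * Nat.totient (hq q n) * (1 + |ρ|) +
      C1 * Am ^ 2 * M2 * M2)) * (1 / Real.sqrt (1 + |ρ|)) := by rw [mul_one_div]
      _ ≤ (C1 * (Am ^ 2 * Real.sqrt (M1 * M2) *
        Real.sqrt ((hq q n * (1 + β) + M1) * (hq q n * (1 + β) + M2)))) *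
          (2 / Real.sqrt (1 + β)) := mul_le_mul h7 h9 (by positivity) h11
      _ = _ := by ring
  have hlog : 0 ≤ Real.log J := Real.log_nonneg (by exact_mod_cast hJ)
  set κ := Real.sqrt ((hq q n : ℝ) * (hq q n).divisors.card) / Nat.totient (hq q n) with hκ
  have hκ0 : 0 ≤ κ := by positivity
  set G := Am ^ 2 * Real.sqrt (M1 * M2) *
        Real.sqrt ((hq q n * (1 + β) + M1) * (hq q n * (1 + β) + M2)) / Real.sqrt (1 + β) with hG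
  have hG0 : 0 ≤ G := by positivity
  have h4 : 0 ≤ C0 * (1 + Real.log J) * κ * (Real.sqrt Z1 * Real.sqrt Z2) := by positivity
  refine add_le_add ?_ ?_
  · calc C0 * (1 + Real.log J) * κ * Nat.totient q *
      Real.sqrt (1 / (Nat.totient q : ℝ) * Z1 * (1 / (Nat.totient q : ℝ) * Z2)) *
      Real.sqrt ((C1 * Am ^ 2 * M1 * Nat.totient (hq q n) * (1 + |ρ|) +
      C1 * Am ^ 2 * M1 * M1) * (C1 * Am ^ 2 * M2 * Nat.totient (hq q n) * (1 + |ρ|) +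
      C1 * Am ^ 2 * M2 * M2)) / Real.sqrt (1 + |ρ|)
        = (C0 * (1 + Real.log J) * κ * ((Nat.totient q : ℝ) *
          Real.sqrt ((1 / (Nat.totient q : ℝ) * Z1) * (1 / (Nat.totient q : ℝ) * Z2)))) *
          (Real.sqrt ((C1 * Am ^ 2 * M1 * Nat.totient (hq q n) * (1 + |ρ|) +
      C1 * Am ^ 2 * M1 * M1) * (C1 * Am ^ 2 * M2 * Nat.totient (hq q n) * (1 + |ρ|) +
      C1 * Am ^ 2 * M2 * M2)) / Real.sqrt (1 + |ρ|)) := by ring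
      _ = (C0 * (1 + Real.log J) * κ * (Real.sqrt Z1 * Real.sqrt Z2)) *
          (Real.sqrt ((C1 * Am ^ 2 * M1 * Nat.totient (hq q n) * (1 + |ρ|) +
      C1 * Am ^ 2 * M1 * M1) * (C1 * Am ^ 2 * M2 * Nat.totient (hq q n) * (1 + |ρ|) +
      C1 * Am ^ 2 * M2 * M2)) / Real.sqrt (1 + |ρ|)) := by rw [e2]
      _ ≤ (C0 * (1 + Real.log J) * κ * (Real.sqrt Z1 * Real.sqrt Z2)) * (2 * C1 * G) :=
          mul_le_mul_of_nonneg_left e3 h4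
      _ ≤ (C0 * (1 + Real.log J) * κ * (Real.sqrt Z1 * Real.sqrt Z2)) * ((1 + 2 * C1) * G) := by
          refine mul_le_mul_of_nonneg_left ?_ h4
          nlinarith
      _ = C0 * (1 + 2 * C1) * (1 + Real.log J) * κ * (Real.sqrt Z1 * Real.sqrt Z2) * G := by ring
  · have h6 : 0 ≤ C0 * Nat.totient q * Bd ^ 2 / Real.sqrt J := by positivity
    have e7 : C0 * (1 + 2 * C1) * Nat.totient q * Bd ^ 2 / Real.sqrt J =
      (1 + 2 * C1) * (C0 * Nat.totient q * Bd ^ 2 / Real.sqrt J) := by ring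
    rw [e7]
    nlinarith

private theorem tt_ev (δ C : ℝ) (A1 : ℕ) (hδ : 0 < δ) : ∃ X0 : ℕ, ∀ X : ℕ, X0 ≤ X →
    4096 ≤ X ∧ 1 ≤ Real.log X ∧
    1 + (Real.log X) ^ (A1 : ℝ) ≤ (X : ℝ) ^ (δ / 2 : ℝ) ∧ C ≤ X := by
  have h1 : ∀ᶠ x : ℝ in Filter.atTop, (Real.log x) ^ (A1 : ℝ) ≤ (1 / 2) * x ^ (δ / 2 : ℝ) := by
    have h := isLittleO_log_rpow_rpow_atTop (A1 : ℝ) (show (0 : ℝ) < δ / 2 by positivity)
    filter_upwards [h.bound (show (0 : ℝ) < 1 / 2 by norm_num), Filter.eventually_ge_atTop (1 : ℝ)]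
      with x hx hx1
    rw [Real.norm_of_nonneg (Real.rpow_nonneg (Real.log_nonneg hx1) _),
      Real.norm_of_nonneg (Real.rpow_nonneg (by linarith) _)] at hx
    exact hx
  have h1' : ∀ᶠ x : ℝ in Filter.atTop, 2 ≤ x ^ (δ / 2 : ℝ) :=
    (tendsto_rpow_atTop (by positivity)).eventually_ge_atTop 2
  have h2 : ∀ᶠ x : ℝ in Filter.atTop, 1 ≤ Real.log x :=
    Real.tendsto_log_atTop.eventually_ge_atTop 1
  have h3 := ((h1.and h1').and h2).and ((Filter.eventually_ge_atTop (4096 : ℝ)).and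
    (Filter.eventually_ge_atTop C))
  have h4 := tendsto_natCast_atTop_atTop (R := ℝ) |>.eventually h3
  obtain ⟨X0, hX0⟩ := Filter.eventually_atTop.1 h4
  refine ⟨X0, fun X hX => ?_⟩
  have h5 := hX0 X hX
  refine ⟨by exact_mod_cast h5.2.1, h5.1.2, ?_, h5.2.2⟩
  linarith [h5.1.1.1, h5.1.1.2]

private theorem tt_tau (k : ℕ) : ∃ D : ℝ, 1 ≤ D ∧ ∀ h : ℕ, 1 ≤ h →
    (h.divisors.card : ℝ) ^ k ≤ D * h := by
  obtain ⟨C, hC1, hC⟩ := Pool.Agent.Lib.MP_dd84fd_nt.DivBound.div_bound k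
  exact ⟨C, by exact_mod_cast hC1, fun h hh => by exact_mod_cast hC h (by omega)⟩

/-- `τ^(3/2) ≤ D^(1/4) h^(1/4)` -/
private theorem tt_tau6 : ∃ D : ℝ, 1 ≤ D ∧ ∀ h : ℕ, 1 ≤ h →
    (h.divisors.card : ℝ) ^ (3 / 2 : ℝ) ≤ D * (h : ℝ) ^ (1 / 4 : ℝ) := by
  obtain ⟨D, hD, h6⟩ := tt_tau 6
  refine ⟨D, hD, fun h hh => ?_⟩
  have hτ0 : (0 : ℝ) ≤ (h.divisors.card : ℝ) := Nat.cast_nonneg _
  calc (h.divisors.card : ℝ) ^ (3 / 2 : ℝ) = ((h.divisors.card : ℝ) ^ 6) ^ (1 / 4 : ℝ) := by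
        rw [← Real.rpow_natCast, ← Real.rpow_mul hτ0]
        norm_num
    _ ≤ (D * h) ^ (1 / 4 : ℝ) := Real.rpow_le_rpow (by positivity) (h6 h hh) (by norm_num)
    _ = D ^ (1 / 4 : ℝ) * (h : ℝ) ^ (1 / 4 : ℝ) := Real.mul_rpow (by linarith) (by positivity)
    _ ≤ D ^ (1 : ℝ) * (h : ℝ) ^ (1 / 4 : ℝ) := by
        refine mul_le_mul_of_nonneg_right ?_ (by positivity)
        exact Real.rpow_le_rpow_of_exponent_le hD (by norm_num)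
    _ = D * (h : ℝ) ^ (1 / 4 : ℝ) := by rw [Real.rpow_one]

/-- `τ^(3/2) ≤ X^(δ/8)` -/
private theorem tt_tauδ (δ : ℝ) (hδ : 0 < δ) : ∃ X0 : ℝ, ∀ h X : ℕ, 1 ≤ h → h ≤ X → X0 ≤ X →
    (h.divisors.card : ℝ) ^ (3 / 2 : ℝ) ≤ (X : ℝ) ^ (δ / 8 : ℝ) := by
  obtain ⟨k, hk⟩ := exists_nat_ge (24 / δ)
  have hk0 : 0 < (k : ℝ) := lt_of_lt_of_le (by positivity) hk
  obtain ⟨D, hD, hk6⟩ := tt_tau k
  refine ⟨D, fun h X hh hX hXD => ?_⟩
  have hτ0 : (0 : ℝ) ≤ (h.divisors.card : ℝ) := Nat.cast_nonneg _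
  have hX1 : (1 : ℝ) ≤ X := by exact_mod_cast hh.trans hX
  have hhX : (h : ℝ) ≤ X := by exact_mod_cast hX
  have h1 : (h.divisors.card : ℝ) ^ (3 / 2 : ℝ) = ((h.divisors.card : ℝ) ^ k) ^ (3 / (2 * k) : ℝ) := by
    rw [← Real.rpow_natCast, ← Real.rpow_mul hτ0]
    congr 1
    field_simp
  have h2 : (h.divisors.card : ℝ) ^ k ≤ (X : ℝ) ^ (2 : ℝ) := by
    refine (hk6 h hh).trans ?_
    rw [show (2 : ℝ) = 1 + 1 by norm_num, Real.rpow_add (by linarith), Real.rpow_one]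
    exact mul_le_mul hXD hhX (by positivity) (by linarith)
  rw [h1]
  calc ((h.divisors.card : ℝ) ^ k) ^ (3 / (2 * k) : ℝ) ≤ ((X : ℝ) ^ (2 : ℝ)) ^ (3 / (2 * k) : ℝ) :=
        Real.rpow_le_rpow (by positivity) h2 (by positivity)
    _ = (X : ℝ) ^ (3 / k : ℝ) := by
        rw [← Real.rpow_mul (by linarith)]
        congr 1
        field_simp
    _ ≤ (X : ℝ) ^ (δ / 8 : ℝ) := by
        refine Real.rpow_le_rpow_of_exponent_le hX1 ?_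
        rw [div_le_div_iff₀ hk0 (by norm_num)]
        rw [div_le_iff₀ hδ] at hk
        linarith

/-- the factor for one `q` -/
private theorem tt_theta (δ : ℝ) (hδ : 0 < δ) (hδ8 : δ ≤ 1 / 8) (D : ℝ) (hD : 1 ≤ D)
    (X : ℕ) (hX : 4096 ≤ X) (b N T : ℝ) (hb : 0 < b) (hN : 1 ≤ N)
    (hNb : N * b ≤ (X : ℝ) ^ (1 / 2 - δ)) (h : ℕ) (hh : 1 ≤ h) (hT : 1 + b ≤ T) (hT1 : T ≤ 2 * (1 + b))
    (hT2 : h * (1 + b) ≤ (X : ℝ) ^ (1 / 2 - δ / 2 : ℝ)) (H : ℝ) (hH : 1 ≤ H)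
    (hHh : H ≤ (h : ℝ) * (1 + b))
    (hτ6 : (h.divisors.card : ℝ) ^ (3 / 2 : ℝ) ≤ D * (h : ℝ) ^ (1 / 4 : ℝ))
    (hτδ : (h.divisors.card : ℝ) ^ (3 / 2 : ℝ) ≤ (X : ℝ) ^ (δ / 8 : ℝ))
    (M1 M2 : ℝ) (hM1 : (X : ℝ) ^ (1 / 4 : ℝ) / 2 ≤ M1) (hM1' : M1 ≤ 2 * (X : ℝ) ^ (1 / 2 : ℝ))
    (hM2 : (X : ℝ) ^ (1 / 4 : ℝ) / 2 ≤ M2) (hM2' : M2 ≤ 2 * (X : ℝ) ^ (1 / 2 : ℝ)) :
    Real.sqrt ((h : ℝ) * h.divisors.card) / Nat.totient h *
      (Real.sqrt ((h * T + M1) * (h * T + M2)) / Real.sqrt T) *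
      Real.sqrt ((8 * N + X / (M1 * b)) * (8 * N + X / (M2 * b))) ≤
    24 * D * (X / b) * (H ^ (-(1 / 4) : ℝ) + (X : ℝ) ^ (-(δ / 8))) := by
  have hX0 : (0 : ℝ) < X := by
    have : 0 < X := by omega
    exact_mod_cast this
  have hX1 : (4096 : ℝ) ≤ X := by exact_mod_cast hX
  have hh0 : (0 : ℝ) < h := by exact_mod_cast hh
  have hT0 : 0 < T := by linarith
  have hTge1 : 1 ≤ T := by linarith
  obtain ⟨Y, hY⟩ : ∃ Y : ℝ, Y = (X : ℝ) ^ (1 / 4 : ℝ) := ⟨_, rfl⟩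
  have hY0 : 0 < Y := by rw [hY]; positivity
  have hY2 : Y ^ 2 = (X : ℝ) ^ (1 / 2 : ℝ) := by
    rw [hY, ← Real.rpow_natCast, ← Real.rpow_mul hX0.le]; norm_num
  have hY4 : Y ^ 4 = X := by
    rw [hY, ← Real.rpow_natCast, ← Real.rpow_mul hX0.le]; norm_num
  have hY8 : 8 ≤ Y := by
    have h1 : (4096 : ℝ) ^ (1 / 4 : ℝ) ≤ (X : ℝ) ^ (1 / 4 : ℝ) :=
      Real.rpow_le_rpow (by norm_num) hX1 (by norm_num)
    have h2 : (4096 : ℝ) ^ (1 / 4 : ℝ) = 8 := by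
      rw [show (4096 : ℝ) = 8 ^ (4 : ℝ) by norm_num, ← Real.rpow_mul (by norm_num)]
      norm_num
    rw [h2, ← hY] at h1
    exact h1
  have hNbY : N * b ≤ Y ^ 2 := by
    rw [hY2]
    refine hNb.trans (Real.rpow_le_rpow_of_exponent_le (by linarith) (by linarith))
  -- the bound for one index
  have hg : ∀ M : ℝ, Y / 2 ≤ M → M ≤ 2 * Y ^ 2 →
      (h * T + M) * (8 * N + X / (M * b)) ≤ X / b * (17 + 3 * (h * T) / Y) := by
    intro M hMa hMb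
    have hM0 : 0 < M := by linarith
    have e1 : (h * T + M) * (8 * N + X / (M * b)) =
        X / b * (1 + 8 * (N * b) * M / X + h * T / M + 8 * (N * b) * (h * T) / X) := by
      field_simp
      ring
    rw [e1]
    refine mul_le_mul_of_nonneg_left ?_ (by positivity)
    have h1 : 8 * (N * b) * M / X ≤ 16 := by
      rw [div_le_iff₀ hX0, ← hY4]
      have h0 : (N * b) * M ≤ Y ^ 2 * (2 * Y ^ 2) := mul_le_mul hNbY hMb hM0.le (by positivity)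
      calc 8 * (N * b) * M = 8 * ((N * b) * M) := by ring
        _ ≤ 8 * (Y ^ 2 * (2 * Y ^ 2)) := by linarith
        _ = 16 * Y ^ 4 := by ring
    have h2 : h * T / M ≤ 2 * (h * T / Y) := by
      rw [div_le_iff₀ hM0]
      have h3 : 0 ≤ h * T / Y := by positivity
      calc h * T = h * T / Y * Y := by field_simp
        _ ≤ h * T / Y * (2 * M) := mul_le_mul_of_nonneg_left (by linarith) h3
        _ = _ := by ring
    have h3 : 8 * (N * b) * (h * T) / X ≤ h * T / Y := by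
      rw [div_le_div_iff₀ hX0 hY0, ← hY4]
      have h4 : 8 * (N * b) * Y ≤ Y ^ 4 := by
        calc 8 * (N * b) * Y = (N * b) * (8 * Y) := by ring
          _ ≤ Y ^ 2 * (Y * Y) := mul_le_mul hNbY (mul_le_mul_of_nonneg_right hY8 hY0.le)
              (by positivity) (by positivity)
          _ = Y ^ 4 := by ring
      have h5 : 0 ≤ h * T := by positivity
      calc 8 * (N * b) * (h * T) * Y = (h * T) * (8 * (N * b) * Y) := by ring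
        _ ≤ (h * T) * Y ^ 4 := mul_le_mul_of_nonneg_left h4 h5
    have h4 : 3 * (h * T) / Y = 3 * (h * T / Y) := by ring
    rw [h4]
    linarith
  have hM10 : 0 < M1 := by
    have : Y / 2 ≤ M1 := by rw [hY]; exact hM1
    linarith
  have hM20 : 0 < M2 := by
    have : Y / 2 ≤ M2 := by rw [hY]; exact hM2
    linarith
  have hg1 := hg M1 (by rw [hY]; exact hM1) (by rw [hY2]; exact hM1')
  have hg2 := hg M2 (by rw [hY]; exact hM2) (by rw [hY2]; exact hM2')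
  obtain ⟨G, hG⟩ : ∃ G : ℝ, G = X / b * (17 + 3 * (h * T) / Y) := ⟨_, rfl⟩
  rw [← hG] at hg1 hg2
  have hG0 : 0 ≤ G := by rw [hG]; positivity
  have hsq : Real.sqrt ((h * T + M1) * (h * T + M2)) *
      Real.sqrt ((8 * N + X / (M1 * b)) * (8 * N + X / (M2 * b))) ≤ G := by
    rw [← Real.sqrt_mul (by positivity)]
    have h1 : (h * T + M1) * (h * T + M2) * ((8 * N + X / (M1 * b)) * (8 * N + X / (M2 * b))) ≤
        G ^ 2 := by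
      calc (h * T + M1) * (h * T + M2) * ((8 * N + X / (M1 * b)) * (8 * N + X / (M2 * b)))
          = ((h * T + M1) * (8 * N + X / (M1 * b))) * ((h * T + M2) * (8 * N + X / (M2 * b))) := by
            ring
        _ ≤ G * G := mul_le_mul hg1 hg2 (by positivity) hG0
        _ = G ^ 2 := by ring
    calc _ ≤ Real.sqrt (G ^ 2) := Real.sqrt_le_sqrt h1
      _ = G := Real.sqrt_sq hG0
  obtain ⟨τ, hτ⟩ : ∃ τ : ℝ, τ = (h.divisors.card : ℝ) ^ (3 / 2 : ℝ) := ⟨_, rfl⟩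
  have hτ0 : 0 ≤ τ := by rw [hτ]; positivity
  have hκ : Real.sqrt ((h : ℝ) * h.divisors.card) / Nat.totient h ≤ τ / Real.sqrt h := by
    refine (cardlem h hh).trans (le_of_eq ?_)
    rw [hτ, Real.rpow_neg hh0.le, ← Real.sqrt_eq_rpow, ← div_eq_mul_inv]
  rw [← hτ] at hτ6 hτδ
  have hsh : 0 < Real.sqrt h := Real.sqrt_pos.2 hh0
  have hsT : 0 < Real.sqrt T := Real.sqrt_pos.2 hT0
  obtain ⟨P, hP⟩ : ∃ P : ℝ, P = h * T := ⟨_, rfl⟩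
  have hP0 : 0 < P := by rw [hP]; positivity
  have hsP : Real.sqrt P = Real.sqrt h * Real.sqrt T := by rw [hP, Real.sqrt_mul hh0.le]
  have hsP0 : 0 < Real.sqrt P := Real.sqrt_pos.2 hP0
  have hHP : H ≤ P := by
    rw [hP]; exact hHh.trans (mul_le_mul_of_nonneg_left hT hh0.le)
  have hPX : P ≤ 2 * (X : ℝ) ^ (1 / 2 - δ / 2 : ℝ) := by
    calc P ≤ h * (2 * (1 + b)) := by rw [hP]; exact mul_le_mul_of_nonneg_left hT1 hh0.le
      _ = 2 * (h * (1 + b)) := by ring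
      _ ≤ _ := by linarith
  -- first term
  have hA : τ / Real.sqrt P ≤ D * H ^ (-(1 / 4) : ℝ) := by
    have h1 : τ ≤ D * P ^ (1 / 4 : ℝ) := by
      refine hτ6.trans (mul_le_mul_of_nonneg_left ?_ (by linarith))
      refine Real.rpow_le_rpow hh0.le ?_ (by norm_num)
      rw [hP]
      calc (h : ℝ) = h * 1 := (mul_one _).symm
        _ ≤ h * T := mul_le_mul_of_nonneg_left hTge1 hh0.le
    have h2 : P ^ (1 / 4 : ℝ) / Real.sqrt P = P ^ (-(1 / 4) : ℝ) := by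
      rw [Real.sqrt_eq_rpow, ← Real.rpow_sub hP0]
      norm_num
    have h3 : P ^ (-(1 / 4) : ℝ) ≤ H ^ (-(1 / 4) : ℝ) :=
      Real.rpow_le_rpow_of_nonpos (by linarith) hHP (by norm_num)
    calc τ / Real.sqrt P ≤ D * P ^ (1 / 4 : ℝ) / Real.sqrt P :=
          div_le_div_of_nonneg_right h1 hsP0.le
      _ = D * (P ^ (1 / 4 : ℝ) / Real.sqrt P) := by ring
      _ = D * P ^ (-(1 / 4) : ℝ) := by rw [h2]
      _ ≤ _ := mul_le_mul_of_nonneg_left h3 (by linarith)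
  -- second term
  have hB : τ * Real.sqrt P / Y ≤ 2 * (X : ℝ) ^ (-(δ / 8)) := by
    have h1 : Real.sqrt P ≤ 2 * (X : ℝ) ^ (1 / 4 - δ / 4 : ℝ) := by
      have h2 : P ≤ (2 * (X : ℝ) ^ (1 / 4 - δ / 4 : ℝ)) ^ 2 := by
        have e1 : (2 * (X : ℝ) ^ (1 / 4 - δ / 4 : ℝ)) ^ 2 = 4 * (X : ℝ) ^ (1 / 2 - δ / 2 : ℝ) := by
          rw [mul_pow, ← Real.rpow_natCast ((X : ℝ) ^ (1 / 4 - δ / 4 : ℝ)) 2,
            ← Real.rpow_mul hX0.le]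
          norm_num
          congr 1
          ring
        rw [e1]
        have : 0 < (X : ℝ) ^ (1 / 2 - δ / 2 : ℝ) := by positivity
        linarith
      calc Real.sqrt P ≤ Real.sqrt ((2 * (X : ℝ) ^ (1 / 4 - δ / 4 : ℝ)) ^ 2) :=
            Real.sqrt_le_sqrt h2
        _ = _ := Real.sqrt_sq (by positivity)
    calc τ * Real.sqrt P / Y ≤ (X : ℝ) ^ (δ / 8 : ℝ) * (2 * (X : ℝ) ^ (1 / 4 - δ / 4 : ℝ)) / Y :=
          div_le_div_of_nonneg_right (mul_le_mul hτδ h1 hsP0.le (by positivity)) hY0.le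
      _ = 2 * ((X : ℝ) ^ (δ / 8 : ℝ) * (X : ℝ) ^ (1 / 4 - δ / 4 : ℝ) / (X : ℝ) ^ (1 / 4 : ℝ)) := by
          rw [hY]; ring
      _ = 2 * (X : ℝ) ^ (-(δ / 8)) := by
          rw [← Real.rpow_add hX0, ← Real.rpow_sub hX0]
          congr 2
          ring
  have hκ0 : 0 ≤ Real.sqrt ((h : ℝ) * h.divisors.card) / Nat.totient h := by positivity
  calc Real.sqrt ((h : ℝ) * h.divisors.card) / Nat.totient h *
      (Real.sqrt ((h * T + M1) * (h * T + M2)) / Real.sqrt T) *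
      Real.sqrt ((8 * N + X / (M1 * b)) * (8 * N + X / (M2 * b)))
      = Real.sqrt ((h : ℝ) * h.divisors.card) / Nat.totient h *
        ((Real.sqrt ((h * T + M1) * (h * T + M2)) *
      Real.sqrt ((8 * N + X / (M1 * b)) * (8 * N + X / (M2 * b)))) / Real.sqrt T) := by ring
    _ ≤ τ / Real.sqrt h * (G / Real.sqrt T) :=
        mul_le_mul hκ (div_le_div_of_nonneg_right hsq hsT.le) (by positivity) (by positivity)
    _ = X / b * (17 * (τ / Real.sqrt P) + 3 * (τ * Real.sqrt P / Y)) := by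
        have e1 : P / Real.sqrt P = Real.sqrt P := Real.div_sqrt
        have e2 : τ / Real.sqrt h * (G / Real.sqrt T) = G * (τ / Real.sqrt P) := by
          rw [hsP]; field_simp
        rw [e2, hG, ← hP]
        have e3 : X / b * (17 + 3 * P / Y) * (τ / Real.sqrt P) =
            X / b * (17 * (τ / Real.sqrt P) + 3 * (τ * (P / Real.sqrt P) / Y)) := by ring
        rw [e3, e1]
    _ ≤ X / b * (17 * (D * H ^ (-(1 / 4) : ℝ)) + 3 * (2 * (X : ℝ) ^ (-(δ / 8)))) := by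
        refine mul_le_mul_of_nonneg_left ?_ (by positivity)
        linarith
    _ ≤ 24 * D * (X / b) * (H ^ (-(1 / 4) : ℝ) + (X : ℝ) ^ (-(δ / 8))) := by
        have h1 : 0 ≤ H ^ (-(1 / 4) : ℝ) := by positivity
        have h2 : 0 ≤ (X : ℝ) ^ (-(δ / 8)) := by positivity
        have h3 : 17 * (D * H ^ (-(1 / 4) : ℝ)) + 3 * (2 * (X : ℝ) ^ (-(δ / 8))) ≤
            24 * D * (H ^ (-(1 / 4) : ℝ) + (X : ℝ) ^ (-(δ / 8))) := by
          have h4 : 0 ≤ D * H ^ (-(1 / 4) : ℝ) := by positivity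
          have h5 : 1 * (X : ℝ) ^ (-(δ / 8)) ≤ D * (X : ℝ) ^ (-(δ / 8)) :=
            mul_le_mul_of_nonneg_right hD h2
          have h6 : 24 * D * (H ^ (-(1 / 4) : ℝ) + (X : ℝ) ^ (-(δ / 8))) =
              24 * (D * H ^ (-(1 / 4) : ℝ)) + 24 * (D * (X : ℝ) ^ (-(δ / 8))) := by ring
          rw [h6]
          linarith
        calc _ ≤ X / b * (24 * D * (H ^ (-(1 / 4) : ℝ) + (X : ℝ) ^ (-(δ / 8)))) :=
              mul_le_mul_of_nonneg_left h3 (by positivity)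
          _ = _ := by ring

private theorem tt_Y (Y : ℝ) (h : 8 ≤ Y) : 4 * Y ^ 2 ≤ Y ^ 4 := by
  have h1 : (4 : ℝ) ≤ Y ^ 2 := by nlinarith
  calc 4 * Y ^ 2 ≤ Y ^ 2 * Y ^ 2 := mul_le_mul_of_nonneg_right h1 (by positivity)
    _ = Y ^ 4 := by ring

private theorem tt_card (QQ : Finset ℕ) (N : ℝ) (hF : Fam QQ N) (hN : 1 ≤ N) :
    (QQ.card : ℝ) ≤ N ∧ ∀ q ∈ QQ, (q : ℝ) ≤ N := by
  have h1 : ∀ q ∈ QQ, (q : ℝ) ≤ N := by
    intro q hq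
    have := hF.2 q hq q hq
    rwa [Nat.lcm_self] at this
  refine ⟨?_, h1⟩
  have h2 : QQ ⊆ Icc 1 ⌊N⌋₊ := by
    intro q hq
    rw [mem_Icc]
    exact ⟨hF.1 q hq, Nat.le_floor (h1 q hq)⟩
  have h3 := card_le_card h2
  rw [Nat.card_Icc, Nat.add_sub_cancel] at h3
  calc (QQ.card : ℝ) ≤ (⌊N⌋₊ : ℝ) := by exact_mod_cast h3
    _ ≤ N := Nat.floor_le (by linarith)

private theorem tt_tp (X K : ℕ) (hX : 1 ≤ X) (hK : K ≤ X) (c : ℕ → ℂ) (S M : ℝ) (hM : 1 ≤ M)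
    (hS : S ≤ X) (hc : ∑ k ∈ Icc 1 K, ‖c k‖ ^ 2 ≤ S * X / M) (x : ℝ) :
    ‖tp K c x‖ ≤ (X : ℝ) ^ 2 := by
  have hX0 : (1 : ℝ) ≤ X := by exact_mod_cast hX
  have hee : ∀ y : ℝ, ‖ee y‖ = 1 := by
    intro y
    unfold ee
    rw [show (2 * (Real.pi : ℂ) * (y : ℂ) * Complex.I) = ((2 * Real.pi * y : ℝ) : ℂ) * Complex.I by
      push_cast; ring]
    exact Complex.norm_exp_ofReal_mul_I _
  have h1 : ‖tp K c x‖ ≤ ∑ k ∈ Icc 1 K, ‖c k‖ := by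
    unfold tp
    refine (norm_sum_le _ _).trans (sum_le_sum fun k _ => ?_)
    rw [norm_mul, hee, mul_one]
  have h2 : (∑ k ∈ Icc 1 K, ‖c k‖) ^ 2 ≤ (X : ℝ) ^ 2 * (X : ℝ) := by
    have h3 := sq_sum_le_card_mul_sum_sq (s := Icc 1 K) (f := fun k => ‖c k‖)
    rw [Nat.card_Icc, Nat.add_sub_cancel] at h3
    refine h3.trans ?_
    have h4 : ∑ k ∈ Icc 1 K, ‖c k‖ ^ 2 ≤ (X : ℝ) * X := by
      refine hc.trans ?_
      rw [div_le_iff₀ (by linarith)]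
      have h6 : S * X ≤ X * X := mul_le_mul_of_nonneg_right hS (by linarith)
      have h7 : (X : ℝ) * X * 1 ≤ X * X * M := mul_le_mul_of_nonneg_left hM (by positivity)
      linarith
    have h5 : (K : ℝ) ≤ X := by exact_mod_cast hK
    calc (K : ℝ) * ∑ k ∈ Icc 1 K, ‖c k‖ ^ 2 ≤ X * ((X : ℝ) * X) :=
          mul_le_mul h5 h4 (by positivity) (by positivity)
      _ = _ := by ring
  have h6 : (X : ℝ) ^ 2 * (X : ℝ) ≤ ((X : ℝ) ^ 2) ^ 2 := by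
    calc (X : ℝ) ^ 2 * (X : ℝ) = (X : ℝ) ^ 3 := by ring
      _ ≤ (X : ℝ) ^ 4 := pow_le_pow_right₀ hX0 (by norm_num)
      _ = _ := by ring
  exact h1.trans (abs_le_of_sq_le_sq' (h2.trans h6) (by positivity)).2

theorem two_two : ∃ C : ℝ, 0 < C ∧ ∀ (δ : ℝ) (A1 : ℕ), 0 < δ → δ ≤ 1 / 8 → ∃ X0 : ℕ,
    ∀ X : ℕ, X0 ≤ X → ∀ (n : ℕ) (b N σ : ℝ) (QQ : Finset ℕ) (bq : ℕ → ℝ),
    Std X n δ A1 b N σ QQ bq → ∀ H : ℝ, 1 ≤ H → (∀ q ∈ QQ, H ≤ (hq q n : ℝ) * (1 + b)) →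
    ∀ (M1 M2 Am S : ℝ) (K1 K2 : ℕ) (MM1 MM2 : Finset ℕ) (a1 a2 c1 c2 : ℕ → ℂ),
    0 ≤ Am → Am ≤ X → 0 ≤ S → S ≤ X → Blk X M1 K1 MM1 a1 c1 Am S → Blk X M2 K2 MM2 a2 c2 Am S →
    ∑ q ∈ QQ, ‖Bq X (bq q) σ n q (f2f MM1 a1 (tp K1 c1) σ q) (f2f MM2 a2 (tp K2 c2) σ q)‖ ≤
      C * Real.log X * Am ^ 2 * S * X * (H ^ (-(1 / 4) : ℝ) + (X : ℝ) ^ (-(δ / 8))) + 1 := by
  obtain ⟨C0, hC0, h0⟩ := tt_one
  obtain ⟨D, hD, hD6⟩ := tt_tau6
  refine ⟨1008 * C0 * D, by positivity, ?_⟩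
  intro δ A1 hδ hδ8
  obtain ⟨X1, hX1⟩ := tt_tauδ δ hδ
  obtain ⟨X0, hX0⟩ := tt_ev δ (max X1 C0) A1 hδ
  refine ⟨X0, ?_⟩
  intro X hX n b N σ QQ bq hStd H hH hHq M1 M2 Am S K1 K2 MM1 MM2 a1 a2 c1 c2 hAm hAmX hS0 hSX
    hB1 hB2
  obtain ⟨hX4096, hlog1, hlogA, hXm⟩ := hX0 X hX
  have hXX1 : X1 ≤ X := (le_max_left _ _).trans hXm
  have hXC0 : C0 ≤ X := (le_max_right _ _).trans hXm
  obtain ⟨hXn, hnX, hσ, hbL, hN1, hNb, hFam, hbq⟩ := hStd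
  obtain ⟨hM1a, hM1b, hK1, hMM1, ha1, hc1⟩ := hB1
  obtain ⟨hM2a, hM2b, hK2, hMM2, ha2, hc2⟩ := hB2
  have hXpos : (0 : ℝ) < X := by
    have : 0 < X := by omega
    exact_mod_cast this
  have hX4 : (4096 : ℝ) ≤ X := by exact_mod_cast hX4096
  have hX1' : (1 : ℝ) ≤ X := by linarith
  have hL0 : 0 < Real.log X := by linarith
  have hb : 0 < b := lt_of_lt_of_le (Real.rpow_pos_of_pos hL0 _) hbL
  obtain ⟨hcard, hqN⟩ := tt_card QQ N hFam hN1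
  obtain ⟨Y, hY⟩ : ∃ Y : ℝ, Y = (X : ℝ) ^ (1 / 4 : ℝ) := ⟨_, rfl⟩
  have hY0 : 0 < Y := by rw [hY]; positivity
  have hY2 : Y ^ 2 = (X : ℝ) ^ (1 / 2 : ℝ) := by
    rw [hY, ← Real.rpow_natCast, ← Real.rpow_mul hXpos.le]; norm_num
  have hY4 : Y ^ 4 = X := by
    rw [hY, ← Real.rpow_natCast, ← Real.rpow_mul hXpos.le]; norm_num
  have hY8 : 8 ≤ Y := by
    have h1 : (4096 : ℝ) ^ (1 / 4 : ℝ) ≤ (X : ℝ) ^ (1 / 4 : ℝ) :=
      Real.rpow_le_rpow (by norm_num) hX4 (by norm_num)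
    have h2 : (4096 : ℝ) ^ (1 / 4 : ℝ) = 8 := by
      rw [show (4096 : ℝ) = 8 ^ (4 : ℝ) by norm_num, ← Real.rpow_mul (by norm_num)]
      norm_num
    rw [h2, ← hY] at h1
    exact h1
  have hY42 : 4 * Y ^ 2 ≤ X := by rw [← hY4]; exact tt_Y Y hY8
  have hYsq : Y ^ 2 ≤ X := by linarith [pow_pos hY0 2]
  -- N ≤ X^(1/2)
  have hNbY : N * b ≤ Y ^ 2 := by
    rw [hY2]
    exact hNb.trans (Real.rpow_le_rpow_of_exponent_le hX1' (by linarith))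
  have hNle : N ≤ N * b * (Real.log X) ^ (A1 : ℝ) := by
    have h1 : 1 ≤ b * (Real.log X) ^ (A1 : ℝ) := by
      have h2 : (0 : ℝ) < (Real.log X) ^ (A1 : ℝ) := Real.rpow_pos_of_pos hL0 _
      calc (1 : ℝ) = (Real.log X) ^ (-(A1 : ℝ)) * (Real.log X) ^ (A1 : ℝ) := by
            rw [← Real.rpow_add hL0]; simp
        _ ≤ _ := mul_le_mul_of_nonneg_right hbL h2.le
    calc N = N * 1 := (mul_one N).symm
      _ ≤ N * (b * (Real.log X) ^ (A1 : ℝ)) := mul_le_mul_of_nonneg_left h1 (by linarith)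
      _ = _ := by ring
  have hNsum : N + N * b ≤ (X : ℝ) ^ (1 / 2 - δ / 2 : ℝ) := by
    calc N + N * b ≤ N * b * (1 + (Real.log X) ^ (A1 : ℝ)) := by linarith
      _ ≤ (X : ℝ) ^ (1 / 2 - δ) * (X : ℝ) ^ (δ / 2 : ℝ) :=
          mul_le_mul hNb hlogA (by positivity) (by positivity)
      _ = _ := by
          rw [← Real.rpow_add hXpos]
          congr 1
          ring
  have hNbpos : 0 < N * b := by positivity
  have hNY : N ≤ Y ^ 2 := by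
    rw [hY2]
    have h1 : (X : ℝ) ^ (1 / 2 - δ / 2 : ℝ) ≤ (X : ℝ) ^ (1 / 2 : ℝ) :=
      Real.rpow_le_rpow_of_exponent_le hX1' (by linarith)
    linarith
  have hbY : b ≤ Y ^ 2 := by
    calc b = 1 * b := (one_mul b).symm
      _ ≤ N * b := mul_le_mul_of_nonneg_right hN1 hb.le
      _ ≤ _ := hNbY
  have hM1Y : Y / 2 ≤ M1 := by rw [hY]; exact hM1a
  have hM2Y : Y / 2 ≤ M2 := by rw [hY]; exact hM2a
  have hM11 : 1 ≤ M1 := by linarith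
  have hM21 : 1 ≤ M2 := by linarith
  have hM1Y' : M1 ≤ 2 * Y ^ 2 := by rw [hY2]; exact hM1b
  have hM2Y' : M2 ≤ 2 * Y ^ 2 := by rw [hY2]; exact hM2b
  have htp1 := tt_tp X K1 (by omega) hK1 c1 S M1 hM11 hSX hc1
  have htp2 := tt_tp X K2 (by omega) hK2 c2 S M2 hM21 hSX hc2
  have hBd : ∀ M : ℝ, 1 ≤ M → M ≤ 2 * Y ^ 2 → 2 * M * Am * (X : ℝ) ^ 2 ≤ (X : ℝ) ^ 4 := by
    intro M _ hM
    have h1 : 2 * M * Am ≤ (X : ℝ) ^ 2 := by
      calc 2 * M * Am ≤ 2 * (2 * Y ^ 2) * X :=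
            mul_le_mul (by linarith) hAmX hAm (by positivity)
        _ ≤ X * X := by
            refine mul_le_mul_of_nonneg_right ?_ hXpos.le
            linarith
        _ = (X : ℝ) ^ 2 := by ring
    calc 2 * M * Am * (X : ℝ) ^ 2 ≤ (X : ℝ) ^ 2 * (X : ℝ) ^ 2 :=
          mul_le_mul_of_nonneg_right h1 (by positivity)
      _ = _ := by ring
  have hJ1 : 1 ≤ X ^ 20 := Nat.one_le_pow _ _ (by omega)
  have hJsqrt : Real.sqrt ((X ^ 20 : ℕ) : ℝ) = (X : ℝ) ^ 10 := by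
    push_cast
    rw [show (X : ℝ) ^ 20 = ((X : ℝ) ^ 10) ^ 2 by ring]
    exact Real.sqrt_sq (by positivity)
  have hJlog : 1 + Real.log ((X ^ 20 : ℕ) : ℝ) ≤ 21 * Real.log X := by
    push_cast
    rw [Real.log_pow]
    push_cast
    linarith
  have hbm1 := bmass X (by omega) b N σ M1 hb hN1 (by linarith) hσ QQ hFam bq hbq K1 c1
  have hbm2 := bmass X (by omega) b N σ M2 hb hN1 (by linarith) hσ QQ hFam bq hbq K2 c2
  obtain ⟨P1, hP1⟩ : ∃ P : ℝ, P = 8 * N + X / (M1 * b) := ⟨_, rfl⟩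
  obtain ⟨P2, hP2⟩ : ∃ P : ℝ, P = 8 * N + X / (M2 * b) := ⟨_, rfl⟩
  have hP10 : 0 < P1 := by rw [hP1]; positivity
  have hP20 : 0 < P2 := by rw [hP2]; positivity
  obtain ⟨HX, hHX⟩ : ∃ HX : ℝ, HX = H ^ (-(1 / 4) : ℝ) + (X : ℝ) ^ (-(δ / 8)) := ⟨_, rfl⟩
  have hHX0 : 0 ≤ HX := by
    rw [hHX]
    have : 0 ≤ H ^ (-(1 / 4) : ℝ) := Real.rpow_nonneg (by linarith) _
    positivity
  obtain ⟨Z1, hZ1⟩ : ∃ Z : ℕ → ℝ, Z = fun q => ttE X q K1 c1 (bq q) σ M1 := ⟨_, rfl⟩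
  obtain ⟨Z2, hZ2⟩ : ∃ Z : ℕ → ℝ, Z = fun q => ttE X q K2 c2 (bq q) σ M2 := ⟨_, rfl⟩
  have hZ10 : ∀ q, 0 ≤ Z1 q := fun q => by rw [hZ1]; exact ttE_nonneg _ _ _ _ _ _ _
  have hZ20 : ∀ q, 0 ≤ Z2 q := fun q => by rw [hZ2]; exact ttE_nonneg _ _ _ _ _ _ _
  have hsZ1 : ∑ q ∈ QQ, Z1 q ≤ P1 * (S * X / M1) := by
    have h1 : ∑ q ∈ QQ, Z1 q ≤ P1 * ∑ k ∈ Icc 1 K1, ‖c1 k‖ ^ 2 := by
      rw [hP1, hZ1]; exact hbm1
    exact h1.trans (mul_le_mul_of_nonneg_left hc1 hP10.le)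
  have hsZ2 : ∑ q ∈ QQ, Z2 q ≤ P2 * (S * X / M2) := by
    have h1 : ∑ q ∈ QQ, Z2 q ≤ P2 * ∑ k ∈ Icc 1 K2, ‖c2 k‖ ^ 2 := by
      rw [hP2, hZ2]; exact hbm2
    exact h1.trans (mul_le_mul_of_nonneg_left hc2 hP20.le)
  have hMM : 0 < M1 * M2 := by positivity
  have hsM : 0 < Real.sqrt (M1 * M2) := Real.sqrt_pos.2 hMM
  have hsP : 0 < Real.sqrt (P1 * P2) := Real.sqrt_pos.2 (by positivity)
  -- one q
  have hone : ∀ q ∈ QQ,
      ‖Bq X (bq q) σ n q (f2f MM1 a1 (tp K1 c1) σ q) (f2f MM2 a2 (tp K2 c2) σ q)‖ ≤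
      1008 * C0 * D * Real.log X * Am ^ 2 * HX * (Real.sqrt (M1 * M2) / Real.sqrt (P1 * P2)) *
        (Real.sqrt (Z1 q) * Real.sqrt (Z2 q)) + C0 * N / (X : ℝ) ^ 2 := by
    intro q hqm
    have hq1 : 1 ≤ q := hFam.1 q hqm
    have hne : NeZero q := ⟨by omega⟩
    obtain ⟨hβ1, hβ2⟩ := hbq q hqm
    obtain ⟨β, hβ⟩ : ∃ β : ℝ, β = bq q := ⟨_, rfl⟩
    rw [← hβ] at hβ1 hβ2
    have hβ0 : 0 < β := by linarith
    have hβX : β ≤ X := by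
      have : 2 * Y ^ 2 ≤ X := by linarith [pow_pos hY0 2]
      linarith
    have hJβ : 8 * β ≤ ((X ^ 20 : ℕ) : ℝ) := by
      push_cast
      have h1 : (8 : ℝ) ≤ (X : ℝ) ^ 19 := by
        calc (8 : ℝ) ≤ X := by linarith
          _ = (X : ℝ) ^ 1 := (pow_one _).symm
          _ ≤ (X : ℝ) ^ 19 := pow_le_pow_right₀ hX1' (by norm_num)
      calc 8 * β ≤ (X : ℝ) ^ 19 * X := mul_le_mul h1 hβX hβ0.le (by positivity)
        _ = (X : ℝ) ^ 20 := by ring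
    have h1 := h0 X n q β σ (by omega) hXn hnX hβ0 hσ M1 M2 Am K1 K2 MM1 MM2 a1 a2 c1 c2 hM11 hM21
      hAm hMM1 hMM2 ha1 ha2 ((X : ℝ) ^ 2) ((X : ℝ) ^ 4) (X ^ 20) htp1 htp2 (hBd M1 hM11 hM1Y')
      (hBd M2 hM21 hM2Y') hJ1 hJβ
    have hhq1 : 1 ≤ hq q n := by
      unfold hq
      exact Nat.div_pos (Nat.le_of_dvd hq1 (Nat.gcd_dvd_left q n))
        (Nat.gcd_pos_of_pos_left _ hq1)
    have hhqle : hq q n ≤ q := by
      unfold hq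
      exact Nat.div_le_self _ _
    have hhN : (hq q n : ℝ) ≤ N := by
      have : (hq q n : ℝ) ≤ q := by exact_mod_cast hhqle
      exact this.trans (hqN q hqm)
    have hhX : hq q n ≤ X := by
      have : (hq q n : ℝ) ≤ X := hhN.trans (hNY.trans hYsq)
      exact_mod_cast this
    have hT2 : (hq q n : ℝ) * (1 + b) ≤ (X : ℝ) ^ (1 / 2 - δ / 2 : ℝ) := by
      calc (hq q n : ℝ) * (1 + b) ≤ N * (1 + b) := mul_le_mul_of_nonneg_right hhN (by linarith)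
        _ = N + N * b := by ring
        _ ≤ _ := hNsum
    have h2 := tt_theta δ hδ hδ8 D hD X hX4096 b N (1 + β) hb hN1 hNb (hq q n) hhq1 (by linarith)
      (by linarith) hT2 H hH (hHq q hqm) (hD6 _ hhq1) (hX1 _ X hhq1 hhX hXX1) M1 M2 hM1a hM1b
      hM2a hM2b
    rw [← hP1, ← hP2, ← hHX] at h2
    rw [← hβ]
    obtain ⟨κ, hκ⟩ : ∃ κ : ℝ, κ = Real.sqrt ((hq q n : ℝ) * (hq q n).divisors.card) /
      Nat.totient (hq q n) := ⟨_, rfl⟩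
    obtain ⟨R, hR⟩ : ∃ R : ℝ, R = Real.sqrt ((hq q n * (1 + β) + M1) * (hq q n * (1 + β) + M2)) /
      Real.sqrt (1 + β) := ⟨_, rfl⟩
    have hκ0 : 0 ≤ κ := by rw [hκ]; positivity
    have hR0 : 0 ≤ R := by rw [hR]; positivity
    have eZ1 : ttE X q K1 c1 β σ M1 = Z1 q := by rw [hZ1, hβ]
    have eZ2 : ttE X q K2 c2 β σ M2 = Z2 q := by rw [hZ2, hβ]
    rw [eZ1, eZ2, ← hκ, hJsqrt, mul_div_assoc (Am ^ 2 * Real.sqrt (M1 * M2)), ← hR] at h1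
    rw [← hκ, ← hR] at h2
    obtain ⟨ζ, hζ⟩ : ∃ ζ : ℝ, ζ = Real.sqrt (Z1 q) * Real.sqrt (Z2 q) := ⟨_, rfl⟩
    have hζ0 : 0 ≤ ζ := by rw [hζ]; positivity
    rw [← hζ] at h1 ⊢
    have h3 : κ * R ≤ 24 * D * (X / b) * HX / Real.sqrt (P1 * P2) := by
      rw [le_div_iff₀ hsP]; exact h2
    refine h1.trans ?_
    have h4 : β / X * (C0 * (1 + Real.log ((X ^ 20 : ℕ) : ℝ)) * κ * ζ *
        (Am ^ 2 * Real.sqrt (M1 * M2) * R)) ≤
        1008 * C0 * D * Real.log X * Am ^ 2 * HX * (Real.sqrt (M1 * M2) / Real.sqrt (P1 * P2)) *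
        ζ := by
      have h5 : β / X ≤ 2 * b / X := div_le_div_of_nonneg_right hβ2 hXpos.le
      have h6 : 0 ≤ 1 + Real.log ((X ^ 20 : ℕ) : ℝ) := by
        have : 0 ≤ Real.log ((X ^ 20 : ℕ) : ℝ) := Real.log_nonneg (by exact_mod_cast hJ1)
        linarith
      calc β / X * (C0 * (1 + Real.log ((X ^ 20 : ℕ) : ℝ)) * κ * ζ *
        (Am ^ 2 * Real.sqrt (M1 * M2) * R))
          = (β / X) * ((1 + Real.log ((X ^ 20 : ℕ) : ℝ)) * ((κ * R) *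
            (C0 * ζ * Am ^ 2 * Real.sqrt (M1 * M2)))) := by ring
        _ ≤ (2 * b / X) * ((21 * Real.log X) * ((24 * D * (X / b) * HX / Real.sqrt (P1 * P2)) *
            (C0 * ζ * Am ^ 2 * Real.sqrt (M1 * M2)))) := by
            refine mul_le_mul h5 (mul_le_mul hJlog (mul_le_mul_of_nonneg_right h3 ?_) ?_ ?_) ?_ ?_
            · positivity
            · positivity
            · positivity
            · positivity
            · positivity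
        _ = (b * b⁻¹) * (X * (X : ℝ)⁻¹) * (1008 * C0 * D * Real.log X * Am ^ 2 * HX *
            (Real.sqrt (M1 * M2) / Real.sqrt (P1 * P2)) * ζ) := by ring
        _ = _ := by
            rw [mul_inv_cancel₀ hb.ne', mul_inv_cancel₀ hXpos.ne']
            ring
    have h7 : β / X * (C0 * Nat.totient q * ((X : ℝ) ^ 4) ^ 2 / (X : ℝ) ^ 10) ≤
        C0 * N / (X : ℝ) ^ 2 := by
      have h8 : (Nat.totient q : ℝ) ≤ N := by
        have : (Nat.totient q : ℝ) ≤ q := by exact_mod_cast Nat.totient_le q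
        exact this.trans (hqN q hqm)
      have h9 : β / X ≤ 1 := by rw [div_le_one hXpos]; exact hβX
      have e1 : C0 * Nat.totient q * ((X : ℝ) ^ 4) ^ 2 / (X : ℝ) ^ 10 =
          C0 * Nat.totient q / (X : ℝ) ^ 2 := by
        field_simp
      rw [e1]
      calc β / X * (C0 * Nat.totient q / (X : ℝ) ^ 2) ≤ 1 * (C0 * N / (X : ℝ) ^ 2) := by
            refine mul_le_mul h9 ?_ (by positivity) (by norm_num)
            refine div_le_div_of_nonneg_right ?_ (by positivity)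
            exact mul_le_mul_of_nonneg_left h8 hC0.le
        _ = _ := one_mul _
    calc β / X * (C0 * (1 + Real.log ((X ^ 20 : ℕ) : ℝ)) * κ * ζ *
        (Am ^ 2 * Real.sqrt (M1 * M2) * R) + C0 * Nat.totient q * ((X : ℝ) ^ 4) ^ 2 / (X : ℝ) ^ 10)
        = β / X * (C0 * (1 + Real.log ((X ^ 20 : ℕ) : ℝ)) * κ * ζ *
        (Am ^ 2 * Real.sqrt (M1 * M2) * R)) +
          β / X * (C0 * Nat.totient q * ((X : ℝ) ^ 4) ^ 2 / (X : ℝ) ^ 10) := by ring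
      _ ≤ _ := add_le_add h4 h7
  refine (sum_le_sum hone).trans ?_
  rw [sum_add_distrib, sum_const, nsmul_eq_mul, ← mul_sum]
  refine add_le_add ?_ ?_
  · have h1 : ∑ q ∈ QQ, Real.sqrt (Z1 q) * Real.sqrt (Z2 q) ≤
        Real.sqrt (P1 * P2) * (S * X) / Real.sqrt (M1 * M2) := by
      refine (Real.sum_sqrt_mul_sqrt_le QQ hZ10 hZ20).trans ?_
      rw [← Real.sqrt_mul (sum_nonneg fun q _ => hZ10 q)]
      have h2 : (∑ q ∈ QQ, Z1 q) * ∑ q ∈ QQ, Z2 q ≤ (P1 * P2) * ((S * X) ^ 2 / (M1 * M2)) := by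
        calc (∑ q ∈ QQ, Z1 q) * ∑ q ∈ QQ, Z2 q ≤ (P1 * (S * X / M1)) * (P2 * (S * X / M2)) :=
              mul_le_mul hsZ1 hsZ2 (sum_nonneg fun q _ => hZ20 q) (by positivity)
          _ = _ := by
              field_simp
      refine (Real.sqrt_le_sqrt h2).trans (le_of_eq ?_)
      rw [Real.sqrt_mul (by positivity), Real.sqrt_div (by positivity),
        Real.sqrt_sq (by positivity)]
      ring
    have h3 : 0 ≤ 1008 * C0 * D * Real.log X * Am ^ 2 * HX *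
        (Real.sqrt (M1 * M2) / Real.sqrt (P1 * P2)) := by positivity
    calc 1008 * C0 * D * Real.log X * Am ^ 2 * HX *
        (Real.sqrt (M1 * M2) / Real.sqrt (P1 * P2)) *
        ∑ q ∈ QQ, Real.sqrt (Z1 q) * Real.sqrt (Z2 q) ≤ 1008 * C0 * D * Real.log X * Am ^ 2 * HX *
        (Real.sqrt (M1 * M2) / Real.sqrt (P1 * P2)) *
        (Real.sqrt (P1 * P2) * (S * X) / Real.sqrt (M1 * M2)) := mul_le_mul_of_nonneg_left h1 h3
      _ = (Real.sqrt (M1 * M2) * (Real.sqrt (M1 * M2))⁻¹) *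
          (Real.sqrt (P1 * P2) * (Real.sqrt (P1 * P2))⁻¹) *
          (1008 * C0 * D * Real.log X * Am ^ 2 * S * X * HX) := by ring
      _ = 1008 * C0 * D * Real.log X * Am ^ 2 * S * X *
          (H ^ (-(1 / 4) : ℝ) + (X : ℝ) ^ (-(δ / 8))) := by
          rw [mul_inv_cancel₀ hsM.ne', mul_inv_cancel₀ hsP.ne', hHX]
          ring
  · have h1 : (QQ.card : ℝ) * (C0 * N / (X : ℝ) ^ 2) ≤ N * (C0 * N / (X : ℝ) ^ 2) :=
      mul_le_mul_of_nonneg_right hcard (by positivity)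
    refine h1.trans ?_
    have h2 : N * N ≤ X := by
      calc N * N ≤ Y ^ 2 * Y ^ 2 := mul_le_mul hNY hNY (by linarith) (by positivity)
        _ = X := by rw [← hY4]; ring
    have h3 : N * (C0 * N / (X : ℝ) ^ 2) = C0 * (N * N) / (X : ℝ) ^ 2 := by ring
    rw [h3, div_le_one (by positivity)]
    calc C0 * (N * N) ≤ X * X := mul_le_mul hXC0 h2 (by positivity) hXpos.le
      _ = (X : ℝ) ^ 2 := by ring

end Pool.MP_dd84fd_nt.PL
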