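import Pool.Agent.Lib.MP_dd84fd_nt.PL.Mass
import Pool.Agent.Lib.MP_dd84fd_nt.E2.SupClose

/-!
# PL-SmallM: the arcs with small denominators

`‖W_- θ‖ = ‖P1 - F2‖ ≤ X/L^A2` for all real `θ` (`E2.sup_close A2`, `D0 = max D0(A2) 1`), `A2 = A + 2K + K2 + 6`;
`‖W_+ θ‖ ≤ 3 X L` (`W_l2`).  Every `q ≤ Z ≤ L^K` has at most `q ≤ L^K` arcs of length `2 L^K2/X`, so the sum is
`≤ L^(2K) (2 L^K2/X)(X/L^A2)(3 X L) ≤ X/(2 L^A)`.
-/

set_option autoImplicit false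

namespace Pool.MP_dd84fd_nt.PL

open Finset Pool.MP_67663b_nt.Odd Pool.MP_dd84fd_nt.E2

theorem small_mass (A K K2 : ℕ) : ∃ D0 : ℕ, ∀ D' : ℕ, D0 ≤ D' → ∃ X0 : ℕ, ∀ X : ℕ, X0 ≤ X →
    ∀ Z : ℝ, 0 ≤ Z → Z ≤ (Real.log X) ^ K →
    ∑ q ∈ Icc 1 ⌊Z⌋₊, Wt X (wX D' X) ((Real.log X) ^ K2) q ≤ X / (2 * (Real.log X) ^ A) := by
  obtain ⟨D0, hD0⟩ := sup_close (A + 2 * K + K2 + 6)
  refine ⟨max D0 1, fun D' hD' => ?_⟩
  obtain ⟨X1, hX1⟩ := hD0 D' ((le_max_left _ _).trans hD')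
  obtain ⟨X2, hX2⟩ := W_l2 D' ((le_max_right _ _).trans hD')
  refine ⟨max (max X1 X2) ⌈Real.exp 2⌉₊, ?_⟩
  intro X hX Z hZ0 hZ
  have hXX1 : X1 ≤ X := (le_max_left _ _).trans ((le_max_left _ _).trans hX)
  have hXX2 : X2 ≤ X := (le_max_right _ _).trans ((le_max_left _ _).trans hX)
  have hXe : Real.exp 2 ≤ (X : ℝ) := Nat.ceil_le.mp ((le_max_right _ _).trans hX)
  have hX0 : (0 : ℝ) < X := lt_of_lt_of_le (Real.exp_pos 2) hXe
  have hL : 2 ≤ Real.log (X : ℝ) := by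
    rw [Real.le_log_iff_exp_le hX0]
    exact hXe
  set L := Real.log (X : ℝ) with hLdef
  have hL0 : 0 < L := by linarith
  -- pointwise bounds
  have hm : ∀ θ : ℝ, ‖W (-1) (wX D' X) X θ‖ ≤ X / L ^ (A + 2 * K + K2 + 6) := by
    intro θ
    have h := hX1 X hXX1 θ
    have e1 : W (-1) (wX D' X) X θ = P1 X θ - F2 (wX D' X) X θ := by
      unfold W
      push_cast
      ring
    rw [e1]
    exact h
  have hp : ∀ θ : ℝ, ‖W 1 (wX D' X) X θ‖ ≤ X * (3 * L) := by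
    obtain ⟨e, he, -, hW⟩ := hX2 X hXX2 1 (by simp)
    intro θ
    rw [hW θ]
    unfold tp
    refine (norm_sum_le _ _).trans ?_
    refine (Finset.sum_le_card_nsmul _ _ (3 * L) fun k _ => ?_).trans (le_of_eq ?_)
    · rw [norm_mul, norm_ee, mul_one, Complex.norm_real]
      exact he k
    · rw [Nat.card_Icc, nsmul_eq_mul, Nat.add_sub_cancel]
  set C : ℝ := X / L ^ (A + 2 * K + K2 + 6) * (X * (3 * L)) with hC
  have hC0 : 0 ≤ C := by positivity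
  have hWt : ∀ q ∈ Icc 1 ⌊Z⌋₊, Wt X (wX D' X) (L ^ K2) q ≤ L ^ K * (C * (2 * (L ^ K2 / X))) := by
    intro q hq
    unfold Wt
    have h1 : ∀ a ∈ rr q, ∫ x in (-(L ^ K2 / X))..(L ^ K2 / X),
        ‖W (-1) (wX D' X) X ((a : ℝ) / q + x) * W 1 (wX D' X) X ((a : ℝ) / q + x)‖ ≤
        C * (2 * (L ^ K2 / X)) := by
      intro a _
      have h2 := intervalIntegral.norm_integral_le_of_norm_le_const (a := -(L ^ K2 / X))
        (b := L ^ K2 / X) (C := C) (f := fun x : ℝ =>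
          ‖W (-1) (wX D' X) X ((a : ℝ) / q + x) * W 1 (wX D' X) X ((a : ℝ) / q + x)‖)
        (fun x _ => by
          rw [norm_norm, norm_mul]
          exact mul_le_mul (hm _) (hp _) (norm_nonneg _) (by positivity))
      have h3 : |L ^ K2 / (X : ℝ) - -(L ^ K2 / X)| = 2 * (L ^ K2 / X) := by
        rw [sub_neg_eq_add, ← two_mul, abs_of_nonneg (by positivity)]
      rw [h3] at h2
      exact (le_abs_self _).trans h2
    refine (Finset.sum_le_card_nsmul _ _ _ h1).trans ?_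
    rw [nsmul_eq_mul]
    refine mul_le_mul_of_nonneg_right ?_ (by positivity)
    have h4 : (rr q).card ≤ q := by
      unfold rr
      exact (card_filter_le _ _).trans (le_of_eq (card_range q))
    have h5 : (q : ℝ) ≤ Z := (Nat.le_floor_iff hZ0).1 (mem_Icc.1 hq).2
    have h6 : ((rr q).card : ℝ) ≤ q := by exact_mod_cast h4
    exact h6.trans (h5.trans hZ)
  refine (Finset.sum_le_card_nsmul _ _ _ hWt).trans ?_
  rw [nsmul_eq_mul, Nat.card_Icc, Nat.add_sub_cancel]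
  have hfl : (⌊Z⌋₊ : ℝ) ≤ L ^ K := (Nat.floor_le hZ0).trans hZ
  have h7 : (⌊Z⌋₊ : ℝ) * (L ^ K * (C * (2 * (L ^ K2 / X)))) ≤
      L ^ K * (L ^ K * (C * (2 * (L ^ K2 / X)))) :=
    mul_le_mul_of_nonneg_right hfl (by positivity)
  refine h7.trans ?_
  have h8 : L ^ K * (L ^ K * (C * (2 * (L ^ K2 / X)))) = 6 * X / (L ^ A * L ^ 5) := by
    rw [hC]
    have e1 : L ^ (A + 2 * K + K2 + 6) = L ^ A * L ^ K * L ^ K * L ^ K2 * L ^ 5 * L := by ring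
    rw [e1]
    have : L ≠ 0 := hL0.ne'
    field_simp
    norm_num
  rw [h8, div_le_div_iff₀ (by positivity) (by positivity)]
  have h9 : (12 : ℝ) ≤ L ^ 5 := by
    calc (12 : ℝ) ≤ 2 ^ 5 := by norm_num
      _ ≤ L ^ 5 := pow_le_pow_left₀ (by norm_num) hL 5
  have h10 : (X : ℝ) * (L ^ A * L ^ 5) = X * L ^ A * L ^ 5 := by ring
  rw [h10]
  have h11 : 6 * (X : ℝ) * (2 * L ^ A) = X * L ^ A * 12 := by ring
  rw [h11]
  exact mul_le_mul_of_nonneg_left h9 (by positivity)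

end Pool.MP_dd84fd_nt.PL
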