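import Pool.Agent.Lib.MP_dd84fd_nt.PL.TypeI

/-!
# PL-TISmall: type I sums near `a/q`, `|α - a/q| ≤ y/X`

`α = a/q + σx`, `0 ≤ x ≤ y/X`, `y ≥ 1`, `y q² ≤ X`.  If `q ∣ d` then `ee(dkα) = ee(dk σ x)` (`dk a/q` is an integer), so
`ti X d u v α = ti X d u v (σ x)`: the difference is `∑_{d ≤ D, ¬ q ∣ d} ti X d (u d) (v d) α`.
For `¬ q ∣ d`: `ti_le` and `mn(X/d, dα) ≤ mn(Y, dα)`, `Y = 2 q y`:  if `nrm(dα) ≥ 1/(2q)` then
`mn(X/d,dα) ≤ 1/(2 nrm) ≤ q ≤ Y` and `mn(Y, dα) = min(Y, 1/(2 nrm)) = 1/(2 nrm)`-ish; otherwise, as `nrm(d a/q) ≥ 1/q`,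
`d x ≥ 1/(2q)`, so `X/d ≤ 2q x X ≤ 2 q y = Y` and `mn` is monotone in the first argument.
(`mn M θ = M` if `2M nrm θ ≤ 1`, else `1/(2 nrm θ)`, i.e. `min(M, 1/(2 nrm θ))`.)
`L2G.min_sum` (`|α - a/q| ≤ y/X ≤ 1/q²`): `∑_{d ≤ D} mn(Y, dα) ≤ C (D/q + 1)(Y + q(1+log q)) ≤ C' (D + q) y (1+log X)`.
-/

set_option autoImplicit false

namespace Pool.MP_dd84fd_nt.PL

open Finset Pool.MP_67663b_nt.Odd

private theorem ts_mn_eq (M x : ℝ) : En.mn M x = L2G.mn M x := by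
  have h : 2 * M * |x - round x| ≤ 1 ↔ 2 * L2G.nrm x * M ≤ 1 := by
    unfold L2G.nrm
    constructor <;> intro h <;> linarith
  unfold En.mn L2G.mn
  by_cases h1 : 2 * M * |x - round x| ≤ 1
  · rw [if_pos h1, if_pos (h.1 h1)]
  · rw [if_neg h1, if_neg (fun h2 => h1 (h.2 h2))]
    rfl

private theorem ts_le_inv (M x : ℝ) (hx : 0 < L2G.nrm x) : L2G.mn M x ≤ 1 / (2 * L2G.nrm x) := by
  unfold L2G.mn
  split_ifs with h
  · rw [le_div_iff₀ (by positivity)]
    linarith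
  · exact le_rfl

private theorem ts_mono (M M' x : ℝ) (hM : 0 ≤ M) (h : M ≤ M') : L2G.mn M x ≤ L2G.mn M' x := by
  have hn : 0 ≤ L2G.nrm x := abs_nonneg _
  by_cases h1 : 2 * L2G.nrm x * M' ≤ 1
  · have e : L2G.mn M' x = M' := by
      unfold L2G.mn
      rw [if_pos h1]
    rw [e]
    exact (L2G.mn_le M x hM).trans h
  · have e : L2G.mn M' x = 1 / (2 * L2G.nrm x) := by
      unfold L2G.mn
      rw [if_neg h1]
    rw [e]
    have h0 : 0 < L2G.nrm x := by
      rcases hn.eq_or_lt with h0 | h0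
      · rw [← h0] at h1
        simp at h1
      · exact h0
    exact ts_le_inv M x h0

/-- the pointwise bound for `q` not dividing `d` -/
private theorem ts_point (X d q a : ℕ) (y x σ : ℝ) (hX : 1 ≤ X) (hd : 1 ≤ d) (hq : 1 ≤ q)
    (hc : Nat.Coprime a q) (hσ : σ = 1 ∨ σ = -1) (hy : 1 ≤ y) (hx : 0 ≤ x) (hxy : x ≤ y / X)
    (hnd : ¬ q ∣ d) :
    L2G.mn ((X : ℝ) / d) ((d : ℝ) * ((a : ℝ) / q + σ * x)) ≤
      L2G.mn (2 * q * y) ((d : ℝ) * ((a : ℝ) / q + σ * x)) := by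
  have hX0 : (0 : ℝ) < X := by exact_mod_cast hX
  have hd0 : (0 : ℝ) < d := by exact_mod_cast hd
  have hq0 : (0 : ℝ) < q := by exact_mod_cast hq
  set θ : ℝ := (d : ℝ) * ((a : ℝ) / q + σ * x) with hθ
  have hn : 0 ≤ L2G.nrm θ := abs_nonneg _
  by_cases h1 : 1 ≤ 2 * L2G.nrm θ * q
  · have h0 : 0 < L2G.nrm θ := by
      rcases hn.eq_or_lt with h0 | h0
      · rw [← h0] at h1
        simp at h1
        linarith
      · exact h0
    by_cases h2 : 2 * L2G.nrm θ * (2 * q * y) ≤ 1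
    · have e : L2G.mn (2 * q * y) θ = 2 * q * y := by
        unfold L2G.mn
        rw [if_pos h2]
      rw [e]
      refine (ts_le_inv _ θ h0).trans ?_
      rw [div_le_iff₀ (by positivity)]
      have h3 : (0 : ℝ) ≤ 2 * L2G.nrm θ * q := by positivity
      nlinarith
    · have e : L2G.mn (2 * q * y) θ = 1 / (2 * L2G.nrm θ) := by
        unfold L2G.mn
        rw [if_neg h2]
      rw [e]
      exact ts_le_inv _ θ h0
  · rw [not_le] at h1
    refine ts_mono _ _ θ (by positivity) ?_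
    have h4 : (1 : ℝ) ≤ |(d : ℝ) * a - round θ * q| := by
      have h5 : (d : ℤ) * a - round θ * q ≠ 0 := by
        intro h6
        have h7 : (q : ℤ) ∣ (d : ℤ) * a := ⟨round θ, by linarith⟩
        have h8 : q ∣ d * a := by exact_mod_cast h7
        exact hnd (hc.symm.dvd_of_dvd_mul_right h8)
      have h9 := Int.one_le_abs h5
      have h10 : ((1 : ℤ) : ℝ) ≤ ((|(d : ℤ) * a - round θ * q| : ℤ) : ℝ) := by exact_mod_cast h9
      push_cast at h10
      exact h10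
    have h11 : |(d : ℝ) * a - round θ * q| ≤ q * L2G.nrm θ + q * (d * x) := by
      have h12 : (d : ℝ) * a - round θ * q = q * (θ - round θ) - q * (d * (σ * x)) := by
        rw [hθ]
        field_simp
        ring
      rw [h12]
      refine (abs_sub _ _).trans ?_
      rw [abs_mul, abs_mul, abs_of_pos hq0]
      have h13 : |(d : ℝ) * (σ * x)| = d * x := by
        rw [abs_mul, abs_mul, abs_of_pos hd0, abs_of_nonneg hx]
        rcases hσ with h | h <;> rw [h] <;> norm_num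
      rw [h13]
      rfl
    have h14 : (1 : ℝ) / 2 < q * (d * x) := by nlinarith
    have h15 : q * (d * x) ≤ q * (d * (y / X)) := by gcongr
    have h16 : (1 : ℝ) / 2 < q * (d * (y / X)) := lt_of_lt_of_le h14 h15
    rw [div_le_iff₀ hd0]
    have h17 : q * (d * (y / X)) * X = q * d * y := by
      field_simp
    have h18 : (1 : ℝ) / 2 * X < q * (d * (y / X)) * X := mul_lt_mul_of_pos_right h16 hX0
    rw [h17] at h18
    linarith

/-- on the multiples of `q` the sum does not see the fraction -/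
private theorem ts_dvd (X d q a : ℕ) (u v x σ : ℝ) (hq : 1 ≤ q) (hdv : q ∣ d) :
    ti X d u v ((a : ℝ) / q + σ * x) = ti X d u v (σ * x) := by
  have hq0 : (q : ℝ) ≠ 0 := by
    have : (0 : ℝ) < q := by exact_mod_cast hq
    exact this.ne'
  obtain ⟨e, rfl⟩ := hdv
  unfold ti
  refine sum_congr rfl fun k _ => ?_
  congr 1
  have h1 : (((q * e * k : ℕ) : ℝ)) * ((a : ℝ) / q + σ * x) =
      ((q * e * k : ℕ) : ℝ) * (σ * x) + ((e * k * a : ℤ) : ℝ) := by
    push_cast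
    field_simp
    ring
  rw [h1, ee_add_int]

theorem ti_small : ∃ C : ℝ, 0 < C ∧ ∀ (X D q a : ℕ) (u v : ℕ → ℝ) (R y x σ : ℝ),
    1 ≤ X → D ≤ X → 1 ≤ q → Nat.Coprime a q → (σ = 1 ∨ σ = -1) → 1 ≤ y → 0 ≤ x → x ≤ y / X →
    y * (q : ℝ) ^ 2 ≤ X → 0 ≤ R → (∀ d, |u d| ≤ R) → (∀ d, |v d| ≤ R) →
    ‖TI X D u v ((a : ℝ) / q + σ * x) - lamq X D u v σ q x‖ ≤
      C * R * ((D : ℝ) + q) * y * (1 + Real.log X) := by
  obtain ⟨C1, hC1, h1⟩ := ti_le
  obtain ⟨C2, hC2, h2⟩ := L2G.min_sum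
  refine ⟨3 * C1 * C2, by positivity, ?_⟩
  intro X D q a u v R y x σ hX hD hq hc hσ hy hx hxy hyq hR hu hv
  have hX0 : (0 : ℝ) < X := by exact_mod_cast hX
  have hX1 : (1 : ℝ) ≤ X := by exact_mod_cast hX
  have hq0 : (0 : ℝ) < q := by exact_mod_cast hq
  have hq1 : (1 : ℝ) ≤ q := by exact_mod_cast hq
  have hlX : 0 ≤ Real.log X := Real.log_nonneg hX1
  have hqX : (q : ℝ) ≤ X := by nlinarith
  have hlq : Real.log q ≤ Real.log X := Real.log_le_log hq0 hqX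
  have hlq0 : 0 ≤ Real.log q := Real.log_nonneg hq1
  set α : ℝ := (a : ℝ) / q + σ * x with hα
  have hsplit : TI X D u v α - lamq X D u v σ q x =
      ∑ d ∈ (Icc 1 D).filter (fun d => ¬ q ∣ d), ti X d (u d) (v d) α := by
    unfold TI lamq
    rw [← Finset.sum_filter_add_sum_filter_not (Icc 1 D) (fun d => q ∣ d)]
    have h3 : ∑ d ∈ (Icc 1 D).filter (fun d => q ∣ d), ti X d (u d) (v d) α =
        ∑ d ∈ (Icc 1 D).filter (fun d => q ∣ d), ti X d (u d) (v d) (σ * x) := by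
      refine sum_congr rfl fun d hd => ?_
      exact ts_dvd X d q a _ _ x σ hq (mem_filter.1 hd).2
    rw [h3]
    ring
  rw [hsplit]
  have hY : (1 : ℝ) ≤ 2 * q * y := by nlinarith
  have hsum : ∑ l ∈ Icc 1 D, L2G.mn (2 * q * y) (l * α) ≤
      C2 * ((D : ℝ) / q + 1) * (2 * q * y + q * (1 + Real.log q)) := by
    refine h2 α (a : ℤ) q hq (Nat.isCoprime_iff_coprime.2 hc) ?_ D _ hY
    have h4 : α - ((a : ℤ) : ℝ) / q = σ * x := by
      rw [hα]
      push_cast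
      ring
    have h5 : |σ * x| = x := by
      rw [abs_mul, abs_of_nonneg hx]
      rcases hσ with h | h <;> rw [h] <;> norm_num
    rw [h4, h5]
    refine hxy.trans ?_
    rw [div_le_div_iff₀ hX0 (by positivity), one_mul]
    exact hyq
  have hmain : ‖∑ d ∈ (Icc 1 D).filter (fun d => ¬ q ∣ d), ti X d (u d) (v d) α‖ ≤
      C1 * R * ∑ l ∈ Icc 1 D, L2G.mn (2 * q * y) (l * α) := by
    calc ‖∑ d ∈ (Icc 1 D).filter (fun d => ¬ q ∣ d), ti X d (u d) (v d) α‖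
        ≤ ∑ d ∈ (Icc 1 D).filter (fun d => ¬ q ∣ d), ‖ti X d (u d) (v d) α‖ := norm_sum_le _ _
      _ ≤ ∑ d ∈ (Icc 1 D).filter (fun d => ¬ q ∣ d), C1 * R * L2G.mn (2 * q * y) (d * α) := by
          refine sum_le_sum fun d hd => ?_
          obtain ⟨hd1, hd2⟩ := mem_filter.1 hd
          rw [mem_Icc] at hd1
          have h6 := h1 X d (u d) (v d) R α hd1.1 (hd1.2.trans hD) (hu d) (hv d)
          rw [ts_mn_eq] at h6
          refine h6.trans (mul_le_mul_of_nonneg_left ?_ (by positivity))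
          exact ts_point X d q a y x σ hX hd1.1 hq hc hσ hy hx hxy hd2
      _ ≤ ∑ d ∈ Icc 1 D, C1 * R * L2G.mn (2 * q * y) (d * α) := by
          refine Finset.sum_le_sum_of_subset_of_nonneg (Finset.filter_subset _ _) fun d _ _ => ?_
          exact mul_nonneg (by positivity) (L2G.mn_nonneg _ _ (by positivity))
      _ = C1 * R * ∑ l ∈ Icc 1 D, L2G.mn (2 * q * y) (l * α) := by rw [Finset.mul_sum]
  refine hmain.trans ((mul_le_mul_of_nonneg_left hsum (by positivity)).trans ?_)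
  have h7 : ((D : ℝ) / q + 1) * (2 * q * y + q * (1 + Real.log q)) =
      ((D : ℝ) + q) * (2 * y + (1 + Real.log q)) := by
    field_simp
  have h8 : 2 * y + (1 + Real.log q) ≤ 3 * y * (1 + Real.log X) := by nlinarith
  have hD0 : (0 : ℝ) ≤ D := Nat.cast_nonneg _
  calc C1 * R * (C2 * ((D : ℝ) / q + 1) * (2 * q * y + q * (1 + Real.log q)))
      = C1 * R * C2 * (((D : ℝ) / q + 1) * (2 * q * y + q * (1 + Real.log q))) := by ring
    _ = C1 * R * C2 * (((D : ℝ) + q) * (2 * y + (1 + Real.log q))) := by rw [h7]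
    _ ≤ C1 * R * C2 * (((D : ℝ) + q) * (3 * y * (1 + Real.log X))) := by gcongr
    _ = 3 * C1 * C2 * R * ((D : ℝ) + q) * y * (1 + Real.log X) := by ring

end Pool.MP_dd84fd_nt.PL
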