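import Pool.Agent.Lib.MP_dd84fd_nt.PL.Defs
import Pool.Agent.Lib.BV.Vaughan

/-!
# PL-Vau: Vaughan's identity with two parameters

Copy the proof of `Pool.BV.vaughan` (`Lib/BV/Vaughan.lean`; its lemmas are private, copy them) with
`A = Λ 1[n ≤ V]`, `B = Λ 1[n > V]`, `M = μ 1[n ≤ U]`, `E = 1 - ζ M`:
`Λ = A - (A M) ζ + M log + B E`, `E k = c2 U k` for `k > U` and `0` for `1 ≤ k ≤ U`; `(A M) t = v1 V U t` vanishes for
`t > V U`.
`v1_le`: `|v1 V U t| ≤ ∑_{d ∣ t} Λ(d) = log t`.  `c2_le`: `|c2 U k| ≤ τ(k)`.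
-/

set_option autoImplicit false

namespace Pool.MP_dd84fd_nt.PL

open Finset

/-- the coefficients `∑_{lm = t, l ≤ V, m ≤ U} Λ(l) μ(m)` -/
noncomputable def v1 (V U t : ℕ) : ℝ :=
  ∑ z ∈ t.divisorsAntidiagonal.filter (fun z => z.1 ≤ V ∧ z.2 ≤ U),
    ArithmeticFunction.vonMangoldt z.1 * ((ArithmeticFunction.moebius z.2 : ℤ) : ℝ)

private noncomputable def restr (f : ArithmeticFunction ℝ) (p : ℕ → Prop) [DecidablePred p] :
    ArithmeticFunction ℝ :=
  ⟨fun n => if p n then f n else 0, by simp⟩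

private theorem restr_apply (f : ArithmeticFunction ℝ) (p : ℕ → Prop) [DecidablePred p] (n : ℕ) :
    restr f p n = if p n then f n else 0 := rfl

private theorem conv_sum (P Q : ArithmeticFunction ℝ) (F : ℕ → ℂ) (X : ℕ) :
    ∑ n ∈ Icc 1 X, (((P * Q) n : ℝ) : ℂ) * F n =
      ∑ a ∈ Icc 1 X, ∑ b ∈ Icc 1 (X / a), ((P a : ℝ) : ℂ) * ((Q b : ℝ) : ℂ) * F (a * b) := by
  have h1 : ∑ n ∈ Icc 1 X, (((P * Q) n : ℝ) : ℂ) * F n =
      ∑ n ∈ Icc 1 X, ∑ x ∈ (Icc 1 X ×ˢ Icc 1 X).filter (fun x => x.1 * x.2 = n),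
        ((P x.1 : ℝ) : ℂ) * ((Q x.2 : ℝ) : ℂ) * F (x.1 * x.2) := by
    refine sum_congr rfl fun n hn => ?_
    rw [mem_Icc] at hn
    rw [ArithmeticFunction.mul_apply]
    push_cast
    rw [Finset.sum_mul]
    have h2 : n.divisorsAntidiagonal = (Icc 1 X ×ˢ Icc 1 X).filter (fun x => x.1 * x.2 = n) := by
      ext x
      rw [Nat.mem_divisorsAntidiagonal, mem_filter, mem_product, mem_Icc, mem_Icc]
      constructor
      · rintro ⟨h3, h4⟩
        have h5 : x.1 ≠ 0 := fun h => h4 (by rw [← h3, h, zero_mul])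
        have h6 : x.2 ≠ 0 := fun h => h4 (by rw [← h3, h, mul_zero])
        refine ⟨⟨⟨by omega, ?_⟩, by omega, ?_⟩, h3⟩
        · calc x.1 ≤ x.1 * x.2 := Nat.le_mul_of_pos_right _ (by omega)
            _ ≤ X := by rw [h3]; exact hn.2
        · calc x.2 ≤ x.1 * x.2 := Nat.le_mul_of_pos_left _ (by omega)
            _ ≤ X := by rw [h3]; exact hn.2
      · rintro ⟨_, h3⟩
        exact ⟨h3, by omega⟩
    rw [h2]
    refine sum_congr rfl fun x hx => ?_
    rw [(mem_filter.1 hx).2]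
  rw [h1]
  simp_rw [sum_filter]
  rw [sum_comm]
  have h3 : ∀ x ∈ Icc 1 X ×ˢ Icc 1 X, ∑ n ∈ Icc 1 X, (if x.1 * x.2 = n then
      ((P x.1 : ℝ) : ℂ) * ((Q x.2 : ℝ) : ℂ) * F (x.1 * x.2) else 0) =
      if x.1 * x.2 ≤ X then ((P x.1 : ℝ) : ℂ) * ((Q x.2 : ℝ) : ℂ) * F (x.1 * x.2) else 0 := by
    intro x hx
    rw [mem_product, mem_Icc, mem_Icc] at hx
    rw [Finset.sum_ite_eq]
    have h5 : 1 ≤ x.1 * x.2 := Nat.mul_pos hx.1.1 hx.2.1
    simp only [mem_Icc, h5, true_and]
  rw [sum_congr rfl h3, sum_product]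
  refine sum_congr rfl fun a ha => ?_
  rw [mem_Icc] at ha
  rw [← sum_filter]
  refine sum_congr ?_ fun _ _ => rfl
  ext b
  rw [mem_filter, mem_Icc, mem_Icc, Nat.le_div_iff_mul_le (by omega)]
  constructor
  · rintro ⟨⟨h1, h2⟩, h3⟩
    exact ⟨h1, by rw [mul_comm]; exact h3⟩
  · rintro ⟨h1, h2⟩
    rw [mul_comm] at h2
    exact ⟨⟨h1, (Nat.le_mul_of_pos_left _ (by omega)).trans h2⟩, h2⟩

private theorem mul_restr (V U t : ℕ) :
    (restr ArithmeticFunction.vonMangoldt (fun n => n ≤ V) *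
      restr (ArithmeticFunction.moebius : ArithmeticFunction ℝ) (fun n => n ≤ U)) t = v1 V U t := by
  rw [ArithmeticFunction.mul_apply]
  unfold v1
  rw [sum_filter]
  refine sum_congr rfl fun x _ => ?_
  rw [restr_apply, restr_apply]
  by_cases h1 : x.1 ≤ V <;> by_cases h2 : x.2 ≤ U <;> simp [h1, h2]

private theorem v1_eq_zero {V U t : ℕ} (h : V * U < t) : v1 V U t = 0 := by
  unfold v1
  rw [filter_eq_empty_iff.2 (fun x hx => ?_), sum_empty]
  rintro ⟨h1, h2⟩
  have h3 := (Nat.mem_divisorsAntidiagonal.1 hx).1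
  have h4 := Nat.mul_le_mul h1 h2
  rw [h3] at h4
  omega

private theorem zeta_mul_restr (U k : ℕ) :
    ((ArithmeticFunction.zeta : ArithmeticFunction ℝ) *
      restr (ArithmeticFunction.moebius : ArithmeticFunction ℝ) (fun n => n ≤ U)) k = -Pool.BV.c2 U k := by
  rw [ArithmeticFunction.coe_zeta_mul_apply]
  unfold Pool.BV.c2
  rw [neg_neg, sum_filter]
  refine sum_congr rfl fun d _ => ?_
  rw [restr_apply]
  rfl

private theorem one_sub_apply {U k : ℕ} (hU : 1 ≤ U) (hk : 1 ≤ k) :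
    ((1 : ArithmeticFunction ℝ) - (ArithmeticFunction.zeta : ArithmeticFunction ℝ) *
      restr (ArithmeticFunction.moebius : ArithmeticFunction ℝ) (fun n => n ≤ U)) k =
      if U < k then Pool.BV.c2 U k else 0 := by
  have h0 : ((1 : ArithmeticFunction ℝ) - (ArithmeticFunction.zeta : ArithmeticFunction ℝ) *
      restr (ArithmeticFunction.moebius : ArithmeticFunction ℝ) (fun n => n ≤ U)) k =
      (1 : ArithmeticFunction ℝ) k - ((ArithmeticFunction.zeta : ArithmeticFunction ℝ) *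
      restr (ArithmeticFunction.moebius : ArithmeticFunction ℝ) (fun n => n ≤ U)) k := by
    rw [sub_eq_add_neg, ArithmeticFunction.add_apply, ArithmeticFunction.neg_apply,
      ← sub_eq_add_neg]
  rw [h0]
  by_cases h : U < k
  · rw [if_pos h, zeta_mul_restr, ArithmeticFunction.one_apply_ne (by omega)]
    ring
  · rw [if_neg h]
    have h1 : ((ArithmeticFunction.zeta : ArithmeticFunction ℝ) *
        restr (ArithmeticFunction.moebius : ArithmeticFunction ℝ) (fun n => n ≤ U)) k =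
        ((ArithmeticFunction.zeta : ArithmeticFunction ℝ) *
        (ArithmeticFunction.moebius : ArithmeticFunction ℝ)) k := by
      rw [ArithmeticFunction.coe_zeta_mul_apply, ArithmeticFunction.coe_zeta_mul_apply]
      refine sum_congr rfl fun d hd => ?_
      rw [restr_apply, if_pos ((Nat.divisor_le hd).trans (not_lt.1 h))]
    rw [h1, ArithmeticFunction.coe_zeta_mul_coe_moebius, sub_self]

theorem v1_le (V U t : ℕ) (ht : 1 ≤ t) : |v1 V U t| ≤ Real.log t := by
  have _ := ht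
  unfold v1
  calc |∑ z ∈ t.divisorsAntidiagonal.filter (fun z => z.1 ≤ V ∧ z.2 ≤ U),
        ArithmeticFunction.vonMangoldt z.1 * ((ArithmeticFunction.moebius z.2 : ℤ) : ℝ)|
      ≤ ∑ z ∈ t.divisorsAntidiagonal.filter (fun z => z.1 ≤ V ∧ z.2 ≤ U),
        |ArithmeticFunction.vonMangoldt z.1 * ((ArithmeticFunction.moebius z.2 : ℤ) : ℝ)| :=
        Finset.abs_sum_le_sum_abs _ _
    _ ≤ ∑ z ∈ t.divisorsAntidiagonal.filter (fun z => z.1 ≤ V ∧ z.2 ≤ U),
        ArithmeticFunction.vonMangoldt z.1 := by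
        refine sum_le_sum fun z _ => ?_
        rw [abs_mul, abs_of_nonneg ArithmeticFunction.vonMangoldt_nonneg]
        have h1 : |((ArithmeticFunction.moebius z.2 : ℤ) : ℝ)| ≤ 1 := by
          exact_mod_cast ArithmeticFunction.abs_moebius_le_one (n := z.2)
        exact mul_le_of_le_one_right ArithmeticFunction.vonMangoldt_nonneg h1
    _ ≤ ∑ z ∈ t.divisorsAntidiagonal, ArithmeticFunction.vonMangoldt z.1 :=
        sum_le_sum_of_subset_of_nonneg (filter_subset _ _)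
          fun _ _ _ => ArithmeticFunction.vonMangoldt_nonneg
    _ = ∑ d ∈ t.divisors, ArithmeticFunction.vonMangoldt d := by
        rw [Nat.sum_divisorsAntidiagonal (fun d _ => ArithmeticFunction.vonMangoldt d)]
    _ = Real.log t := ArithmeticFunction.vonMangoldt_sum

theorem c2_le (U k : ℕ) : |Pool.BV.c2 U k| ≤ (k.divisors.card : ℝ) :=
  Pool.BV.c2_bound U k

theorem vaughan2 (V U X : ℕ) (hV : 1 ≤ V) (hU : 1 ≤ U) (F : ℕ → ℂ) :
    ∑ n ∈ Icc 1 X, (ArithmeticFunction.vonMangoldt n : ℂ) * F n =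
      ∑ n ∈ Icc 1 (min V X), (ArithmeticFunction.vonMangoldt n : ℂ) * F n
      - ∑ t ∈ Icc 1 (V * U), ∑ k ∈ Icc 1 (X / t), (v1 V U t : ℂ) * F (t * k)
      + ∑ d ∈ Icc 1 U, ∑ k ∈ Icc 1 (X / d),
          (((ArithmeticFunction.moebius d : ℤ) : ℂ)) * ((Real.log k : ℝ) : ℂ) * F (d * k)
      + ∑ m ∈ Ioc V X, ∑ k ∈ Ioc U (X / m),
          (ArithmeticFunction.vonMangoldt m : ℂ) * (Pool.BV.c2 U k : ℂ) * F (m * k) := by
  set A := restr ArithmeticFunction.vonMangoldt (fun n => n ≤ V) with hA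
  set B := restr ArithmeticFunction.vonMangoldt (fun n => V < n) with hB
  set M := restr (ArithmeticFunction.moebius : ArithmeticFunction ℝ) (fun n => n ≤ U) with hM
  set E := (1 : ArithmeticFunction ℝ) - (ArithmeticFunction.zeta : ArithmeticFunction ℝ) * M with hE
  have hAB : ArithmeticFunction.vonMangoldt = A + B := by
    ext n
    rw [ArithmeticFunction.add_apply, hA, hB, restr_apply, restr_apply]
    by_cases h : n ≤ V
    · rw [if_pos h, if_neg (not_lt.2 h), add_zero]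
    · rw [if_neg h, if_pos (not_le.1 h), zero_add]
  have hlog : ArithmeticFunction.log =
      (ArithmeticFunction.zeta : ArithmeticFunction ℝ) * (A + B) := by
    rw [← hAB, ArithmeticFunction.zeta_mul_vonMangoldt]
  have hid : ArithmeticFunction.vonMangoldt =
      A - (A * M) * (ArithmeticFunction.zeta : ArithmeticFunction ℝ) +
        M * ArithmeticFunction.log + B * E := by
    rw [hlog, hE, hAB]
    ring
  have hidn : ∀ n : ℕ, (ArithmeticFunction.vonMangoldt n : ℝ) =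
      A n - ((A * M) * (ArithmeticFunction.zeta : ArithmeticFunction ℝ)) n +
        (M * ArithmeticFunction.log) n + (B * E) n := by
    intro n
    conv_lhs => rw [hid]
    rw [ArithmeticFunction.add_apply, ArithmeticFunction.add_apply, sub_eq_add_neg,
      ArithmeticFunction.add_apply, ArithmeticFunction.neg_apply, ← sub_eq_add_neg]
  -- the four sums
  have e1 : ∑ n ∈ Icc 1 X, ((A n : ℝ) : ℂ) * F n =
      ∑ n ∈ Icc 1 (min V X), (ArithmeticFunction.vonMangoldt n : ℂ) * F n := by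
    rw [← Finset.sum_subset (Finset.Icc_subset_Icc_right (min_le_right V X))
      (f := fun n => ((A n : ℝ) : ℂ) * F n)]
    · refine sum_congr rfl fun n hn => ?_
      rw [mem_Icc] at hn
      rw [hA, restr_apply, if_pos (hn.2.trans (min_le_left _ _))]
    · intro n hn hn2
      rw [mem_Icc] at hn hn2
      have h3 : ¬ n ≤ V := fun h => hn2 ⟨hn.1, le_min h hn.2⟩
      rw [hA, restr_apply, if_neg h3]
      simp
  have e2 : ∑ n ∈ Icc 1 X,
      ((((A * M) * (ArithmeticFunction.zeta : ArithmeticFunction ℝ)) n : ℝ) : ℂ) * F n =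
      ∑ t ∈ Icc 1 (V * U), ∑ k ∈ Icc 1 (X / t), (v1 V U t : ℂ) * F (t * k) := by
    rw [conv_sum]
    have h1 : ∀ a ∈ Icc 1 X, ∑ b ∈ Icc 1 (X / a), (((A * M) a : ℝ) : ℂ) *
        (((ArithmeticFunction.zeta : ArithmeticFunction ℝ) b : ℝ) : ℂ) * F (a * b) =
        ∑ k ∈ Icc 1 (X / a), (v1 V U a : ℂ) * F (a * k) := by
      intro a _
      refine sum_congr rfl fun b hb => ?_
      rw [mem_Icc] at hb
      rw [hA, hM, mul_restr, ArithmeticFunction.natCoe_apply, ArithmeticFunction.zeta_apply_ne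
        (by omega)]
      push_cast
      ring
    rw [sum_congr rfl h1]
    have h2 : ∑ a ∈ Icc 1 X, ∑ k ∈ Icc 1 (X / a), (v1 V U a : ℂ) * F (a * k) =
        ∑ a ∈ Icc 1 (max X (V * U)), ∑ k ∈ Icc 1 (X / a), (v1 V U a : ℂ) * F (a * k) := by
      refine Finset.sum_subset (Finset.Icc_subset_Icc_right (le_max_left _ _)) ?_
      intro a ha ha2
      rw [mem_Icc] at ha ha2
      have h3 : X < a := by omega
      rw [Nat.div_eq_of_lt h3]
      simp
    have h3 : ∑ a ∈ Icc 1 (V * U), ∑ k ∈ Icc 1 (X / a), (v1 V U a : ℂ) * F (a * k) =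
        ∑ a ∈ Icc 1 (max X (V * U)), ∑ k ∈ Icc 1 (X / a), (v1 V U a : ℂ) * F (a * k) := by
      refine Finset.sum_subset (Finset.Icc_subset_Icc_right (le_max_right _ _)) ?_
      intro a ha ha2
      rw [mem_Icc] at ha ha2
      have h3 : V * U < a := by omega
      refine sum_eq_zero fun k _ => ?_
      rw [v1_eq_zero h3]
      simp
    rw [h2, ← h3]
  have e3 : ∑ n ∈ Icc 1 X, (((M * ArithmeticFunction.log) n : ℝ) : ℂ) * F n =
      ∑ d ∈ Icc 1 U, ∑ k ∈ Icc 1 (X / d),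
          (((ArithmeticFunction.moebius d : ℤ) : ℂ)) * ((Real.log k : ℝ) : ℂ) * F (d * k) := by
    rw [conv_sum]
    have h2 : ∑ a ∈ Icc 1 X, ∑ b ∈ Icc 1 (X / a), ((M a : ℝ) : ℂ) *
        ((ArithmeticFunction.log b : ℝ) : ℂ) * F (a * b) =
        ∑ a ∈ Icc 1 (max X U), ∑ b ∈ Icc 1 (X / a), ((M a : ℝ) : ℂ) *
        ((ArithmeticFunction.log b : ℝ) : ℂ) * F (a * b) := by
      refine Finset.sum_subset (Finset.Icc_subset_Icc_right (le_max_left _ _)) ?_
      intro a ha ha2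
      rw [mem_Icc] at ha ha2
      have h3 : X < a := by omega
      rw [Nat.div_eq_of_lt h3]
      simp
    have h3 : ∑ a ∈ Icc 1 U, ∑ b ∈ Icc 1 (X / a), ((M a : ℝ) : ℂ) *
        ((ArithmeticFunction.log b : ℝ) : ℂ) * F (a * b) =
        ∑ a ∈ Icc 1 (max X U), ∑ b ∈ Icc 1 (X / a), ((M a : ℝ) : ℂ) *
        ((ArithmeticFunction.log b : ℝ) : ℂ) * F (a * b) := by
      refine Finset.sum_subset (Finset.Icc_subset_Icc_right (le_max_right _ _)) ?_
      intro a ha ha2
      rw [mem_Icc] at ha ha2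
      have h3 : ¬ a ≤ U := by omega
      refine sum_eq_zero fun k _ => ?_
      rw [hM, restr_apply, if_neg h3]
      simp
    rw [h2, ← h3]
    refine sum_congr rfl fun d hd => sum_congr rfl fun k _ => ?_
    rw [mem_Icc] at hd
    rw [hM, restr_apply, if_pos hd.2, ArithmeticFunction.log_apply,
      ArithmeticFunction.intCoe_apply]
    push_cast
    ring
  have e4 : ∑ n ∈ Icc 1 X, (((B * E) n : ℝ) : ℂ) * F n =
      ∑ m ∈ Ioc V X, ∑ k ∈ Ioc U (X / m),
          (ArithmeticFunction.vonMangoldt m : ℂ) * (Pool.BV.c2 U k : ℂ) * F (m * k) := by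
    rw [conv_sum]
    symm
    have h0 : Ioc V X ⊆ Icc 1 X := by
      intro m hm
      rw [mem_Ioc] at hm
      rw [mem_Icc]
      omega
    have h1 : ∀ m ∈ Ioc V X, ∑ k ∈ Ioc U (X / m),
        (ArithmeticFunction.vonMangoldt m : ℂ) * (Pool.BV.c2 U k : ℂ) * F (m * k) =
        ∑ b ∈ Icc 1 (X / m), ((B m : ℝ) : ℂ) * ((E b : ℝ) : ℂ) * F (m * b) := by
      intro m hm
      rw [mem_Ioc] at hm
      have h2 : ∀ k ∈ Ioc U (X / m),
          (ArithmeticFunction.vonMangoldt m : ℂ) * (Pool.BV.c2 U k : ℂ) * F (m * k) =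
          ((B m : ℝ) : ℂ) * ((E k : ℝ) : ℂ) * F (m * k) := by
        intro k hk
        rw [mem_Ioc] at hk
        rw [hB, restr_apply, if_pos hm.1, hE, hM, one_sub_apply hU (by omega), if_pos hk.1]
      rw [sum_congr rfl h2]
      refine Finset.sum_subset ?_ ?_
      · intro k hk
        rw [mem_Ioc] at hk
        rw [mem_Icc]
        omega
      · intro k hk hk2
        rw [mem_Icc] at hk
        rw [mem_Ioc] at hk2
        have h3 : ¬ U < k := fun h => hk2 ⟨h, hk.2⟩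
        rw [hE, hM, one_sub_apply hU (by omega), if_neg h3]
        simp
    rw [sum_congr rfl h1]
    refine Finset.sum_subset h0 ?_
    intro m hm hm2
    rw [mem_Icc] at hm
    rw [mem_Ioc] at hm2
    have h3 : ¬ V < m := fun h => hm2 ⟨h, hm.2⟩
    refine sum_eq_zero fun k _ => ?_
    rw [hB, restr_apply, if_neg h3]
    simp
  rw [← e1, ← e2, ← e3, ← e4, ← Finset.sum_sub_distrib, ← Finset.sum_add_distrib,
    ← Finset.sum_add_distrib]
  refine sum_congr rfl fun n _ => ?_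
  rw [hidn n]
  push_cast
  ring

end Pool.MP_dd84fd_nt.PL
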